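import Mathlib

/-!
# Unitary modular forms and reflection overgroups: definitions (project MP_06550c_nt)
-/

set_option autoImplicit false

namespace Pool.Agent.RFO

/-! ### Hermitian lattices and modular forms -/

/-- `V = ℂ^(n+1)` -/
abbrev Vn (n : ℕ) : Type := Fin (n + 1) → ℂ

/-- a Hermitian form of signature `(n,1)` on `V`, linear in the first variable -/
structure HForm (n : ℕ) where
  h : Vn n → Vn n → ℂ
  add : ∀ x y z, h (x + y) z = h x z + h y z
  smul : ∀ (a : ℂ) x y, h (a • x) y = a * h x y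
  herm : ∀ x y, h y x = (starRingEnd ℂ) (h x y)
  sig : ∃ e : Module.Basis (Fin (n + 1)) ℂ (Vn n), ∀ i j,
    h (e i) (e j) = if i = j then (if i = Fin.last n then -1 else 1) else 0

variable {n : ℕ}

/-- the cone of the negative vectors -/
def cone (H : HForm n) : Set (Vn n) := {z | (H.h z z).re < 0}

/-- the unitary group of the form -/
def Uh (H : HForm n) : Subgroup (Vn n ≃ₗ[ℂ] Vn n) where
  carrier := {g | ∀ x y, H.h (g x) (g y) = H.h x y}
  one_mem' := fun _ _ => rfl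
  mul_mem' := by
    intro a b ha hb x y
    rw [LinearEquiv.mul_apply, LinearEquiv.mul_apply, ha, hb]
  inv_mem' := by
    intro a ha x y
    rw [← ha, ← LinearEquiv.mul_apply, ← LinearEquiv.mul_apply, mul_inv_cancel]
    rfl

/-- the field `ℚ(√d)` for `d < 0` -/
noncomputable def Fd (d : ℤ) : Subfield ℂ :=
  Subfield.closure {Complex.I * (Real.sqrt (-(d : ℝ)) : ℂ)}

/-- `L` is a Hermitian lattice over the ring of integers of `ℚ(√d)` in `V = L ⊗ ℂ` -/
structure IsLat (d : ℤ) (H : HForm n) (L : AddSubgroup (Vn n)) : Prop where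
  fg : L.FG
  sm : ∀ a ∈ Fd d, IsIntegral ℤ a → ∀ x ∈ L, a • x ∈ L
  ba : ∃ b : Module.Basis (Fin (n + 1)) ℂ (Vn n), (∀ i, b i ∈ L) ∧
    ∀ x ∈ L, ∀ i, b.repr x i ∈ Fd d
  vl : ∀ x ∈ L, ∀ y ∈ L, H.h x y ∈ Fd d

/-- the group `U(L)` -/
def UL (H : HForm n) (L : AddSubgroup (Vn n)) : Subgroup (Vn n ≃ₗ[ℂ] Vn n) where
  carrier := {g | g ∈ Uh H ∧ ∀ x, g x ∈ L ↔ x ∈ L}
  one_mem' := ⟨(Uh H).one_mem, fun _ => Iff.rfl⟩
  mul_mem' := by
    intro a b ha hb
    refine ⟨(Uh H).mul_mem ha.1 hb.1, fun x => ?_⟩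
    rw [LinearEquiv.mul_apply, ha.2, hb.2]
  inv_mem' := by
    intro a ha
    refine ⟨(Uh H).inv_mem ha.1, fun x => ?_⟩
    rw [← ha.2, ← LinearEquiv.mul_apply, mul_inv_cancel]
    rfl

open Classical in
/-- holomorphic functions on the cone -/
def Hol (H : HForm n) (f : cone H → ℂ) : Prop :=
  DifferentiableOn ℂ (fun z => if hz : z ∈ cone H then f ⟨z, hz⟩ else 0) (cone H)

/-- modular forms of weight `k` for the group `Γ` -/
structure IsMF (H : HForm n) (Γ : Subgroup (Vn n ≃ₗ[ℂ] Vn n)) (k : ℕ)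
    (f : cone H → ℂ) : Prop where
  hol : Hol H f
  wt : ∀ t : ℂ, t ≠ 0 → ∀ z w : cone H, (w : Vn n) = t • (z : Vn n) → f z = t ^ k * f w
  inv : ∀ g ∈ Γ, ∀ z w : cone H, (w : Vn n) = g (z : Vn n) → f w = f z

/-- the algebra of the modular forms of all weights -/
def MS (H : HForm n) (Γ : Subgroup (Vn n ≃ₗ[ℂ] Vn n)) : Subalgebra ℂ (cone H → ℂ) :=
  Algebra.adjoin ℂ {f | ∃ k, IsMF H Γ k f}

/-- the algebra of modular forms is a polynomial algebra over `ℂ` in finitely many algebraically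
independent homogeneous generators -/
def Free (H : HForm n) (Γ : Subgroup (Vn n ≃ₗ[ℂ] Vn n)) : Prop :=
  ∃ (m : ℕ) (f : Fin m → (cone H → ℂ)) (k : Fin m → ℕ), (∀ i, IsMF H Γ (k i) (f i)) ∧
    AlgebraicIndependent ℂ f ∧ Algebra.adjoin ℂ (Set.range f) = MS H Γ

/-! ### Graded domains with a group action -/

section Abs

variable {G T : Type} [Group G] [CommRing T] [Algebra ℂ T] [MulSemiringAction G T]
  [SMulCommClass G ℂ T]

variable (G) in
/-- homogeneous elements of degrees `k ∈ ℤ`, stable under `G`, no elements of negative degree; the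
invariant elements of degree `0` are constants -/
structure Hm (hom : ℤ → Submodule ℂ T) : Prop where
  mul : ∀ i j x y, x ∈ hom i → y ∈ hom j → x * y ∈ hom (i + j)
  act : ∀ (g : G) i x, x ∈ hom i → g • x ∈ hom i
  neg : ∀ i x, i < 0 → x ∈ hom i → x = 0
  zero : ∀ x, x ∈ hom 0 → (∀ g : G, g • x = x) → ∃ c : ℂ, x = algebraMap ℂ T c

variable (G) in
/-- a grading -/
structure Gr (hom : ℤ → Submodule ℂ T) : Prop extends Hm G hom where
  one : (1 : T) ∈ hom 0
  top : ⨆ i, hom i = ⊤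
  ind : iSupIndep hom

/-- the fixed subalgebra of a subgroup -/
def Fx (K : Subgroup G) : Subalgebra ℂ T where
  carrier := {x | ∀ g ∈ K, g • x = x}
  mul_mem' := by
    intro a b ha hb g hg
    rw [smul_mul', ha g hg, hb g hg]
  add_mem' := by
    intro a b ha hb g hg
    rw [smul_add, ha g hg, hb g hg]
  algebraMap_mem' := by
    intro c g _
    rw [Algebra.algebraMap_eq_smul_one, smul_comm, smul_one]

theorem mem_Fx {K : Subgroup G} {x : T} : x ∈ (Fx K : Subalgebra ℂ T) ↔ ∀ g ∈ K, g • x = x :=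
  Iff.rfl

/-- the ring of the invariants of `K` is a polynomial algebra with homogeneous generators of
positive degree -/
def FreeG (hom : ℤ → Submodule ℂ T) (K : Subgroup G) : Prop :=
  ∃ (m : ℕ) (f : Fin m → T) (k : Fin m → ℤ), (∀ i, 0 < k i ∧ f i ∈ hom (k i)) ∧
    AlgebraicIndependent ℂ f ∧ Algebra.adjoin ℂ (Set.range f) = Fx K

/-- `s 0` is not a linear combination of the other `s i` with invariant coefficients -/
def NotIn (G : Type) {T : Type} [Group G] [CommRing T] [MulSemiringAction G T] {r : ℕ}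
    (s : Fin (r + 1) → T) : Prop :=
  ¬ ∃ c : Fin r → T, (∀ i (g : G), g • c i = c i) ∧ s 0 = ∑ i, c i * s i.succ

/-- a linear relation with homogeneous invariant coefficients -/
structure Rel (G : Type) {T : Type} [Group G] [CommRing T] [Algebra ℂ T]
    [MulSemiringAction G T] (hom : ℤ → Submodule ℂ T) {r : ℕ} (s f : Fin (r + 1) → T) : Prop where
  ex : ∃ (a b : Fin (r + 1) → ℤ) (w : ℤ), (∀ i, s i ∈ hom (a i)) ∧ (∀ i, f i ∈ hom (b i)) ∧
    ∀ i, a i + b i = w
  fx : ∀ i (g : G), g • s i = s i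
  sum : ∑ i, s i * f i = 0

/-- invariant elements of positive degree -/
def Pos (G : Type) {T : Type} [Group G] [CommRing T] [Algebra ℂ T]
    [MulSemiringAction G T] (hom : ℤ → Submodule ℂ T) : Set T :=
  {x | (∀ g : G, g • x = x) ∧ ∃ i, 0 < i ∧ x ∈ hom i}

/-- the divided difference of `ρ` exists on `T` -/
def DD (hom : ℤ → Submodule ℂ T) (ρ : G) : Prop :=
  ∃ e : ℤ, 0 < e ∧ ∃ t : T, t ≠ 0 ∧ ∀ j, ∀ x ∈ hom j, ∃ y ∈ hom (j - e), x - ρ • x = t * y

/-- the invariants of `K` satisfy the criterion of flatness over the invariants of `G` -/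
def FR (hom : ℤ → Submodule ℂ T) (K : Subgroup G) : Prop :=
  ∀ (r : ℕ) (s f : Fin (r + 1) → T), Rel G hom s f → (∀ i, ∀ g ∈ K, g • f i = f i) →
    NotIn G s → ∃ (q : ℕ) (u v : Fin q → T), (∀ j, u j ∈ Pos G hom) ∧
      (∀ j, v j ∈ (Fx K : Subalgebra ℂ T)) ∧ f 0 = ∑ j, u j * v j

end Abs

/-! ### Polynomials -/

open MvPolynomial in
/-- weighted homogeneous polynomials of degree `k ∈ ℤ` -/
noncomputable def WH {m : ℕ} (w : Fin m → ℕ) (k : ℤ) : Submodule ℂ (MvPolynomial (Fin m) ℂ) :=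
  if k < 0 then ⊥ else weightedHomogeneousSubmodule ℂ w k.toNat

/-- the criterion of flatness for a subalgebra of the polynomial ring -/
def FP {m : ℕ} (w : Fin m → ℕ) (S : Subalgebra ℂ (MvPolynomial (Fin m) ℂ)) : Prop :=
  ∀ (r : ℕ) (s p : Fin (r + 1) → MvPolynomial (Fin m) ℂ) (a b : Fin (r + 1) → ℤ) (c : ℤ),
    (∀ i, s i ∈ S ∧ s i ∈ WH w (a i)) → (∀ i, p i ∈ WH w (b i)) → (∀ i, a i + b i = c) →
    ∑ i, s i * p i = 0 →
    (¬ ∃ u : Fin r → MvPolynomial (Fin m) ℂ, (∀ i, u i ∈ S) ∧ s 0 = ∑ i, u i * s i.succ) →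
    p 0 ∈ Ideal.span {x | x ∈ S ∧ ∃ k, 0 < k ∧ x ∈ WH w k}

end Pool.Agent.RFO
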