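import Mathlib
import Pool.Agent.RFO.Defs

/-!
# Unitary modular forms and reflection overgroups: statements of the modules (MP_06550c_nt)
-/

set_option autoImplicit false

namespace Pool.Agent.RFO

/-! ### Graded domains -/

/-- CH1: Chevalley's lemma from divided differences -/
def S_CH1 : Prop :=
  ∀ (G T : Type) [Group G] [Finite G] [CommRing T] [IsDomain T] [Algebra ℂ T]
    [MulSemiringAction G T] [SMulCommClass G ℂ T] (hom : ℤ → Submodule ℂ T), Hm G hom →
    ∀ P : Set G, Subgroup.closure P = ⊤ → (∀ ρ ∈ P, DD hom ρ) →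
    ∀ (r : ℕ) (s f : Fin (r + 1) → T), Rel G hom s f → NotIn G s →
      f 0 ∈ Ideal.span (Pos G hom)

/-- FRA: the criterion of flatness from divided differences -/
def S_FRA : Prop :=
  ∀ (G T : Type) [Group G] [Finite G] [CommRing T] [IsDomain T] [Algebra ℂ T]
    [MulSemiringAction G T] [SMulCommClass G ℂ T] (hom : ℤ → Submodule ℂ T), Hm G hom →
    ∀ P : Set G, Subgroup.closure P = ⊤ → (∀ ρ ∈ P, DD hom ρ) →
    ∀ K : Subgroup G, FR hom K

/-- FAC: the factors of a homogeneous element are homogeneous -/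
def S_FAC : Prop :=
  ∀ (G T : Type) [Group G] [CommRing T] [IsDomain T] [Algebra ℂ T]
    [MulSemiringAction G T] [SMulCommClass G ℂ T] (hom : ℤ → Submodule ℂ T), Gr G hom →
    ∀ (x y : T) (k : ℤ), x * y ∈ hom k → x * y ≠ 0 → ∃ i, x ∈ hom i

/-- SQF: squarefree part in a factorial ring -/
def S_SQF : Prop :=
  ∀ (R : Type) [CommRing R] [IsDomain R] [UniqueFactorizationMonoid R] (a : R), a ≠ 0 →
    ∃ c g : R, a = c ^ 2 * g ∧ Squarefree g

/-- FRB: the criterion of flatness from involutions with factorial rings of invariants -/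
def S_FRB : Prop :=
  ∀ (G T : Type) [Group G] [Finite G] [CommRing T] [IsDomain T] [Algebra ℂ T]
    [MulSemiringAction G T] [SMulCommClass G ℂ T] (hom : ℤ → Submodule ℂ T), Gr G hom →
    ∀ P : Set G, Subgroup.closure P = ⊤ →
    (∀ ρ ∈ P, ρ * ρ = 1 ∧
      UniqueFactorizationMonoid ↥(Fx (Subgroup.zpowers ρ) : Subalgebra ℂ T)) →
    ∀ K : Subgroup G, IsIntegrallyClosed ↥(Fx K : Subalgebra ℂ T) → FR hom K

/-- CH2: the second half of Chevalley's argument -/
def S_CH2 : Prop :=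
  ∀ (m : ℕ) (w : Fin m → ℕ), (∀ i, 0 < w i) →
    ∀ (S : Subalgebra ℂ (MvPolynomial (Fin m) ℂ))
      (π : MvPolynomial (Fin m) ℂ →ₗ[ℂ] MvPolynomial (Fin m) ℂ),
    (∀ k, ∀ p ∈ WH w k, π p ∈ WH w k) → (∀ p, π p ∈ S) →
    (∀ s ∈ S, ∀ p, π (s * p) = s * π p) → π 1 = 1 → FP w S →
    ∃ (r : ℕ) (f : Fin r → MvPolynomial (Fin m) ℂ) (k : Fin r → ℤ),
      (∀ i, 0 < k i ∧ f i ∈ WH w (k i)) ∧ AlgebraicIndependent ℂ f ∧
      Algebra.adjoin ℂ (Set.range f) = S

/-- GLUE: if the invariants of `K` form a polynomial ring and satisfy the criterion of flatness,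
then the invariants of `G` form a polynomial ring -/
def S_GLUE : Prop :=
  ∀ (G T : Type) [Group G] [Finite G] [CommRing T] [IsDomain T] [Algebra ℂ T]
    [MulSemiringAction G T] [SMulCommClass G ℂ T] (hom : ℤ → Submodule ℂ T), Gr G hom →
    ∀ K : Subgroup G, FR hom K → FreeG hom K → FreeG hom (⊤ : Subgroup G)

/-! ### The cone and holomorphic functions -/

/-- OPN: the cone is open, connected and not empty -/
def S_OPN : Prop :=
  ∀ (n : ℕ) (H : HForm n), IsOpen (cone H) ∧ IsPreconnected (cone H) ∧ (cone H).Nonempty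

/-- IDT: the identity theorem for holomorphic functions -/
def S_IDT : Prop :=
  ∀ (n : ℕ) (U : Set (Vn n)), IsOpen U → IsPreconnected U → ∀ f : Vn n → ℂ,
    DifferentiableOn ℂ f U → ∀ z ∈ U, f =ᶠ[nhds z] 0 → ∀ x ∈ U, f x = 0

/-- DOM: no zero divisors -/
def S_DOM : Prop :=
  ∀ (n : ℕ) (H : HForm n) (f g : cone H → ℂ), Hol H f → Hol H g → f * g = 0 → f = 0 ∨ g = 0

end Pool.Agent.RFO
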