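import Mathlib
import Pool.Agent.RFO.St

/-!
# The cone of a Hermitian form is open, connected and not empty (module OPN)
-/

set_option autoImplicit false

namespace Pool.Agent.RFO

namespace OPN

variable {n : ℕ}

theorem h_zero_left (H : HForm n) (y : Vn n) : H.h 0 y = 0 := by
  have := H.smul 0 0 y
  simpa using this

theorem h_sum_left (H : HForm n) {ι : Type} (s : Finset ι) (c : ι → ℂ) (v : ι → Vn n)
    (y : Vn n) : H.h (∑ i ∈ s, c i • v i) y = ∑ i ∈ s, c i * H.h (v i) y := by
  classical
  induction s using Finset.induction_on with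
  | empty => simp [h_zero_left]
  | insert a s ha ih => rw [Finset.sum_insert ha, Finset.sum_insert ha, H.add, H.smul, ih]

theorem h_sum_right (H : HForm n) {ι : Type} (s : Finset ι) (c : ι → ℂ) (v : ι → Vn n)
    (y : Vn n) :
    H.h y (∑ i ∈ s, c i • v i) = ∑ i ∈ s, (starRingEnd ℂ) (c i) * H.h y (v i) := by
  rw [H.herm, h_sum_left, map_sum]
  refine Finset.sum_congr rfl fun i _ => ?_
  rw [map_mul, ← H.herm]

theorem h_self (H : HForm n) (e : Module.Basis (Fin (n + 1)) ℂ (Vn n))
    (he : ∀ i j, H.h (e i) (e j) = if i = j then (if i = Fin.last n then -1 else 1) else 0)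
    (z : Vn n) :
    (H.h z z).re = (∑ i : Fin n, Complex.normSq (e.repr z i.castSucc))
      - Complex.normSq (e.repr z (Fin.last n)) := by
  have h1 : H.h z z = ∑ i, e.repr z i * ((starRingEnd ℂ) (e.repr z i) *
      (if i = Fin.last n then -1 else 1)) := by
    conv_lhs => rw [← e.sum_repr z]
    rw [h_sum_left]
    refine Finset.sum_congr rfl fun i _ => ?_
    congr 1
    rw [h_sum_right, Finset.sum_eq_single i]
    · rw [he, if_pos rfl]
    · intro j _ hj
      rw [he, if_neg (fun h => hj h.symm), mul_zero]
    · intro h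
      exact absurd (Finset.mem_univ i) h
  rw [h1, Fin.sum_univ_castSucc]
  have h2 : ∀ i : Fin n, (i.castSucc = Fin.last n) = False := by
    intro i
    simp only [eq_iff_iff, iff_false]
    exact (Fin.castSucc_lt_last i).ne
  simp only [h2, if_false, mul_one, if_true, Complex.mul_conj, mul_neg, Complex.add_re,
    Complex.neg_re, Complex.ofReal_re, Complex.re_sum]
  ring

end OPN

theorem OPN_thm : S_OPN := by
  intro n H
  obtain ⟨e, he⟩ := H.sig
  have hq := OPN.h_self H e he
  have hc : ∀ i, Continuous fun z : Vn n => e.repr z i := by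
    intro i
    exact (e.coord i).continuous_of_finiteDimensional
  have hmem : ∀ z : Vn n, z ∈ cone H ↔
      (∑ i : Fin n, Complex.normSq (e.repr z i.castSucc))
        < Complex.normSq (e.repr z (Fin.last n)) := by
    intro z
    show (H.h z z).re < 0 ↔ _
    rw [hq, sub_neg]
  have hset : cone H = {z | (∑ i : Fin n, Complex.normSq (e.repr z i.castSucc))
        < Complex.normSq (e.repr z (Fin.last n))} := by
    ext z
    exact hmem z
  have hopen : IsOpen (cone H) := by
    rw [hset]
    refine isOpen_lt ?_ ?_
    · exact continuous_finsetSum _ fun i _ => Complex.continuous_normSq.comp (hc _)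
    · exact Complex.continuous_normSq.comp (hc _)
  have hsm : ∀ c : ℂ, c ≠ 0 → c • e (Fin.last n) ∈ cone H := by
    intro c h0
    rw [hmem]
    have h1 : ∀ i : Fin n, e.repr (c • e (Fin.last n)) i.castSucc = 0 := by
      intro i
      rw [map_smul, e.repr_self, Finsupp.smul_apply, Finsupp.single_apply,
        if_neg (Fin.castSucc_lt_last i).ne', smul_zero]
    have h2 : e.repr (c • e (Fin.last n)) (Fin.last n) = c := by
      rw [map_smul, e.repr_self, Finsupp.smul_apply, Finsupp.single_eq_same, smul_eq_mul, mul_one]
    simp only [h1, h2, map_zero, Finset.sum_const_zero]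
    exact Complex.normSq_pos.mpr h0
  have hpath : IsPathConnected (cone H) := by
    refine ⟨(1 : ℂ) • e (Fin.last n), hsm 1 one_ne_zero, ?_⟩
    intro y hy
    have hy0 : e.repr y (Fin.last n) ≠ 0 := by
      intro h0
      rw [hmem, h0, map_zero] at hy
      have : 0 ≤ ∑ i : Fin n, Complex.normSq (e.repr y i.castSucc) :=
        Finset.sum_nonneg fun i _ => Complex.normSq_nonneg _
      linarith
    have hpc : IsPathConnected ({0}ᶜ : Set ℂ) :=
      isPathConnected_compl_singleton_of_one_lt_rank (by simp [Complex.rank_real_complex]) 0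
    have h1 : JoinedIn ({0}ᶜ : Set ℂ) 1 (e.repr y (Fin.last n)) :=
      hpc.joinedIn 1 (by simp) _ (by simpa using hy0)
    have h2 : JoinedIn (cone H) ((1 : ℂ) • e (Fin.last n))
        (e.repr y (Fin.last n) • e (Fin.last n)) := by
      have hcont : ContinuousOn (fun c : ℂ => c • e (Fin.last n)) ({0}ᶜ : Set ℂ) :=
        (continuous_id.smul continuous_const).continuousOn
      have h3 := h1.map_continuousOn hcont
      refine h3.mono ?_
      rintro _ ⟨c, hc0, rfl⟩
      exact hsm c (by simpa using hc0)
    refine h2.trans (JoinedIn.of_segment_subset ?_)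
    rintro z ⟨a, b, ha, hb, hab, rfl⟩
    rw [hmem]
    have h4 : ∀ i : Fin n,
        e.repr (a • (e.repr y (Fin.last n) • e (Fin.last n)) + b • y) i.castSucc
          = (b : ℂ) * e.repr y i.castSucc := by
      intro i
      rw [← Complex.coe_smul, ← Complex.coe_smul b y, map_add, map_smul, map_smul, map_smul,
        e.repr_self]
      simp only [Finsupp.add_apply, Finsupp.smul_apply, smul_eq_mul]
      rw [Finsupp.single_apply, if_neg (Fin.castSucc_lt_last i).ne']
      ring
    have h5 : e.repr (a • (e.repr y (Fin.last n) • e (Fin.last n)) + b • y) (Fin.last n)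
          = e.repr y (Fin.last n) := by
      rw [← Complex.coe_smul, ← Complex.coe_smul b y, map_add, map_smul, map_smul, map_smul,
        e.repr_self]
      simp only [Finsupp.add_apply, Finsupp.smul_apply, smul_eq_mul, Finsupp.single_eq_same]
      have : (a : ℂ) + b = 1 := by exact_mod_cast hab
      linear_combination (e.repr y (Fin.last n)) * this
    simp only [h4, h5, map_mul, Complex.normSq_ofReal]
    rw [← Finset.mul_sum]
    rw [hmem] at hy
    have hS : 0 ≤ ∑ i : Fin n, Complex.normSq (e.repr y i.castSucc) :=
      Finset.sum_nonneg fun i _ => Complex.normSq_nonneg _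
    have hb1 : b ≤ 1 := by linarith
    have hbb : b * b ≤ 1 := by nlinarith
    nlinarith
  exact ⟨hopen, hpath.isConnected.isPreconnected, hpath.nonempty⟩

end Pool.Agent.RFO
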