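import Mathlib
import Pool.Agent.RFO.St

/-!
# The criterion of flatness from involutions with factorial rings of invariants

`TT` is the integral closure of the invariants in the fraction field, `IsH hom k x` says that `x`
is a quotient of homogeneous elements and has degree `k`.
-/

set_option autoImplicit false

namespace Pool.Agent.RFO

namespace FRB

open Polynomial

/-! ### The integral closure -/

section closure

variable (G T KK : Type) [Group G] [CommRing T] [Algebra ℂ T]
  [MulSemiringAction G T] [SMulCommClass G ℂ T] [Field KK] [Algebra T KK]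
  [Algebra ℂ KK] [IsScalarTower ℂ T KK]

/-- the invariants -/
abbrev SS : Type := ↥(Fx (⊤ : Subgroup G) : Subalgebra ℂ T)

/-- the integral closure of the invariants -/
noncomputable def TT : Subalgebra ℂ KK := (integralClosure (SS G T) KK).restrictScalars ℂ

variable {G T KK}

theorem mem_TT {x : KK} : x ∈ TT G T KK ↔ IsIntegral (SS G T) x := Iff.rfl

variable [MulSemiringAction G KK] [SMulDistribClass G T KK]

theorem act_map (g : G) (t : T) : g • algebraMap T KK t = algebraMap T KK (g • t) := by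
  rw [Algebra.algebraMap_eq_smul_one, Algebra.algebraMap_eq_smul_one,
    SMulDistribClass.smul_distrib_smul, smul_one]

variable (T) in
include T in
theorem act_const (g : G) (c : ℂ) : g • algebraMap ℂ KK c = algebraMap ℂ KK c := by
  rw [IsScalarTower.algebraMap_apply ℂ T KK, act_map]
  congr 1
  rw [Algebra.algebraMap_eq_smul_one, smul_comm, smul_one]

variable (T) in
/-- the action as a homomorphism over the invariants -/
noncomputable def actHom (g : G) : KK →ₐ[SS G T] KK :=
  { MulSemiringAction.toRingHom G KK g with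
    commutes' := by
      intro s
      show g • algebraMap T KK (s : T) = algebraMap T KK (s : T)
      rw [act_map, s.2 g (Subgroup.mem_top g)] }

theorem stab (g : G) {x : KK} (hx : x ∈ TT G T KK) : g • x ∈ TT G T KK := by
  have h : IsIntegral (SS G T) x := hx
  exact h.map (actHom T g)

noncomputable instance : SMul G ↥(TT G T KK) := ⟨fun g x => ⟨g • (x : KK), stab g x.2⟩⟩

theorem coe_act (g : G) (x : ↥(TT G T KK)) :
    ((g • x : ↥(TT G T KK)) : KK) = g • (x : KK) := rfl

noncomputable instance : MulSemiringAction G ↥(TT G T KK) where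
  one_smul x := Subtype.ext (one_smul G (x : KK))
  mul_smul g h x := Subtype.ext (mul_smul g h (x : KK))
  smul_zero g := Subtype.ext (smul_zero g)
  smul_add g x y := Subtype.ext (smul_add g (x : KK) (y : KK))
  smul_one g := Subtype.ext (smul_one g)
  smul_mul g x y := Subtype.ext (smul_mul' g (x : KK) (y : KK))

instance : SMulCommClass G ℂ ↥(TT G T KK) where
  smul_comm g c x := by
    apply Subtype.ext
    show g • (c • (x : KK)) = c • (g • (x : KK))
    rw [Algebra.smul_def, Algebra.smul_def, smul_mul', act_const T]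

omit [MulSemiringAction G KK] [SMulDistribClass G T KK] in
theorem map_mem [Finite G] (t : T) : algebraMap T KK t ∈ TT G T KK := by
  haveI : Algebra.IsInvariant (SS G T) T G := ⟨fun b hb => ⟨⟨b, fun g _ => hb g⟩, rfl⟩⟩
  haveI : Algebra.IsIntegral (SS G T) T := Algebra.IsInvariant.isIntegral (SS G T) T G
  have h : IsIntegral (SS G T) t := Algebra.IsIntegral.isIntegral t
  exact h.algebraMap

/-! ### Invariant elements -/

variable [IsDomain T] [IsFractionRing T KK]

omit [Algebra ℂ T] [Algebra ℂ KK] [IsScalarTower ℂ T KK] [MulSemiringAction G T]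
  [MulSemiringAction G KK] [SMulDistribClass G T KK] [SMulCommClass G ℂ T] [IsDomain T] in
theorem inj : Function.Injective (algebraMap T KK) := IsFractionRing.injective T KK

theorem inv_mem [Finite G] (L : Subgroup G) [IsIntegrallyClosed ↥(Fx L : Subalgebra ℂ T)]
    {x : KK} (hx : x ∈ TT G T KK) (h : ∀ g ∈ L, g • x = x) :
    ∃ t ∈ (Fx L : Subalgebra ℂ T), algebraMap T KK t = x := by
  classical
  haveI : Fintype L := Fintype.ofFinite L
  obtain ⟨a, b, hb, hab⟩ := IsFractionRing.div_surjective (A := T) x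
  have hb0 : b ≠ 0 := nonZeroDivisors.ne_zero hb
  set b' : T := ∏ g : L, g • b with hb'
  have hb'0 : b' ≠ 0 := by
    rw [hb', Finset.prod_ne_zero_iff]
    intro g _
    exact (smul_ne_zero_iff_ne (g : G)).2 hb0
  have hb'L : b' ∈ (Fx L : Subalgebra ℂ T) := by
    intro g hg
    exact Finset.smul_prod_perm b (⟨g, hg⟩ : L)
  set r : T := ∏ g ∈ Finset.univ.erase (1 : L), g • b with hr
  have hbr : b' = b * r := by
    rw [hb', hr, ← Finset.mul_prod_erase Finset.univ _ (Finset.mem_univ (1 : L)), one_smul]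
  have hιb : algebraMap T KK b ≠ 0 := fun h0 => hb0 (inj (by rw [h0, map_zero]))
  have hιb' : algebraMap T KK b' ≠ 0 := fun h0 => hb'0 (inj (by rw [h0, map_zero]))
  have hxb : x * algebraMap T KK b' = algebraMap T KK (a * r) := by
    rw [← hab, hbr, map_mul, map_mul]
    field_simp
  have haL : a * r ∈ (Fx L : Subalgebra ℂ T) := by
    intro g hg
    apply inj (KK := KK)
    rw [← act_map, ← hxb, smul_mul', h g hg, act_map, hb'L g hg]
  set R := ↥(Fx L : Subalgebra ℂ T) with hR
  let a1 : R := ⟨a * r, haL⟩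
  let b1 : R := ⟨b', hb'L⟩
  have hi : Function.Injective (Algebra.ofId R KK) := by
    intro u v huv
    apply Subtype.ext
    exact inj (KK := KK) huv
  let f : FractionRing R →ₐ[R] KK := IsFractionRing.liftAlgHom hi
  let x0 : FractionRing R := algebraMap R (FractionRing R) a1 / algebraMap R (FractionRing R) b1
  have hfa : ∀ u : R, f (algebraMap R (FractionRing R) u) = algebraMap T KK (u : T) := by
    intro u
    rw [f.commutes]
    rfl
  have hfx : f x0 = x := by
    show f (algebraMap R (FractionRing R) a1 / algebraMap R (FractionRing R) b1) = x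
    rw [map_div₀, hfa, hfa, div_eq_iff hιb']
    exact hxb.symm
  have hint : IsIntegral R x := by
    have h1 : IsIntegral (SS G T) x := hx
    have hle : (Fx (⊤ : Subgroup G) : Subalgebra ℂ T) ≤ Fx L := fun y hy g _ =>
      hy g (Subgroup.mem_top g)
    exact h1.map_of_comp_eq (Subalgebra.inclusion hle).toRingHom (RingHom.id KK) rfl
  have hint0 : IsIntegral R x0 := by
    rw [← isIntegral_algHom_iff f f.toRingHom.injective, hfx]
    exact hint
  obtain ⟨y, hy⟩ := IsIntegrallyClosed.isIntegral_iff.1 hint0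
  refine ⟨(y : T), y.2, ?_⟩
  rw [← hfa, hy, hfx]

end closure

/-! ### Homogeneous elements of the fraction field -/

section homog

variable {G T KK : Type} [Group G] [CommRing T] [IsDomain T] [Algebra ℂ T]
  [MulSemiringAction G T] [SMulCommClass G ℂ T] [Field KK] [Algebra T KK]
  [IsFractionRing T KK] [Algebra ℂ KK] [IsScalarTower ℂ T KK]

/-- homogeneous elements of degree `k` -/
def IsH (hom : ℤ → Submodule ℂ T) (k : ℤ) (x : KK) : Prop :=
  ∃ (i j : ℤ) (a b : T), a ∈ hom i ∧ b ∈ hom j ∧ b ≠ 0 ∧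
    x * algebraMap T KK b = algebraMap T KK a ∧ k = i - j

variable {hom : ℤ → Submodule ℂ T}

theorem isH_of (gr : Gr G hom) {k : ℤ} {a : T} (ha : a ∈ hom k) :
    IsH hom k (algebraMap T KK a) :=
  ⟨k, 0, a, 1, ha, gr.one, one_ne_zero, by rw [map_one, mul_one], by ring⟩

theorem isH_zero (gr : Gr G hom) (k : ℤ) : IsH hom k (0 : KK) := by
  have h := isH_of (KK := KK) gr (hom k).zero_mem
  rwa [map_zero] at h

theorem isH_one (gr : Gr G hom) : IsH hom 0 (1 : KK) := by
  have h := isH_of (KK := KK) gr gr.one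
  rwa [map_one] at h

theorem isH_add (gr : Gr G hom) {k : ℤ} {x y : KK} (hx : IsH hom k x) (hy : IsH hom k y) :
    IsH hom k (x + y) := by
  obtain ⟨i, j, a, b, ha, hb, hb0, e, hk⟩ := hx
  obtain ⟨i', j', a', b', ha', hb', hb0', e', hk'⟩ := hy
  refine ⟨i + j', j + j', a * b' + a' * b, b * b', ?_, gr.mul _ _ _ _ hb hb',
    mul_ne_zero hb0 hb0', ?_, by omega⟩
  · apply (hom (i + j')).add_mem (gr.mul _ _ _ _ ha hb')
    have h1 := gr.mul _ _ _ _ ha' hb
    have e2 : i' + j = i + j' := by omega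
    rwa [e2] at h1
  · rw [map_add, map_mul, map_mul, map_mul, ← e, ← e']; ring

theorem isH_mul (gr : Gr G hom) {k l : ℤ} {x y : KK} (hx : IsH hom k x) (hy : IsH hom l y) :
    IsH hom (k + l) (x * y) := by
  obtain ⟨i, j, a, b, ha, hb, hb0, e, hk⟩ := hx
  obtain ⟨i', j', a', b', ha', hb', hb0', e', hk'⟩ := hy
  refine ⟨i + i', j + j', a * a', b * b', gr.mul _ _ _ _ ha ha', gr.mul _ _ _ _ hb hb',
    mul_ne_zero hb0 hb0', ?_, by omega⟩
  rw [map_mul, map_mul, ← e, ← e']; ring

omit [IsFractionRing T KK] [IsDomain T] [MulSemiringAction G T] [SMulCommClass G ℂ T] [Group G] in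
theorem isH_smul (c : ℂ) {k : ℤ} {x : KK} (hx : IsH hom k x) :
    IsH hom k (c • x) := by
  obtain ⟨i, j, a, b, ha, hb, hb0, e, hk⟩ := hx
  refine ⟨i, j, c • a, b, (hom i).smul_mem c ha, hb, hb0, ?_, hk⟩
  rw [Algebra.smul_def, Algebra.smul_def, map_mul, ← IsScalarTower.algebraMap_apply ℂ T KK,
    mul_assoc, e]

theorem isH_neg {k : ℤ} {x : KK} (hx : IsH hom k x) : IsH hom k (-x) := by
  have h := isH_smul (-1 : ℂ) hx
  rwa [neg_smul, one_smul] at h

theorem isH_sub (gr : Gr G hom) {k : ℤ} {x y : KK} (hx : IsH hom k x) (hy : IsH hom k y) :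
    IsH hom k (x - y) := by
  rw [sub_eq_add_neg]
  exact isH_add gr hx (isH_neg hy)

theorem deg_unique (gr : Gr G hom) {i j : ℤ} {x : T} (h1 : x ∈ hom i) (h2 : x ∈ hom j)
    (hx : x ≠ 0) : i = j := by
  by_contra h
  have h3 : Disjoint (hom i) (hom j) := gr.ind.pairwiseDisjoint h
  exact hx (Submodule.disjoint_def.1 h3 x h1 h2)

theorem isH_comp (gr : Gr G hom)
    (fac : ∀ (x y : T) (k : ℤ), x * y ∈ hom k → x * y ≠ 0 → ∃ i, x ∈ hom i) {k : ℤ} {y : T}
    (h : IsH hom k (algebraMap T KK y)) : y ∈ hom k := by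
  obtain ⟨i, j, a, b, ha, hb, hb0, e, hk⟩ := h
  rw [← map_mul] at e
  have e' : y * b = a := inj (KK := KK) e
  by_cases hy : y = 0
  · rw [hy]; exact (hom k).zero_mem
  have hne : y * b ≠ 0 := mul_ne_zero hy hb0
  obtain ⟨l, hl⟩ := fac y b i (by rw [e']; exact ha) hne
  have h1 : y * b ∈ hom (l + j) := gr.mul _ _ _ _ hl hb
  have h2 : y * b ∈ hom i := by rw [e']; exact ha
  have h3 := deg_unique gr h1 h2 hne
  have h4 : l = k := by omega
  rwa [← h4]

variable [MulSemiringAction G KK] [SMulDistribClass G T KK]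

theorem isH_act (gr : Gr G hom) (g : G) {k : ℤ} {x : KK} (hx : IsH hom k x) :
    IsH hom k (g • x) := by
  obtain ⟨i, j, a, b, ha, hb, hb0, e, hk⟩ := hx
  refine ⟨i, j, g • a, g • b, gr.act _ _ _ ha, gr.act _ _ _ hb,
    (smul_ne_zero_iff_ne g).2 hb0, ?_, hk⟩
  rw [← act_map, ← act_map, ← smul_mul', e]

theorem isH_prod (gr : Gr G hom) {k : ℤ} {x : KK} (hx : IsH hom k x) (s : Finset G) :
    IsH hom (s.card * k) (∏ g ∈ s, g • x) := by
  classical
  induction s using Finset.induction_on with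
  | empty =>
    rw [Finset.card_empty, Finset.prod_empty, Nat.cast_zero, zero_mul]
    exact isH_one gr
  | insert g s hg ih =>
    rw [Finset.prod_insert hg, Finset.card_insert_of_notMem hg]
    have h := isH_mul gr (isH_act gr g hx) ih
    have e : k + (s.card : ℤ) * k = ((s.card + 1 : ℕ) : ℤ) * k := by push_cast; ring
    rwa [e] at h

theorem neg_zero_of [Finite G] (gr : Gr G hom)
    (fac : ∀ (x y : T) (k : ℤ), x * y ∈ hom k → x * y ≠ 0 → ∃ i, x ∈ hom i)
    (K : Subgroup G) [IsIntegrallyClosed ↥(Fx K : Subalgebra ℂ T)] {k : ℤ} (hk : k < 0)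
    {x : KK} (hx : x ∈ TT G T KK) (h : IsH hom k x) : x = 0 := by
  classical
  haveI : Fintype G := Fintype.ofFinite G
  have h1 := isH_prod gr h (Finset.univ : Finset G)
  have h2 : (∏ g : G, g • x) ∈ TT G T KK := (TT G T KK).prod_mem fun g _ => stab g hx
  obtain ⟨y, -, hy⟩ := inv_mem K h2 (fun g _ => Finset.smul_prod_perm x g)
  rw [← hy] at h1
  have h3 := isH_comp gr fac h1
  have h4 : ((Finset.univ : Finset G).card : ℤ) * k < 0 := by
    apply mul_neg_of_pos_of_neg _ hk
    have : 0 < (Finset.univ : Finset G).card := Finset.card_pos.2 ⟨1, Finset.mem_univ 1⟩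
    exact_mod_cast this
  have h5 := gr.neg _ _ h4 h3
  rw [h5, map_zero] at hy
  obtain ⟨g, -, hg⟩ := Finset.prod_eq_zero_iff.1 hy.symm
  exact (smul_eq_zero_iff_eq g).1 hg

/-- invariant elements are invariant elements of `T` -/
theorem inv_top [Finite G] (K : Subgroup G) [IsIntegrallyClosed ↥(Fx K : Subalgebra ℂ T)]
    {x : KK} (hx : x ∈ TT G T KK) (h : ∀ g : G, g • x = x) :
    ∃ t : T, (∀ g : G, g • t = t) ∧ algebraMap T KK t = x := by
  obtain ⟨t, -, ht⟩ := inv_mem K hx (fun g _ => h g)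
  refine ⟨t, fun g => ?_, ht⟩
  apply inj (KK := KK)
  rw [← act_map, ht, h g]

theorem inv_const [Finite G] (gr : Gr G hom)
    (fac : ∀ (x y : T) (k : ℤ), x * y ∈ hom k → x * y ≠ 0 → ∃ i, x ∈ hom i)
    (K : Subgroup G) [IsIntegrallyClosed ↥(Fx K : Subalgebra ℂ T)]
    {x : KK} (hx : x ∈ TT G T KK) (h : IsH hom 0 x) (hi : ∀ g : G, g • x = x) :
    ∃ c : ℂ, x = algebraMap ℂ KK c := by
  obtain ⟨t, ht, e⟩ := inv_top K hx hi
  rw [← e] at h
  have h1 := isH_comp gr fac h
  obtain ⟨c, hc⟩ := gr.zero t h1 ht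
  exact ⟨c, by rw [← e, hc, ← IsScalarTower.algebraMap_apply ℂ T KK]⟩

/-- the elements of degree `0` of the integral closure -/
def A0 (gr : Gr G hom) : Subring KK where
  carrier := {x | x ∈ TT G T KK ∧ IsH hom 0 x}
  mul_mem' := by
    intro a b ha hb
    refine ⟨(TT G T KK).mul_mem ha.1 hb.1, ?_⟩
    have h := isH_mul gr ha.2 hb.2
    rwa [add_zero] at h
  one_mem' := ⟨(TT G T KK).one_mem, isH_one gr⟩
  add_mem' := fun ha hb => ⟨(TT G T KK).add_mem ha.1 hb.1, isH_add gr ha.2 hb.2⟩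
  zero_mem' := ⟨(TT G T KK).zero_mem, isH_zero gr 0⟩
  neg_mem' := fun ha => ⟨(TT G T KK).neg_mem ha.1, isH_neg ha.2⟩

theorem const_of [Finite G] (gr : Gr G hom)
    (fac : ∀ (x y : T) (k : ℤ), x * y ∈ hom k → x * y ≠ 0 → ∃ i, x ∈ hom i)
    (K : Subgroup G) [IsIntegrallyClosed ↥(Fx K : Subalgebra ℂ T)]
    {x : KK} (hx : x ∈ TT G T KK) (h : IsH hom 0 x) :
    ∃ c : ℂ, x = algebraMap ℂ KK c := by
  classical
  haveI : Fintype G := Fintype.ofFinite G
  have h1 : MulSemiringAction.charpoly G x ∈ Polynomial.lifts (A0 (KK := KK) gr).subtype := by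
    rw [MulSemiringAction.charpoly_eq]
    apply Subsemiring.prod_mem
    intro g _
    have e : (X - C (g • x) : KK[X]) = X + C ((A0 (KK := KK) gr).subtype
        (-⟨g • x, ⟨stab g hx, isH_act gr g h⟩⟩)) := by
      rw [map_neg, C_neg, sub_eq_add_neg]
      rfl
    rw [e]
    exact (Polynomial.lifts _).add_mem (Polynomial.X_mem_lifts _) (Polynomial.C_mem_lifts _ _)
  have h2 : ∀ n, ∃ c : ℂ, algebraMap ℂ KK c = (MulSemiringAction.charpoly G x).coeff n := by
    intro n
    obtain ⟨y, hy⟩ := (Polynomial.lifts_iff_coeff_lifts _).1 h1 n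
    have hy' : (y : KK) = (MulSemiringAction.charpoly G x).coeff n := hy
    obtain ⟨c, hc⟩ := inv_const gr fac K y.2.1 y.2.2 (fun g => by
      rw [hy']; exact MulSemiringAction.smul_coeff_charpoly x n g)
    exact ⟨c, by rw [← hc, hy']⟩
  have h3 : MulSemiringAction.charpoly G x ∈ Polynomial.lifts (algebraMap ℂ KK) :=
    (Polynomial.lifts_iff_coeff_lifts _).2 h2
  obtain ⟨p, hp1, -, hp2⟩ := Polynomial.lifts_and_natDegree_eq_and_monic h3
    (MulSemiringAction.monic_charpoly G x)
  have h4 : IsIntegral ℂ x := ⟨p, hp2, by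
    rw [← eval_map, hp1, MulSemiringAction.eval_charpoly]⟩
  have h5 := minpoly.mem_range_of_degree_eq_one ℂ x
    (IsAlgClosed.degree_eq_one_of_irreducible ℂ (minpoly.irreducible h4))
  obtain ⟨c, hc⟩ := h5
  exact ⟨c, hc.symm⟩

/-! ### The divided differences -/

theorem fx_zp {M : Type} [MulAction G M] {ρ : G} {x : M} (h : ρ • x = x) :
    ∀ g ∈ Subgroup.zpowers ρ, g • x = x := by
  intro g hg
  have h1 : Subgroup.zpowers ρ ≤ MulAction.stabilizer G x := by
    rw [Subgroup.zpowers_le]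
    exact h
  exact h1 hg

theorem dd [Finite G] (gr : Gr G hom)
    (fac : ∀ (x y : T) (k : ℤ), x * y ∈ hom k → x * y ≠ 0 → ∃ i, x ∈ hom i)
    (h3 : S_SQF) (K : Subgroup G) [IsIntegrallyClosed ↥(Fx K : Subalgebra ℂ T)] (ρ : G)
    (hρ : ρ * ρ = 1)
    [UniqueFactorizationMonoid ↥(Fx (Subgroup.zpowers ρ) : Subalgebra ℂ T)] :
    ∃ e : ℤ, 0 < e ∧ ∃ t ∈ TT G T KK, t ≠ 0 ∧ ∀ j, ∀ x ∈ TT G T KK, IsH hom j x →
      ∃ y ∈ TT G T KK, IsH hom (j - e) y ∧ x - ρ • x = t * y := by
  classical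
  by_cases htriv : ∀ x : T, ρ • x = x
  · refine ⟨1, one_pos, 1, (TT G T KK).one_mem, one_ne_zero, fun j x hx hj =>
      ⟨0, (TT G T KK).zero_mem, isH_zero gr _, ?_⟩⟩
    obtain ⟨a, b, hb, rfl⟩ := IsFractionRing.div_surjective (A := T) x
    rw [smul_div₀', act_map, act_map, htriv, htriv, sub_self, mul_zero]
  -- a homogeneous element which is not fixed
  obtain ⟨k, x1, hx1, hx1n⟩ : ∃ k, ∃ x ∈ hom k, ρ • x ≠ x := by
    by_contra hcon
    push Not at hcon
    apply htriv
    intro x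
    have hx : x ∈ ⨆ i, hom i := by rw [gr.top]; trivial
    exact Submodule.iSup_induction hom (motive := fun x => ρ • x = x) hx
      (fun i x hx => hcon i x hx) (smul_zero ρ) (fun x y hx hy => by rw [smul_add, hx, hy])
  have hρρ : ∀ x : T, ρ • ρ • x = x := fun x => by rw [← mul_smul, hρ, one_smul]
  have hρρ' : ∀ x : KK, ρ • ρ • x = x := fun x => by rw [← mul_smul, hρ, one_smul]
  obtain ⟨t0, ht0⟩ : ∃ t0, t0 = x1 - ρ • x1 := ⟨_, rfl⟩
  have ht0h : t0 ∈ hom k := by rw [ht0]; exact (hom k).sub_mem hx1 (gr.act _ _ _ hx1)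
  have ht0n : ρ • t0 = -t0 := by rw [ht0, smul_sub, hρρ]; ring
  have ht00 : t0 ≠ 0 := by
    rw [ht0]
    exact fun h => hx1n (sub_eq_zero.1 h).symm
  set R := ↥(Fx (Subgroup.zpowers ρ) : Subalgebra ℂ T) with hR
  have hsqR : t0 * t0 ∈ (Fx (Subgroup.zpowers ρ) : Subalgebra ℂ T) := by
    apply fx_zp
    rw [smul_mul', ht0n]
    ring
  obtain ⟨c, g, hcg, hg⟩ := h3 R ⟨t0 * t0, hsqR⟩ (fun h => (mul_ne_zero ht00 ht00)
    (congrArg Subtype.val h))
  have hcg' : t0 * t0 = (c : T) ^ 2 * (g : T) := congrArg Subtype.val hcg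
  have hc0 : (c : T) ≠ 0 := by
    intro h
    rw [h] at hcg'
    apply mul_ne_zero ht00 ht00
    rw [hcg']; ring
  obtain ⟨i, hi⟩ := fac (c : T) ((c : T) * g) (k + k) (by
    have e : (c : T) * ((c : T) * g) = t0 * t0 := by rw [hcg']; ring
    rw [e]; exact gr.mul _ _ _ _ ht0h ht0h) (by
    have e : (c : T) * ((c : T) * g) = t0 * t0 := by rw [hcg']; ring
    rw [e]; exact mul_ne_zero ht00 ht00)
  have hρc : ρ • (c : T) = c := c.2 ρ (Subgroup.mem_zpowers ρ)
  have hιc : algebraMap T KK (c : T) ≠ 0 := fun h => hc0 (inj (KK := KK) (by rw [h, map_zero]))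
  have hιt : algebraMap T KK t0 ≠ 0 := fun h => ht00 (inj (KK := KK) (by rw [h, map_zero]))
  obtain ⟨t, ht⟩ : ∃ t : KK, t = algebraMap T KK t0 / algebraMap T KK (c : T) := ⟨_, rfl⟩
  have htc : t * algebraMap T KK (c : T) = algebraMap T KK t0 := by
    rw [ht, div_mul_cancel₀ _ hιc]
  have ht_ne : t ≠ 0 := by rw [ht]; exact div_ne_zero hιt hιc
  have ht2 : t * t = algebraMap T KK (g : T) := by
    have e1 : (t * algebraMap T KK (c : T)) * (t * algebraMap T KK (c : T)) =
        algebraMap T KK (c : T) ^ 2 * algebraMap T KK (g : T) := by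
      rw [htc, ← map_mul, hcg', map_mul, map_pow]
    have e2 : algebraMap T KK (c : T) ^ 2 * (t * t) =
        algebraMap T KK (c : T) ^ 2 * algebraMap T KK (g : T) := by
      rw [← e1]; ring
    exact mul_left_cancel₀ (pow_ne_zero 2 hιc) e2
  have htT : t ∈ TT G T KK := by
    have h1 : IsIntegral (SS G T) (t ^ 2) := by
      rw [pow_two, ht2]
      exact map_mem (g : T)
    exact h1.of_pow (by norm_num)
  have hρt : ρ • t = -t := by
    rw [ht, smul_div₀', act_map, act_map, ht0n, hρc, map_neg, neg_div]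
  have htH : IsH hom (k - i) t := ⟨k, i, t0, c, ht0h, hi, hc0, htc, rfl⟩
  -- the degree is positive
  have he : 0 < k - i := by
    rcases lt_trichotomy (k - i) 0 with h | h | h
    · exact absurd (neg_zero_of gr fac K h htT htH) ht_ne
    · exfalso
      rw [h] at htH
      obtain ⟨z, hz⟩ := const_of gr fac K htT htH
      have h1 : ρ • t = t := by rw [hz]; exact act_const T ρ z
      rw [hρt] at h1
      have hchar : CharZero KK := charZero_of_injective_algebraMap (algebraMap ℂ KK).injective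
      have h2 : (2 : KK) * t = 0 := by linear_combination -h1
      rcases mul_eq_zero.1 h2 with h3 | h3
      · exact two_ne_zero h3
      · exact ht_ne h3
    · exact h
  refine ⟨k - i, he, t, htT, ht_ne, ?_⟩
  intro j x hx hj
  obtain ⟨z, hz⟩ : ∃ z, z = x - ρ • x := ⟨_, rfl⟩
  have hzT : z ∈ TT G T KK := by rw [hz]; exact (TT G T KK).sub_mem hx (stab ρ hx)
  have hzH : IsH hom j z := by rw [hz]; exact isH_sub gr hj (isH_act gr ρ hj)
  have hρz : ρ • z = -z := by rw [hz, smul_sub, hρρ']; ring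
  haveI : IsIntegrallyClosed R := inferInstance
  obtain ⟨u, huR, hu⟩ := inv_mem (Subgroup.zpowers ρ) ((TT G T KK).mul_mem hzT htT)
    (fx_zp (by rw [smul_mul', hρz, hρt]; ring))
  obtain ⟨v, hvR, hv⟩ := inv_mem (Subgroup.zpowers ρ) ((TT G T KK).mul_mem hzT hzT)
    (fx_zp (by rw [smul_mul', hρz]; ring))
  have huv : (⟨u, huR⟩ : R) ^ 2 = g * ⟨v, hvR⟩ := by
    apply Subtype.ext
    apply inj (KK := KK)
    show algebraMap T KK (u ^ 2) = algebraMap T KK ((g : T) * v)
    rw [map_pow, map_mul, hu, hv, ← ht2]; ring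
  have hgu : g ∣ (⟨u, huR⟩ : R) := by
    rw [← hg.dvd_pow_iff_dvd (two_ne_zero)]
    exact ⟨_, huv⟩
  obtain ⟨a, ha⟩ := hgu
  have ha' : u = (g : T) * (a : T) := congrArg Subtype.val ha
  have hza : z = t * algebraMap T KK (a : T) := by
    have e1 : z * t = t * t * algebraMap T KK (a : T) := by
      rw [ht2, ← map_mul, ← ha', hu]
    have e2 : t * z = t * (t * algebraMap T KK (a : T)) := by
      rw [mul_comm t z, e1]; ring
    exact mul_left_cancel₀ ht_ne e2
  refine ⟨algebraMap T KK (a : T), map_mem _, ?_, by rw [← hz]; exact hza⟩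
  obtain ⟨i1, j1, a1, b1, ha1, hb1, hb10, e1, hk1⟩ := hzH
  refine ⟨i1 + i, j1 + k, a1 * c, b1 * t0, gr.mul _ _ _ _ ha1 hi, gr.mul _ _ _ _ hb1 ht0h,
    mul_ne_zero hb10 ht00, ?_, by omega⟩
  rw [map_mul, map_mul, ← htc, ← e1, hza]
  ring

/-! ### The graded algebra of the integral closure -/

variable (G KK) in
/-- homogeneous elements of the integral closure -/
def HT (gr : Gr G hom) (k : ℤ) : Submodule ℂ ↥(TT G T KK) where
  carrier := {x | IsH hom k (x : KK)}
  add_mem' := fun ha hb => isH_add gr ha hb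
  zero_mem' := isH_zero gr k
  smul_mem' := fun c _ hx => isH_smul c hx

theorem mem_HT {gr : Gr G hom} {k : ℤ} {x : ↥(TT G T KK)} :
    x ∈ HT G KK gr k ↔ IsH hom k (x : KK) := Iff.rfl

theorem hmT [Finite G] (gr : Gr G hom)
    (fac : ∀ (x y : T) (k : ℤ), x * y ∈ hom k → x * y ≠ 0 → ∃ i, x ∈ hom i)
    (K : Subgroup G) [IsIntegrallyClosed ↥(Fx K : Subalgebra ℂ T)] :
    Hm G (HT G KK gr) where
  mul i j x y hx hy := isH_mul gr hx hy
  act g i x hx := isH_act gr g hx
  neg i x hi hx := Subtype.ext (neg_zero_of gr fac K hi x.2 hx)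
  zero x hx h := by
    obtain ⟨c, hc⟩ := inv_const gr fac K x.2 hx (fun g => congrArg Subtype.val (h g))
    exact ⟨c, Subtype.ext hc⟩

theorem ddT [Finite G] (gr : Gr G hom)
    (fac : ∀ (x y : T) (k : ℤ), x * y ∈ hom k → x * y ≠ 0 → ∃ i, x ∈ hom i)
    (h3 : S_SQF) (K : Subgroup G) [IsIntegrallyClosed ↥(Fx K : Subalgebra ℂ T)] (ρ : G)
    (hρ : ρ * ρ = 1)
    [UniqueFactorizationMonoid ↥(Fx (Subgroup.zpowers ρ) : Subalgebra ℂ T)] :
    DD (HT G KK gr) ρ := by
  obtain ⟨e, he, t, ht, ht0, hd⟩ := dd (KK := KK) gr fac h3 K ρ hρ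
  refine ⟨e, he, ⟨t, ht⟩, fun h => ht0 (congrArg Subtype.val h), ?_⟩
  intro j x hx
  obtain ⟨y, hy, hyH, hxy⟩ := hd j x x.2 hx
  exact ⟨⟨y, hy⟩, hyH, Subtype.ext hxy⟩

theorem frT [Finite G] (gr : Gr G hom)
    (fac : ∀ (x y : T) (k : ℤ), x * y ∈ hom k → x * y ≠ 0 → ∃ i, x ∈ hom i)
    (K : Subgroup G) [IsIntegrallyClosed ↥(Fx K : Subalgebra ℂ T)]
    (hch : ∀ (r : ℕ) (s f : Fin (r + 1) → ↥(TT G T KK)), Rel G (HT G KK gr) s f → NotIn G s →
      f 0 ∈ Ideal.span (Pos G (HT G KK gr))) : FR hom K := by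
  classical
  intro r s f hrel hf hs
  obtain ⟨a, b, w, hsa, hfb, hab⟩ := hrel.ex
  -- transport to the integral closure
  have key := hch r (fun i => ⟨algebraMap T KK (s i), map_mem (s i)⟩)
    (fun i => ⟨algebraMap T KK (f i), map_mem (f i)⟩)
    { ex := ⟨a, b, w, fun i => isH_of gr (hsa i), fun i => isH_of gr (hfb i), hab⟩
      fx := fun i g => Subtype.ext (by
        show g • algebraMap T KK (s i) = algebraMap T KK (s i)
        rw [act_map, hrel.fx i g])
      sum := by
        apply Subtype.ext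
        rw [AddSubmonoidClass.coe_finsetSum]
        show ∑ i, algebraMap T KK (s i) * algebraMap T KK (f i) = 0
        rw [← map_zero (algebraMap T KK), ← hrel.sum, map_sum]
        exact Finset.sum_congr rfl fun i _ => (map_mul _ _ _).symm }
    (by
      rintro ⟨c, hc, hsc⟩
      choose c' hc' hcc using fun i => inv_top (KK := KK) K (c i).2
        (fun g => congrArg Subtype.val (hc i g))
      apply hs
      refine ⟨c', hc', ?_⟩
      apply inj (KK := KK)
      have h := congrArg Subtype.val hsc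
      rw [AddSubmonoidClass.coe_finsetSum] at h
      rw [map_sum]
      refine (show algebraMap T KK (s 0) = _ from h).trans ?_
      refine Finset.sum_congr rfl fun i _ => ?_
      rw [map_mul, hcc i]
      rfl)
  obtain ⟨q, w, u, hu⟩ := Submodule.mem_span_set'.1 key
  haveI : Fintype K := Fintype.ofFinite K
  -- the average
  have hcard : ((Fintype.card K : ℕ) : ℂ) ≠ 0 := by
    rw [Nat.cast_ne_zero]
    exact Fintype.card_ne_zero
  obtain ⟨av, hav⟩ : ∃ av : Fin q → KK, ∀ j, av j =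
      ((Fintype.card K : ℕ) : ℂ)⁻¹ • ∑ g : K, (g : G) • ((w j : ↥(TT G T KK)) : KK) :=
    ⟨_, fun _ => rfl⟩
  have hwT : ∀ j, av j ∈ TT G T KK := by
    intro j
    rw [hav]
    exact (TT G T KK).smul_mem ((TT G T KK).sum_mem fun g _ => stab _ (w j).2) _
  have hwK : ∀ j, ∀ g ∈ K, g • av j = av j := by
    intro j g hg
    rw [hav, Algebra.smul_def, smul_mul', act_const T]
    congr 1
    rw [Finset.smul_sum]
    have e : ∀ x : K, g • (x : G) • ((w j : ↥(TT G T KK)) : KK) =
        (((⟨g, hg⟩ : K) * x : K) : G) • ((w j : ↥(TT G T KK)) : KK) := fun x => by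
      rw [← mul_smul]; rfl
    simp_rw [e]
    exact Fintype.sum_equiv (Equiv.mulLeft (⟨g, hg⟩ : K)) _ _ (fun x => rfl)
  choose v hvK hv using fun j => inv_mem (KK := KK) K (hwT j) (hwK j)
  choose u' hu' huu using fun j => inv_top (KK := KK) K (u j : ↥(TT G T KK)).2
    (fun g => congrArg Subtype.val ((u j).2.1 g))
  refine ⟨q, u', v, fun j => ⟨hu' j, ?_⟩, hvK, ?_⟩
  · obtain ⟨i, hi, hx⟩ := (u j).2.2
    refine ⟨i, hi, ?_⟩
    have h : IsH hom i (((u j : ↥(TT G T KK)) : KK)) := hx
    rw [← huu j] at h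
    exact isH_comp gr fac h
  · apply inj (KK := KK)
    have h0 : algebraMap T KK (f 0) =
        ∑ j, ((w j : ↥(TT G T KK)) : KK) * algebraMap T KK (u' j) := by
      have h := congrArg Subtype.val hu
      rw [AddSubmonoidClass.coe_finsetSum] at h
      refine (show _ = algebraMap T KK (f 0) from h).symm.trans ?_
      refine Finset.sum_congr rfl fun j _ => ?_
      rw [huu j]
      rfl
    have h1 : ∀ g : K, algebraMap T KK (f 0) =
        ∑ j, ((g : G) • ((w j : ↥(TT G T KK)) : KK)) * algebraMap T KK (u' j) := by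
      intro g
      have h2 : (g : G) • algebraMap T KK (f 0) = algebraMap T KK (f 0) := by
        rw [act_map, hf 0 g g.2]
      rw [← h2, h0, Finset.smul_sum]
      refine Finset.sum_congr rfl fun j _ => ?_
      rw [smul_mul', act_map, hu' j g]
    have h2 : ((Fintype.card K : ℕ) : ℂ) • algebraMap T KK (f 0) =
        ∑ g : K, ∑ j, ((g : G) • ((w j : ↥(TT G T KK)) : KK)) * algebraMap T KK (u' j) := by
      rw [← Finset.sum_congr rfl (fun g _ => h1 g), Finset.sum_const, Finset.card_univ,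
        Nat.cast_smul_eq_nsmul]
    rw [Finset.sum_comm] at h2
    have h3 : algebraMap T KK (f 0) = ((Fintype.card K : ℕ) : ℂ)⁻¹ •
        ∑ j, ∑ g : K, ((g : G) • ((w j : ↥(TT G T KK)) : KK)) * algebraMap T KK (u' j) := by
      rw [← h2, inv_smul_smul₀ hcard]
    rw [h3, map_sum, Finset.smul_sum]
    refine Finset.sum_congr rfl fun j _ => ?_
    rw [map_mul, hv j, hav j, ← Finset.sum_mul, mul_comm (algebraMap T KK (u' j)),
      smul_mul_assoc]

end homog

end FRB

/-- the criterion of flatness from involutions with factorial rings of invariants -/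
theorem FRB_thm (h1 : S_CH1) (h2 : S_FAC) (h3 : S_SQF) : S_FRB := by
  intro G T _ _ _ _ _ _ _ hom gr P hP hinv K hK
  letI : MulSemiringAction G (FractionRing T) :=
    IsFractionRing.mulSemiringAction G T (FractionRing T)
  haveI : SMulDistribClass G T (FractionRing T) :=
    IsFractionRing.smulDistribClass G T (FractionRing T)
  have fac : ∀ (x y : T) (k : ℤ), x * y ∈ hom k → x * y ≠ 0 → ∃ i, x ∈ hom i :=
    h2 G T hom gr
  apply FRB.frT (KK := FractionRing T) gr fac K
  intro r s f hrel hs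
  refine h1 G ↥(FRB.TT G T (FractionRing T)) (FRB.HT G (FractionRing T) gr)
    (FRB.hmT gr fac K) P hP ?_ r s f hrel hs
  intro ρ hρ
  haveI := (hinv ρ hρ).2
  exact FRB.ddT gr fac h3 K ρ (hinv ρ hρ).1

end Pool.Agent.RFO
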