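import Mathlib
import Pool.Agent.RFO.Defs
import Pool.Agent.RFO.St

/-!
# Unitary modular forms and reflection overgroups: the function layer (MP_06550c_nt)
-/

set_option autoImplicit false

namespace Pool.Agent.RFO
namespace MOD

variable {n : ℕ} {H : HForm n}

/-! ### Holomorphic functions -/

open Classical in
/-- extension by zero -/
noncomputable def ext (f : cone H → ℂ) : Vn n → ℂ :=
  fun z => if hz : z ∈ cone H then f ⟨z, hz⟩ else 0

theorem hol_iff (f : cone H → ℂ) : Hol H f ↔ DifferentiableOn ℂ (ext f) (cone H) := Iff.rfl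

theorem ext_of_mem (f : cone H → ℂ) {z : Vn n} (hz : z ∈ cone H) : ext f z = f ⟨z, hz⟩ := by
  simp [ext, hz]

theorem ext_of_not (f : cone H → ℂ) {z : Vn n} (hz : z ∉ cone H) : ext f z = 0 := by
  simp [ext, hz]

theorem hol_add {f g : cone H → ℂ} (hf : Hol H f) (hg : Hol H g) : Hol H (f + g) := by
  rw [hol_iff] at hf hg ⊢
  refine (hf.add hg).congr fun z hz => ?_
  simp only [Pi.add_apply, ext_of_mem _ hz]

theorem hol_mul {f g : cone H → ℂ} (hf : Hol H f) (hg : Hol H g) : Hol H (f * g) := by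
  rw [hol_iff] at hf hg ⊢
  refine (hf.mul hg).congr fun z hz => ?_
  simp only [Pi.mul_apply, ext_of_mem _ hz]

theorem hol_const (c : ℂ) : Hol H (algebraMap ℂ (cone H → ℂ) c) := by
  rw [hol_iff]
  refine (differentiableOn_const c).congr fun z hz => ?_
  rw [ext_of_mem _ hz]
  rfl

theorem hol_smul (c : ℂ) {f : cone H → ℂ} (hf : Hol H f) : Hol H (c • f) := by
  rw [Algebra.smul_def]
  exact hol_mul (hol_const c) hf

theorem hol_exp {f : cone H → ℂ} (hf : Hol H f) : Hol H (fun z => Complex.exp (f z)) := by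
  rw [hol_iff] at hf ⊢
  refine hf.cexp.congr fun z hz => ?_
  simp only [ext_of_mem _ hz]

/-- precomposition -/
def pc (m : cone H → cone H) : (cone H → ℂ) →ₐ[ℂ] (cone H → ℂ) where
  toFun f := fun z => f (m z)
  map_one' := rfl
  map_mul' _ _ := rfl
  map_zero' := rfl
  map_add' _ _ := rfl
  commutes' _ := rfl

theorem pc_apply (m : cone H → cone H) (f : cone H → ℂ) (z : cone H) : pc m f z = f (m z) := rfl

theorem hol_pc (g : Vn n →ₗ[ℂ] Vn n) (m : cone H → cone H) (hm : ∀ z : cone H, (m z).1 = g z.1)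
    {f : cone H → ℂ} (hf : Hol H f) : Hol H (pc m f) := by
  rw [hol_iff] at hf ⊢
  have hg : Differentiable ℂ (fun z => g z) :=
    (LinearMap.toContinuousLinearMap g).differentiable
  have hmem : ∀ z ∈ cone H, g z ∈ cone H := fun z hz => by
    have := (m ⟨z, hz⟩).2
    rwa [hm ⟨z, hz⟩] at this
  refine (hf.comp hg.differentiableOn hmem).congr fun z hz => ?_
  rw [ext_of_mem _ hz, Function.comp_apply, ext_of_mem _ (hmem z hz), pc_apply]
  congr 1
  exact Subtype.ext (hm ⟨z, hz⟩)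

theorem h_smul_smul (H : HForm n) (t : ℂ) (z : Vn n) :
    H.h (t • z) (t • z) = t * (starRingEnd ℂ) t * (starRingEnd ℂ) (H.h z z) := by
  rw [H.smul, H.herm (t • z) z, H.smul, map_mul, mul_assoc]

theorem mem_cone_smul {t : ℂ} (ht : t ≠ 0) (z : Vn n) : t • z ∈ cone H ↔ z ∈ cone H := by
  show (H.h (t • z) (t • z)).re < 0 ↔ (H.h z z).re < 0
  rw [h_smul_smul, Complex.mul_conj, Complex.re_ofReal_mul, Complex.conj_re]
  have : 0 < Complex.normSq t := Complex.normSq_pos.2 ht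
  constructor
  · intro h
    exact (pos_iff_neg_of_mul_neg h).1 this
  · intro h
    exact mul_neg_of_pos_of_neg this h

theorem mem_cone_act {g : Vn n ≃ₗ[ℂ] Vn n} (hg : g ∈ Uh H) (z : Vn n) :
    g z ∈ cone H ↔ z ∈ cone H := by
  show (H.h (g z) (g z)).re < 0 ↔ (H.h z z).re < 0
  rw [hg z z]

/-- the action on the cone -/
def mv (g : Uh H) (z : cone H) : cone H := ⟨g.1 z.1, (mem_cone_act g.2 _).2 z.2⟩

theorem mv_mul (g h : Uh H) (z : cone H) : mv (g * h) z = mv g (mv h z) := rfl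

theorem mv_one (z : cone H) : mv (1 : Uh H) z = z := rfl

/-- the scaling of the cone -/
def sc (t : ℂ) (ht : t ≠ 0) (z : cone H) : cone H := ⟨t • z.1, (mem_cone_smul ht _).2 z.2⟩

/-! ### Modular forms -/

variable {Γ : Subgroup (Vn n ≃ₗ[ℂ] Vn n)}

theorem mf_zero (k : ℕ) : IsMF H Γ k 0 :=
  ⟨by simpa using hol_const (H := H) 0, fun t _ z w _ => by simp, fun g _ z w _ => rfl⟩

theorem mf_one : IsMF H Γ 0 1 :=
  ⟨by simpa using hol_const (H := H) 1, fun t _ z w _ => by simp, fun g _ z w _ => rfl⟩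

theorem mf_add {k : ℕ} {f g : cone H → ℂ} (hf : IsMF H Γ k f) (hg : IsMF H Γ k g) :
    IsMF H Γ k (f + g) :=
  ⟨hol_add hf.hol hg.hol,
    fun t ht z w h => by
      rw [Pi.add_apply, Pi.add_apply, hf.wt t ht z w h, hg.wt t ht z w h, mul_add],
    fun γ hγ z w h => by
      rw [Pi.add_apply, Pi.add_apply, hf.inv γ hγ z w h, hg.inv γ hγ z w h]⟩

theorem mf_mul {k l : ℕ} {f g : cone H → ℂ} (hf : IsMF H Γ k f) (hg : IsMF H Γ l g) :
    IsMF H Γ (k + l) (f * g) :=
  ⟨hol_mul hf.hol hg.hol,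
    fun t ht z w h => by
      rw [Pi.mul_apply, Pi.mul_apply, hf.wt t ht z w h, hg.wt t ht z w h, pow_add]; ring,
    fun γ hγ z w h => by
      rw [Pi.mul_apply, Pi.mul_apply, hf.inv γ hγ z w h, hg.inv γ hγ z w h]⟩

theorem mf_smul {k : ℕ} (c : ℂ) {f : cone H → ℂ} (hf : IsMF H Γ k f) : IsMF H Γ k (c • f) :=
  ⟨hol_smul c hf.hol,
    fun t ht z w h => by
      rw [Pi.smul_apply, Pi.smul_apply, hf.wt t ht z w h, smul_eq_mul, smul_eq_mul]; ring,
    fun γ hγ z w h => by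
      rw [Pi.smul_apply, Pi.smul_apply, hf.inv γ hγ z w h]⟩

theorem mf_mono {Γ' : Subgroup (Vn n ≃ₗ[ℂ] Vn n)} (h : Γ ≤ Γ') {k : ℕ} {f : cone H → ℂ}
    (hf : IsMF H Γ' k f) : IsMF H Γ k f :=
  ⟨hf.hol, hf.wt, fun g hg => hf.inv g (h hg)⟩

theorem mf_mem {k : ℕ} {f : cone H → ℂ} (hf : IsMF H Γ k f) : f ∈ MS H Γ :=
  Algebra.subset_adjoin ⟨k, hf⟩

theorem ms_mono {Γ' : Subgroup (Vn n ≃ₗ[ℂ] Vn n)} (h : Γ ≤ Γ') : MS H Γ' ≤ MS H Γ :=
  Algebra.adjoin_mono fun _ ⟨k, hf⟩ => ⟨k, mf_mono h hf⟩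

theorem ms_hol {f : cone H → ℂ} (hf : f ∈ MS H Γ) : Hol H f := by
  refine Algebra.adjoin_induction (p := fun x _ => Hol H x) ?_ ?_ ?_ ?_ hf
  · rintro x ⟨k, hx⟩
    exact hx.hol
  · exact fun c => hol_const c
  · exact fun x y _ _ hx hy => hol_add hx hy
  · exact fun x y _ _ hx hy => hol_mul hx hy

/-- elements of the algebra of modular forms are sums of modular forms -/
theorem ms_ind {p : (cone H → ℂ) → Prop} (h0 : p 0) (h1 : ∀ k f, IsMF H Γ k f → p f)
    (h2 : ∀ f g, f ∈ MS H Γ → g ∈ MS H Γ → p f → p g → p (f + g)) {f : cone H → ℂ}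
    (hf : f ∈ MS H Γ) : p f := by
  have hcl : ((Submonoid.closure {f : cone H → ℂ | ∃ k, IsMF H Γ k f} : Submonoid _) :
      Set (cone H → ℂ)) = {f : cone H → ℂ | ∃ k, IsMF H Γ k f} := by
    refine Set.Subset.antisymm ?_ Submonoid.subset_closure
    intro x hx
    refine Submonoid.closure_induction (motive := fun x _ => ∃ k, IsMF H Γ k x) ?_ ?_ ?_ hx
    · exact fun x hx => hx
    · exact ⟨0, mf_one⟩
    · rintro x y - - ⟨k, hk⟩ ⟨l, hl⟩
      exact ⟨k + l, mf_mul hk hl⟩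
  have h3 : f ∈ Submodule.span ℂ {f : cone H → ℂ | ∃ k, IsMF H Γ k f} := by
    have h4 : f ∈ Subalgebra.toSubmodule (MS H Γ) := hf
    rw [MS, Algebra.adjoin_eq_span, hcl] at h4
    exact h4
  have h5 : ∀ x ∈ Submodule.span ℂ {f : cone H → ℂ | ∃ k, IsMF H Γ k f}, x ∈ MS H Γ ∧ p x := by
    intro x hx
    have h6 : x ∈ MS H Γ ∧ (∀ c : ℂ, p (c • x)) := by
      refine Submodule.span_induction (p := fun x _ => x ∈ MS H Γ ∧ (∀ c : ℂ, p (c • x)))
        ?_ ?_ ?_ ?_ hx
      · rintro x ⟨k, hk⟩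
        exact ⟨mf_mem hk, fun c => h1 k _ (mf_smul c hk)⟩
      · exact ⟨(MS H Γ).zero_mem, fun c => by rw [smul_zero]; exact h0⟩
      · rintro x y - - hx hy
        refine ⟨(MS H Γ).add_mem hx.1 hy.1, fun c => ?_⟩
        rw [smul_add]
        exact h2 _ _ ((MS H Γ).smul_mem hx.1 c) ((MS H Γ).smul_mem hy.1 c) (hx.2 c) (hy.2 c)
      · rintro a x - hx
        refine ⟨(MS H Γ).smul_mem hx.1 a, fun c => ?_⟩
        rw [smul_smul]
        exact hx.2 _
    exact ⟨h6.1, by simpa using h6.2 1⟩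
  exact (h5 f h3).2

/-- a free algebra of modular forms is isomorphic to a polynomial algebra -/
theorem free_equiv (hF : Free H Γ) : ∃ m : ℕ, Nonempty (MvPolynomial (Fin m) ℂ ≃ₐ[ℂ] MS H Γ) := by
  obtain ⟨m, x, k, hx, hi, had⟩ := hF
  exact ⟨m, ⟨hi.aevalEquiv.trans (Subalgebra.equivOfEq _ _ had)⟩⟩

/-- modular forms of weight zero are constant if the algebra is free -/
theorem mf0_const (hF : Free H Γ) {f : cone H → ℂ} (hf : IsMF H Γ 0 f) :
    ∃ c : ℂ, f = algebraMap ℂ (cone H → ℂ) c := by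
  obtain ⟨m, ⟨e⟩⟩ := free_equiv hF
  have hexp : ∀ a : ℂ, IsMF H Γ 0 (fun z => Complex.exp (a * f z)) := fun a =>
    ⟨hol_exp (hol_smul a hf.hol),
      fun t ht z w h => by
        show Complex.exp _ = t ^ 0 * Complex.exp _
        rw [hf.wt t ht z w h]; simp,
      fun γ hγ z w h => by
        show Complex.exp _ = Complex.exp _
        rw [hf.inv γ hγ z w h]⟩
  have hcon : ∀ a : ℂ, ∀ z w : cone H, Complex.exp (a * f z) = Complex.exp (a * f w) := by
    intro a
    have hu : IsUnit (⟨_, mf_mem (hexp a)⟩ : MS H Γ) := by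
      refine IsUnit.of_mul_eq_one (⟨_, mf_mem (hexp (-a))⟩ : MS H Γ) ?_
      apply Subtype.ext
      funext z
      show Complex.exp (a * f z) * Complex.exp (-a * f z) = 1
      rw [← Complex.exp_add]
      simp
    have hu' := hu.map e.symm
    obtain ⟨c, -, hc⟩ := MvPolynomial.isUnit_iff_eq_C_of_isReduced.1 hu'
    have h6 : (⟨_, mf_mem (hexp a)⟩ : MS H Γ) = algebraMap ℂ _ c := by
      have := congrArg e hc
      rw [AlgEquiv.apply_symm_apply] at this
      rw [this]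
      exact e.commutes c
    have h7 : (fun z => Complex.exp (a * f z)) = algebraMap ℂ (cone H → ℂ) c :=
      congrArg Subtype.val h6
    intro z w
    have h8 := congrFun h7 z
    have h9 := congrFun h7 w
    simp only [Pi.algebraMap_apply, Algebra.algebraMap_self, RingHom.id_apply] at h8 h9
    rw [h8, h9]
  by_cases hne : Nonempty (cone H)
  · obtain ⟨z₀⟩ := hne
    refine ⟨f z₀, ?_⟩
    funext z
    by_contra hz
    have hz' : f z - f z₀ ≠ 0 := by
      intro h
      exact hz (sub_eq_zero.1 h)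
    have h := hcon (Real.pi * Complex.I / (f z - f z₀)) z z₀
    have h10 : Real.pi * Complex.I / (f z - f z₀) * f z =
        Real.pi * Complex.I + Real.pi * Complex.I / (f z - f z₀) * f z₀ := by
      field_simp
      ring
    rw [h10, Complex.exp_add, Complex.exp_pi_mul_I] at h
    have h11 := Complex.exp_ne_zero (Real.pi * Complex.I / (f z - f z₀) * f z₀)
    apply h11
    linear_combination (-1 / 2 : ℂ) * h
  · refine ⟨0, ?_⟩
    funext z
    exact absurd ⟨z⟩ hne

end MOD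
end Pool.Agent.RFO
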