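import Mathlib
import Pool.Agent.RFO.St
import Pool.Agent.RFO.Mod
import Pool.Agent.RFO.FRB

/-!
# Unitary modular forms and reflection overgroups: statements of the second series of modules
(MP_06550c_nt)
-/

set_option autoImplicit false

namespace Pool.Agent.RFO

/-! ### Conjugate subgroups -/

section Abs2

variable {G T : Type} [Group G] [CommRing T] [Algebra ℂ T] [MulSemiringAction G T]
  [SMulCommClass G ℂ T]

/-- `σ` is an automorphism of the graded algebra, it preserves the invariants of `G` and maps the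
invariants of `K'` onto the invariants of `K` -/
structure Tr (hom : ℤ → Submodule ℂ T) (K K' : Subgroup G) (σ : T ≃ₐ[ℂ] T) : Prop where
  ho : ∀ j x, σ x ∈ hom j ↔ x ∈ hom j
  fx : ∀ x, (∀ g : G, g • σ x = σ x) ↔ ∀ g : G, g • x = x
  kk : ∀ x, (∀ g ∈ K, g • σ x = σ x) ↔ ∀ g ∈ K', g • x = x

/-- the invariants of `K` are invariant under `K'` up to multiples of invariants of `K'` of lower
degree -/
structure FD (hom : ℤ → Submodule ℂ T) (K K' : Subgroup G) : Prop where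
  ex : ∃ σ : T ≃ₐ[ℂ] T, Tr hom K K' σ
  dv : ∃ (q : ℕ) (b : Fin q → T) (e : Fin q → ℤ) (y : Fin q → T → T), (∀ l, 0 < e l) ∧
    (∀ l x x', (∀ g ∈ K, g • x = x) → (∀ g ∈ K, g • x' = x') → y l (x + x') = y l x + y l x') ∧
    (∀ l s x, (∀ g : G, g • s = s) → (∀ g ∈ K, g • x = x) → y l (s * x) = s * y l x) ∧
    (∀ l j x, (∀ g ∈ K, g • x = x) → x ∈ hom j → y l x ∈ hom (j - e l)) ∧
    (∀ l x, (∀ g ∈ K, g • x = x) → ∀ g ∈ K', g • y l x = y l x) ∧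
    ∀ x, (∀ g ∈ K, g • x = x) → ∀ g ∈ K',
      g • (x - ∑ l, b l * y l x) = x - ∑ l, b l * y l x

/-- a homogeneous basis of the invariants of `M` over the invariants of `K'` -/
def HB (hom : ℤ → Submodule ℂ T) (M K' : Subgroup G) : Prop :=
  ∃ (q : ℕ) (b : Fin q → T) (e : Fin q → ℤ), (∀ l, b l ∈ hom (e l) ∧ ∀ g ∈ M, g • b l = b l) ∧
    ∀ x, (∀ g ∈ M, g • x = x) →
      ∃! y : Fin q → T, (∀ l, ∀ g ∈ K', g • y l = y l) ∧ x = ∑ l, b l * y l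

/-- the component of `x` for the character `χ` of `K` -/
noncomputable def PP {M : Type} [AddCommGroup M] [Module ℂ M] [DistribMulAction G M]
    (K : Subgroup G) (χ : K →* ℂˣ) (x : M) : M :=
  (Nat.card K : ℂ)⁻¹ • ∑ᶠ k : K, ((χ k⁻¹ : ℂˣ) : ℂ) • (k : G) • x

end Abs2

/-- CHC: Chevalley's lemma with conjugate subgroups -/
def S_CHC : Prop :=
  ∀ (G T : Type) [Group G] [Finite G] [CommRing T] [IsDomain T] [Algebra ℂ T]
    [MulSemiringAction G T] [SMulCommClass G ℂ T] (hom : ℤ → Submodule ℂ T), Hm G hom →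
    ∀ (K : Subgroup G) (P : Set (Subgroup G)), K ⊔ sSup P = ⊤ → (∀ K' ∈ P, FD hom K K') →
    ∀ (r : ℕ) (s f : Fin (r + 1) → T), Rel G hom s f → (∀ i, ∀ g ∈ K, g • f i = f i) →
      NotIn G s → f 0 ∈ Ideal.span (Pos G hom)

/-- FRC: the criterion of flatness -/
def S_FRC : Prop :=
  ∀ (G T : Type) [Group G] [Finite G] [CommRing T] [IsDomain T] [Algebra ℂ T]
    [MulSemiringAction G T] [SMulCommClass G ℂ T] (hom : ℤ → Submodule ℂ T), Hm G hom →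
    ∀ (K : Subgroup G) (P : Set (Subgroup G)), K ⊔ sSup P = ⊤ → (∀ K' ∈ P, FD hom K K') →
    FR hom K

/-- MPF: the part of an element free of `m`-th powers -/
def S_MPF : Prop :=
  ∀ (R : Type) [CommRing R] [IsDomain R] [UniqueFactorizationMonoid R] (m : ℕ), 0 < m →
    ∀ g : R, g ≠ 0 → ∃ c g' : R, g = c ^ m * g' ∧ ∀ a b : R, b ^ m ∣ a ^ m * g' → b ∣ a

/-- CHR: decomposition into components for the characters -/
def S_CHR : Prop :=
  ∀ (G : Type) [Group G] [Finite G] (K : Subgroup G),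
    ∃ (q : ℕ) (χ : Fin q → (K →* ℂˣ)), (∀ l, χ l ≠ 1) ∧
      ∀ (M : Type) [AddCommGroup M] [Module ℂ M] [DistribMulAction G M] [SMulCommClass G ℂ M]
        (x : M), (∀ a ∈ K, ∀ b ∈ K, (a * b * a⁻¹ * b⁻¹) • x = x) →
        x = PP K 1 x + ∑ l, PP K (χ l) x

/-- TCH: the elements of the integral closure with a given character -/
def S_TCH : Prop :=
  ∀ (G T KK : Type) [Group G] [Finite G] [CommRing T] [IsDomain T] [Algebra ℂ T]
    [MulSemiringAction G T] [SMulCommClass G ℂ T] [Field KK] [Algebra T KK]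
    [IsFractionRing T KK] [Algebra ℂ KK] [IsScalarTower ℂ T KK] [MulSemiringAction G KK]
    [SMulDistribClass G T KK] (hom : ℤ → Submodule ℂ T), Gr G hom →
    ∀ K : Subgroup G, UniqueFactorizationMonoid ↥(Fx K : Subalgebra ℂ T) →
    ∀ χ : K →* ℂˣ, χ ≠ 1 → ∃ e : ℤ, 0 < e ∧ ∃ t ∈ FRB.TT G T KK, t ≠ 0 ∧
      ∀ x ∈ FRB.TT G T KK, (∀ k : K, (k : G) • x = ((χ k : ℂˣ) : ℂ) • x) →
        ∃ y ∈ FRB.TT G T KK, (∀ k ∈ K, k • y = y) ∧ x = t * y ∧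
          ∀ j, FRB.IsH hom j x → FRB.IsH hom (j - e) y

/-- EXT: automorphisms extend to the integral closure -/
def S_EXT : Prop :=
  ∀ (G T KK : Type) [Group G] [Finite G] [CommRing T] [IsDomain T] [Algebra ℂ T]
    [MulSemiringAction G T] [SMulCommClass G ℂ T] [Field KK] [Algebra T KK]
    [IsFractionRing T KK] [Algebra ℂ KK] [IsScalarTower ℂ T KK] [MulSemiringAction G KK]
    [SMulDistribClass G T KK] (hom : ℤ → Submodule ℂ T) (gr : Gr G hom) (K K' : Subgroup G)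
    (σ : T ≃ₐ[ℂ] T), Tr hom K K' σ →
    ∃ σ' : ↥(FRB.TT G T KK) ≃ₐ[ℂ] ↥(FRB.TT G T KK), Tr (FRB.HT G KK gr) K K' σ'

/-- FDT: the integral closure in the case of abelian quotients -/
def S_FDT : Prop :=
  ∀ (G T KK : Type) [Group G] [Finite G] [CommRing T] [IsDomain T] [Algebra ℂ T]
    [MulSemiringAction G T] [SMulCommClass G ℂ T] [Field KK] [Algebra T KK]
    [IsFractionRing T KK] [Algebra ℂ KK] [IsScalarTower ℂ T KK] [MulSemiringAction G KK]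
    [SMulDistribClass G T KK] (hom : ℤ → Submodule ℂ T) (gr : Gr G hom) (K K' : Subgroup G)
    (σ : T ≃ₐ[ℂ] T), Tr hom K K' σ → UniqueFactorizationMonoid ↥(Fx K : Subalgebra ℂ T) →
    (∀ a ∈ K', ∀ b ∈ K', a * b * a⁻¹ * b⁻¹ ∈ K) → FD (FRB.HT G KK gr) K K'

/-- FRE: the criterion of flatness in the case of abelian quotients -/
def S_FRE : Prop :=
  ∀ (G T : Type) [Group G] [Finite G] [CommRing T] [IsDomain T] [Algebra ℂ T]
    [MulSemiringAction G T] [SMulCommClass G ℂ T] (hom : ℤ → Submodule ℂ T), Gr G hom →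
    ∀ (K : Subgroup G) (P : Set (Subgroup G)), K ⊔ sSup P = ⊤ →
    UniqueFactorizationMonoid ↥(Fx K : Subalgebra ℂ T) →
    (∀ K' ∈ P, (∃ σ : T ≃ₐ[ℂ] T, Tr hom K K' σ) ∧
      ∀ a ∈ K', ∀ b ∈ K', a * b * a⁻¹ * b⁻¹ ∈ K) → FR hom K

/-- HBD: the case of a homogeneous basis -/
def S_HBD : Prop :=
  ∀ (G T : Type) [Group G] [Finite G] [CommRing T] [IsDomain T] [Algebra ℂ T]
    [MulSemiringAction G T] [SMulCommClass G ℂ T] (hom : ℤ → Submodule ℂ T), Gr G hom →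
    ∀ K K' : Subgroup G, (∃ σ : T ≃ₐ[ℂ] T, Tr hom K K' σ) → HB hom (K ⊓ K') K' → FD hom K K'

/-- CRD: the number of generators -/
def S_CRD : Prop :=
  ∀ (G T : Type) [Group G] [Finite G] [CommRing T] [IsDomain T] [Algebra ℂ T]
    [MulSemiringAction G T] [SMulCommClass G ℂ T] (K K' : Subgroup G) (m m' : ℕ)
    (f : Fin m → T) (f' : Fin m' → T), AlgebraicIndependent ℂ f →
    Algebra.adjoin ℂ (Set.range f) = Fx K → AlgebraicIndependent ℂ f' →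
    Algebra.adjoin ℂ (Set.range f') = Fx K' → m = m'

/-! ### The normal case -/

/-- LIN: generators which are eigenvectors -/
def S_LIN : Prop :=
  ∀ (G T : Type) [Group G] [Finite G] [CommRing T] [IsDomain T] [Algebra ℂ T]
    [MulSemiringAction G T] [SMulCommClass G ℂ T] (hom : ℤ → Submodule ℂ T), Gr G hom →
    ∀ (m : ℕ) (f : Fin m → T) (k : Fin m → ℤ), (∀ i, 0 < k i ∧ f i ∈ hom (k i)) →
    AlgebraicIndependent ℂ f → Algebra.adjoin ℂ (Set.range f) = ⊤ → ∀ ρ : G,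
    ∃ (y : Fin m → T) (c : Fin m → ℂ),
      (∀ i, (∃ j, 0 < j ∧ y i ∈ hom j) ∧ ρ • y i = c i • y i) ∧
      Algebra.adjoin ℂ (Set.range y) = ⊤

/-- DDL: the divided difference if only one generator is not invariant -/
def S_DDL : Prop :=
  ∀ (G T : Type) [Group G] [CommRing T] [IsDomain T] [Algebra ℂ T]
    [MulSemiringAction G T] [SMulCommClass G ℂ T] (hom : ℤ → Submodule ℂ T), Gr G hom →
    ∀ (m : ℕ) (y : Fin m → T) (c : Fin m → ℂ) (ρ : G),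
      (∀ i, (∃ j, 0 < j ∧ y i ∈ hom j) ∧ ρ • y i = c i • y i) →
      Algebra.adjoin ℂ (Set.range y) = ⊤ → (∀ i j, c i ≠ 1 → c j ≠ 1 → i = j) → DD hom ρ

/-- the vectors of norm `c` of the lattice -/
abbrev VN {n : ℕ} (H : HForm n) (L : AddSubgroup (Vn n)) (c : ℂ) : Type :=
  {v : Vn n // v ∈ L ∧ H.h v v = c}

/-- LAT: sums over the lattice -/
def S_LAT : Prop :=
  ∀ (n : ℕ) (d : ℤ), d < 0 → ∀ (H : HForm n) (L : AddSubgroup (Vn n)), IsLat d H L →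
    ∃ k0 : ℕ, ∀ k : ℕ, k0 ≤ k → Summable (fun v : L => ‖(v : Vn n)‖⁻¹ ^ k)

/-- BND: lower bounds for the values of the form -/
def S_BND : Prop :=
  ∀ (n : ℕ) (H : HForm n), ∀ z₀ ∈ cone H, ∃ δ : ℝ, 0 < δ ∧ ∃ ε : ℝ, 0 < ε ∧
    ∀ z : Vn n, ‖z - z₀‖ < ε → z ∈ cone H ∧
      ∀ v : Vn n, (H.h v v).re ≤ 0 → δ * ‖v‖ ≤ ‖H.h z v‖

/-- SER: the series -/
def S_SER : Prop :=
  ∀ (n : ℕ) (d : ℤ), d < 0 → ∀ (H : HForm n) (L : AddSubgroup (Vn n)), IsLat d H L →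
    ∃ k0 : ℕ, ∀ c : ℝ, c < 0 → ∀ k : ℕ, k0 ≤ k →
      (∀ z ∈ cone H, (∀ v : VN H L (c : ℂ), H.h z v.1 ≠ 0) ∧
        Summable (fun v : VN H L (c : ℂ) => ‖(H.h z v.1)⁻¹‖ ^ k) ∧
        ∀ w : Vn n, Summable (fun v : VN H L (c : ℂ) => ‖H.h w v.1‖ * ‖(H.h z v.1)⁻¹‖ ^ k)) ∧
      ∃ f : cone H → ℂ, IsMF H (UL H L) k f ∧ ∀ (z : cone H) (w : Vn n),
        fderiv ℂ (MOD.ext f) z w =
          - (k : ℂ) * ∑' v : VN H L (c : ℂ), H.h w v.1 * (H.h z v.1)⁻¹ ^ (k + 1)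

/-- UNQ: uniqueness of the exponents -/
def S_UNQ : Prop :=
  ∀ (ι : Type) (b y : ι → ℂ) (k0 : ℕ), (∀ i, y i ≠ 0) → Summable (fun i => ‖y i‖ ^ k0) →
    (∀ k, k0 ≤ k → Summable (fun i => ‖b i‖ * ‖y i‖ ^ k)) →
    (∀ k, k0 ≤ k → ∑' i, b i * y i ^ k = 0) →
    ∀ i0 : ι, ∃ s : Finset ι, (∀ i, i ∈ s ↔ y i = y i0) ∧ ∑ i ∈ s, b i = 0

/-- GEN: generic points of the mirror -/
def S_GEN : Prop :=
  ∀ (n : ℕ) (H : HForm n) (L : AddSubgroup (Vn n)), L.FG → ∀ r : Vn n, 0 < (H.h r r).re →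
    ∃ z ∈ cone H, H.h z r = 0 ∧ ∀ v ∈ L, ∀ v' ∈ L, H.h z v = H.h z v' →
      ∀ w, H.h w r = 0 → H.h w v = H.h w v'

/-- SPN: the negative vectors of the lattice span -/
def S_SPN : Prop :=
  ∀ (n : ℕ) (d : ℤ), d < 0 → ∀ (H : HForm n) (L : AddSubgroup (Vn n)), IsLat d H L →
    ∀ w : Vn n, (∀ v ∈ L, (H.h v v).re < 0 → H.h w v = 0) → w = 0

/-- KER: the differentials of the modular forms at a generic point of the mirror -/
def S_KER : Prop :=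
  ∀ (n : ℕ) (d : ℤ), d < 0 → ∀ (H : HForm n) (L : AddSubgroup (Vn n)), IsLat d H L →
    ∀ r : Vn n, 0 < (H.h r r).re → ∃ z : cone H, H.h (z : Vn n) r = 0 ∧
      ∀ w : Vn n, H.h w r = 0 →
        (∀ k f, IsMF H (UL H L) k f → fderiv ℂ (MOD.ext f) (z : Vn n) w = 0) → w = 0

/-- EIG: two eigenvectors with eigenvalues not equal to one -/
def S_EIG : Prop :=
  ∀ (n : ℕ) (H : HForm n) (r : Vn n), 0 < (H.h r r).re → ∀ ρ ∈ Uh H,
    (∀ z, H.h z r = 0 → ρ z = z) → ∀ (y : Fin (n + 1) → (cone H → ℂ)) (c : Fin (n + 1) → ℂ),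
    (∀ i, Hol H (y i)) →
    (∀ i, ∀ z w : cone H, (w : Vn n) = ρ (z : Vn n) → y i z = c i * y i w) →
    ∀ i j, i ≠ j → c i ≠ 1 → c j ≠ 1 → ∀ z : cone H, H.h (z : Vn n) r = 0 →
      ∃ w : Vn n, w ≠ 0 ∧ H.h w r = 0 ∧
        ∀ f ∈ Algebra.adjoin ℂ (Set.range y), fderiv ℂ (MOD.ext f) (z : Vn n) w = 0

end Pool.Agent.RFO
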