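import Mathlib
import Pool.Agent.RFO.St2
import Pool.Agent.RFO.OPN

/-!
# Lower bounds for the values of the form (module BND)
-/

set_option autoImplicit false

namespace Pool.Agent.RFO

namespace BND

variable {n : ℕ}

/-- the form in the coordinates of an orthonormal basis -/
theorem h_coord (H : HForm n) (e : Module.Basis (Fin (n + 1)) ℂ (Vn n))
    (he : ∀ i j, H.h (e i) (e j) = if i = j then (if i = Fin.last n then -1 else 1) else 0)
    (z v : Vn n) :
    H.h z v = (∑ i : Fin n, e.repr z i.castSucc * (starRingEnd ℂ) (e.repr v i.castSucc))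
      - e.repr z (Fin.last n) * (starRingEnd ℂ) (e.repr v (Fin.last n)) := by
  have h1 : H.h z v = ∑ i, e.repr z i * ((starRingEnd ℂ) (e.repr v i) *
      (if i = Fin.last n then -1 else 1)) := by
    conv_lhs => rw [← e.sum_repr z, ← e.sum_repr v]
    rw [OPN.h_sum_left]
    refine Finset.sum_congr rfl fun i _ => ?_
    congr 1
    rw [OPN.h_sum_right, Finset.sum_eq_single i]
    · rw [he, if_pos rfl]
    · intro j _ hj
      rw [he, if_neg (fun h => hj h.symm), mul_zero]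
    · intro h
      exact absurd (Finset.mem_univ i) h
  rw [h1, Fin.sum_univ_castSucc]
  have h2 : ∀ i : Fin n, (i.castSucc = Fin.last n) = False := by
    intro i
    simp only [eq_iff_iff, iff_false]
    exact (Fin.castSucc_lt_last i).ne
  simp only [h2, if_false, mul_one, if_true]
  ring

theorem h_smul_right (H : HForm n) (a : ℂ) (x y : Vn n) :
    H.h x (a • y) = (starRingEnd ℂ) a * H.h x y := by
  rw [H.herm, H.smul, map_mul, ← H.herm]

/-- a negative vector is not orthogonal to a vector of norm at most `0` -/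
theorem ne_zero (H : HForm n) {z v : Vn n} (hz : z ∈ cone H) (hv : (H.h v v).re ≤ 0)
    (hv0 : v ≠ 0) : H.h z v ≠ 0 := by
  obtain ⟨e, he⟩ := H.sig
  intro h0
  rw [h_coord H e he, sub_eq_zero] at h0
  have hz' : (∑ i : Fin n, ‖e.repr z i.castSucc‖ ^ 2) < ‖e.repr z (Fin.last n)‖ ^ 2 := by
    have h : (H.h z z).re < 0 := hz
    rw [OPN.h_self H e he] at h
    simp only [Complex.normSq_eq_norm_sq] at h
    linarith
  have hv' : (∑ i : Fin n, ‖e.repr v i.castSucc‖ ^ 2) ≤ ‖e.repr v (Fin.last n)‖ ^ 2 := by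
    rw [OPN.h_self H e he] at hv
    simp only [Complex.normSq_eq_norm_sq] at hv
    linarith
  have hvn : e.repr v (Fin.last n) ≠ 0 := by
    intro hn
    apply hv0
    rw [hn, norm_zero] at hv'
    have h1 : ∀ i : Fin n, e.repr v i.castSucc = 0 := by
      intro i
      have h2 : ‖e.repr v i.castSucc‖ ^ 2 ≤ ∑ i : Fin n, ‖e.repr v i.castSucc‖ ^ 2 :=
        Finset.single_le_sum (f := fun i : Fin n => ‖e.repr v i.castSucc‖ ^ 2)
          (fun j _ => sq_nonneg _) (Finset.mem_univ i)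
      have h3 : ‖e.repr v i.castSucc‖ ^ 2 ≤ 0 := by nlinarith
      have h4 : ‖e.repr v i.castSucc‖ = 0 := by nlinarith [norm_nonneg (e.repr v i.castSucc)]
      exact norm_eq_zero.1 h4
    apply e.repr.injective
    rw [map_zero]
    ext i
    refine Fin.lastCases ?_ (fun j => ?_) i
    · rw [hn]; rfl
    · rw [h1]; rfl
  have hcs : ‖∑ i : Fin n, e.repr z i.castSucc * (starRingEnd ℂ) (e.repr v i.castSucc)‖ ^ 2 ≤
      (∑ i : Fin n, ‖e.repr z i.castSucc‖ ^ 2) * ∑ i : Fin n, ‖e.repr v i.castSucc‖ ^ 2 := by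
    have h1 : ‖∑ i : Fin n, e.repr z i.castSucc * (starRingEnd ℂ) (e.repr v i.castSucc)‖ ≤
        ∑ i : Fin n, ‖e.repr z i.castSucc‖ * ‖e.repr v i.castSucc‖ := by
      refine (norm_sum_le _ _).trans_eq ?_
      refine Finset.sum_congr rfl fun i _ => ?_
      rw [norm_mul, RCLike.norm_conj]
    refine (pow_le_pow_left₀ (norm_nonneg _) h1 2).trans ?_
    exact Finset.sum_mul_sq_le_sq_mul_sq _ _ _
  rw [h0, norm_mul, RCLike.norm_conj, mul_pow] at hcs
  have hpos : 0 < ‖e.repr v (Fin.last n)‖ ^ 2 := by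
    have := norm_pos_iff.2 hvn
    positivity
  have hS : 0 ≤ ∑ i : Fin n, ‖e.repr z i.castSucc‖ ^ 2 :=
    Finset.sum_nonneg fun i _ => sq_nonneg _
  have h5 : (∑ i : Fin n, ‖e.repr z i.castSucc‖ ^ 2) * (∑ i : Fin n, ‖e.repr v i.castSucc‖ ^ 2) ≤
      (∑ i : Fin n, ‖e.repr z i.castSucc‖ ^ 2) * ‖e.repr v (Fin.last n)‖ ^ 2 :=
    mul_le_mul_of_nonneg_left hv' hS
  have h6 : (∑ i : Fin n, ‖e.repr z i.castSucc‖ ^ 2) * ‖e.repr v (Fin.last n)‖ ^ 2 <
      ‖e.repr z (Fin.last n)‖ ^ 2 * ‖e.repr v (Fin.last n)‖ ^ 2 :=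
    mul_lt_mul_of_pos_right hz' hpos
  linarith

theorem continuous_h (H : HForm n) : Continuous fun p : Vn n × Vn n => H.h p.1 p.2 := by
  obtain ⟨e, he⟩ := H.sig
  have hc : ∀ i, Continuous fun z : Vn n => e.repr z i := by
    intro i
    exact (e.coord i).continuous_of_finiteDimensional
  have h1 : (fun p : Vn n × Vn n => H.h p.1 p.2) = fun p : Vn n × Vn n =>
      (∑ i : Fin n, e.repr p.1 i.castSucc * (starRingEnd ℂ) (e.repr p.2 i.castSucc))
      - e.repr p.1 (Fin.last n) * (starRingEnd ℂ) (e.repr p.2 (Fin.last n)) := by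
    funext p
    exact h_coord H e he p.1 p.2
  rw [h1]
  refine Continuous.sub (continuous_finsetSum _ fun i _ => ?_) ?_
  · exact ((hc _).comp continuous_fst).mul
      (Complex.continuous_conj.comp ((hc _).comp continuous_snd))
  · exact ((hc _).comp continuous_fst).mul
      (Complex.continuous_conj.comp ((hc _).comp continuous_snd))

end BND

theorem BND_thm : S_BND := by
  intro n H z₀ hz₀
  obtain ⟨hopen, -, -⟩ := OPN_thm n H
  obtain ⟨ε, hε, hball⟩ := Metric.isOpen_iff.1 hopen z₀ hz₀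
  have hcont := BND.continuous_h H
  have hcl : IsClosed {v : Vn n | ‖v‖ = 1 ∧ (H.h v v).re ≤ 0} := by
    refine IsClosed.inter (isClosed_eq continuous_norm continuous_const) ?_
    exact isClosed_le (Complex.continuous_re.comp (hcont.comp (continuous_id.prodMk continuous_id)))
      continuous_const
  have hcp : IsCompact {v : Vn n | ‖v‖ = 1 ∧ (H.h v v).re ≤ 0} := by
    refine (isCompact_closedBall (0 : Vn n) 1).of_isClosed_subset hcl ?_
    intro v hv
    rw [mem_closedBall_zero_iff]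
    exact hv.1.le
  have hK : IsCompact (Metric.closedBall z₀ (ε / 2) ×ˢ
      {v : Vn n | ‖v‖ = 1 ∧ (H.h v v).re ≤ 0}) := (isCompact_closedBall z₀ (ε / 2)).prod hcp
  have hsub : ∀ z ∈ Metric.closedBall z₀ (ε / 2), z ∈ cone H := by
    intro z hz
    apply hball
    rw [Metric.mem_ball]
    rw [Metric.mem_closedBall] at hz
    linarith
  obtain ⟨δ, hδ, hmin⟩ := hK.exists_forall_le' (f := fun p : Vn n × Vn n => ‖H.h p.1 p.2‖)
    (hcont.norm.continuousOn) (a := 0) (by
      rintro ⟨z, v⟩ ⟨hz, hv⟩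
      have hv0 : v ≠ 0 := by
        intro h
        have h1 := hv.1
        rw [h] at h1
        simp at h1
      exact norm_pos_iff.2 (BND.ne_zero H (hsub z hz) hv.2 hv0))
  refine ⟨δ, hδ, ε / 2, by linarith, fun z hz => ?_⟩
  have hz' : z ∈ Metric.closedBall z₀ (ε / 2) := by
    rw [Metric.mem_closedBall, dist_eq_norm]
    exact hz.le
  refine ⟨hsub z hz', fun v hv => ?_⟩
  by_cases hv0 : v = 0
  · rw [hv0, norm_zero, mul_zero]
    exact norm_nonneg _
  have hn : 0 < ‖v‖ := norm_pos_iff.2 hv0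
  have hc : (((‖v‖⁻¹ : ℝ) : ℂ)) ≠ 0 := by
    rw [Complex.ofReal_ne_zero]
    exact (inv_pos.2 hn).ne'
  have hu : (z, ((‖v‖⁻¹ : ℝ) : ℂ) • v) ∈ Metric.closedBall z₀ (ε / 2) ×ˢ
      {v : Vn n | ‖v‖ = 1 ∧ (H.h v v).re ≤ 0} := by
    refine ⟨hz', ?_, ?_⟩
    · rw [norm_smul, Complex.norm_real, Real.norm_eq_abs, abs_of_pos (inv_pos.2 hn),
        inv_mul_cancel₀ hn.ne']
    · rw [H.smul, BND.h_smul_right, Complex.conj_ofReal, Complex.re_ofReal_mul,
        Complex.re_ofReal_mul]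
      have h1 : 0 ≤ ‖v‖⁻¹ := (inv_pos.2 hn).le
      exact mul_nonpos_of_nonneg_of_nonpos h1 (mul_nonpos_of_nonneg_of_nonpos h1 hv)
  have h1 := hmin _ hu
  have h2 : ‖H.h z (((‖v‖⁻¹ : ℝ) : ℂ) • v)‖ = ‖v‖⁻¹ * ‖H.h z v‖ := by
    rw [BND.h_smul_right, Complex.conj_ofReal, norm_mul, Complex.norm_real, Real.norm_eq_abs,
      abs_of_pos (inv_pos.2 hn)]
  have h3 : δ ≤ ‖v‖⁻¹ * ‖H.h z v‖ := by
    rw [← h2]
    exact h1
  have h4 := mul_le_mul_of_nonneg_right h3 hn.le
  rwa [mul_comm (‖v‖⁻¹) _, mul_assoc, inv_mul_cancel₀ hn.ne', mul_one] at h4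

end Pool.Agent.RFO
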