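import Mathlib
import Pool.Agent.RFO.St

/-!
# CH1: Chevalley's lemma from divided differences
-/

set_option autoImplicit false

namespace Pool.Agent.RFO

namespace CH1

variable {G T : Type} [Group G] [CommRing T] [Algebra ℂ T] [MulSemiringAction G T]
  [SMulCommClass G ℂ T]

theorem span_stable (hom : ℤ → Submodule ℂ T) (g : G) (x : T)
    (hx : x ∈ Ideal.span (Pos G hom)) : g • x ∈ Ideal.span (Pos G hom) := by
  induction hx using Submodule.span_induction with
  | mem x hx =>
    rw [hx.1 g]
    exact Ideal.subset_span hx
  | zero =>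
    rw [smul_zero]
    exact zero_mem _
  | add x y _ _ hx hy =>
    rw [smul_add]
    exact add_mem hx hy
  | smul a x _ hx =>
    rw [smul_eq_mul, smul_mul']
    exact Ideal.mul_mem_left _ _ hx

theorem diff_mem (hom : ℤ → Submodule ℂ T) (P : Set G) (hP : Subgroup.closure P = ⊤) (x : T)
    (h : ∀ ρ ∈ P, x - ρ • x ∈ Ideal.span (Pos G hom)) (g : G) :
    x - g • x ∈ Ideal.span (Pos G hom) := by
  have hg : g ∈ Subgroup.closure P := by
    rw [hP]
    exact Subgroup.mem_top g
  induction hg using Subgroup.closure_induction with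
  | mem ρ hρ => exact h ρ hρ
  | one =>
    rw [one_smul, sub_self]
    exact zero_mem _
  | mul g k _ _ hg hk =>
    have h1 : x - (g * k) • x = (x - g • x) + g • (x - k • x) := by
      rw [smul_sub, mul_smul]
      ring
    rw [h1]
    exact add_mem hg (span_stable hom g _ hk)
  | inv g _ hg =>
    have h1 : x - g⁻¹ • x = -(g⁻¹ • (x - g • x)) := by
      rw [smul_sub, inv_smul_smul]
      ring
    rw [h1]
    exact neg_mem (span_stable hom g⁻¹ _ hg)

theorem csmul_mem (hom : ℤ → Submodule ℂ T) (c : ℂ) (x : T)
    (hx : x ∈ Ideal.span (Pos G hom)) : c • x ∈ Ideal.span (Pos G hom) := by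
  rw [Algebra.smul_def]
  exact Ideal.mul_mem_left _ _ hx

end CH1

theorem CH1_thm : S_CH1 := by
  classical
  intro G T _ _ _ _ _ _ _ hom hHm P hP hDD
  haveI : Fintype G := Fintype.ofFinite G
  have key : ∀ N : ℕ, ∀ (r : ℕ) (s f : Fin (r + 1) → T) (a b : Fin (r + 1) → ℤ) (w : ℤ),
      (∀ i, s i ∈ hom (a i)) → (∀ i, f i ∈ hom (b i)) → (∀ i, a i + b i = w) →
      (∀ i (g : G), g • s i = s i) → ∑ i, s i * f i = 0 → NotIn G s → b 0 < N →
      f 0 ∈ Ideal.span (Pos G hom) := by
    intro N
    induction N with
    | zero =>
      intro r s f a b w _ hf _ _ _ _ hb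
      rw [hHm.neg (b 0) (f 0) (by simpa using hb) (hf 0)]
      exact zero_mem _
    | succ N ih =>
      intro r s f a b w hs hf hab hfx hsum hN hb
      rcases lt_or_ge (b 0) 0 with hb0 | hb0
      · rw [hHm.neg (b 0) (f 0) hb0 (hf 0)]
        exact zero_mem _
      -- differences
      have h1 : ∀ ρ ∈ P, f 0 - ρ • f 0 ∈ Ideal.span (Pos G hom) := by
        intro ρ hρ
        obtain ⟨e, he, t, ht, hdd⟩ := hDD ρ hρ
        choose y hy hyt using fun i => hdd (b i) (f i) (hf i)
        have h2 : ∑ i, s i * y i = 0 := by
          have h3 : t * ∑ i, s i * y i = 0 := by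
            have h4 : t * ∑ i, s i * y i = ∑ i, s i * f i - ρ • ∑ i, s i * f i := by
              rw [Finset.mul_sum, Finset.smul_sum, ← Finset.sum_sub_distrib]
              refine Finset.sum_congr rfl fun i _ => ?_
              rw [smul_mul', hfx i ρ, ← mul_sub, hyt i]
              ring
            rw [h4, hsum, smul_zero, sub_zero]
          exact (mul_eq_zero.1 h3).resolve_left ht
        have h5 := ih r s y a (fun i => b i - e) (w - e) hs hy
          (fun i => by have := hab i; omega) hfx h2 hN
          (by push_cast at hb; omega)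
        rw [hyt 0]
        exact Ideal.mul_mem_left _ _ h5
      have h6 := CH1.diff_mem hom P hP (f 0) h1
      -- the averages
      set c : ℂ := ((Fintype.card G : ℕ) : ℂ)⁻¹ with hc
      have hcard : ((Fintype.card G : ℕ) : ℂ) ≠ 0 := by
        exact_mod_cast Fintype.card_ne_zero
      set F : Fin (r + 1) → T := fun i => c • ∑ g : G, g • f i with hF
      have hFinv : ∀ i (g : G), g • F i = F i := by
        intro i g
        simp only [hF]
        rw [smul_comm, Finset.smul_sum]
        congr 1
        simp_rw [smul_smul]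
        exact Fintype.sum_equiv (Equiv.mulLeft g) _ _ fun k => rfl
      have hFhom : ∀ i, F i ∈ hom (b i) := fun i =>
        Submodule.smul_mem _ _ (Submodule.sum_mem _ fun g _ => hHm.act g (b i) (f i) (hf i))
      have hFsum : ∑ i, s i * F i = 0 := by
        have h7 : ∑ i, s i * F i = c • ∑ g : G, g • ∑ i, s i * f i := by
          simp only [hF]
          simp_rw [mul_smul_comm, Finset.mul_sum]
          rw [← Finset.smul_sum, Finset.sum_comm]
          congr 1
          refine Finset.sum_congr rfl fun g _ => ?_
          rw [Finset.smul_sum]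
          refine Finset.sum_congr rfl fun i _ => ?_
          rw [smul_mul', hfx i g]
        rw [h7, hsum]
        simp
      have hdec : f 0 = F 0 + c • ∑ g : G, (f 0 - g • f 0) := by
        simp only [hF]
        rw [← smul_add, ← Finset.sum_add_distrib]
        simp only [add_sub_cancel]
        rw [Finset.sum_const, Finset.card_univ, ← Nat.cast_smul_eq_nsmul ℂ, smul_smul, hc,
          inv_mul_cancel₀ hcard, one_smul]
      have hFJ : F 0 ∈ Ideal.span (Pos G hom) := by
        rcases hb0.lt_or_eq with hb1 | hb1
        · exact Ideal.subset_span ⟨hFinv 0, b 0, hb1, hFhom 0⟩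
        · have h8 := hFhom 0
          rw [← hb1] at h8
          obtain ⟨d, hd⟩ := hHm.zero (F 0) h8 (hFinv 0)
          by_cases hd0 : d = 0
          · rw [hd, hd0, map_zero]
            exact zero_mem _
          · exfalso
            apply hN
            refine ⟨fun i => (-d⁻¹) • F i.succ, fun i g => ?_, ?_⟩
            · rw [smul_comm, hFinv]
            · rw [Fin.sum_univ_succ, hd] at hFsum
              have h9 : s 0 * algebraMap ℂ T d = - ∑ i : Fin r, s i.succ * F i.succ :=
                eq_neg_of_add_eq_zero_left hFsum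
              have h10 : s 0 = d⁻¹ • (s 0 * algebraMap ℂ T d) := by
                rw [← mul_smul_comm, Algebra.algebraMap_eq_smul_one, smul_smul,
                  inv_mul_cancel₀ hd0, one_smul, mul_one]
              rw [h10, h9, smul_neg, ← neg_smul, Finset.smul_sum]
              refine Finset.sum_congr rfl fun i _ => ?_
              rw [smul_mul_assoc, mul_comm]
      rw [hdec]
      refine add_mem hFJ (CH1.csmul_mem hom _ _ ?_)
      exact Submodule.sum_mem _ fun g _ => h6 g
  intro r s f hR hN
  obtain ⟨a, b, w, hs, hf, hab⟩ := hR.ex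
  refine key ((b 0).toNat + 1) r s f a b w hs hf hab hR.fx hR.sum hN ?_
  have := Int.self_le_toNat (b 0)
  push_cast
  omega

end Pool.Agent.RFO
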