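import Mathlib
import Pool.Agent.RFO.St

/-!
# The second half of Chevalley's argument (MP_06550c_nt, module CH2)
-/

set_option autoImplicit false

namespace Pool.Agent.RFO.CH2

open MvPolynomial

section Gen

variable {σ τ : Type}

attribute [local instance] MvPolynomial.weightedGradedAlgebra in
theorem comp_mul (w : σ → ℕ) (e n : ℕ) (q x : MvPolynomial σ ℂ)
    (hx : IsWeightedHomogeneous w x e) :
    weightedHomogeneousComponent w n (q * x) =
      (if e ≤ n then weightedHomogeneousComponent w (n - e) q else 0) * x := by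
  classical
  have hx' : x ∈ weightedHomogeneousSubmodule ℂ w e := hx
  have key := DirectSum.coe_decompose_mul_of_right_mem
    (𝒜 := weightedHomogeneousSubmodule ℂ w) (a := q) (b := x) n hx'
  have h1 : ∀ (p : MvPolynomial σ ℂ) (j : ℕ),
      ((DirectSum.decompose (weightedHomogeneousSubmodule ℂ w) p j :
        weightedHomogeneousSubmodule ℂ w j) : MvPolynomial σ ℂ) =
        weightedHomogeneousComponent w j p :=
    fun p j => MvPolynomial.decompose'_apply ℂ w p j
  rw [h1] at key
  rw [key]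
  by_cases he : e ≤ n
  · rw [if_pos he, if_pos he, h1]
  · rw [if_neg he, if_neg he, zero_mul]

theorem lin_comp (w : σ → ℕ) (w' : τ → ℕ) (L : MvPolynomial σ ℂ →ₗ[ℂ] MvPolynomial τ ℂ)
    (hL : ∀ k p, IsWeightedHomogeneous w p k → IsWeightedHomogeneous w' (L p) k) (k : ℕ)
    (p : MvPolynomial σ ℂ) :
    weightedHomogeneousComponent w' k (L p) = L (weightedHomogeneousComponent w k p) := by
  classical
  induction p using MvPolynomial.induction_on' with
  | monomial u a =>
    have h0 : IsWeightedHomogeneous w (monomial u a) (Finsupp.weight w u) :=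
      isWeightedHomogeneous_monomial w u a rfl
    rw [weightedHomogeneousComponent_of_mem (h := h0),
      weightedHomogeneousComponent_of_mem (h := hL _ _ h0)]
    split
    · rfl
    · rw [map_zero]
  | add p q hp hq => rw [map_add, map_add, map_add, map_add, hp, hq]

theorem pd (w : σ → ℕ) (i : σ) (n : ℕ) (p : MvPolynomial σ ℂ)
    (hp : IsWeightedHomogeneous w p n) :
    (w i ≤ n ∧ IsWeightedHomogeneous w (pderiv i p) (n - w i)) ∨
      (n < w i ∧ pderiv i p = 0) := by
  classical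
  by_cases h : w i ≤ n
  · exact Or.inl ⟨h, hp.pderiv (Nat.sub_add_cancel h)⟩
  · refine Or.inr ⟨not_le.1 h, pderiv_eq_zero_of_notMem_vars ?_⟩
    intro hi
    rw [mem_vars] at hi
    obtain ⟨d, hd, hdi⟩ := hi
    have h1 : Finsupp.weight w d = n := hp (mem_support_iff.1 hd)
    have h2 := Finsupp.le_weight_of_ne_zero' w (Finsupp.mem_support_iff.1 hdi)
    omega

theorem wh_aeval [Fintype σ] (d : σ → ℕ) (w : τ → ℕ) (f : σ → MvPolynomial τ ℂ)
    (hf : ∀ i, IsWeightedHomogeneous w (f i) (d i)) (n : ℕ) (h : MvPolynomial σ ℂ)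
    (hh : IsWeightedHomogeneous d h n) : IsWeightedHomogeneous w (aeval f h) n := by
  classical
  rw [aeval_def, eval₂_eq']
  refine IsWeightedHomogeneous.sum _ _ _ ?_
  intro u hu
  have h1 : Finsupp.weight d u = n := hh (mem_support_iff.1 hu)
  have h2 : IsWeightedHomogeneous w (∏ i, f i ^ u i) (∑ i, u i • d i) :=
    IsWeightedHomogeneous.prod _ _ _ (fun i _ => (hf i).pow (u i))
  have h3 : ∑ i, u i • d i = n := by
    rw [← h1, Finsupp.weight_apply, Finsupp.sum_fintype]
    intro i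
    rw [zero_smul]
  rw [h3] at h2
  exact h2.C_mul (coeff u h)

theorem chain [Fintype σ] (f : σ → MvPolynomial τ ℂ) (i : τ) (h : MvPolynomial σ ℂ) :
    pderiv i (aeval f h) = ∑ x, aeval f (pderiv x h) * pderiv i (f x) := by
  classical
  induction h using MvPolynomial.induction_on with
  | C a => simp [algebraMap_eq]
  | add p q hp hq =>
    rw [map_add, map_add, hp, hq, ← Finset.sum_add_distrib]
    refine Finset.sum_congr rfl fun x _ => ?_
    rw [map_add, map_add, add_mul]
  | mul_X p y hp =>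
    rw [map_mul, aeval_X, Derivation.leibniz, hp, smul_eq_mul, smul_eq_mul, Finset.mul_sum]
    have h1 : ∀ x, aeval f (pderiv x (p * X y)) * pderiv i (f x) =
        (if x = y then aeval f p * pderiv i (f y) else 0) +
          f y * (aeval f (pderiv x p) * pderiv i (f x)) := by
      intro x
      rw [Derivation.leibniz, smul_eq_mul, smul_eq_mul, map_add, map_mul, map_mul, aeval_X]
      by_cases hxy : x = y
      · subst hxy
        rw [if_pos rfl, pderiv_X_self, map_one]
        ring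
      · rw [if_neg hxy, pderiv_X_of_ne (fun hh => hxy hh.symm), map_zero]
        ring
    rw [Finset.sum_congr rfl (fun x _ => h1 x), Finset.sum_add_distrib,
      Finset.sum_ite_eq' Finset.univ y, if_pos (Finset.mem_univ y)]

theorem const_of_zero (w : σ → ℕ) (hw : ∀ i, w i ≠ 0) (p : MvPolynomial σ ℂ)
    (hp : IsWeightedHomogeneous w p 0) : p = C (coeff 0 p) := by
  rw [← weightedHomogeneousComponent_zero (w := w) p hw]
  exact hp.weightedHomogeneousComponent_same.symm

theorem hspan [Fintype τ] (w : σ → ℕ) (f : τ → MvPolynomial σ ℂ) (d : τ → ℕ)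
    (hd : ∀ x, IsWeightedHomogeneous w (f x) (d x)) (n : ℕ) (p : MvPolynomial σ ℂ)
    (hp : IsWeightedHomogeneous w p n) (c : τ → MvPolynomial σ ℂ) (hc : p = ∑ x, c x * f x) :
    p = ∑ x, (if d x ≤ n then weightedHomogeneousComponent w (n - d x) (c x) else 0) * f x := by
  have h1 : weightedHomogeneousComponent w n p = p := hp.weightedHomogeneousComponent_same
  rw [← h1]
  conv_lhs => rw [hc, map_sum]
  exact Finset.sum_congr rfl fun x _ => comp_mul w (d x) n (c x) (f x) (hd x)

end Gen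

section WHl

variable {m : ℕ} (w : Fin m → ℕ)

theorem wh_nat (n : ℕ) (p : MvPolynomial (Fin m) ℂ) :
    p ∈ WH w (n : ℤ) ↔ IsWeightedHomogeneous w p n := by
  unfold WH
  rw [if_neg (by omega), Int.toNat_natCast]
  rfl

theorem wh_neg (k : ℤ) (hk : k < 0) (p : MvPolynomial (Fin m) ℂ) : p ∈ WH w k ↔ p = 0 := by
  unfold WH
  rw [if_pos hk]
  exact Submodule.mem_bot ℂ

theorem wh_mul (a b : ℤ) (p q : MvPolynomial (Fin m) ℂ) (hp : p ∈ WH w a) (hq : q ∈ WH w b) :
    p * q ∈ WH w (a + b) := by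
  by_cases ha : a < 0
  · rw [(wh_neg w a ha p).1 hp, zero_mul]
    exact Submodule.zero_mem _
  by_cases hb : b < 0
  · rw [(wh_neg w b hb q).1 hq, mul_zero]
    exact Submodule.zero_mem _
  obtain ⟨a', rfl⟩ := Int.eq_ofNat_of_zero_le (not_lt.1 ha)
  obtain ⟨b', rfl⟩ := Int.eq_ofNat_of_zero_le (not_lt.1 hb)
  have h1 := (wh_nat w a' p).1 hp
  have h2 := (wh_nat w b' q).1 hq
  have h3 := (wh_nat w (a' + b') (p * q)).2 (h1.mul h2)
  rwa [Nat.cast_add] at h3

theorem wh_pd (i : Fin m) (a : ℤ) (p : MvPolynomial (Fin m) ℂ) (hp : p ∈ WH w a) :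
    pderiv i p ∈ WH w (a - w i) := by
  by_cases ha : a < 0
  · rw [(wh_neg w a ha p).1 hp, map_zero]
    exact Submodule.zero_mem _
  obtain ⟨n, rfl⟩ := Int.eq_ofNat_of_zero_le (not_lt.1 ha)
  rcases pd w i n p ((wh_nat w n p).1 hp) with ⟨h1, h2⟩ | ⟨h1, h2⟩
  · have h3 := (wh_nat w (n - w i) (pderiv i p)).2 h2
    rwa [Nat.cast_sub h1] at h3
  · rw [h2]
    exact Submodule.zero_mem _

/-- the generators of the ideal -/
def Sp (S : Subalgebra ℂ (MvPolynomial (Fin m) ℂ)) : Set (MvPolynomial (Fin m) ℂ) :=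
  {x | x ∈ S ∧ ∃ k, 0 < k ∧ x ∈ WH w k}

theorem sp_deg (S : Subalgebra ℂ (MvPolynomial (Fin m) ℂ)) (x : MvPolynomial (Fin m) ℂ)
    (hx : x ∈ Sp w S) : ∃ d : ℕ, 0 < d ∧ IsWeightedHomogeneous w x d := by
  obtain ⟨-, k, hk, hxk⟩ := hx
  obtain ⟨n, rfl⟩ := Int.eq_ofNat_of_zero_le hk.le
  exact ⟨n, by omega, (wh_nat w n x).1 hxk⟩

end WHl

section Main

variable {m : ℕ} (w : Fin m → ℕ) (hw : ∀ i, 0 < w i)
  (S : Subalgebra ℂ (MvPolynomial (Fin m) ℂ))
  (π : MvPolynomial (Fin m) ℂ →ₗ[ℂ] MvPolynomial (Fin m) ℂ)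
  (h1 : ∀ k, ∀ p ∈ WH w k, π p ∈ WH w k) (h2 : ∀ p, π p ∈ S)
  (h3 : ∀ s ∈ S, ∀ p, π (s * p) = s * π p) (h4 : π 1 = 1)

include h1

theorem pi_nat (k : ℕ) (p : MvPolynomial (Fin m) ℂ) (hp : IsWeightedHomogeneous w p k) :
    IsWeightedHomogeneous w (π p) k :=
  (wh_nat w k (π p)).1 (h1 k p ((wh_nat w k p).2 hp))

include h2 h3 h4

theorem comp_S (k : ℕ) (s : MvPolynomial (Fin m) ℂ) (hs : s ∈ S) :
    weightedHomogeneousComponent w k s ∈ S := by
  have e1 : π s = s := by
    have := h3 s hs 1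
    rwa [mul_one, h4, mul_one] at this
  rw [← e1, lin_comp w w π (pi_nat w π h1) k s]
  exact h2 _

include hw

/-- homogeneous generators of the ideal generate the algebra -/
theorem gen (F : Finset (MvPolynomial (Fin m) ℂ)) (hF : (F : Set _) ⊆ Sp w S)
    (hI : Ideal.span (F : Set (MvPolynomial (Fin m) ℂ)) = Ideal.span (Sp w S)) :
    Algebra.adjoin ℂ (F : Set (MvPolynomial (Fin m) ℂ)) = S := by
  classical
  apply le_antisymm
  · exact Algebra.adjoin_le fun x hx => (hF hx).1
  · have hd : ∀ x : F, ∃ d : ℕ, 0 < d ∧ IsWeightedHomogeneous w (x : MvPolynomial (Fin m) ℂ) d :=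
      fun x => sp_deg w S x (hF x.2)
    choose d hd0 hdw using hd
    have key : ∀ n : ℕ, ∀ s ∈ S, IsWeightedHomogeneous w s n →
        s ∈ Algebra.adjoin ℂ (F : Set (MvPolynomial (Fin m) ℂ)) := by
      intro n
      induction n using Nat.strong_induction_on with
      | _ n ih =>
        intro s hs hsn
        rcases Nat.eq_zero_or_pos n with hn | hn
        · subst hn
          rw [const_of_zero w (fun i => (hw i).ne') s hsn]
          exact Subalgebra.algebraMap_mem _ _
        · have hsI : s ∈ Ideal.span (F : Set (MvPolynomial (Fin m) ℂ)) := by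
            rw [hI]
            exact Ideal.subset_span ⟨hs, n, by exact_mod_cast hn, (wh_nat w n s).2 hsn⟩
          have hr : (F : Set (MvPolynomial (Fin m) ℂ)) =
              Set.range (fun x : F => (x : MvPolynomial (Fin m) ℂ)) := Subtype.range_coe.symm
          rw [hr, Ideal.mem_span_range_iff_exists_fun] at hsI
          obtain ⟨c, hc⟩ := hsI
          have hsp := hspan w (fun x : F => (x : MvPolynomial (Fin m) ℂ)) d hdw n s hsn c hc.symm
          have e1 : π s = s := by
            have := h3 s hs 1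
            rwa [mul_one, h4, mul_one] at this
          rw [← e1, hsp, map_sum]
          refine Subalgebra.sum_mem _ fun x _ => ?_
          rw [mul_comm, h3 _ (hF x.2).1]
          refine Subalgebra.mul_mem _ (Algebra.subset_adjoin x.2) ?_
          by_cases hx : d x ≤ n
          · rw [if_pos hx]
            refine ih (n - d x) (by have := hd0 x; omega) _ (h2 _) (pi_nat w π h1 _ _ ?_)
            exact weightedHomogeneousComponent_mem w _ _
          · rw [if_neg hx, map_zero]
            exact Subalgebra.zero_mem _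
    intro s hs
    rw [← sum_weightedHomogeneousComponent w s]
    refine finsum_induction (fun x => x ∈ Algebra.adjoin ℂ (F : Set (MvPolynomial (Fin m) ℂ)))
      (Subalgebra.zero_mem _) (fun x y hx hy => Subalgebra.add_mem _ hx hy) ?_
    intro k
    exact key k _ (comp_S w S π h1 h2 h3 h4 k s hs) (weightedHomogeneousComponent_mem w s k)

end Main

section Ind

/-- a homogeneous relation of minimal degree -/
theorem rel {σ τ : Type} [Fintype σ] (d : σ → ℕ) (w : τ → ℕ) (f : σ → MvPolynomial τ ℂ)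
    (hf : ∀ i, IsWeightedHomogeneous w (f i) (d i)) (hn : ¬ AlgebraicIndependent ℂ f) :
    ∃ (k : ℕ) (h : MvPolynomial σ ℂ), h ≠ 0 ∧ IsWeightedHomogeneous d h k ∧ aeval f h = 0 ∧
      ∀ j < k, ∀ h' : MvPolynomial σ ℂ, IsWeightedHomogeneous d h' j → aeval f h' = 0 →
        h' = 0 := by
  classical
  have hex : ∃ (k : ℕ) (h : MvPolynomial σ ℂ), h ≠ 0 ∧ IsWeightedHomogeneous d h k ∧
      aeval f h = 0 := by
    rw [algebraicIndependent_iff] at hn
    push Not at hn
    obtain ⟨h, h0, h1⟩ := hn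
    by_contra hcon
    push Not at hcon
    apply h1
    rw [← sum_weightedHomogeneousComponent d h]
    refine finsum_induction (fun x => x = 0) rfl (fun x y hx hy => by rw [hx, hy, add_zero]) ?_
    intro k
    by_contra hk
    refine hcon k _ hk (weightedHomogeneousComponent_mem d h k) ?_
    have := lin_comp d w (aeval f : MvPolynomial σ ℂ →ₐ[ℂ] MvPolynomial τ ℂ).toLinearMap
      (fun n p hp => wh_aeval d w f hf n p hp) k h
    rw [AlgHom.toLinearMap_apply, AlgHom.toLinearMap_apply, h0, map_zero] at this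
    exact this.symm
  obtain ⟨h, h0, hk, he⟩ := Nat.find_spec hex
  refine ⟨Nat.find hex, h, h0, hk, he, fun j hj h' h1' h2' => ?_⟩
  by_contra h3'
  exact Nat.find_min hex hj ⟨h', h3', h1', h2'⟩

/-- a minimal generating subset -/
theorem minA {σ R : Type} [Fintype σ] [DecidableEq σ] [CommRing R] [Algebra ℂ R]
    (S : Subalgebra ℂ R) (hh : σ → R) :
    ∃ A : Finset σ, (∀ x, ∃ u : σ → R, (∀ y, u y ∈ S) ∧ hh x = ∑ y ∈ A, u y * hh y) ∧
      ∀ i ∈ A, ¬ ∃ u : σ → R, (∀ y, u y ∈ S) ∧ hh i = ∑ y ∈ A.erase i, u y * hh y := by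
  classical
  have hex : ∃ (n : ℕ) (A : Finset σ), A.card = n ∧
      ∀ x, ∃ u : σ → R, (∀ y, u y ∈ S) ∧ hh x = ∑ y ∈ A, u y * hh y := by
    refine ⟨_, Finset.univ, rfl, fun x => ⟨fun y => if y = x then 1 else 0, ?_, ?_⟩⟩
    · intro y
      dsimp only
      split
      · exact Subalgebra.one_mem _
      · exact Subalgebra.zero_mem _
    · rw [Finset.sum_eq_single x]
      · dsimp only
        rw [if_pos rfl, one_mul]
      · intro y _ hy
        dsimp only
        rw [if_neg hy, zero_mul]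
      · intro hx
        exact absurd (Finset.mem_univ x) hx
  obtain ⟨A, hA, hA2⟩ := Nat.find_spec hex
  refine ⟨A, hA2, fun i hi hcon => ?_⟩
  obtain ⟨u, hu, hu2⟩ := hcon
  have hlt : (A.erase i).card < Nat.find hex := by
    rw [← hA]
    exact Finset.card_erase_lt_of_mem hi
  refine Nat.find_min hex hlt ⟨A.erase i, rfl, fun x => ?_⟩
  obtain ⟨v, hv, hv2⟩ := hA2 x
  refine ⟨fun y => v i * u y + v y,
    fun y => Subalgebra.add_mem _ (Subalgebra.mul_mem _ (hv i) (hu y)) (hv y), ?_⟩
  rw [hv2, ← Finset.add_sum_erase A _ hi, hu2, Finset.mul_sum, ← Finset.sum_add_distrib]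
  refine Finset.sum_congr rfl fun y _ => ?_
  ring

/-- the criterion of flatness for a finite family -/
theorem fp_use {m : ℕ} (w : Fin m → ℕ) (S : Subalgebra ℂ (MvPolynomial (Fin m) ℂ))
    (hFP : FP w S) {σ : Type} [DecidableEq σ] (A : Finset σ) (i : σ) (hi : i ∈ A)
    (s p : σ → MvPolynomial (Fin m) ℂ) (a b : σ → ℤ) (c : ℤ)
    (hs : ∀ y, s y ∈ S ∧ s y ∈ WH w (a y)) (hp : ∀ y, p y ∈ WH w (b y))
    (hab : ∀ y, a y + b y = c) (hsum : ∑ y ∈ A, s y * p y = 0)
    (hni : ¬ ∃ u : σ → MvPolynomial (Fin m) ℂ, (∀ y, u y ∈ S) ∧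
      s i = ∑ y ∈ A.erase i, u y * s y) :
    p i ∈ Ideal.span (Sp w S) := by
  classical
  let e : Fin (A.erase i).card ≃ ↥(A.erase i) := (A.erase i).equivFin.symm
  have hse : ∀ F : σ → MvPolynomial (Fin m) ℂ,
      ∑ j : Fin (A.erase i).card, F (e j) = ∑ y ∈ A.erase i, F y := by
    intro F
    rw [Equiv.sum_comp e (fun y : ↥(A.erase i) => F y), Finset.sum_coe_sort (A.erase i) F]
  have key := hFP (A.erase i).card (Fin.cons (s i) fun j => s (e j))
    (Fin.cons (p i) fun j => p (e j)) (Fin.cons (a i) fun j => a (e j))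
    (Fin.cons (b i) fun j => b (e j)) c
    (fun j => Fin.cases (hs i) (fun j => hs (e j)) j)
    (fun j => Fin.cases (hp i) (fun j => hp (e j)) j)
    (fun j => Fin.cases (hab i) (fun j => hab (e j)) j) ?_ ?_
  · exact key
  · rw [Fin.sum_univ_succ]
    simp only [Fin.cons_zero, Fin.cons_succ]
    rw [hse (fun y => s y * p y), Finset.add_sum_erase A (fun y => s y * p y) hi, hsum]
  · rintro ⟨u, hu, hu2⟩
    simp only [Fin.cons_zero, Fin.cons_succ] at hu2
    refine hni ⟨fun y => if hy : y ∈ A.erase i then u (e.symm ⟨y, hy⟩) else 0, ?_, ?_⟩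
    · intro y
      dsimp only
      split
      · exact hu _
      · exact Subalgebra.zero_mem _
    · rw [hu2, ← hse (fun y => (if hy : y ∈ A.erase i then u (e.symm ⟨y, hy⟩) else 0) * s y)]
      refine Finset.sum_congr rfl fun j _ => ?_
      rw [dif_pos (e j).2, Subtype.coe_eta, Equiv.symm_apply_apply]

end Ind

section Fin

variable {m : ℕ} (w : Fin m → ℕ) (hw : ∀ i, 0 < w i)
  (S : Subalgebra ℂ (MvPolynomial (Fin m) ℂ))
  (hcS : ∀ k : ℕ, ∀ s ∈ S, weightedHomogeneousComponent w k s ∈ S) (hFP : FP w S)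

include hw hcS hFP

/-- the key step -/
theorem red (F : Finset (MvPolynomial (Fin m) ℂ)) (hF : (F : Set _) ⊆ Sp w S)
    (hI : Ideal.span (F : Set (MvPolynomial (Fin m) ℂ)) = Ideal.span (Sp w S))
    (hn : ¬ AlgebraicIndependent ℂ (fun x : F => (x : MvPolynomial (Fin m) ℂ))) :
    ∃ x ∈ F, x ∈ Ideal.span ((F.erase x : Finset _) : Set (MvPolynomial (Fin m) ℂ)) := by
  classical
  have hd : ∀ x : F, ∃ d : ℕ, 0 < d ∧ IsWeightedHomogeneous w (x : MvPolynomial (Fin m) ℂ) d :=
    fun x => sp_deg w S x (hF x.2)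
  choose d hd0 hdw using hd
  set f : F → MvPolynomial (Fin m) ℂ := fun x => (x : MvPolynomial (Fin m) ℂ) with hfdef
  have hfS : ∀ x, f x ∈ S := fun x => (hF x.2).1
  obtain ⟨k, h, h0, hk, he, hmin⟩ := rel d w f hdw hn
  have haS : ∀ q : MvPolynomial F ℂ, aeval f q ∈ S := by
    intro q
    have hq : aeval f q ∈ (aeval f : MvPolynomial F ℂ →ₐ[ℂ] _).range := ⟨q, rfl⟩
    rw [← Algebra.adjoin_range_eq_range_aeval] at hq
    refine (Algebra.adjoin_le ?_ : _ ≤ S) hq
    rintro _ ⟨x, rfl⟩
    exact hfS x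
  set hh : F → MvPolynomial (Fin m) ℂ := fun x => aeval f (pderiv x h) with hhdef
  have hhS : ∀ x, hh x ∈ S := fun x => haS _
  -- degrees of the derivatives
  have hdeg : ∀ x, (d x ≤ k ∧ IsWeightedHomogeneous w (hh x) (k - d x)) ∨
      (k < d x ∧ hh x = 0) := by
    intro x
    rcases pd d x k h hk with ⟨a1, a2⟩ | ⟨a1, a2⟩
    · exact Or.inl ⟨a1, wh_aeval d w f hdw _ _ a2⟩
    · refine Or.inr ⟨a1, ?_⟩
      rw [hhdef]
      dsimp only
      rw [a2, map_zero]
  have hhW : ∀ x, hh x ∈ WH w ((k : ℤ) - d x) := by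
    intro x
    rcases hdeg x with ⟨a1, a2⟩ | ⟨a1, a2⟩
    · have := (wh_nat w (k - d x) (hh x)).2 a2
      rwa [Nat.cast_sub a1] at this
    · rw [a2]
      exact Submodule.zero_mem _
  -- not all of them vanish
  have hne : ∃ x, hh x ≠ 0 := by
    by_contra hcon
    push Not at hcon
    have hp0 : ∀ x, pderiv x h = 0 := by
      intro x
      rcases pd d x k h hk with ⟨a1, a2⟩ | ⟨a1, a2⟩
      · exact hmin (k - d x) (by have := hd0 x; omega) _ a2 (hcon x)
      · exact a2
    have hE := hk.sum_weight_X_mul_pderiv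
    rw [Finset.sum_eq_zero (fun x _ => by rw [hp0 x, mul_zero, smul_zero])] at hE
    have hk0 : k = 0 := by
      by_contra hk0
      rcases smul_eq_zero.1 hE.symm with hz | hz
      · exact hk0 hz
      · exact h0 hz
    subst hk0
    have hc := const_of_zero d (fun i => (hd0 i).ne') h hk
    rw [hc, aeval_C, algebraMap_eq, C_eq_zero] at he
    apply h0
    rw [hc, he, C_0]
  obtain ⟨A, hA1, hA2⟩ := minA S hh
  obtain ⟨x0, hx0⟩ := hne
  have hAne : A.Nonempty := by
    rw [Finset.nonempty_iff_ne_empty]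
    rintro rfl
    obtain ⟨u, -, hu⟩ := hA1 x0
    rw [Finset.sum_empty] at hu
    exact hx0 hu
  obtain ⟨i0, hi0⟩ := hAne
  -- homogeneous coefficients
  have hG : ∀ x, ∃ g : F → MvPolynomial (Fin m) ℂ, (∀ y, g y ∈ WH w ((d y : ℤ) - d x)) ∧
      hh x = ∑ y ∈ A, g y * hh y := by
    intro x
    obtain ⟨u, hu1, hu2⟩ := hA1 x
    refine ⟨fun y => if d x ≤ d y then weightedHomogeneousComponent w (d y - d x) (u y) else 0,
      fun y => ?_, ?_⟩
    · dsimp only
      by_cases hxy : d x ≤ d y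
      · rw [if_pos hxy]
        have := (wh_nat w (d y - d x) _).2 (weightedHomogeneousComponent_mem w (u y) (d y - d x))
        rwa [Nat.cast_sub hxy] at this
      · rw [if_neg hxy]
        exact Submodule.zero_mem _
    · rcases hdeg x with ⟨a1, a2⟩ | ⟨a1, a2⟩
      · have e1 : weightedHomogeneousComponent w (k - d x) (hh x) = hh x :=
          a2.weightedHomogeneousComponent_same
        rw [← e1]
        conv_lhs => rw [hu2, map_sum]
        refine Finset.sum_congr rfl fun y _ => ?_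
        dsimp only
        rcases hdeg y with ⟨b1, b2⟩ | ⟨b1, b2⟩
        · rw [comp_mul w (k - d y) (k - d x) (u y) (hh y) b2]
          by_cases hxy : d x ≤ d y
          · rw [if_pos hxy, if_pos (by omega)]
            have : k - d x - (k - d y) = d y - d x := by omega
            rw [this]
          · rw [if_neg hxy, if_neg (by omega)]
        · rw [b2, mul_zero, mul_zero, map_zero]
      · rw [a2]
        symm
        refine Finset.sum_eq_zero fun y _ => ?_
        dsimp only
        rcases hdeg y with ⟨b1, b2⟩ | ⟨b1, b2⟩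
        · rw [if_neg (by omega), zero_mul]
        · rw [b2, mul_zero]
  choose G hGW hGs using hG
  -- the relation for every variable
  set p : Fin m → F → MvPolynomial (Fin m) ℂ := fun i y =>
    pderiv i (f y) + ∑ x ∈ Aᶜ, G x y * pderiv i (f x) with hpdef
  have hpW : ∀ i y, p i y ∈ WH w ((d y : ℤ) - w i) := by
    intro i y
    rw [hpdef]
    refine Submodule.add_mem _ (wh_pd w i _ _ ((wh_nat w _ _).2 (hdw y)))
      (Submodule.sum_mem _ fun x _ => ?_)
    have := wh_mul w _ _ _ _ (hGW x y) (wh_pd w i _ _ ((wh_nat w _ _).2 (hdw x)))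
    have e1 : (d y : ℤ) - d x + (d x - w i) = (d y : ℤ) - w i := by ring
    rwa [e1] at this
  have hps : ∀ i, ∑ y ∈ A, hh y * p i y = 0 := by
    intro i
    have e1 : ∑ x, hh x * pderiv i (f x) = 0 := by
      rw [← chain f i h, he, map_zero]
    rw [← Finset.sum_add_sum_compl A] at e1
    have e2 : ∑ x ∈ Aᶜ, hh x * pderiv i (f x) =
        ∑ y ∈ A, hh y * ∑ x ∈ Aᶜ, G x y * pderiv i (f x) := by
      simp_rw [Finset.mul_sum]
      rw [Finset.sum_comm]
      refine Finset.sum_congr rfl fun x _ => ?_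
      rw [hGs x, Finset.sum_mul]
      refine Finset.sum_congr rfl fun y _ => ?_
      ring
    rw [e2, ← Finset.sum_add_distrib] at e1
    rw [← e1]
    refine Finset.sum_congr rfl fun y _ => ?_
    rw [hpdef]
    ring
  have hpI : ∀ i, p i i0 ∈ Ideal.span (F : Set (MvPolynomial (Fin m) ℂ)) := by
    intro i
    rw [hI]
    refine fp_use w S hFP A i0 hi0 hh (p i) (fun y => (k : ℤ) - d y) (fun y => (d y : ℤ) - w i)
      ((k : ℤ) - w i) (fun y => ⟨hhS y, hhW y⟩) (fun y => hpW i y) (fun y => by ring)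
      (hps i) (hA2 i0 hi0)
  have hrg : (F : Set (MvPolynomial (Fin m) ℂ)) = Set.range f := Subtype.range_coe.symm
  have hpc : ∀ i, ∃ c : F → MvPolynomial (Fin m) ℂ, ∑ x, c x * f x = p i i0 := by
    intro i
    have := hpI i
    rwa [hrg, Ideal.mem_span_range_iff_exists_fun] at this
  choose c hc using hpc
  -- Euler's identity
  have hEu : ∀ x, ∑ i, w i • (X i * pderiv i (f x)) = d x • f x :=
    fun x => (hdw x).sum_weight_X_mul_pderiv
  have hE1 : ∑ i, w i • (X i * p i i0) = d i0 • f i0 + ∑ x ∈ Aᶜ, G x i0 * (d x • f x) := by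
    have e1 : ∀ i, w i • (X i * p i i0) = w i • (X i * pderiv i (f i0)) +
        ∑ x ∈ Aᶜ, G x i0 * (w i • (X i * pderiv i (f x))) := by
      intro i
      rw [hpdef]
      dsimp only
      rw [mul_add, smul_add, Finset.mul_sum, Finset.smul_sum]
      congr 1
      refine Finset.sum_congr rfl fun x _ => ?_
      rw [nsmul_eq_mul, nsmul_eq_mul]
      ring
    rw [Finset.sum_congr rfl fun i _ => e1 i, Finset.sum_add_distrib, hEu i0, Finset.sum_comm]
    congr 1
    refine Finset.sum_congr rfl fun x _ => ?_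
    rw [← Finset.mul_sum, hEu x]
  have hE2 : ∑ i, w i • (X i * p i i0) =
      ∑ x, (∑ i, w i • (X i * c i x)) * f x := by
    simp_rw [Finset.sum_mul]
    rw [Finset.sum_comm]
    refine Finset.sum_congr rfl fun i _ => ?_
    rw [← hc i, Finset.mul_sum, Finset.smul_sum]
    refine Finset.sum_congr rfl fun x _ => ?_
    rw [nsmul_eq_mul, nsmul_eq_mul]
    ring
  set Q : F → MvPolynomial (Fin m) ℂ := fun x =>
    (∑ i, w i • (X i * c i x)) - (if x ∈ A then 0 else d x • G x i0) with hQdef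
  have hQ : d i0 • f i0 = ∑ x, Q x * f x := by
    have e1 : ∑ x, Q x * f x = ∑ x, (∑ i, w i • (X i * c i x)) * f x -
        ∑ x ∈ Aᶜ, G x i0 * (d x • f x) := by
      rw [hQdef]
      simp_rw [sub_mul]
      rw [Finset.sum_sub_distrib]
      congr 1
      rw [← Finset.sum_add_sum_compl A]
      rw [Finset.sum_eq_zero (fun x hx => by rw [if_pos hx, zero_mul]), zero_add]
      refine Finset.sum_congr rfl fun x hx => ?_
      rw [if_neg (Finset.mem_compl.1 hx), nsmul_eq_mul, nsmul_eq_mul]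
      ring
    rw [e1, ← hE2, hE1, add_sub_cancel_right]
  have hQW : IsWeightedHomogeneous w (d i0 • f i0) (d i0) := by
    rw [nsmul_eq_mul]
    have := (hdw i0).C_mul (d i0 : ℂ)
    rwa [map_natCast] at this
  have hQ2 := hspan w f d hdw (d i0) (d i0 • f i0) hQW Q hQ
  have hQ0 : weightedHomogeneousComponent w 0 (Q i0) = 0 := by
    rw [weightedHomogeneousComponent_zero (w := w) (Q i0) (fun i => (hw i).ne')]
    have : coeff 0 (Q i0) = 0 := by
      rw [hQdef]
      dsimp only
      rw [if_pos hi0, sub_zero, ← constantCoeff_eq, map_sum]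
      refine Finset.sum_eq_zero fun i _ => ?_
      rw [map_nsmul, map_mul, constantCoeff_X, zero_mul, smul_zero]
    rw [this, C_0]
  refine ⟨f i0, i0.2, ?_⟩
  rw [← Finset.add_sum_erase Finset.univ _ (Finset.mem_univ i0), if_pos le_rfl, Nat.sub_self,
    hQ0, zero_mul, zero_add] at hQ2
  have hfin : f i0 = C ((d i0 : ℂ)⁻¹) * (d i0 • f i0) := by
    have hz : (d i0 : ℂ) ≠ 0 := by exact_mod_cast (hd0 i0).ne'
    rw [nsmul_eq_mul, ← mul_assoc, ← map_natCast (C : ℂ →+* MvPolynomial (Fin m) ℂ), ← C_mul,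
      inv_mul_cancel₀ hz, C_1, one_mul]
  rw [hfin, hQ2]
  refine Ideal.mul_mem_left _ _ (Ideal.sum_mem _ fun x hx => Ideal.mul_mem_left _ _ ?_)
  refine Ideal.subset_span ?_
  rw [Finset.mem_coe, Finset.mem_erase]
  refine ⟨fun hxx => (Finset.mem_erase.1 hx).1 (Subtype.ext ?_), x.2⟩
  rw [← hQ2, ← hfin] at hxx
  exact hxx

end Fin

theorem main : S_CH2 := by
  classical
  intro m w hw S π h1 h2 h3 h4 hFP
  have hcS : ∀ k : ℕ, ∀ s ∈ S, weightedHomogeneousComponent w k s ∈ S :=
    fun k s hs => comp_S w S π h1 h2 h3 h4 k s hs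
  have hfg : (Ideal.span (Sp w S)).FG := IsNoetherian.noetherian _
  have hex : ∃ (n : ℕ) (F : Finset (MvPolynomial (Fin m) ℂ)), F.card = n ∧
      (F : Set (MvPolynomial (Fin m) ℂ)) ⊆ Sp w S ∧
      Ideal.span (F : Set (MvPolynomial (Fin m) ℂ)) = Ideal.span (Sp w S) := by
    obtain ⟨F, hF1, hF2⟩ := (Submodule.fg_span_iff_fg_span_finset_subset _).1 hfg
    exact ⟨_, F, rfl, hF1, hF2.symm⟩
  obtain ⟨F, hFc, hF, hI⟩ := Nat.find_spec hex
  have hind : AlgebraicIndependent ℂ (fun x : F => (x : MvPolynomial (Fin m) ℂ)) := by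
    by_contra hn
    obtain ⟨x, hx, hx2⟩ := red w hw S hcS hFP F hF hI hn
    have hlt : (F.erase x).card < Nat.find hex := by
      rw [← hFc]
      exact Finset.card_erase_lt_of_mem hx
    refine Nat.find_min hex hlt ⟨F.erase x, rfl, ?_, ?_⟩
    · intro y hy
      exact hF (Finset.mem_of_mem_erase (Finset.mem_coe.1 hy))
    · rw [← hI]
      apply le_antisymm
      · refine Ideal.span_mono fun y hy => ?_
        exact Finset.mem_coe.2 (Finset.mem_of_mem_erase (Finset.mem_coe.1 hy))
      · rw [Ideal.span_le]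
        intro y hy
        by_cases hyx : y = x
        · rw [hyx]
          exact hx2
        · exact Ideal.subset_span (Finset.mem_coe.2 (Finset.mem_erase.2
            ⟨hyx, Finset.mem_coe.1 hy⟩))
  have hd : ∀ x : F, ∃ d : ℕ, 0 < d ∧ IsWeightedHomogeneous w (x : MvPolynomial (Fin m) ℂ) d :=
    fun x => sp_deg w S x (hF x.2)
  choose d hd0 hdw using hd
  refine ⟨F.card, fun j => (F.equivFin.symm j : MvPolynomial (Fin m) ℂ),
    fun j => (d (F.equivFin.symm j) : ℤ), fun j => ⟨Int.natCast_pos.2 (hd0 _),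
      (wh_nat w _ _).2 (hdw _)⟩, ?_, ?_⟩
  · exact hind.comp _ F.equivFin.symm.injective
  · have hr : Set.range (fun j => (F.equivFin.symm j : MvPolynomial (Fin m) ℂ)) =
        (F : Set (MvPolynomial (Fin m) ℂ)) := by
      rw [← Subtype.range_coe (s := (F : Set (MvPolynomial (Fin m) ℂ)))]
      exact EquivLike.range_comp (fun x : F => (x : MvPolynomial (Fin m) ℂ)) F.equivFin.symm
    rw [hr]
    exact gen w hw S π h1 h2 h3 h4 F hF hI

end Pool.Agent.RFO.CH2

namespace Pool.Agent.RFO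

theorem CH2_thm : S_CH2 := CH2.main

end Pool.Agent.RFO
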