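import Mathlib
import Pool.Agent.RFO.St2
import Pool.Agent.RFO.CH1

/-!
# CHC: Chevalley's lemma with conjugate subgroups
-/

set_option autoImplicit false

namespace Pool.Agent.RFO

namespace CHC

variable {G T : Type} [Group G] [CommRing T] [Algebra ℂ T] [MulSemiringAction G T]
  [SMulCommClass G ℂ T]

omit [SMulCommClass G ℂ T] in
theorem symm_stable (hom : ℤ → Submodule ℂ T) {K K' : Subgroup G} {σ : T ≃ₐ[ℂ] T}
    (hσ : Tr hom K K' σ) (z : T) (hz : z ∈ Ideal.span (Pos G hom)) :
    σ.symm z ∈ Ideal.span (Pos G hom) := by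
  induction hz using Submodule.span_induction with
  | mem x hx =>
    obtain ⟨h1, i, hi, h2⟩ := hx
    refine Ideal.subset_span ⟨?_, i, hi, ?_⟩
    · rw [← hσ.fx]
      intro g
      rw [AlgEquiv.apply_symm_apply]
      exact h1 g
    · rw [← hσ.ho, AlgEquiv.apply_symm_apply]
      exact h2
  | zero =>
    rw [map_zero]
    exact zero_mem _
  | add x y _ _ hx hy =>
    rw [map_add]
    exact add_mem hx hy
  | smul a x _ hx =>
    rw [smul_eq_mul, map_mul]
    exact Ideal.mul_mem_left _ _ hx

omit [SMulCommClass G ℂ T] in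
theorem of_apply_mem (hom : ℤ → Submodule ℂ T) {K K' : Subgroup G} {σ : T ≃ₐ[ℂ] T}
    (hσ : Tr hom K K' σ) (x : T) (hx : σ x ∈ Ideal.span (Pos G hom)) :
    x ∈ Ideal.span (Pos G hom) := by
  have h := symm_stable hom hσ _ hx
  rwa [AlgEquiv.symm_apply_apply] at h

omit [Algebra ℂ T] [SMulCommClass G ℂ T] in
theorem sum_y {K : Subgroup G} (y : T → T)
    (yadd : ∀ x x', (∀ g ∈ K, g • x = x) → (∀ g ∈ K, g • x' = x') → y (x + x') = y x + y x')
    (ysm : ∀ s x, (∀ g : G, g • s = s) → (∀ g ∈ K, g • x = x) → y (s * x) = s * y x)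
    {ι : Type} [DecidableEq ι] (t : Finset ι) (s f : ι → T) (hs : ∀ i (g : G), g • s i = s i)
    (hf : ∀ i, ∀ g ∈ K, g • f i = f i) : y (∑ i ∈ t, s i * f i) = ∑ i ∈ t, s i * y (f i) := by
  have h0 : ∀ g ∈ K, g • (0 : T) = 0 := fun g _ => smul_zero g
  have hy0 : y 0 = 0 := by
    have h := yadd 0 0 h0 h0
    rw [add_zero] at h
    exact left_eq_add.1 h
  have hinv : ∀ t : Finset ι, ∀ g ∈ K, g • (∑ i ∈ t, s i * f i) = ∑ i ∈ t, s i * f i := by
    intro t g hg
    rw [Finset.smul_sum]
    refine Finset.sum_congr rfl fun i _ => ?_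
    rw [smul_mul', hs, hf i g hg]
  induction t using Finset.induction_on with
  | empty => rw [Finset.sum_empty, Finset.sum_empty, hy0]
  | insert a t ha ih =>
    rw [Finset.sum_insert ha, Finset.sum_insert ha, yadd _ _ ?_ (hinv t), ih,
      ysm _ _ (hs a) (hf a)]
    intro g hg
    rw [smul_mul', hs, hf a g hg]

theorem closure_top (K : Subgroup G) (P : Set (Subgroup G)) (h : K ⊔ sSup P = ⊤) :
    Subgroup.closure {g : G | g ∈ K ∨ ∃ K' ∈ P, g ∈ K'} = ⊤ := by
  rw [eq_top_iff, ← h, sup_le_iff]
  constructor
  · intro g hg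
    exact Subgroup.subset_closure (Or.inl hg)
  · refine sSup_le fun K' hK' g hg => ?_
    exact Subgroup.subset_closure (Or.inr ⟨K', hK', hg⟩)

end CHC

theorem CHC_thm : S_CHC := by
  classical
  intro G T _ _ _ _ _ _ _ hom hHm K P hP hFD
  have : Fintype G := Fintype.ofFinite G
  have key : ∀ N : ℕ, ∀ (r : ℕ) (s f : Fin (r + 1) → T) (a b : Fin (r + 1) → ℤ) (w : ℤ),
      (∀ i, s i ∈ hom (a i)) → (∀ i, f i ∈ hom (b i)) → (∀ i, a i + b i = w) →
      (∀ i (g : G), g • s i = s i) → (∀ i, ∀ g ∈ K, g • f i = f i) → ∑ i, s i * f i = 0 →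
      NotIn G s → b 0 < N → f 0 ∈ Ideal.span (Pos G hom) := by
    intro N
    induction N with
    | zero =>
      intro r s f a b w _ hf _ _ _ _ _ hb
      rw [hHm.neg (b 0) (f 0) (by simpa using hb) (hf 0)]
      exact zero_mem _
    | succ N ih =>
      intro r s f a b w hs hf hab hfx hfK hsum hN hb
      rcases lt_or_ge (b 0) 0 with hb0 | hb0
      · rw [hHm.neg (b 0) (f 0) hb0 (hf 0)]
        exact zero_mem _
      -- differences
      have h1 : ∀ g : G, (g ∈ K ∨ ∃ K' ∈ P, g ∈ K') →
          f 0 - g • f 0 ∈ Ideal.span (Pos G hom) := by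
        rintro g (hg | ⟨K', hK', hg⟩)
        · rw [hfK 0 g hg, sub_self]
          exact zero_mem _
        obtain ⟨⟨σ, hσ⟩, q, b', e, y, he, yadd, ysm, yh, yK', yx⟩ := hFD K' hK'
        have h2 : ∀ l, y l (f 0) ∈ Ideal.span (Pos G hom) := by
          intro l
          apply CHC.of_apply_mem hom hσ
          refine ih r (fun i => σ (s i)) (fun i => σ (y l (f i))) a (fun i => b i - e l)
            (w - e l) ?_ ?_ ?_ ?_ ?_ ?_ ?_ ?_
          · intro i
            exact (hσ.ho _ _).2 (hs i)
          · intro i
            exact (hσ.ho _ _).2 (yh l _ _ (hfK i) (hf i))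
          · intro i
            have := hab i
            omega
          · intro i
            exact (hσ.fx _).2 (hfx i)
          · intro i
            exact (hσ.kk _).2 (yK' l _ (hfK i))
          · have h3 : ∑ i, σ (s i) * σ (y l (f i)) = σ (∑ i, s i * y l (f i)) := by
              rw [map_sum]
              refine Finset.sum_congr rfl fun i _ => ?_
              rw [map_mul]
            rw [h3, ← CHC.sum_y (y l) (yadd l) (ysm l) Finset.univ s f hfx hfK, hsum]
            have h0 : ∀ g ∈ K, g • (0 : T) = 0 := fun g _ => smul_zero g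
            have hy0 : y l 0 = 0 := by
              have h := yadd l 0 0 h0 h0
              rw [add_zero] at h
              exact left_eq_add.1 h
            rw [hy0, map_zero]
          · rintro ⟨c, hc, hc0⟩
            apply hN
            refine ⟨fun i => σ.symm (c i), ?_, ?_⟩
            · intro i
              rw [← hσ.fx]
              intro g
              rw [AlgEquiv.apply_symm_apply]
              exact hc i g
            · apply σ.injective
              change σ (s 0) = ∑ i, c i * σ (s i.succ) at hc0
              rw [hc0, map_sum]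
              refine Finset.sum_congr rfl fun i _ => ?_
              rw [map_mul, AlgEquiv.apply_symm_apply]
          · have := he l
            push_cast at hb
            omega
        have h4 : ∑ l, b' l * y l (f 0) ∈ Ideal.span (Pos G hom) :=
          Submodule.sum_mem _ fun l _ => Ideal.mul_mem_left _ _ (h2 l)
        have h5 := yx (f 0) (hfK 0) g hg
        have h6 : f 0 - g • f 0 = ∑ l, b' l * y l (f 0) - g • ∑ l, b' l * y l (f 0) := by
          rw [smul_sub] at h5
          have h7 : g • f 0 = f 0 - ∑ l, b' l * y l (f 0) + g • ∑ l, b' l * y l (f 0) := by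
            rw [← h5]
            ring
          rw [h7]
          ring
        rw [h6]
        exact sub_mem h4 (CH1.span_stable hom g _ h4)
      have h6 := CH1.diff_mem hom _ (CHC.closure_top K P hP) (f 0) h1
      -- the averages
      set c : ℂ := ((Fintype.card G : ℕ) : ℂ)⁻¹ with hc
      have hcard : ((Fintype.card G : ℕ) : ℂ) ≠ 0 := by
        exact_mod_cast Fintype.card_ne_zero
      set F : Fin (r + 1) → T := fun i => c • ∑ g : G, g • f i with hF
      have hFinv : ∀ i (g : G), g • F i = F i := by
        intro i g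
        simp only [hF]
        rw [smul_comm, Finset.smul_sum]
        congr 1
        simp_rw [smul_smul]
        exact Fintype.sum_equiv (Equiv.mulLeft g) _ _ fun k => rfl
      have hFhom : ∀ i, F i ∈ hom (b i) := fun i =>
        Submodule.smul_mem _ _ (Submodule.sum_mem _ fun g _ => hHm.act g (b i) (f i) (hf i))
      have hFsum : ∑ i, s i * F i = 0 := by
        have h7 : ∑ i, s i * F i = c • ∑ g : G, g • ∑ i, s i * f i := by
          simp only [hF]
          simp_rw [mul_smul_comm, Finset.mul_sum]
          rw [← Finset.smul_sum, Finset.sum_comm]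
          congr 1
          refine Finset.sum_congr rfl fun g _ => ?_
          rw [Finset.smul_sum]
          refine Finset.sum_congr rfl fun i _ => ?_
          rw [smul_mul', hfx i g]
        rw [h7, hsum]
        simp
      have hdec : f 0 = F 0 + c • ∑ g : G, (f 0 - g • f 0) := by
        simp only [hF]
        rw [← smul_add, ← Finset.sum_add_distrib]
        simp only [add_sub_cancel]
        rw [Finset.sum_const, Finset.card_univ, ← Nat.cast_smul_eq_nsmul ℂ, smul_smul, hc,
          inv_mul_cancel₀ hcard, one_smul]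
      have hFJ : F 0 ∈ Ideal.span (Pos G hom) := by
        rcases hb0.lt_or_eq with hb1 | hb1
        · exact Ideal.subset_span ⟨hFinv 0, b 0, hb1, hFhom 0⟩
        · have h8 := hFhom 0
          rw [← hb1] at h8
          obtain ⟨d, hd⟩ := hHm.zero (F 0) h8 (hFinv 0)
          by_cases hd0 : d = 0
          · rw [hd, hd0, map_zero]
            exact zero_mem _
          · exfalso
            apply hN
            refine ⟨fun i => (-d⁻¹) • F i.succ, fun i g => ?_, ?_⟩
            · rw [smul_comm, hFinv]
            · rw [Fin.sum_univ_succ, hd] at hFsum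
              have h9 : s 0 * algebraMap ℂ T d = - ∑ i : Fin r, s i.succ * F i.succ :=
                eq_neg_of_add_eq_zero_left hFsum
              have h10 : s 0 = d⁻¹ • (s 0 * algebraMap ℂ T d) := by
                rw [← mul_smul_comm, Algebra.algebraMap_eq_smul_one, smul_smul,
                  inv_mul_cancel₀ hd0, one_smul, mul_one]
              rw [h10, h9, smul_neg, ← neg_smul, Finset.smul_sum]
              refine Finset.sum_congr rfl fun i _ => ?_
              rw [smul_mul_assoc, mul_comm]
      rw [hdec]
      refine add_mem hFJ (CH1.csmul_mem hom _ _ ?_)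
      exact Submodule.sum_mem _ fun g _ => h6 g
  intro r s f hR hfK hN
  obtain ⟨a, b, w, hs, hf, hab⟩ := hR.ex
  refine key ((b 0).toNat + 1) r s f a b w hs hf hab hR.fx hfK hR.sum hN ?_
  have := Int.self_le_toNat (b 0)
  push_cast
  omega

end Pool.Agent.RFO
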