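import Mathlib
import Pool.Agent.RFO.St2

/-!
# Decomposition into components for the characters (PAPER2, CHR)
-/

set_option autoImplicit false

namespace Pool.Agent.RFO

namespace CHR

section chars

variable (H : Type) [Group H] [Finite H]

theorem neZero_exponent (C : Type) [CommGroup C] [Finite C] :
    NeZero ((Monoid.exponent C : ℕ) : ℂ) :=
  ⟨Nat.cast_ne_zero.2 Monoid.exponent_ne_zero_of_finite⟩

theorem finite_char : Finite (H →* ℂˣ) := by
  have := neZero_exponent (Abelianization H)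
  obtain ⟨e⟩ := CommGroup.monoidHom_mulEquiv_of_hasEnoughRootsOfUnity (Abelianization H) ℂ
  exact Finite.of_equiv (Abelianization H) (e.symm.toEquiv.trans Abelianization.lift.symm)

theorem card_char : Nat.card (H →* ℂˣ) = Nat.card (Abelianization H) := by
  have := neZero_exponent (Abelianization H)
  obtain ⟨e⟩ := CommGroup.monoidHom_mulEquiv_of_hasEnoughRootsOfUnity (Abelianization H) ℂ
  exact (Nat.card_congr (e.symm.toEquiv.trans Abelianization.lift.symm)).symm

variable {H}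

theorem exists_char {k : H} (hk : k ∉ commutator H) : ∃ φ : H →* ℂˣ, φ k ≠ 1 := by
  have := neZero_exponent (Abelianization H)
  have h1 : Abelianization.of k ≠ 1 := fun h => hk (by
    rw [← Abelianization.ker_of]
    exact h)
  obtain ⟨φ, hφ⟩ := CommGroup.exists_apply_ne_one_of_hasEnoughRootsOfUnity (Abelianization H) ℂ h1
  exact ⟨φ.comp Abelianization.of, hφ⟩

omit [Finite H] in
theorem char_commutator (φ : H →* ℂˣ) {k : H} (hk : k ∈ commutator H) : φ k = 1 := by
  have h1 : commutator H ≤ φ.ker := Abelianization.commutator_subset_ker φ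
  exact h1 hk

open Classical in
/-- The orthogonality relation. -/
theorem sum_char [Fintype (H →* ℂˣ)] (k : H) :
    ∑ χ : H →* ℂˣ, ((χ k : ℂˣ) : ℂ) =
      if k ∈ commutator H then (Fintype.card (H →* ℂˣ) : ℂ) else 0 := by
  split_ifs with hk
  · rw [Finset.sum_congr rfl fun χ _ => by rw [char_commutator χ hk, Units.val_one],
      Finset.sum_const, Finset.card_univ, nsmul_eq_mul, mul_one]
  · obtain ⟨φ, hφ⟩ := exists_char hk
    have h1 : ∑ χ : H →* ℂˣ, ((χ k : ℂˣ) : ℂ) =
        ((φ k : ℂˣ) : ℂ) * ∑ χ : H →* ℂˣ, ((χ k : ℂˣ) : ℂ) := by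
      rw [Finset.mul_sum]
      refine Fintype.sum_equiv (Equiv.mulLeft φ⁻¹) _ _ fun χ => ?_
      rw [Equiv.coe_mulLeft, MonoidHom.mul_apply, MonoidHom.inv_apply, ← Units.val_mul,
        mul_inv_cancel_left]
    have h2 : (1 - ((φ k : ℂˣ) : ℂ)) * ∑ χ : H →* ℂˣ, ((χ k : ℂˣ) : ℂ) = 0 := by
      rw [sub_mul, one_mul, ← h1, sub_self]
    rcases mul_eq_zero.1 h2 with h3 | h3
    · exact absurd (Units.val_eq_one.1 (sub_eq_zero.1 h3).symm) hφ
    · exact h3

end chars

open Classical in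
/-- The sum of all components. -/
theorem sum_PP {G : Type} [Group G] [Finite G] (K : Subgroup G) [Fintype (K →* ℂˣ)]
    {M : Type} [AddCommGroup M] [Module ℂ M] [DistribMulAction G M] [SMulCommClass G ℂ M] (x : M)
    (hx : ∀ a ∈ K, ∀ b ∈ K, (a * b * a⁻¹ * b⁻¹) • x = x) :
    ∑ χ : K →* ℂˣ, PP K χ x = x := by
  cases nonempty_fintype K
  have hst : ∀ k : K, k ∈ commutator K → (k : G) • x = x := by
    intro k hk
    have h1 : commutator K ≤ MulAction.stabilizer K x := by
      rw [commutator_def, Subgroup.commutator_le]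
      rintro a - b -
      rw [MulAction.mem_stabilizer_iff, Subgroup.smul_def]
      exact hx a a.2 b b.2
    exact h1 hk
  have e1 : ∀ χ : K →* ℂˣ, PP K χ x =
      (Nat.card K : ℂ)⁻¹ • ∑ k : K, ((χ k⁻¹ : ℂˣ) : ℂ) • (k : G) • x := by
    intro χ
    rw [PP, finsum_eq_sum_of_fintype]
  simp only [e1]
  rw [← Finset.smul_sum, Finset.sum_comm]
  simp only [← Finset.sum_smul, sum_char]
  have e2 : ∀ k : K, (if k⁻¹ ∈ commutator K then (Fintype.card (K →* ℂˣ) : ℂ) else 0) •
      (k : G) • x = if k ∈ commutator K then (Fintype.card (K →* ℂˣ) : ℂ) • x else 0 := by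
    intro k
    by_cases hk : k ∈ commutator K
    · rw [if_pos hk, if_pos (inv_mem hk), hst k hk]
    · rw [if_neg hk, if_neg (fun h => hk (inv_inv k ▸ inv_mem h)), zero_smul]
  simp only [e2]
  rw [← Finset.sum_filter, Finset.sum_const, ← Fintype.card_subtype, ← Nat.cast_smul_eq_nsmul ℂ,
    smul_smul, smul_smul]
  have e3 : (Nat.card K : ℂ) = (Fintype.card {k : K // k ∈ commutator K} : ℂ) *
      (Fintype.card (K →* ℂˣ) : ℂ) := by
    rw [Subgroup.card_eq_card_quotient_mul_card_subgroup (commutator K), Nat.cast_mul, mul_comm]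
    congr 1
    · rw [← Nat.card_eq_fintype_card]
    · rw [← Nat.card_eq_fintype_card, card_char]
      rfl
  rw [mul_assoc, ← e3, inv_mul_cancel₀ (Nat.cast_ne_zero.2 Nat.card_pos.ne'), one_smul]

end CHR

theorem CHR_thm : S_CHR := by
  classical
  intro G _ _ K
  have := CHR.finite_char K
  cases nonempty_fintype (K →* ℂˣ)
  let e := Fintype.equivFin {χ : K →* ℂˣ // χ ≠ 1}
  refine ⟨Fintype.card {χ : K →* ℂˣ // χ ≠ 1}, fun l => (e.symm l).1, fun l => (e.symm l).2, ?_⟩
  intro M _ _ _ _ x hx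
  have h1 := CHR.sum_PP K x hx
  have h2 : ∑ l, PP K (e.symm l).1 x = ∑ χ : {χ : K →* ℂˣ // χ ≠ 1}, PP K χ.1 x :=
    Equiv.sum_comp e.symm fun χ : {χ : K →* ℂˣ // χ ≠ 1} => PP K χ.1 x
  rw [h2]
  conv_lhs => rw [← h1]
  rw [Fintype.sum_eq_add_sum_subtype_ne _ (1 : K →* ℂˣ)]

end Pool.Agent.RFO
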