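import Mathlib
import Pool.Agent.RFO.St

/-!
# FAC: the factors of a homogeneous element are homogeneous
-/

set_option autoImplicit false

namespace Pool.Agent.RFO

namespace FAC

open DirectSum

variable {T : Type} [CommRing T] [IsDomain T] [Algebra ℂ T]

open Classical in
/-- an extremal pair of degrees gives a nonzero component of the product -/
theorem comp_ne (hom : ℤ → Submodule ℂ T) [GradedRing hom] (x y : T) (i j : ℤ)
    (hi : i ∈ (decompose hom x).support) (hj : j ∈ (decompose hom y).support)
    (h : ∀ a ∈ (decompose hom x).support, ∀ b ∈ (decompose hom y).support,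
      a + b = i + j → a = i ∧ b = j) :
    ((decompose hom (x * y) (i + j) : hom (i + j)) : T) ≠ 0 := by
  rw [decompose_mul, coe_mul_apply]
  rw [Finset.sum_eq_single (i, j)]
  · have h1 : (decompose hom x) i ≠ 0 := DFinsupp.mem_support_iff.1 hi
    have h2 : (decompose hom y) j ≠ 0 := DFinsupp.mem_support_iff.1 hj
    refine mul_ne_zero ?_ ?_
    · intro h3
      exact h1 (Subtype.ext h3)
    · intro h3
      exact h2 (Subtype.ext h3)
  · rintro ⟨a, b⟩ hab hne
    exfalso
    rw [Finset.mem_filter, Finset.mem_product] at hab
    obtain ⟨h3, h4⟩ := h a hab.1.1 b hab.1.2 hab.2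
    exact hne (by rw [h3, h4])
  · intro h3
    exfalso
    apply h3
    rw [Finset.mem_filter, Finset.mem_product]
    exact ⟨⟨hi, hj⟩, rfl⟩

theorem main (hom : ℤ → Submodule ℂ T) [GradedRing hom] (x y : T) (k : ℤ)
    (hk : x * y ∈ hom k) (h0 : x * y ≠ 0) : ∃ i, x ∈ hom i := by
  classical
  have hx : x ≠ 0 := left_ne_zero_of_mul h0
  have hy : y ≠ 0 := right_ne_zero_of_mul h0
  have hsx : (decompose hom x).support.Nonempty := by
    rw [Finset.nonempty_iff_ne_empty]
    intro h
    apply hx
    rw [← sum_support_decompose hom x, h, Finset.sum_empty]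
  have hsy : (decompose hom y).support.Nonempty := by
    rw [Finset.nonempty_iff_ne_empty]
    intro h
    apply hy
    rw [← sum_support_decompose hom y, h, Finset.sum_empty]
  set sx := (decompose hom x).support with hsxd
  set sy := (decompose hom y).support with hsyd
  have key : ∀ n, ((decompose hom (x * y) n : hom n) : T) ≠ 0 → n = k := by
    intro n hn
    by_contra hne
    exact hn (decompose_of_mem_ne hom hk (Ne.symm hne))
  have hmin : sx.min' hsx + sy.min' hsy = k := by
    apply key
    refine comp_ne hom x y (sx.min' hsx) (sy.min' hsy) (Finset.min'_mem _ _)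
      (Finset.min'_mem _ _) ?_
    intro a ha b hb hab
    have h1 : sx.min' hsx ≤ a := Finset.min'_le _ _ ha
    have h2 : sy.min' hsy ≤ b := Finset.min'_le _ _ hb
    constructor <;> omega
  have hmax : sx.max' hsx + sy.max' hsy = k := by
    apply key
    refine comp_ne hom x y (sx.max' hsx) (sy.max' hsy) (Finset.max'_mem _ _)
      (Finset.max'_mem _ _) ?_
    intro a ha b hb hab
    have h1 : a ≤ sx.max' hsx := Finset.le_max' _ _ ha
    have h2 : b ≤ sy.max' hsy := Finset.le_max' _ _ hb
    constructor <;> omega
  have h1 : sx.min' hsx ≤ sx.max' hsx := Finset.min'_le _ _ (Finset.max'_mem _ _)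
  have h2 : sy.min' hsy ≤ sy.max' hsy := Finset.min'_le _ _ (Finset.max'_mem _ _)
  have h3 : sx.min' hsx = sx.max' hsx := by omega
  have h4 : sx = {sx.min' hsx} := by
    ext a
    rw [Finset.mem_singleton]
    constructor
    · intro ha
      have h5 : sx.min' hsx ≤ a := Finset.min'_le _ _ ha
      have h6 : a ≤ sx.max' hsx := Finset.le_max' _ _ ha
      omega
    · intro ha
      rw [ha]
      exact Finset.min'_mem _ _
  refine ⟨sx.min' hsx, ?_⟩
  have h5 := sum_support_decompose hom x
  rw [← hsxd, h4, Finset.sum_singleton] at h5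
  rw [← h5]
  exact Subtype.property _

end FAC

theorem FAC_thm : S_FAC := by
  classical
  intro G T _ _ _ _ _ _ hom hG x y k hk h0
  have hI : DirectSum.IsInternal hom :=
    DirectSum.isInternal_submodule_of_iSupIndep_of_iSup_eq_top hG.ind hG.top
  let _ : DirectSum.Decomposition hom := hI.chooseDecomposition
  let _ : GradedRing hom :=
    { one_mem := hG.one
      mul_mem := fun {i j x y} hx hy => hG.mul i j x y hx hy }
  exact FAC.main hom x y k hk h0

end Pool.Agent.RFO
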