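import Mathlib
import Pool.Agent.RFO.St2
import Pool.Agent.RFO.FAC

/-!
# The divided difference if only one generator is not invariant
-/

set_option autoImplicit false

namespace Pool.Agent.RFO

namespace DDL

variable {G T : Type} [Group G] [CommRing T] [Algebra ℂ T] [MulSemiringAction G T]
  [SMulCommClass G ℂ T]

theorem smul_const (ρ : G) (c : ℂ) : ρ • algebraMap ℂ T c = algebraMap ℂ T c := by
  rw [Algebra.algebraMap_eq_smul_one, smul_comm, smul_one]

/-- The divisibility holds for all elements if it holds for the generators. -/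
theorem dvd_all {m : ℕ} {y : Fin m → T} (hy : Algebra.adjoin ℂ (Set.range y) = ⊤) (ρ : G) (t : T)
    (h : ∀ i, t ∣ y i - ρ • y i) (x : T) : t ∣ x - ρ • x := by
  have hx : x ∈ Algebra.adjoin ℂ (Set.range y) := by
    rw [hy]
    exact Algebra.mem_top
  refine Algebra.adjoin_induction (p := fun x _ => t ∣ x - ρ • x) ?_ ?_ ?_ ?_ hx
  · rintro _ ⟨i, rfl⟩
    exact h i
  · intro c
    rw [smul_const, sub_self]
    exact dvd_zero t
  · intro a b _ _ ha hb
    have e : a + b - ρ • (a + b) = (a - ρ • a) + (b - ρ • b) := by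
      rw [smul_add]
      ring
    rw [e]
    exact dvd_add ha hb
  · intro a b _ _ ha hb
    have e : a * b - ρ • (a * b) = (a - ρ • a) * b + ρ • a * (b - ρ • b) := by
      rw [smul_mul']
      ring
    rw [e]
    exact dvd_add (Dvd.dvd.mul_right ha b) (Dvd.dvd.mul_left hb _)

end DDL

theorem DDL_thm : S_DDL := by
  intro G T _ _ _ _ _ _ hom hG m y c ρ hy hgen huq
  by_cases hex : ∃ i, c i ≠ 1 ∧ y i ≠ 0
  · obtain ⟨i0, hc, hne⟩ := hex
    obtain ⟨⟨e, he, hmem⟩, -⟩ := hy i0
    have hd : ∀ i, y i0 ∣ y i - ρ • y i := by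
      intro i
      rw [(hy i).2]
      by_cases h : c i = 1
      · rw [h, one_smul, sub_self]
        exact dvd_zero _
      · rw [huq i i0 h hc]
        refine ⟨algebraMap ℂ T (1 - c i0), ?_⟩
        rw [map_sub, map_one, Algebra.smul_def]
        ring
    refine ⟨e, he, y i0, hne, ?_⟩
    intro j x hx
    obtain ⟨z, hz⟩ := DDL.dvd_all hgen ρ (y i0) hd x
    by_cases h0 : x - ρ • x = 0
    · exact ⟨0, Submodule.zero_mem _, by rw [h0, mul_zero]⟩
    have h1 : z * y i0 ∈ hom j := by
      rw [mul_comm, ← hz]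
      exact Submodule.sub_mem _ hx (hG.act ρ j x hx)
    have h2 : z * y i0 ≠ 0 := by
      rw [mul_comm, ← hz]
      exact h0
    obtain ⟨i, hi⟩ := FAC_thm G T hom hG z (y i0) j h1 h2
    have h3 : z * y i0 ∈ hom (i + e) := hG.mul _ _ _ _ hi hmem
    have h4 : i + e = j := by
      by_contra hne'
      have h5 : Disjoint (hom (i + e)) (hom j) := hG.ind.pairwiseDisjoint hne'
      exact h2 (Submodule.disjoint_def.1 h5 _ h3 h1)
    have h6 : j - e = i := by omega
    exact ⟨z, by rw [h6]; exact hi, hz⟩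
  · push Not at hex
    refine ⟨1, one_pos, 1, one_ne_zero, ?_⟩
    intro j x hx
    have hd : ∀ i, (0 : T) ∣ y i - ρ • y i := by
      intro i
      rw [(hy i).2]
      by_cases h : c i = 1
      · rw [h, one_smul, sub_self]
      · rw [hex i h, smul_zero, sub_self]
    have h1 := zero_dvd_iff.1 (DDL.dvd_all hgen ρ 0 hd x)
    exact ⟨0, Submodule.zero_mem _, by rw [h1, mul_zero]⟩

end Pool.Agent.RFO
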