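import Mathlib
import Pool.Agent.RFO.St

/-!
# No zero divisors among the holomorphic functions on the cone (module DOM of MP_06550c_nt)
-/

set_option autoImplicit false

namespace Pool.Agent.RFO

open Classical in
/-- section DOM: no zero divisors -/
theorem DOM_thm (h1 : S_OPN) (h2 : S_IDT) : S_DOM := by
  intro n H f g hf hg hfg
  by_contra hne
  rw [not_or] at hne
  obtain ⟨hf0, hg0⟩ := hne
  obtain ⟨z, hz⟩ : ∃ z, f z ≠ 0 := by
    by_contra h
    push Not at h
    exact hf0 (funext h)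
  obtain ⟨ho, hc, -⟩ := h1 n H
  have hcont : ContinuousAt (fun z => if hz : z ∈ cone H then f ⟨z, hz⟩ else 0) (z : Vn n) :=
    (hf.differentiableAt (ho.mem_nhds z.2)).continuousAt
  have hz' : (fun z => if hz : z ∈ cone H then f ⟨z, hz⟩ else 0) (z : Vn n) ≠ 0 := by
    have hh : (fun z => if hz : z ∈ cone H then f ⟨z, hz⟩ else 0) (z : Vn n) = f z := by
      show (if hz : (z : Vn n) ∈ cone H then f ⟨z, hz⟩ else 0) = f z
      rw [dif_pos z.2]
    rw [hh]
    exact hz
  have hev := hcont.eventually_ne hz'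
  have hg1 : (fun z => if hz : z ∈ cone H then g ⟨z, hz⟩ else 0) =ᶠ[nhds (z : Vn n)] 0 := by
    filter_upwards [hev] with w hw
    show (if hz : w ∈ cone H then g ⟨w, hz⟩ else 0) = 0
    by_cases hwc : w ∈ cone H
    · rw [dif_pos hwc]
      have h3 : (if hz : w ∈ cone H then f ⟨w, hz⟩ else 0) ≠ 0 := hw
      rw [dif_pos hwc] at h3
      have h4 : f ⟨w, hwc⟩ * g ⟨w, hwc⟩ = 0 := congrFun hfg ⟨w, hwc⟩
      exact (mul_eq_zero.mp h4).resolve_left h3
    · rw [dif_neg hwc]
  apply hg0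
  funext x
  have h5 := h2 n (cone H) ho hc _ hg z z.2 hg1 x x.2
  have h6 : (if hz : (x : Vn n) ∈ cone H then g ⟨x, hz⟩ else 0) = 0 := h5
  rw [dif_pos x.2] at h6
  exact h6

end Pool.Agent.RFO
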