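import Mathlib
import Pool.Agent.RFO.St2
import Pool.Agent.RFO.OPN

/-!
# Two eigenvectors with eigenvalues not equal to one (module EIG)
-/

set_option autoImplicit false

namespace Pool.Agent.RFO

namespace EIG

open MOD

variable {n : ℕ} {H : HForm n}

/-- the form as a linear map in the first variable -/
def hl (H : HForm n) (r : Vn n) : Vn n →ₗ[ℂ] ℂ where
  toFun w := H.h w r
  map_add' x y := H.add x y r
  map_smul' a x := H.smul a x r

theorem diff {f : cone H → ℂ} (hf : Hol H f) (z : cone H) :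
    DifferentiableAt ℂ (MOD.ext f) (z : Vn n) :=
  ((MOD.hol_iff f).1 hf).differentiableAt ((OPN_thm n H).1.mem_nhds z.2)

theorem ext_add (f g : cone H → ℂ) : MOD.ext (f + g) = MOD.ext f + MOD.ext g := by
  funext z
  rw [Pi.add_apply]
  by_cases hz : z ∈ cone H
  · rw [ext_of_mem _ hz, ext_of_mem _ hz, ext_of_mem _ hz, Pi.add_apply]
  · rw [ext_of_not _ hz, ext_of_not _ hz, ext_of_not _ hz, add_zero]

theorem ext_mul (f g : cone H → ℂ) : MOD.ext (f * g) = MOD.ext f * MOD.ext g := by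
  funext z
  rw [Pi.mul_apply]
  by_cases hz : z ∈ cone H
  · rw [ext_of_mem _ hz, ext_of_mem _ hz, ext_of_mem _ hz, Pi.mul_apply]
  · rw [ext_of_not _ hz, ext_of_not _ hz, ext_of_not _ hz, mul_zero]

theorem ext_const (c : ℂ) (z : cone H) :
    fderiv ℂ (MOD.ext (algebraMap ℂ (cone H → ℂ) c)) (z : Vn n) = 0 := by
  have h : MOD.ext (algebraMap ℂ (cone H → ℂ) c) =ᶠ[nhds (z : Vn n)] fun _ => c := by
    filter_upwards [(OPN_thm n H).1.mem_nhds z.2] with x hx
    rw [ext_of_mem _ hx]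
    rfl
  rw [h.fderiv_eq]
  exact fderiv_const_apply c

/-- the derivative of an eigenvector along the mirror -/
theorem zero_dir {r : Vn n} {ρ : Vn n ≃ₗ[ℂ] Vn n} (hfix : ∀ z, H.h z r = 0 → ρ z = z)
    {f : cone H → ℂ} {c : ℂ} (hf : Hol H f)
    (he : ∀ z w : cone H, (w : Vn n) = ρ (z : Vn n) → f z = c * f w) (hc : c ≠ 1)
    (z : cone H) (hz : H.h (z : Vn n) r = 0) {w : Vn n} (hw : H.h w r = 0) :
    fderiv ℂ (MOD.ext f) (z : Vn n) w = 0 := by
  have h1 := (diff hf z).hasFDerivAt.hasLineDerivAt w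
  have h2 : (fun t : ℂ => MOD.ext f ((z : Vn n) + t • w)) =ᶠ[nhds 0] fun _ => (0 : ℂ) := by
    have hcont : Continuous fun t : ℂ => (z : Vn n) + t • w :=
      continuous_const.add (continuous_id.smul continuous_const)
    have hopen : IsOpen ((fun t : ℂ => (z : Vn n) + t • w) ⁻¹' cone H) :=
      (OPN_thm n H).1.preimage hcont
    have h0 : (0 : ℂ) ∈ (fun t : ℂ => (z : Vn n) + t • w) ⁻¹' cone H := by
      rw [Set.mem_preimage, zero_smul, add_zero]
      exact z.2
    filter_upwards [hopen.mem_nhds h0] with t ht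
    have ht' : (z : Vn n) + t • w ∈ cone H := ht
    rw [ext_of_mem _ ht']
    have h3 : H.h ((z : Vn n) + t • w) r = 0 := by
      rw [H.add, H.smul, hz, hw, mul_zero, add_zero]
    have h4 := he ⟨_, ht'⟩ ⟨_, ht'⟩ (hfix _ h3).symm
    have h5 : (1 - c) * f ⟨_, ht'⟩ = 0 := by
      linear_combination h4
    rcases mul_eq_zero.1 h5 with h6 | h6
    · exact absurd (sub_eq_zero.1 h6).symm hc
    · exact h6
  have h3 : HasDerivAt (fun t : ℂ => MOD.ext f ((z : Vn n) + t • w)) 0 0 :=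
    (hasDerivAt_const (0 : ℂ) (0 : ℂ)).congr_of_eventuallyEq h2
  exact HasDerivAt.unique h1 h3

end EIG

open EIG in
theorem EIG_thm : S_EIG := by
  intro n H r _ ρ _ hfix y c hy heig i j hij hi hj z hz
  classical
  let Φ : Vn n →ₗ[ℂ] Vn n := LinearMap.pi fun l => if l = i then hl H r else
    if l = j then 0 else (fderiv ℂ (MOD.ext (y l)) (z : Vn n)).toLinearMap
  have hΦ : ∀ w l, Φ w l = (if l = i then hl H r else
    if l = j then 0 else (fderiv ℂ (MOD.ext (y l)) (z : Vn n)).toLinearMap) w := fun _ _ => rfl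
  have hns : ¬ Function.Surjective Φ := by
    intro h
    obtain ⟨w, hw⟩ := h (Pi.single j 1)
    have h1 := congrFun hw j
    rw [hΦ, if_neg (fun h => hij h.symm), if_pos rfl, LinearMap.zero_apply,
      Pi.single_eq_same] at h1
    exact zero_ne_one h1
  have hni : ¬ Function.Injective Φ := fun h => hns (LinearMap.injective_iff_surjective.1 h)
  obtain ⟨w, hw0, hw⟩ : ∃ w, w ≠ 0 ∧ Φ w = 0 := by
    by_contra hcon
    apply hni
    rw [injective_iff_map_eq_zero]
    intro w hw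
    by_contra h
    exact hcon ⟨w, h, hw⟩
  have hwr : H.h w r = 0 := by
    have h1 := congrFun hw i
    rw [hΦ, if_pos rfl] at h1
    exact h1
  have hall : ∀ l, fderiv ℂ (MOD.ext (y l)) (z : Vn n) w = 0 := by
    intro l
    by_cases h1 : c l = 1
    · have h2 := congrFun hw l
      have h3 : l ≠ i := by
        rintro rfl
        exact hi h1
      have h4 : l ≠ j := by
        rintro rfl
        exact hj h1
      rw [hΦ, if_neg h3, if_neg h4] at h2
      exact h2
    · exact zero_dir hfix (hy l) (heig l) h1 z hz hwr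
  refine ⟨w, hw0, hwr, ?_⟩
  intro f hf
  refine (Algebra.adjoin_induction
    (p := fun x _ => Hol H x ∧ fderiv ℂ (MOD.ext x) (z : Vn n) w = 0) ?_ ?_ ?_ ?_ hf).2
  · rintro _ ⟨l, rfl⟩
    exact ⟨hy l, hall l⟩
  · intro a
    exact ⟨MOD.hol_const a, by rw [ext_const]; rfl⟩
  · rintro f g - - ⟨hf1, hf2⟩ ⟨hg1, hg2⟩
    refine ⟨MOD.hol_add hf1 hg1, ?_⟩
    rw [ext_add, fderiv_add (diff hf1 z) (diff hg1 z), add_apply, hf2, hg2,
      add_zero]
  · rintro f g - - ⟨hf1, hf2⟩ ⟨hg1, hg2⟩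
    refine ⟨MOD.hol_mul hf1 hg1, ?_⟩
    rw [ext_mul, fderiv_mul (diff hf1 z) (diff hg1 z), add_apply,
      smul_apply, smul_apply, hf2, hg2, smul_zero,
      smul_zero, add_zero]

end Pool.Agent.RFO
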