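import Mathlib
import Pool.Agent.RFO.St2

/-!
# Automorphisms extend to the integral closure of the invariants
-/

set_option autoImplicit false

namespace Pool.Agent.RFO

namespace EXT

section

variable {G T KK : Type} [Group G] [CommRing T] [IsDomain T] [Algebra ℂ T]
  [MulSemiringAction G T] [SMulCommClass G ℂ T] [Field KK] [Algebra T KK]
  [IsFractionRing T KK] [Algebra ℂ KK] [IsScalarTower ℂ T KK]

/-- the automorphism preserves the invariants -/
def Inv (G : Type) {T : Type} [Group G] [CommRing T] [Algebra ℂ T] [MulSemiringAction G T]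
    (σ : T ≃ₐ[ℂ] T) : Prop :=
  ∀ x, (∀ g : G, g • σ x = σ x) ↔ ∀ g : G, g • x = x

omit [IsDomain T] [SMulCommClass G ℂ T] in
theorem Inv.symm {σ : T ≃ₐ[ℂ] T} (h : Inv G σ) : Inv G σ.symm := by
  intro x
  have := h (σ.symm x)
  rw [AlgEquiv.apply_symm_apply] at this
  exact this.symm

/-- `s` extends `σ` -/
def Ex (σ : T ≃ₐ[ℂ] T) (s : KK ≃+* KK) : Prop :=
  ∀ t, s (algebraMap T KK t) = algebraMap T KK (σ t)

omit [IsDomain T] [IsFractionRing T KK] [Algebra ℂ KK] [IsScalarTower ℂ T KK] in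
theorem Ex.symm {σ : T ≃ₐ[ℂ] T} {s : KK ≃+* KK} (h : Ex σ s) : Ex σ.symm s.symm := by
  intro t
  rw [RingEquiv.symm_apply_eq, h, AlgEquiv.apply_symm_apply]

theorem exists_ex (σ : T ≃ₐ[ℂ] T) : ∃ s : KK ≃+* KK, Ex σ s :=
  ⟨IsFractionRing.ringEquivOfRingEquiv σ.toRingEquiv, fun t =>
    IsFractionRing.ringEquivOfRingEquiv_algebraMap σ.toRingEquiv t⟩

theorem mem_of {σ : T ≃ₐ[ℂ] T} {s : KK ≃+* KK} (h : Ex σ s) (hi : Inv G σ) {x : KK}
    (hx : x ∈ FRB.TT G T KK) : s x ∈ FRB.TT G T KK := by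
  have h1 : IsIntegral (FRB.SS G T) x := hx
  let φ : FRB.SS G T →+* FRB.SS G T :=
    { toFun := fun y => ⟨σ (y : T), fun g _ => (hi y).2 (fun g => y.2 g (Subgroup.mem_top g)) g⟩
      map_one' := Subtype.ext (map_one σ)
      map_mul' := fun a b => Subtype.ext (map_mul σ (a : T) (b : T))
      map_zero' := Subtype.ext (map_zero σ)
      map_add' := fun a b => Subtype.ext (map_add σ (a : T) (b : T)) }
  have h2 : IsIntegral (FRB.SS G T) ((s : KK →+* KK) x) := by
    refine h1.map_of_comp_eq φ (s : KK →+* KK) ?_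
    ext y
    exact (h (y : T)).symm
  exact h2

theorem isH_of {hom : ℤ → Submodule ℂ T} {σ : T ≃ₐ[ℂ] T} {s : KK ≃+* KK} (h : Ex σ s)
    (ho : ∀ j x, x ∈ hom j → σ x ∈ hom j) {k : ℤ} {x : KK} (hx : FRB.IsH hom k x) :
    FRB.IsH hom k (s x) := by
  obtain ⟨i, j, a, b, ha, hb, hb0, e, hk⟩ := hx
  refine ⟨i, j, σ a, σ b, ho _ _ ha, ho _ _ hb, ?_, ?_, hk⟩
  · exact fun h0 => hb0 (σ.injective (by rw [h0, map_zero]))
  · rw [← h, ← h, ← map_mul, e]

variable [MulSemiringAction G KK] [SMulDistribClass G T KK]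

theorem exists_den [Finite G] (x : KK) : ∃ a b : T, b ≠ 0 ∧ (∀ g : G, g • b = b) ∧
    x * algebraMap T KK b = algebraMap T KK a := by
  classical
  haveI : Fintype G := Fintype.ofFinite G
  obtain ⟨a, b, hb, hab⟩ := IsFractionRing.div_surjective (A := T) x
  have hb0 : b ≠ 0 := nonZeroDivisors.ne_zero hb
  have hιb : algebraMap T KK b ≠ 0 := fun h0 =>
    hb0 (FRB.inj (KK := KK) (by rw [h0, map_zero]))
  refine ⟨a * ∏ g ∈ Finset.univ.erase (1 : G), g • b, ∏ g : G, g • b, ?_, fun g =>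
    Finset.smul_prod_perm b g, ?_⟩
  · rw [Finset.prod_ne_zero_iff]
    intro g _
    exact (smul_ne_zero_iff_ne g).2 hb0
  · rw [← Finset.mul_prod_erase Finset.univ _ (Finset.mem_univ (1 : G)), one_smul, map_mul,
      map_mul, ← hab, ← mul_assoc, div_mul_cancel₀ _ hιb]

theorem inv_iff {x : KK} {a b : T} (hb : b ≠ 0) (hi : ∀ g : G, g • b = b)
    (e : x * algebraMap T KK b = algebraMap T KK a) (g : G) : g • x = x ↔ g • a = a := by
  have hιb : algebraMap T KK b ≠ 0 := fun h0 =>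
    hb (FRB.inj (KK := KK) (by rw [h0, map_zero]))
  have h1 : (g • x) * algebraMap T KK b = algebraMap T KK (g • a) := by
    rw [← FRB.act_map, ← e, smul_mul', FRB.act_map, hi g]
  constructor
  · intro h
    apply FRB.inj (KK := KK)
    rw [← h1, h, e]
  · intro h
    apply mul_right_cancel₀ hιb
    rw [h1, h, e]

theorem inv_of [Finite G] {σ : T ≃ₐ[ℂ] T} {s : KK ≃+* KK} (h : Ex σ s) (hi : Inv G σ)
    (K K' : Subgroup G)
    (hk : ∀ x : T, (∀ g ∈ K, g • σ x = σ x) ↔ ∀ g ∈ K', g • x = x) (x : KK) :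
    (∀ g ∈ K, g • s x = s x) ↔ ∀ g ∈ K', g • x = x := by
  obtain ⟨a, b, hb, hbi, e⟩ := exists_den (G := G) (T := T) x
  have e' : s x * algebraMap T KK (σ b) = algebraMap T KK (σ a) := by
    rw [← h, ← h, ← map_mul, e]
  have hb' : σ b ≠ 0 := fun h0 => hb (σ.injective (by rw [h0, map_zero]))
  have hbi' : ∀ g : G, g • σ b = σ b := (hi b).2 hbi
  constructor
  · intro hx g hg
    rw [inv_iff hb hbi e]
    exact (hk a).1 (fun g' hg' => (inv_iff hb' hbi' e' g').1 (hx g' hg')) g hg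
  · intro hx g hg
    rw [inv_iff hb' hbi' e']
    exact (hk a).2 (fun g' hg' => (inv_iff hb hbi e g').1 (hx g' hg')) g hg

end

end EXT

/-- automorphisms extend to the integral closure -/
theorem EXT_thm : S_EXT := by
  intro G T KK _ _ _ _ _ _ _ _ _ _ _ _ _ _ hom gr K K' σ htr
  obtain ⟨s, hs⟩ := EXT.exists_ex (KK := KK) σ
  have hi : EXT.Inv G σ := htr.fx
  have hc : ∀ c : ℂ, s (algebraMap ℂ KK c) = algebraMap ℂ KK c := by
    intro c
    rw [IsScalarTower.algebraMap_apply ℂ T KK, hs, AlgEquiv.commutes]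
  let σ' : ↥(FRB.TT G T KK) ≃ₐ[ℂ] ↥(FRB.TT G T KK) :=
    { toFun := fun x => ⟨s x, EXT.mem_of hs hi x.2⟩
      invFun := fun x => ⟨s.symm x, EXT.mem_of hs.symm hi.symm x.2⟩
      left_inv := fun x => Subtype.ext (s.symm_apply_apply x)
      right_inv := fun x => Subtype.ext (s.apply_symm_apply x)
      map_mul' := fun x y => Subtype.ext (map_mul s (x : KK) (y : KK))
      map_add' := fun x y => Subtype.ext (map_add s (x : KK) (y : KK))
      commutes' := fun c => Subtype.ext (hc c) }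
  have hval : ∀ x : ↥(FRB.TT G T KK), ((σ' x : ↥(FRB.TT G T KK)) : KK) = s (x : KK) :=
    fun _ => rfl
  refine ⟨σ', ?_, ?_, ?_⟩
  · intro j x
    rw [FRB.mem_HT, FRB.mem_HT, hval]
    constructor
    · intro h
      have h1 := EXT.isH_of hs.symm (hom := hom) (fun j x hx => by
        rw [← htr.ho, AlgEquiv.apply_symm_apply]
        exact hx) h
      rwa [RingEquiv.symm_apply_apply] at h1
    · exact fun h => EXT.isH_of hs (fun j x hx => (htr.ho j x).2 hx) h
  · intro x
    have h := EXT.inv_of (G := G) hs hi ⊤ ⊤ (fun x => by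
      simpa only [Subgroup.mem_top, forall_const] using hi x) (x : KK)
    simp only [Subgroup.mem_top, forall_const] at h
    constructor
    · intro hx g
      exact Subtype.ext (h.1 (fun g => congrArg Subtype.val (hx g)) g)
    · intro hx g
      exact Subtype.ext (h.2 (fun g => congrArg Subtype.val (hx g)) g)
  · intro x
    have h := EXT.inv_of (G := G) hs hi K K' htr.kk (x : KK)
    constructor
    · intro hx g hg
      exact Subtype.ext (h.1 (fun g hg => congrArg Subtype.val (hx g hg)) g hg)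
    · intro hx g hg
      exact Subtype.ext (h.2 (fun g hg => congrArg Subtype.val (hx g hg)) g hg)

end Pool.Agent.RFO
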