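import Mathlib
import Pool.Agent.RFO.St2

/-!
# FDT: components for the characters in the integral closure
-/

set_option autoImplicit false

namespace Pool.Agent.RFO

namespace FDT

section gen

variable {G : Type} [Group G] {M : Type} [AddCommGroup M] [Module ℂ M]
  [DistribMulAction G M]

theorem PP_eq (K : Subgroup G) [Fintype K] (χ : K →* ℂˣ) (x : M) :
    PP K χ x = (Nat.card K : ℂ)⁻¹ • ∑ k : K, ((χ k⁻¹ : ℂˣ) : ℂ) • (k : G) • x := by
  rw [PP, finsum_eq_sum_of_fintype]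

theorem PP_add [Finite G] (K : Subgroup G) (χ : K →* ℂˣ) (x y : M) :
    PP K χ (x + y) = PP K χ x + PP K χ y := by
  classical
  have : Fintype G := Fintype.ofFinite G
  have : Fintype K := Fintype.ofFinite K
  rw [PP_eq, PP_eq, PP_eq, ← smul_add, ← Finset.sum_add_distrib]
  congr 1
  exact Finset.sum_congr rfl fun k _ => by rw [smul_add, smul_add]

theorem PP_act [Finite G] [SMulCommClass G ℂ M] (K : Subgroup G) (χ : K →* ℂˣ) (x : M) (k : K) :
    (k : G) • PP K χ x = ((χ k : ℂˣ) : ℂ) • PP K χ x := by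
  classical
  have : Fintype G := Fintype.ofFinite G
  have : Fintype K := Fintype.ofFinite K
  rw [PP_eq, smul_comm, smul_comm ((χ k : ℂˣ) : ℂ)]
  congr 1
  rw [Finset.smul_sum, Finset.smul_sum]
  refine Fintype.sum_equiv (Equiv.mulLeft k) _ _ fun l => ?_
  rw [Equiv.coe_mulLeft, smul_comm, ← mul_smul, Subgroup.coe_mul, smul_smul ((χ k : ℂˣ) : ℂ)]
  congr 1
  have h : χ (k * (l⁻¹ * k⁻¹)) = χ l⁻¹ := by
    rw [map_mul, map_mul, map_inv χ k, mul_comm (χ l⁻¹), mul_inv_cancel_left]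
  rw [← Units.val_mul, ← map_mul, mul_inv_rev, h]

theorem PP_mem [Finite G] (K : Subgroup G) (χ : K →* ℂˣ) (S : Submodule ℂ M) (hS : ∀ (g : G), ∀ x ∈ S, g • x ∈ S)
    {x : M} (hx : x ∈ S) : PP K χ x ∈ S := by
  classical
  have : Fintype G := Fintype.ofFinite G
  have : Fintype K := Fintype.ofFinite K
  rw [PP_eq]
  exact S.smul_mem _ (S.sum_mem fun k _ => S.smul_mem _ (hS _ _ hx))

end gen

theorem PP_mul {G : Type} [Group G] [Finite G] {R : Type} [CommRing R] [Algebra ℂ R]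
    [MulSemiringAction G R] (K : Subgroup G) (χ : K →* ℂˣ) (s x : R) (hs : ∀ g : G, g • s = s) :
    PP K χ (s * x) = s * PP K χ x := by
  classical
  have : Fintype G := Fintype.ofFinite G
  have : Fintype K := Fintype.ofFinite K
  rw [PP_eq, PP_eq, mul_smul_comm, Finset.mul_sum]
  congr 1
  exact Finset.sum_congr rfl fun k _ => by
    rw [MulSemiringAction.smul_mul, hs]
    exact (mul_smul_comm ((χ k⁻¹ : ℂˣ) : ℂ) s ((k : G) • x)).symm

/-- The rings of invariants are isomorphic. -/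
noncomputable def fxE {G T : Type} [Group G] [CommRing T] [Algebra ℂ T] [MulSemiringAction G T]
    [SMulCommClass G ℂ T] {hom : ℤ → Submodule ℂ T} {K K' : Subgroup G} {σ : T ≃ₐ[ℂ] T}
    (h : Tr hom K K' σ) : ↥(Fx K : Subalgebra ℂ T) ≃* ↥(Fx K' : Subalgebra ℂ T) where
  toFun x := ⟨σ.symm x, by
    have h1 : ∀ g ∈ K, g • σ (σ.symm x) = σ (σ.symm x) := by
      intro g hg
      rw [AlgEquiv.apply_symm_apply]
      exact x.2 g hg
    exact (h.kk _).1 h1⟩
  invFun x := ⟨σ x, (h.kk _).2 x.2⟩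
  left_inv x := Subtype.ext (σ.apply_symm_apply x)
  right_inv x := Subtype.ext (σ.symm_apply_apply x)
  map_mul' x y := Subtype.ext (map_mul σ.symm (x : T) y)

end FDT

theorem FDT_thm (h1 : S_EXT) (h2 : S_CHR) (h3 : S_TCH) : S_FDT := by
  intro G T KK _ _ _ _ _ _ _ _ _ _ _ _ _ _ hom gr K K' σ hTr hU hc
  refine ⟨?_, ?_⟩
  · obtain ⟨σ', hσ'⟩ := h1 G T KK hom gr K K' σ hTr
    exact ⟨σ', hσ'⟩
  have hU' : UniqueFactorizationMonoid ↥(Fx K' : Subalgebra ℂ T) :=
    (FDT.fxE hTr).uniqueFactorizationMonoid hU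
  obtain ⟨q, χ, hχ, hdec⟩ := h2 G K'
  choose e he t ht ht0 hy using fun l => h3 G T KK hom gr K' hU' (χ l) (hχ l)
  let b : Fin q → ↥(FRB.TT G T KK) := fun l => ⟨t l, ht l⟩
  have hb0 : ∀ l, b l ≠ 0 := fun l h => ht0 l (congrArg Subtype.val h)
  have hex : ∀ (l : Fin q) (x : ↥(FRB.TT G T KK)), ∃ y : ↥(FRB.TT G T KK),
      (∀ k ∈ K', k • y = y) ∧ PP K' (χ l) x = b l * y ∧
        ∀ j, PP K' (χ l) x ∈ FRB.HT G KK gr j → y ∈ FRB.HT G KK gr (j - e l) := by
    intro l x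
    obtain ⟨y, hyT, hyK, hyx, hyH⟩ := hy l (PP K' (χ l) x : ↥(FRB.TT G T KK)).1
      (PP K' (χ l) x : ↥(FRB.TT G T KK)).2 (fun k => by
        have := congrArg Subtype.val (FDT.PP_act K' (χ l) x k)
        exact this)
    exact ⟨⟨y, hyT⟩, fun k hk => Subtype.ext (hyK k hk), Subtype.ext hyx, fun j hj => hyH j hj⟩
  choose y hyK hyx hyH using hex
  refine ⟨q, b, e, y, he, ?_, ?_, ?_, fun l x _ => hyK l x, ?_⟩
  · intro l x x' _ _
    apply mul_left_cancel₀ (hb0 l)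
    rw [mul_add, ← hyx, ← hyx, ← hyx, FDT.PP_add]
  · intro l s x hs _
    apply mul_left_cancel₀ (hb0 l)
    rw [mul_left_comm, ← hyx, ← hyx, FDT.PP_mul K' (χ l) s x hs]
  · intro l j x _ hx
    exact hyH l x j (FDT.PP_mem K' (χ l) _ (fun g z hz => FRB.isH_act gr g hz) hx)
  · intro x hx g hg
    have hd := hdec ↥(FRB.TT G T KK) x (fun a ha b hb => hx _ (hc a ha b hb))
    have h4 : x - ∑ l, b l * y l x = PP K' 1 x := by
      have h5 : ∑ l, b l * y l x = ∑ l, PP K' (χ l) x :=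
        Finset.sum_congr rfl fun l _ => (hyx l x).symm
      rw [h5, sub_eq_iff_eq_add]
      exact hd
    rw [h4]
    have h6 := FDT.PP_act K' 1 x ⟨g, hg⟩
    rw [MonoidHom.one_apply, Units.val_one, one_smul] at h6
    exact h6

end Pool.Agent.RFO
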