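import Mathlib
import Pool.Agent.RFO.St2

/-!
# The criterion of flatness in the case of abelian quotients
-/

set_option autoImplicit false

namespace Pool.Agent.RFO

namespace FRE

open FRB

section homog

variable {G T KK : Type} [Group G] [CommRing T] [IsDomain T] [Algebra ℂ T]
  [MulSemiringAction G T] [SMulCommClass G ℂ T] [Field KK] [Algebra T KK]
  [IsFractionRing T KK] [Algebra ℂ KK] [IsScalarTower ℂ T KK]

variable {hom : ℤ → Submodule ℂ T}

variable [MulSemiringAction G KK] [SMulDistribClass G T KK]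

theorem frT [Finite G] (gr : Gr G hom)
    (fac : ∀ (x y : T) (k : ℤ), x * y ∈ hom k → x * y ≠ 0 → ∃ i, x ∈ hom i)
    (K : Subgroup G) [IsIntegrallyClosed ↥(Fx K : Subalgebra ℂ T)]
    (hch : ∀ (r : ℕ) (s f : Fin (r + 1) → ↥(TT G T KK)), Rel G (HT G KK gr) s f →
      (∀ i, ∀ g ∈ K, g • f i = f i) → NotIn G s →
      f 0 ∈ Ideal.span (Pos G (HT G KK gr))) : FR hom K := by
  classical
  intro r s f hrel hf hs
  obtain ⟨a, b, w, hsa, hfb, hab⟩ := hrel.ex
  -- transport to the integral closure
  have key := hch r (fun i => ⟨algebraMap T KK (s i), map_mem (s i)⟩)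
    (fun i => ⟨algebraMap T KK (f i), map_mem (f i)⟩)
    { ex := ⟨a, b, w, fun i => isH_of gr (hsa i), fun i => isH_of gr (hfb i), hab⟩
      fx := fun i g => Subtype.ext (by
        show g • algebraMap T KK (s i) = algebraMap T KK (s i)
        rw [act_map, hrel.fx i g])
      sum := by
        apply Subtype.ext
        rw [AddSubmonoidClass.coe_finsetSum]
        show ∑ i, algebraMap T KK (s i) * algebraMap T KK (f i) = 0
        rw [← map_zero (algebraMap T KK), ← hrel.sum, map_sum]
        exact Finset.sum_congr rfl fun i _ => (map_mul _ _ _).symm }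
    (fun i g hg => Subtype.ext (by
      show g • algebraMap T KK (f i) = algebraMap T KK (f i)
      rw [act_map, hf i g hg]))
    (by
      rintro ⟨c, hc, hsc⟩
      choose c' hc' hcc using fun i => inv_top (KK := KK) K (c i).2
        (fun g => congrArg Subtype.val (hc i g))
      apply hs
      refine ⟨c', hc', ?_⟩
      apply inj (KK := KK)
      have h := congrArg Subtype.val hsc
      rw [AddSubmonoidClass.coe_finsetSum] at h
      rw [map_sum]
      refine (show algebraMap T KK (s 0) = _ from h).trans ?_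
      refine Finset.sum_congr rfl fun i _ => ?_
      rw [map_mul, hcc i]
      rfl)
  obtain ⟨q, w, u, hu⟩ := Submodule.mem_span_set'.1 key
  haveI : Fintype K := Fintype.ofFinite K
  -- the average
  have hcard : ((Fintype.card K : ℕ) : ℂ) ≠ 0 := by
    rw [Nat.cast_ne_zero]
    exact Fintype.card_ne_zero
  obtain ⟨av, hav⟩ : ∃ av : Fin q → KK, ∀ j, av j =
      ((Fintype.card K : ℕ) : ℂ)⁻¹ • ∑ g : K, (g : G) • ((w j : ↥(TT G T KK)) : KK) :=
    ⟨_, fun _ => rfl⟩
  have hwT : ∀ j, av j ∈ TT G T KK := by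
    intro j
    rw [hav]
    exact (TT G T KK).smul_mem ((TT G T KK).sum_mem fun g _ => stab _ (w j).2) _
  have hwK : ∀ j, ∀ g ∈ K, g • av j = av j := by
    intro j g hg
    rw [hav, Algebra.smul_def, smul_mul', act_const T]
    congr 1
    rw [Finset.smul_sum]
    have e : ∀ x : K, g • (x : G) • ((w j : ↥(TT G T KK)) : KK) =
        (((⟨g, hg⟩ : K) * x : K) : G) • ((w j : ↥(TT G T KK)) : KK) := fun x => by
      rw [← mul_smul]; rfl
    simp_rw [e]
    exact Fintype.sum_equiv (Equiv.mulLeft (⟨g, hg⟩ : K)) _ _ (fun x => rfl)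
  choose v hvK hv using fun j => inv_mem (KK := KK) K (hwT j) (hwK j)
  choose u' hu' huu using fun j => inv_top (KK := KK) K (u j : ↥(TT G T KK)).2
    (fun g => congrArg Subtype.val ((u j).2.1 g))
  refine ⟨q, u', v, fun j => ⟨hu' j, ?_⟩, hvK, ?_⟩
  · obtain ⟨i, hi, hx⟩ := (u j).2.2
    refine ⟨i, hi, ?_⟩
    have h : IsH hom i (((u j : ↥(TT G T KK)) : KK)) := hx
    rw [← huu j] at h
    exact isH_comp gr fac h
  · apply inj (KK := KK)
    have h0 : algebraMap T KK (f 0) =
        ∑ j, ((w j : ↥(TT G T KK)) : KK) * algebraMap T KK (u' j) := by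
      have h := congrArg Subtype.val hu
      rw [AddSubmonoidClass.coe_finsetSum] at h
      refine (show _ = algebraMap T KK (f 0) from h).symm.trans ?_
      refine Finset.sum_congr rfl fun j _ => ?_
      rw [huu j]
      rfl
    have h1 : ∀ g : K, algebraMap T KK (f 0) =
        ∑ j, ((g : G) • ((w j : ↥(TT G T KK)) : KK)) * algebraMap T KK (u' j) := by
      intro g
      have h2 : (g : G) • algebraMap T KK (f 0) = algebraMap T KK (f 0) := by
        rw [act_map, hf 0 g g.2]
      rw [← h2, h0, Finset.smul_sum]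
      refine Finset.sum_congr rfl fun j _ => ?_
      rw [smul_mul', act_map, hu' j g]
    have h2 : ((Fintype.card K : ℕ) : ℂ) • algebraMap T KK (f 0) =
        ∑ g : K, ∑ j, ((g : G) • ((w j : ↥(TT G T KK)) : KK)) * algebraMap T KK (u' j) := by
      rw [← Finset.sum_congr rfl (fun g _ => h1 g), Finset.sum_const, Finset.card_univ,
        Nat.cast_smul_eq_nsmul]
    rw [Finset.sum_comm] at h2
    have h3 : algebraMap T KK (f 0) = ((Fintype.card K : ℕ) : ℂ)⁻¹ •
        ∑ j, ∑ g : K, ((g : G) • ((w j : ↥(TT G T KK)) : KK)) * algebraMap T KK (u' j) := by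
      rw [← h2, inv_smul_smul₀ hcard]
    rw [h3, map_sum, Finset.smul_sum]
    refine Finset.sum_congr rfl fun j _ => ?_
    rw [map_mul, hv j, hav j, ← Finset.sum_mul, mul_comm (algebraMap T KK (u' j)),
      smul_mul_assoc]

end homog

end FRE

/-- the criterion of flatness in the case of abelian quotients -/
theorem FRE_thm (h1 : S_CHC) (h2 : S_FAC) (h3 : S_FDT) : S_FRE := by
  intro G T _ _ _ _ _ _ _ hom gr K P hP hU hK'
  letI : MulSemiringAction G (FractionRing T) :=
    IsFractionRing.mulSemiringAction G T (FractionRing T)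
  haveI : SMulDistribClass G T (FractionRing T) :=
    IsFractionRing.smulDistribClass G T (FractionRing T)
  have fac : ∀ (x y : T) (k : ℤ), x * y ∈ hom k → x * y ≠ 0 → ∃ i, x ∈ hom i :=
    h2 G T hom gr
  haveI : IsIntegrallyClosed ↥(Fx K : Subalgebra ℂ T) := inferInstance
  apply FRE.frT (KK := FractionRing T) gr fac K
  intro r s f hrel hf hs
  refine h1 G ↥(FRB.TT G T (FractionRing T)) (FRB.HT G (FractionRing T) gr)
    (FRB.hmT gr fac K) K P hP ?_ r s f hrel hf hs
  intro K' hKP
  obtain ⟨⟨σ, hσ⟩, hc⟩ := hK' K' hKP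
  exact h3 G T (FractionRing T) hom gr K K' σ hσ hU hc

end Pool.Agent.RFO
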