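import Mathlib
import Pool.Agent.RFO.Mod

/-!
# Unitary modular forms and reflection overgroups: the grading and the action (MP_06550c_nt)
-/

set_option autoImplicit false

namespace Pool.Agent.RFO
namespace MOD

variable {n : ℕ} {H : HForm n} {N N' Γ Γ₁ : Subgroup (Vn n ≃ₗ[ℂ] Vn n)}

/-! ### The grading -/

variable (H N) in
/-- the homogeneous elements -/
def hMF (k : ℤ) : Submodule ℂ ↥(MS H N) where
  carrier := {f | (k < 0 → f = 0) ∧ (0 ≤ k → IsMF H N k.toNat f.1)}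
  add_mem' := by
    intro a b ha hb
    refine ⟨fun h => ?_, fun h => ?_⟩
    · rw [ha.1 h, hb.1 h, add_zero]
    · exact mf_add (ha.2 h) (hb.2 h)
  zero_mem' := ⟨fun _ => rfl, fun _ => mf_zero _⟩
  smul_mem' := by
    intro c a ha
    refine ⟨fun h => ?_, fun h => ?_⟩
    · rw [ha.1 h, smul_zero]
    · exact mf_smul c (ha.2 h)

theorem mem_hMF {k : ℤ} {f : MS H N} :
    f ∈ hMF H N k ↔ (k < 0 → f = 0) ∧ (0 ≤ k → IsMF H N k.toNat f.1) := Iff.rfl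

theorem mem_hMF_nat {k : ℕ} {f : MS H N} (hf : IsMF H N k f.1) : f ∈ hMF H N (k : ℤ) := by
  refine ⟨fun h => ?_, fun _ => ?_⟩
  · omega
  · rw [Int.toNat_natCast]
    exact hf

theorem hMF_top : ⨆ k, hMF H N k = ⊤ := by
  rw [eq_top_iff]
  rintro ⟨f, hf⟩ -
  have h : ∀ hf : f ∈ MS H N, (⟨f, hf⟩ : MS H N) ∈ ⨆ k, hMF H N k := by
    refine ms_ind (p := fun f => ∀ hf : f ∈ MS H N, (⟨f, hf⟩ : MS H N) ∈ ⨆ k, hMF H N k)
      ?_ ?_ ?_ hf
    · intro h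
      exact Submodule.zero_mem _
    · intro k f hf h
      exact Submodule.mem_iSup_of_mem (k : ℤ) (mem_hMF_nat hf)
    · intro f g hf hg h1 h2 h3
      exact Submodule.add_mem _ (h1 hf) (h2 hg)
  exact h hf

theorem pc_sc {k : ℕ} {f : cone H → ℂ} (hf : IsMF H N k f) {t : ℂ} (ht : t ≠ 0) :
    pc (sc t ht) f = (t ^ k)⁻¹ • f := by
  funext z
  have h := hf.wt t ht z (sc t ht z) rfl
  rw [pc_apply, Pi.smul_apply, h, smul_eq_mul, ← mul_assoc, inv_mul_cancel₀ (pow_ne_zero k ht),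
    one_mul]

theorem ms_pc_sc {t : ℂ} (ht : t ≠ 0) {f : cone H → ℂ} (hf : f ∈ MS H N) :
    pc (sc t ht) f ∈ MS H N := by
  refine ms_ind (p := fun f => pc (sc t ht) f ∈ MS H N) ?_ ?_ ?_ hf
  · rw [map_zero]
    exact (MS H N).zero_mem
  · intro k f hf
    rw [pc_sc hf]
    exact (MS H N).smul_mem (mf_mem hf) _
  · intro f g _ _ h1 h2
    rw [map_add]
    exact (MS H N).add_mem h1 h2

variable (H N) in
/-- the scaling operator -/
noncomputable def scT : ↥(MS H N) →ₐ[ℂ] ↥(MS H N) :=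
  ((pc (sc (2 : ℂ) two_ne_zero)).comp (MS H N).val).codRestrict (MS H N)
    fun x => ms_pc_sc _ x.2

theorem hMF_ind : iSupIndep (hMF H N) := by
  have h1 := Module.End.eigenspaces_iSupIndep (scT H N).toLinearMap
  have hinj : Function.Injective (fun k : ℤ => (((2 : ℝ) ^ (-k) : ℝ) : ℂ)) := by
    intro a b h
    have h2 : (2 : ℝ) ^ (-a) = (2 : ℝ) ^ (-b) := Complex.ofReal_injective h
    have h3 := zpow_right_injective₀ (by norm_num : (0 : ℝ) < 2) (by norm_num : (2 : ℝ) ≠ 1) h2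
    simpa using h3
  refine (h1.comp hinj).mono fun k x hx => ?_
  show x ∈ Module.End.eigenspace (scT H N).toLinearMap (((2 : ℝ) ^ (-k) : ℝ) : ℂ)
  rw [Module.End.mem_eigenspace_iff]
  rcases lt_or_ge k 0 with hk | hk
  · rw [hx.1 hk, map_zero, smul_zero]
  · apply Subtype.ext
    show pc (sc (2 : ℂ) two_ne_zero) x.1 = (((2 : ℝ) ^ (-k) : ℝ) : ℂ) • x.1
    rw [pc_sc (hx.2 hk)]
    congr 1
    push_cast
    rw [zpow_neg]
    congr 1
    rw [← zpow_natCast, Int.toNat_of_nonneg hk]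

theorem isDomain (hD : S_DOM) (hO : S_OPN) : IsDomain ↥(MS H N) := by
  have h1 : Nontrivial ↥(MS H N) := by
    obtain ⟨z, hz⟩ := (hO n H).2.2
    refine ⟨⟨0, 1, fun h => ?_⟩⟩
    have h2 := congrFun (congrArg Subtype.val h) ⟨z, hz⟩
    exact zero_ne_one h2
  have h2 : NoZeroDivisors ↥(MS H N) := by
    refine ⟨fun {a b} hab => ?_⟩
    have h3 := hD n H a.1 b.1 (ms_hol a.2) (ms_hol b.2) (congrArg Subtype.val hab)
    rcases h3 with h3 | h3
    · exact Or.inl (Subtype.ext h3)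
    · exact Or.inr (Subtype.ext h3)
  exact NoZeroDivisors.to_isDomain _

/-! ### The action -/

theorem mf_act {g : Uh H} (hn : ∀ h ∈ N, g.1⁻¹ * h * g.1 ∈ N') {k : ℕ} {f : cone H → ℂ}
    (hf : IsMF H N' k f) : IsMF H N k (pc (mv g⁻¹) f) := by
  refine ⟨hol_pc (g.1⁻¹ : Vn n ≃ₗ[ℂ] Vn n).toLinearMap _ (fun z => rfl) hf.hol, ?_, ?_⟩
  · intro t ht z w h
    exact hf.wt t ht (mv g⁻¹ z) (mv g⁻¹ w) (by
      show (g.1⁻¹ : Vn n ≃ₗ[ℂ] Vn n) w.1 = t • (g.1⁻¹ : Vn n ≃ₗ[ℂ] Vn n) z.1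
      rw [h, map_smul])
  · intro h hh z w hw
    refine hf.inv _ (hn h hh) (mv g⁻¹ z) (mv g⁻¹ w) ?_
    show (g.1⁻¹ : Vn n ≃ₗ[ℂ] Vn n) w.1 = (g.1⁻¹ * h * g.1) ((g.1⁻¹ : Vn n ≃ₗ[ℂ] Vn n) z.1)
    rw [hw, LinearEquiv.mul_apply, LinearEquiv.mul_apply, ← LinearEquiv.mul_apply g.1,
      mul_inv_cancel]
    rfl

theorem ms_act {g : Uh H} (hn : ∀ h ∈ N, g.1⁻¹ * h * g.1 ∈ N') {f : cone H → ℂ}
    (hf : f ∈ MS H N') : pc (mv g⁻¹) f ∈ MS H N := by
  refine ms_ind (p := fun f => pc (mv g⁻¹) f ∈ MS H N) ?_ ?_ ?_ hf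
  · rw [map_zero]
    exact (MS H N).zero_mem
  · intro k f hf
    exact mf_mem (mf_act hn hf)
  · intro f g _ _ h1 h2
    rw [map_add]
    exact (MS H N).add_mem h1 h2

theorem pc_mv_mul (g h : Uh H) (f : cone H → ℂ) :
    pc (mv (g * h)⁻¹) f = pc (mv g⁻¹) (pc (mv h⁻¹) f) := by
  funext z
  rw [pc_apply, pc_apply, pc_apply, mul_inv_rev, mv_mul]

theorem pc_mv_one (f : cone H → ℂ) : pc (mv (1 : Uh H)⁻¹) f = f := by
  funext z
  rw [pc_apply, inv_one, mv_one]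

/-- the hypotheses on the groups -/
structure Nrm (H : HForm n) (N Γ₁ : Subgroup (Vn n ≃ₗ[ℂ] Vn n)) : Prop where
  un : Γ₁ ≤ Uh H
  nm : ∀ g ∈ Γ₁, ∀ h ∈ N, g * h * g⁻¹ ∈ N

/-- the action of an element -/
def actA (hh : Nrm H N Γ₁) (g : Γ₁) : ↥(MS H N) →ₐ[ℂ] ↥(MS H N) :=
  ((pc (mv (⟨g.1, hh.un g.2⟩ : Uh H)⁻¹)).comp (MS H N).val).codRestrict (MS H N)
    fun x => ms_act (g := ⟨g.1, hh.un g.2⟩) (fun h hn => by
      have := hh.nm g.1⁻¹ (Γ₁.inv_mem g.2) h hn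
      rwa [inv_inv] at this) x.2

theorem actA_apply (hh : Nrm H N Γ₁) (g : Γ₁) (x : MS H N) :
    (actA hh g x).1 = pc (mv (⟨g.1, hh.un g.2⟩ : Uh H)⁻¹) x.1 := rfl

theorem actA_mul (hh : Nrm H N Γ₁) (g h : Γ₁) (x : MS H N) :
    actA hh (g * h) x = actA hh g (actA hh h x) := by
  apply Subtype.ext
  rw [actA_apply, actA_apply, actA_apply]
  exact pc_mv_mul ⟨g.1, hh.un g.2⟩ ⟨h.1, hh.un h.2⟩ x.1

theorem actA_one (hh : Nrm H N Γ₁) (x : MS H N) : actA hh 1 x = x := by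
  apply Subtype.ext
  rw [actA_apply]
  exact pc_mv_one x.1

/-- the action as a homomorphism to the group of the automorphisms -/
noncomputable def actHom (hh : Nrm H N Γ₁) : Γ₁ →* (↥(MS H N) ≃ₐ[ℂ] ↥(MS H N)) where
  toFun g := AlgEquiv.ofAlgHom (actA hh g) (actA hh g⁻¹)
    (by
      ext1 x
      show actA hh g (actA hh g⁻¹ x) = x
      rw [← actA_mul, mul_inv_cancel, actA_one])
    (by
      ext1 x
      show actA hh g⁻¹ (actA hh g x) = x
      rw [← actA_mul, inv_mul_cancel, actA_one])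
  map_one' := by
    ext1 x
    exact actA_one hh x
  map_mul' := by
    intro g h
    ext1 x
    exact actA_mul hh g h x

theorem actHom_apply (hh : Nrm H N Γ₁) (g : Γ₁) (x : MS H N) :
    actHom hh g x = actA hh g x := rfl

/-- the finite group `G` -/
abbrev GG (hh : Nrm H N Γ₁) : Type := ↥(actHom hh).range

/-- the map `Γ₁ → G` -/
noncomputable def ph (hh : Nrm H N Γ₁) : Γ₁ →* GG hh := (actHom hh).rangeRestrict

theorem ph_surj (hh : Nrm H N Γ₁) : Function.Surjective (ph hh) :=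
  (actHom hh).rangeRestrict_surjective

theorem ph_smul (hh : Nrm H N Γ₁) (g : Γ₁) (x : MS H N) : ph hh g • x = actA hh g x := rfl

theorem ph_smul_val (hh : Nrm H N Γ₁) (g : Γ₁) (x : MS H N) :
    (ph hh g • x).1 = pc (mv (⟨g.1, hh.un g.2⟩ : Uh H)⁻¹) x.1 := rfl

theorem gg_smul_comm (hh : Nrm H N Γ₁) : SMulCommClass (GG hh) ℂ ↥(MS H N) := inferInstance

theorem gg_msa (hh : Nrm H N Γ₁) : Nonempty (MulSemiringAction (GG hh) ↥(MS H N)) :=
  ⟨inferInstance⟩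

end MOD
end Pool.Agent.RFO
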