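import Mathlib
import Pool.Agent.RFO.Act

/-!
# Unitary modular forms and reflection overgroups: invariants (MP_06550c_nt)
-/

set_option autoImplicit false

namespace Pool.Agent.RFO
namespace MOD

variable {n : ℕ} {H : HForm n} {N N' Γ Γ' Γ₁ : Subgroup (Vn n ≃ₗ[ℂ] Vn n)}

theorem ms_inv {f : cone H → ℂ} (hf : f ∈ MS H N) {g : Vn n ≃ₗ[ℂ] Vn n} (hg : g ∈ N) :
    ∀ z w : cone H, (w : Vn n) = g (z : Vn n) → f w = f z := by
  refine ms_ind (p := fun f => ∀ z w : cone H, (w : Vn n) = g (z : Vn n) → f w = f z)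
    ?_ ?_ ?_ hf
  · intro z w _
    rfl
  · intro k f hf
    exact hf.inv g hg
  · intro f₁ f₂ _ _ h1 h2 z w h
    rw [Pi.add_apply, Pi.add_apply, h1 z w h, h2 z w h]

theorem actHom_eq_one (hh : Nrm H N Γ₁) {g : Γ₁} (hg : g.1 ∈ N) : actHom hh g = 1 := by
  ext1 x
  apply Subtype.ext
  show (actA hh g x).1 = x.1
  rw [actA_apply]
  funext z
  rw [pc_apply]
  refine (ms_inv x.2 hg (mv (⟨g.1, hh.un g.2⟩ : Uh H)⁻¹ z) z ?_).symm
  show z.1 = (mv (⟨g.1, hh.un g.2⟩ : Uh H) (mv (⟨g.1, hh.un g.2⟩ : Uh H)⁻¹ z)).1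
  rw [← mv_mul, mul_inv_cancel, mv_one]

theorem ph_eq_one (hh : Nrm H N Γ₁) {g : Γ₁} (hg : g.1 ∈ N) : ph hh g = 1 := by
  apply Subtype.ext
  exact actHom_eq_one hh hg

theorem finite_GG (hh : Nrm H N Γ₁) (hf : N.relIndex Γ₁ ≠ 0) : Finite (GG hh) := by
  have hk : N.subgroupOf Γ₁ ≤ (actHom hh).ker := by
    intro g hg
    rw [MonoidHom.mem_ker]
    exact actHom_eq_one hh hg
  have h1 : (N.subgroupOf Γ₁).FiniteIndex := ⟨hf⟩
  have h2 : (actHom hh).ker.FiniteIndex := Subgroup.finiteIndex_of_le hk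
  have h3 : Finite (Γ₁ ⧸ (actHom hh).ker) := inferInstance
  exact Finite.of_equiv _ (QuotientGroup.quotientKerEquivRange (actHom hh)).toEquiv

/-- the image of a subgroup in `G` -/
noncomputable def KK (hh : Nrm H N Γ₁) (Γ' : Subgroup (Vn n ≃ₗ[ℂ] Vn n)) : Subgroup (GG hh) :=
  (Γ'.subgroupOf Γ₁).map (ph hh)

theorem ph_mem_KK (hh : Nrm H N Γ₁) {g : Γ₁} (hg : g.1 ∈ Γ') : ph hh g ∈ KK hh Γ' :=
  ⟨g, hg, rfl⟩

theorem KK_top (hh : Nrm H N Γ₁) : KK hh Γ₁ = ⊤ := by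
  rw [eq_top_iff]
  intro g _
  obtain ⟨γ, rfl⟩ := ph_surj hh g
  exact ph_mem_KK hh γ.2

theorem inv_of_KK (hh : Nrm H N Γ₁) (hle : Γ' ≤ Γ₁) {x : MS H N}
    (hx : ∀ g ∈ KK hh Γ', g • x = x) {γ : Vn n ≃ₗ[ℂ] Vn n} (hγ : γ ∈ Γ') (z w : cone H)
    (h : (w : Vn n) = γ (z : Vn n)) : x.1 w = x.1 z := by
  have h1 := hx _ (ph_mem_KK hh (g := ⟨γ, hle hγ⟩) hγ)
  have h2 := congrFun (congrArg Subtype.val h1) w
  rw [ph_smul_val, pc_apply] at h2
  rw [← h2]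
  refine congrArg x.1 (Subtype.ext ?_)
  show (γ⁻¹ : Vn n ≃ₗ[ℂ] Vn n) w.1 = z.1
  rw [h, ← LinearEquiv.mul_apply, inv_mul_cancel]
  rfl

theorem mf_of_KK (hh : Nrm H N Γ₁) (hle : Γ' ≤ Γ₁) {x : MS H N} {k : ℕ} (hk : IsMF H N k x.1)
    (hx : ∀ g ∈ KK hh Γ', g • x = x) : IsMF H Γ' k x.1 :=
  ⟨hk.hol, hk.wt, fun _ hγ z w h => inv_of_KK hh hle hx hγ z w h⟩

theorem smul_of_ms (hh : Nrm H N Γ₁) {x : MS H N} (hx : x.1 ∈ MS H Γ') {g : GG hh}
    (hg : g ∈ KK hh Γ') : g • x = x := by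
  obtain ⟨γ, hγ, rfl⟩ := hg
  apply Subtype.ext
  rw [ph_smul_val]
  funext z
  rw [pc_apply]
  refine (ms_inv hx hγ (mv (⟨γ.1, hh.un γ.2⟩ : Uh H)⁻¹ z) z ?_).symm
  show z.1 = (mv (⟨γ.1, hh.un γ.2⟩ : Uh H) (mv (⟨γ.1, hh.un γ.2⟩ : Uh H)⁻¹ z)).1
  rw [← mv_mul, mul_inv_cancel, mv_one]

theorem hMF_mul {i j : ℤ} {x y : MS H N} (hx : x ∈ hMF H N i) (hy : y ∈ hMF H N j) :
    x * y ∈ hMF H N (i + j) := by
  rcases lt_or_ge i 0 with hi | hi
  · rw [hx.1 hi, zero_mul]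
    exact Submodule.zero_mem _
  rcases lt_or_ge j 0 with hj | hj
  · rw [hy.1 hj, mul_zero]
    exact Submodule.zero_mem _
  refine ⟨fun h => by omega, fun _ => ?_⟩
  have h1 : (i + j).toNat = i.toNat + j.toNat := by omega
  rw [h1]
  exact mf_mul (hx.2 hi) (hy.2 hj)

theorem hMF_act (hh : Nrm H N Γ₁) (g : GG hh) {i : ℤ} {x : MS H N} (hx : x ∈ hMF H N i) :
    g • x ∈ hMF H N i := by
  obtain ⟨γ, rfl⟩ := ph_surj hh g
  refine ⟨fun h => ?_, fun h => ?_⟩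
  · rw [hx.1 h, smul_zero]
  · rw [ph_smul_val]
    exact mf_act (g := ⟨γ.1, hh.un γ.2⟩) (fun h hn => by
      have := hh.nm γ.1⁻¹ (Γ₁.inv_mem γ.2) h hn
      rwa [inv_inv] at this) (hx.2 h)

/-- the grading of `M_*(N)` -/
theorem gr (hh : Nrm H N Γ₁) (hΓ : Γ ≤ Γ₁) (hF : Free H Γ) : Gr (GG hh) (hMF H N) where
  mul _ _ _ _ hx hy := hMF_mul hx hy
  act g _ _ hx := hMF_act hh g hx
  neg _ _ hi hx := hx.1 hi
  zero x hx hg := by
    have h1 : IsMF H Γ₁ 0 x.1 := mf_of_KK hh le_rfl (hx.2 le_rfl) (fun g _ => hg g)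
    obtain ⟨c, hc⟩ := mf0_const hF (mf_mono hΓ h1)
    exact ⟨c, Subtype.ext hc⟩
  one := mem_hMF_nat (k := 0) mf_one
  top := hMF_top
  ind := hMF_ind

/-- the invariants of `Γ'` -/
theorem mem_Fx_KK (hh : Nrm H N Γ₁) (hle : Γ' ≤ Γ₁) (hf : N.relIndex Γ₁ ≠ 0) (x : MS H N) :
    x ∈ (Fx (KK hh Γ') : Subalgebra ℂ ↥(MS H N)) ↔ x.1 ∈ MS H Γ' := by
  refine ⟨fun hx => ?_, fun hx g hg => smul_of_ms hh hx hg⟩
  have hfin := finite_GG hh hf
  have := Fintype.ofFinite (KK hh Γ')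
  have h1 : ∀ y : MS H N, (∑ g : KK hh Γ', g.1 • y : MS H N).1 ∈ MS H Γ' := by
    intro y
    have hy : y ∈ ⨆ k, hMF H N k := by rw [hMF_top]; trivial
    refine Submodule.iSup_induction (hMF H N)
      (motive := fun y => (∑ g : KK hh Γ', g.1 • y : MS H N).1 ∈ MS H Γ') hy ?_ ?_ ?_
    · intro k y hy
      rcases lt_or_ge k 0 with hk | hk
      · rw [hy.1 hk]
        simp only [smul_zero, Finset.sum_const_zero]
        exact (MS H Γ').zero_mem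
      · have h2 : (∑ g : KK hh Γ', g.1 • y : MS H N) ∈ hMF H N k :=
          Submodule.sum_mem _ fun g _ => hMF_act hh _ hy
        refine mf_mem (mf_of_KK hh hle (h2.2 hk) fun g hg => ?_)
        rw [Finset.smul_sum]
        refine Fintype.sum_bijective (fun a : KK hh Γ' => (⟨g, hg⟩ : KK hh Γ') * a)
          (Group.mulLeft_bijective _) _ _ fun a => ?_
        rw [smul_smul]
        rfl
    · simp only [smul_zero, Finset.sum_const_zero]
      exact (MS H Γ').zero_mem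
    · intro y z hy hz
      simp only [smul_add, Finset.sum_add_distrib]
      exact (MS H Γ').add_mem hy hz
  have h3 : (∑ g : KK hh Γ', g.1 • x : MS H N) = (Fintype.card (KK hh Γ') : ℂ) • x := by
    rw [Finset.sum_congr rfl fun g _ => hx g.1 g.2, Finset.sum_const, Finset.card_univ,
      Nat.cast_smul_eq_nsmul]
  have h4 := h1 x
  rw [h3] at h4
  have h5 : (Fintype.card (KK hh Γ') : ℂ) ≠ 0 := by
    rw [Nat.cast_ne_zero]
    exact Fintype.card_ne_zero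
  have h6 : x.1 = (Fintype.card (KK hh Γ') : ℂ)⁻¹ •
      ((Fintype.card (KK hh Γ') : ℂ) • x : MS H N).1 := by
    show x.1 = (Fintype.card (KK hh Γ') : ℂ)⁻¹ • ((Fintype.card (KK hh Γ') : ℂ) • x.1)
    rw [smul_smul, inv_mul_cancel₀ h5, one_smul]
  rw [h6]
  exact (MS H Γ').smul_mem h4 _

/-- freeness in terms of the grading -/
theorem freeG_of_free (hh : Nrm H N Γ₁) (hN : N ≤ Γ) (hle : Γ ≤ Γ₁) (hf : N.relIndex Γ₁ ≠ 0)
    (hF : Free H Γ) : FreeG (hMF H N) (KK hh Γ) := by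
  obtain ⟨m, x, k, hx, hi, had⟩ := id hF
  have hval : ∀ i, x i ∈ MS H N := fun i => ms_mono hN (mf_mem (hx i))
  have hcomp : (MS H N).val ∘ (fun i => (⟨x i, hval i⟩ : MS H N)) = x := rfl
  refine ⟨m, fun i => ⟨x i, hval i⟩, fun i => (k i : ℤ), fun i => ⟨?_, ?_⟩, ?_, ?_⟩
  · rcases Nat.eq_zero_or_pos (k i) with h0 | h0
    · exfalso
      have h1 := hx i
      rw [h0] at h1
      obtain ⟨c, hc⟩ := mf0_const hF h1
      have h2 := hi.transcendental i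
      apply h2
      rw [hc]
      exact isAlgebraic_algebraMap c
    · show (0 : ℤ) < (k i : ℤ)
      exact_mod_cast h0
  · exact mem_hMF_nat (mf_mono hN (hx i))
  · rw [← AlgHom.algebraicIndependent_iff (MS H N).val Subtype.val_injective, hcomp]
    exact hi
  · apply Subalgebra.map_injective (f := (MS H N).val) Subtype.val_injective
    rw [AlgHom.map_adjoin, ← Set.range_comp, hcomp, had]
    apply Subalgebra.ext
    intro y
    rw [Subalgebra.mem_map]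
    constructor
    · intro hy
      exact ⟨⟨y, ms_mono hN hy⟩, (mem_Fx_KK hh hle hf _).2 hy, rfl⟩
    · rintro ⟨a, ha, rfl⟩
      exact (mem_Fx_KK hh hle hf _).1 ha

theorem free_of_freeG (hh : Nrm H N Γ₁) (hf : N.relIndex Γ₁ ≠ 0) (hN : N ≤ Γ₁)
    (hF : FreeG (hMF H N) (⊤ : Subgroup (GG hh))) : Free H Γ₁ := by
  obtain ⟨m, x, k, hx, hi, had⟩ := hF
  rw [← KK_top hh] at had
  have hinv : ∀ i, ∀ g ∈ KK hh Γ₁, g • x i = x i := by
    intro i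
    have : x i ∈ (Fx (KK hh Γ₁) : Subalgebra ℂ ↥(MS H N)) := by
      rw [← had]
      exact Algebra.subset_adjoin ⟨i, rfl⟩
    exact this
  refine ⟨m, fun i => (x i).1, fun i => (k i).toNat, fun i => ?_, ?_, ?_⟩
  · exact mf_of_KK hh le_rfl ((hx i).2.2 (hx i).1.le) (hinv i)
  · exact (AlgHom.algebraicIndependent_iff (MS H N).val Subtype.val_injective).2 hi
  · have h1 : (Set.range fun i => (x i).1) = (MS H N).val '' Set.range x := by
      rw [← Set.range_comp]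
      rfl
    rw [h1, ← AlgHom.map_adjoin, had]
    apply Subalgebra.ext
    intro y
    rw [Subalgebra.mem_map]
    constructor
    · rintro ⟨a, ha, rfl⟩
      exact (mem_Fx_KK hh le_rfl hf _).1 ha
    · intro hy
      exact ⟨⟨y, ms_mono hN hy⟩, (mem_Fx_KK hh le_rfl hf _).2 hy, rfl⟩

/-- the ring of the invariants of `Γ'` is `M_*(Γ')` -/
noncomputable def fxEquiv (hh : Nrm H N Γ₁) (hN : N ≤ Γ') (hle : Γ' ≤ Γ₁)
    (hf : N.relIndex Γ₁ ≠ 0) :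
    ↥(MS H Γ') ≃+* ↥(Fx (KK hh Γ') : Subalgebra ℂ ↥(MS H N)) where
  toFun y := ⟨⟨y.1, ms_mono hN y.2⟩, (mem_Fx_KK hh hle hf _).2 y.2⟩
  invFun a := ⟨a.1.1, (mem_Fx_KK hh hle hf _).1 a.2⟩
  left_inv _ := rfl
  right_inv _ := rfl
  map_mul' _ _ := rfl
  map_add' _ _ := rfl

end MOD
end Pool.Agent.RFO
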