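import Mathlib
import Pool.Agent.RFO.Inv

/-!
# Unitary modular forms and reflection overgroups: the cases of the theorem (MP_06550c_nt)
-/

set_option autoImplicit false

namespace Pool.Agent.RFO
namespace MOD

variable {n : ℕ} {H : HForm n} {N N' Γ Γ' Γ₁ : Subgroup (Vn n ≃ₗ[ℂ] Vn n)}

/-- generators -/
theorem ph_gen (hh : Nrm H N Γ₁) {S : Set (Vn n ≃ₗ[ℂ] Vn n)} (hS : S ⊆ Γ₁)
    (Q : Subgroup (GG hh)) (hQ : ∀ γ : Γ₁, γ.1 ∈ S → ph hh γ ∈ Q) (γ : Γ₁)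
    (hγ : γ.1 ∈ Subgroup.closure S) : ph hh γ ∈ Q := by
  have h1 : Subgroup.closure S ≤ (Q.comap (ph hh)).map Γ₁.subtype := by
    rw [Subgroup.closure_le]
    intro s hs
    exact ⟨⟨s, hS hs⟩, hQ ⟨s, hS hs⟩ hs, rfl⟩
  obtain ⟨γ', hγ', he⟩ := h1 hγ
  have h2 : γ' = γ := Subtype.ext he
  rw [← h2]
  exact hγ'

theorem gen_GG (hh : Nrm H N Γ₁) {P : Set (Vn n ≃ₗ[ℂ] Vn n)}
    (hP : Subgroup.closure ((N : Set (Vn n ≃ₗ[ℂ] Vn n)) ∪ P) = Γ₁) :
    Subgroup.closure {g : GG hh | ∃ γ : Γ₁, γ.1 ∈ P ∧ ph hh γ = g} = ⊤ := by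
  rw [eq_top_iff]
  intro g _
  obtain ⟨γ, rfl⟩ := ph_surj hh g
  refine ph_gen hh (S := (N : Set (Vn n ≃ₗ[ℂ] Vn n)) ∪ P) ?_ _ ?_ γ ?_
  · rw [← hP]
    exact Subgroup.subset_closure
  · rintro γ (h | h)
    · rw [ph_eq_one hh h]
      exact Subgroup.one_mem _
    · exact Subgroup.subset_closure ⟨γ, h, rfl⟩
  · rw [hP]
    exact γ.2

/-- all cases follow from the criterion of flatness -/
theorem main (hGLUE : S_GLUE) (hDOM : S_DOM) (hOPN : S_OPN) (hh : Nrm H N Γ₁)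
    (hN : N ≤ Γ) (hle : Γ ≤ Γ₁) (hf : N.relIndex Γ₁ ≠ 0) (hF : Free H Γ)
    (hFR : FR (hMF H N) (KK hh Γ)) : Free H Γ₁ := by
  have := isDomain (N := N) (H := H) hDOM hOPN
  have := finite_GG hh hf
  exact free_of_freeG hh hf (hN.trans hle) (hGLUE (GG hh) ↥(MS H N) (hMF H N) (gr hh hle hF)
    (KK hh Γ) hFR (freeG_of_free hh hN hle hf hF))

/-- the hypothesis of divisibility of the differences `f - f ∘ ρ⁻¹` -/
def Div (H : HForm n) (N : Subgroup (Vn n ≃ₗ[ℂ] Vn n)) (ρ : Vn n ≃ₗ[ℂ] Vn n) : Prop :=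
  ∃ k : ℕ, 0 < k ∧ ∃ t : cone H → ℂ, t ≠ 0 ∧ IsMF H N k t ∧ ∀ j f, IsMF H N j f →
    ∃ g ∈ MS H N, ∀ z w : cone H, (z : Vn n) = ρ (w : Vn n) → f z - f w = t z * g z

theorem dd_of_div (hFAC : S_FAC) (hDOM : S_DOM) (hOPN : S_OPN) (hh : Nrm H N Γ₁)
    (hle : Γ ≤ Γ₁) (hF : Free H Γ) (ρ : Γ₁) (hD : Div H N ρ.1) : DD (hMF H N) (ph hh ρ) := by
  have := isDomain (N := N) (H := H) hDOM hOPN
  obtain ⟨k, hk, t, ht0, ht, hd⟩ := hD
  have hT : (⟨t, mf_mem ht⟩ : MS H N) ∈ hMF H N (k : ℤ) := mem_hMF_nat ht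
  refine ⟨k, by exact_mod_cast hk, ⟨t, mf_mem ht⟩, fun h => ht0 (congrArg Subtype.val h), ?_⟩
  intro j x hx
  by_cases hz : x - ph hh ρ • x = 0
  · exact ⟨0, Submodule.zero_mem _, by rw [hz, mul_zero]⟩
  rcases lt_or_ge j 0 with hj | hj
  · exact absurd (by rw [hx.1 hj, smul_zero, sub_zero]) hz
  obtain ⟨g, hg, hgt⟩ := hd j.toNat x.1 (hx.2 hj)
  have h1 : x - ph hh ρ • x = (⟨t, mf_mem ht⟩ : MS H N) * ⟨g, hg⟩ := by
    apply Subtype.ext
    funext z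
    show x.1 z - (ph hh ρ • x).1 z = t z * g z
    rw [ph_smul_val, pc_apply]
    apply hgt
    show z.1 = (mv (⟨ρ.1, hh.un ρ.2⟩ : Uh H) (mv (⟨ρ.1, hh.un ρ.2⟩ : Uh H)⁻¹ z)).1
    rw [← mv_mul, mul_inv_cancel, mv_one]
  have h2 : x - ph hh ρ • x ∈ hMF H N j := Submodule.sub_mem _ hx (hMF_act hh _ hx)
  have h3 : (⟨g, hg⟩ : MS H N) * ⟨t, mf_mem ht⟩ ∈ hMF H N j := by
    rw [mul_comm, ← h1]
    exact h2
  have h4 : (⟨g, hg⟩ : MS H N) * ⟨t, mf_mem ht⟩ ≠ 0 := by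
    rw [mul_comm, ← h1]
    exact hz
  obtain ⟨i, hi⟩ := hFAC (GG hh) ↥(MS H N) (hMF H N) (gr hh hle hF) ⟨g, hg⟩ ⟨t, mf_mem ht⟩ j h3 h4
  have h5 : (⟨g, hg⟩ : MS H N) * ⟨t, mf_mem ht⟩ ∈ hMF H N (i + k) := hMF_mul hi hT
  have h6 : i + k = j := by
    by_contra hne
    have h7 := hMF_ind (H := H) (N := N)
    have h8 : Disjoint (hMF H N (i + k)) (hMF H N j) := h7.pairwiseDisjoint hne
    exact h4 (Submodule.disjoint_def.1 h8 _ h5 h3)
  refine ⟨⟨g, hg⟩, ?_, h1⟩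
  have h9 : j - k = i := by omega
  rw [h9]
  exact hi

/-- case (A) -/
theorem caseA (hGLUE : S_GLUE) (hFRA : S_FRA) (hFAC : S_FAC) (hDOM : S_DOM)
    (hOPN : S_OPN) (hh : Nrm H N Γ₁) (hN : N ≤ Γ) (hle : Γ ≤ Γ₁) (hf : N.relIndex Γ₁ ≠ 0)
    (hF : Free H Γ) (P : Set (Vn n ≃ₗ[ℂ] Vn n))
    (hP : Subgroup.closure ((N : Set (Vn n ≃ₗ[ℂ] Vn n)) ∪ P) = Γ₁)
    (hD : ∀ ρ ∈ P, Div H N ρ) : Free H Γ₁ := by
  have := isDomain (N := N) (H := H) hDOM hOPN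
  have := finite_GG hh hf
  refine main hGLUE hDOM hOPN hh hN hle hf hF ?_
  refine hFRA (GG hh) ↥(MS H N) (hMF H N) (gr hh hle hF).toHm _ (gen_GG hh hP) ?_ _
  rintro - ⟨γ, hγ, rfl⟩
  exact dd_of_div hFAC hDOM hOPN hh hle hF γ (hD _ hγ)

theorem KK_zp (hh : Nrm H N Γ₁) (hN : N ≤ Γ₁) (ρ : Γ₁) :
    KK hh (N ⊔ Subgroup.zpowers ρ.1) = Subgroup.zpowers (ph hh ρ) := by
  apply le_antisymm
  · rintro - ⟨γ, hγ, rfl⟩
    have h1 : N ⊔ Subgroup.zpowers ρ.1 ≤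
        Subgroup.closure ((N : Set (Vn n ≃ₗ[ℂ] Vn n)) ∪ {ρ.1}) := by
      refine sup_le (fun x hx => Subgroup.subset_closure (Or.inl hx)) ?_
      rw [Subgroup.zpowers_le]
      exact Subgroup.subset_closure (Or.inr rfl)
    refine ph_gen hh (S := (N : Set (Vn n ≃ₗ[ℂ] Vn n)) ∪ {ρ.1}) ?_ _ ?_ γ (h1 hγ)
    · rintro x (hx | rfl)
      · exact hN hx
      · exact ρ.2
    · rintro δ (hδ | hδ)
      · rw [ph_eq_one hh hδ]
        exact Subgroup.one_mem _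
      · have : δ = ρ := Subtype.ext hδ
        rw [this]
        exact Subgroup.mem_zpowers _
  · rw [Subgroup.zpowers_le]
    exact ph_mem_KK hh (Subgroup.mem_sup_right (Subgroup.mem_zpowers _))

theorem ufd_mv (m : ℕ) : UniqueFactorizationMonoid (MvPolynomial (Fin m) ℂ) := inferInstance

theorem ic_mv (m : ℕ) : IsIntegrallyClosed (MvPolynomial (Fin m) ℂ) := inferInstance

theorem free_ufd (hF : Free H Γ) : UniqueFactorizationMonoid ↥(MS H Γ) := by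
  obtain ⟨m, ⟨e⟩⟩ := free_equiv hF
  exact e.toMulEquiv.uniqueFactorizationMonoid inferInstance

theorem free_ic (hF : Free H Γ) : IsIntegrallyClosed ↥(MS H Γ) := by
  obtain ⟨m, ⟨e⟩⟩ := free_equiv hF
  exact IsIntegrallyClosed.of_equiv e.toRingEquiv

/-- case (B) at the level of `G` -/
theorem caseB' (hGLUE : S_GLUE) (hFRB : S_FRB) (hDOM : S_DOM)
    (hOPN : S_OPN) (hh : Nrm H N Γ₁) (hN : N ≤ Γ) (hle : Γ ≤ Γ₁) (hf : N.relIndex Γ₁ ≠ 0)
    (hF : Free H Γ) (P : Set (GG hh)) (hP : Subgroup.closure P = ⊤)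
    (hD : ∀ ρ ∈ P, ρ * ρ = 1 ∧ UniqueFactorizationMonoid
      ↥(Fx (Subgroup.zpowers ρ) : Subalgebra ℂ ↥(MS H N))) : Free H Γ₁ := by
  have := isDomain (N := N) (H := H) hDOM hOPN
  have := finite_GG hh hf
  have hic : IsIntegrallyClosed ↥(Fx (KK hh Γ) : Subalgebra ℂ ↥(MS H N)) := by
    have := free_ic hF
    exact IsIntegrallyClosed.of_equiv (fxEquiv hh hN hle hf)
  exact main hGLUE hDOM hOPN hh hN hle hf hF
    (hFRB (GG hh) ↥(MS H N) (hMF H N) (gr hh hle hF) P hP hD _ hic)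

/-- case (B) -/
theorem caseB (hGLUE : S_GLUE) (hFRB : S_FRB) (hDOM : S_DOM)
    (hOPN : S_OPN) (hh : Nrm H N Γ₁) (hN : N ≤ Γ) (hle : Γ ≤ Γ₁) (hf : N.relIndex Γ₁ ≠ 0)
    (hF : Free H Γ) (P : Set (Vn n ≃ₗ[ℂ] Vn n))
    (hP : Subgroup.closure ((N : Set (Vn n ≃ₗ[ℂ] Vn n)) ∪ P) = Γ₁)
    (hD : ∀ ρ ∈ P, ρ * ρ ∈ N ∧
      UniqueFactorizationMonoid ↥(MS H (N ⊔ Subgroup.zpowers ρ))) : Free H Γ₁ := by
  refine caseB' hGLUE hFRB hDOM hOPN hh hN hle hf hF _ (gen_GG hh hP) ?_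
  rintro - ⟨γ, hγ, rfl⟩
  refine ⟨?_, ?_⟩
  · rw [← map_mul]
    exact ph_eq_one hh (hD _ hγ).1
  · rw [← KK_zp hh (hN.trans hle)]
    have hle' : N ⊔ Subgroup.zpowers γ.1 ≤ Γ₁ :=
      sup_le (hN.trans hle) (by rw [Subgroup.zpowers_le]; exact γ.2)
    exact (fxEquiv hh le_sup_left hle' hf).toMulEquiv.uniqueFactorizationMonoid (hD _ hγ).2

section Conj

variable {G T : Type} [Group G] [CommRing T] [Algebra ℂ T] [MulSemiringAction G T]
  [SMulCommClass G ℂ T]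

theorem mem_Fx_zp (s : G) (x : T) :
    x ∈ (Fx (Subgroup.zpowers s) : Subalgebra ℂ T) ↔ s • x = x := by
  refine ⟨fun h => h s (Subgroup.mem_zpowers s), fun h g hg => ?_⟩
  have h1 : Subgroup.zpowers s ≤ MulAction.stabilizer G x := by
    rw [Subgroup.zpowers_le]
    exact h
  exact h1 hg

theorem mem_Fx_conj (g s : G) (x : T) :
    x ∈ (Fx (Subgroup.zpowers (g * s * g⁻¹)) : Subalgebra ℂ T) ↔
      g⁻¹ • x ∈ (Fx (Subgroup.zpowers s) : Subalgebra ℂ T) := by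
  rw [mem_Fx_zp, mem_Fx_zp, mul_smul, mul_smul, smul_eq_iff_eq_inv_smul]

/-- the invariants of conjugate groups are isomorphic -/
def fxConj (g s : G) : ↥(Fx (Subgroup.zpowers s) : Subalgebra ℂ T) ≃*
    ↥(Fx (Subgroup.zpowers (g * s * g⁻¹)) : Subalgebra ℂ T) where
  toFun x := ⟨g • x.1, (mem_Fx_conj g s _).2 (by rw [inv_smul_smul]; exact x.2)⟩
  invFun x := ⟨g⁻¹ • x.1, (mem_Fx_conj g s _).1 x.2⟩
  left_inv x := Subtype.ext (inv_smul_smul g x.1)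
  right_inv x := Subtype.ext (smul_inv_smul g x.1)
  map_mul' x y := Subtype.ext (smul_mul' g x.1 y.1)

end Conj

/-- case (C) -/
theorem caseC (hGLUE : S_GLUE) (hFRB : S_FRB) (hDOM : S_DOM)
    (hOPN : S_OPN) (hh : Nrm H N Γ₁) (hN : N ≤ Γ) (hle : Γ ≤ Γ₁) (hf : N.relIndex Γ₁ ≠ 0)
    (hF : Free H Γ) (h2 : N.relIndex Γ = 2)
    (hc : Subgroup.normalClosure ((Γ.subgroupOf Γ₁ : Subgroup Γ₁) : Set Γ₁) = ⊤) :
    Free H Γ₁ := by
  -- an element of `Γ` not in `N`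
  have hex : ∃ ρ ∈ Γ, ρ ∉ N := by
    by_contra hcon
    push Not at hcon
    have : N.relIndex Γ = 1 := Subgroup.relIndex_eq_one.2 hcon
    omega
  obtain ⟨ρ, hρ, hρN⟩ := hex
  have h2' : (N.subgroupOf Γ).index = 2 := h2
  have hsq : ρ * ρ ∈ N := Subgroup.mul_self_mem_of_index_two h2' (⟨ρ, hρ⟩ : Γ)
  have hcase : ∀ γ ∈ Γ, γ ∉ N → ρ⁻¹ * γ ∈ N := by
    intro γ hγ hγN
    have := Subgroup.mul_mem_iff_of_index_two h2' (a := (⟨ρ, hρ⟩ : Γ)⁻¹) (b := ⟨γ, hγ⟩)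
    refine this.2 ?_
    rw [Subgroup.inv_mem_iff]
    exact iff_of_false hρN hγN
  set s : GG hh := ph hh ⟨ρ, hle hρ⟩ with hs
  have hss : s * s = 1 := by
    rw [hs, ← map_mul]
    exact ph_eq_one hh hsq
  have hK : ∀ γ : Γ₁, γ.1 ∈ Γ → ph hh γ ∈ Subgroup.zpowers s := by
    intro γ hγ
    by_cases hγN : γ.1 ∈ N
    · rw [ph_eq_one hh hγN]
      exact Subgroup.one_mem _
    · have h3 := ph_eq_one hh (g := (⟨ρ, hle hρ⟩ : Γ₁)⁻¹ * γ) (hcase γ.1 hγ hγN)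
      rw [map_mul, map_inv, inv_mul_eq_one] at h3
      rw [← h3]
      exact Subgroup.mem_zpowers _
  have hKK : KK hh Γ = Subgroup.zpowers s := by
    apply le_antisymm
    · rintro - ⟨γ, hγ, rfl⟩
      exact hK γ hγ
    · rw [Subgroup.zpowers_le]
      exact ph_mem_KK hh hρ
  refine caseB' hGLUE hFRB hDOM hOPN hh hN hle hf hF {x | ∃ g, x = g * s * g⁻¹} ?_ ?_
  · have h4 : (Subgroup.normalClosure {s} : Subgroup (GG hh)) = ⊤ := by
      have h5 : Subgroup.normalClosure ((Γ.subgroupOf Γ₁ : Subgroup Γ₁) : Set Γ₁) ≤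
          (Subgroup.normalClosure {s}).comap (ph hh) := by
        apply Subgroup.normalClosure_le_normal
        intro γ hγ
        have h6 := hK γ hγ
        have h7 : Subgroup.zpowers s ≤ Subgroup.normalClosure {s} := by
          rw [Subgroup.zpowers_le]
          exact Subgroup.subset_normalClosure rfl
        exact h7 h6
      rw [hc] at h5
      rw [eq_top_iff]
      intro g _
      obtain ⟨γ, rfl⟩ := ph_surj hh g
      exact h5 trivial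
    rw [eq_top_iff, ← h4]
    apply Subgroup.closure_mono
    intro x hx
    obtain ⟨y, hy, hc⟩ := Group.mem_conjugatesOfSet_iff.1 hx
    rw [Set.mem_singleton_iff] at hy
    rw [hy, isConj_iff] at hc
    obtain ⟨c, hc⟩ := hc
    exact ⟨c, hc.symm⟩
  · rintro - ⟨g, rfl⟩
    refine ⟨?_, ?_⟩
    · calc g * s * g⁻¹ * (g * s * g⁻¹) = g * (s * s) * g⁻¹ := by group
        _ = 1 := by rw [hss]; group
    · refine (fxConj g s).uniqueFactorizationMonoid ?_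
      rw [← hKK]
      exact (fxEquiv hh hN hle hf).toMulEquiv.uniqueFactorizationMonoid (free_ufd hF)

/-- subgroups of index 3 -/
theorem index_three {A : Type*} [Group A] (B : Subgroup A) (h3 : B.index = 3)
    (hn : ¬ B.Normal) : B.normalCore.relIndex B = 2 ∧ Subgroup.normalClosure (B : Set A) = ⊤ := by
  have h1 : B.normalCore.index ∣ 6 := by
    rw [Subgroup.normalCore_eq_ker, Subgroup.index_ker]
    have hfi : B.FiniteIndex := ⟨by rw [h3]; norm_num⟩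
    have hfin : Finite (A ⧸ B) := inferInstance
    have h2 : Nat.card (Equiv.Perm (A ⧸ B)) = 6 := by
      rw [Nat.card_perm, ← Subgroup.index_eq_card, h3]
      rfl
    rw [← h2]
    exact Subgroup.card_subgroup_dvd_card _
  have h4 := Subgroup.relIndex_mul_index B.normalCore_le
  rw [h3] at h4
  have h5 : B.normalCore.relIndex B ∣ 2 := by
    rw [← h4] at h1
    have : B.normalCore.relIndex B * 3 ∣ 2 * 3 := h1
    exact Nat.dvd_of_mul_dvd_mul_right (by norm_num) this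
  refine ⟨?_, ?_⟩
  · rcases (Nat.dvd_prime Nat.prime_two).1 h5 with h6 | h6
    · exfalso
      rw [Subgroup.relIndex_eq_one] at h6
      have h7 : B.normalCore = B := le_antisymm B.normalCore_le h6
      apply hn
      rw [← h7]
      infer_instance
    · exact h6
  · have h6 := Subgroup.relIndex_mul_index (H := B)
      (K := Subgroup.normalClosure (B : Set A)) Subgroup.subset_normalClosure
    rw [h3] at h6
    have h7 : (Subgroup.normalClosure (B : Set A)).index ∣ 3 := ⟨_, by rw [mul_comm]; exact h6.symm⟩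
    rcases (Nat.dvd_prime Nat.prime_three).1 h7 with h8 | h8
    · exact Subgroup.index_eq_one.1 h8
    · exfalso
      rw [h8] at h6
      have h9 : B.relIndex (Subgroup.normalClosure (B : Set A)) = 1 := by omega
      rw [Subgroup.relIndex_eq_one] at h9
      have h10 : B = Subgroup.normalClosure (B : Set A) :=
        le_antisymm Subgroup.subset_normalClosure h9
      apply hn
      rw [h10]
      infer_instance

/-- normal subgroups of `Γ₁` as subgroups of the ambient group -/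
theorem nrm_map (hU : Γ₁ ≤ Uh H) (C : Subgroup Γ₁) (hCn : C.Normal) :
    Nrm H (C.map Γ₁.subtype) Γ₁ := by
  refine ⟨hU, ?_⟩
  intro g hg x hx
  rw [Subgroup.mem_map] at hx ⊢
  obtain ⟨y, hy, hyx⟩ := hx
  refine ⟨⟨g, hg⟩ * y * (⟨g, hg⟩ : Γ₁)⁻¹, hCn.conj_mem y hy ⟨g, hg⟩, ?_⟩
  rw [map_mul, map_mul, map_inv, hyx, Subgroup.subtype_apply]

/-- case (D) -/
theorem caseD (hGLUE : S_GLUE) (hFRB : S_FRB) (hDOM : S_DOM)
    (hOPN : S_OPN) (hU : Γ₁ ≤ Uh H) (hle : Γ ≤ Γ₁) (hF : Free H Γ) (h3 : Γ.relIndex Γ₁ = 3)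
    (hn : ¬ (Γ.subgroupOf Γ₁).Normal) : Free H Γ₁ := by
  obtain ⟨h4, h5⟩ := index_three (Γ.subgroupOf Γ₁) h3 hn
  have hCn : (Γ.subgroupOf Γ₁).normalCore.Normal := inferInstance
  have hCle : (Γ.subgroupOf Γ₁).normalCore ≤ Γ.subgroupOf Γ₁ := Subgroup.normalCore_le _
  generalize (Γ.subgroupOf Γ₁).normalCore = C at h4 hCn hCle
  have hmap : (Γ.subgroupOf Γ₁).map Γ₁.subtype = Γ := Subgroup.map_subgroupOf_eq_of_le hle
  have hN1 : C.map Γ₁.subtype ≤ Γ := by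
    rw [← hmap]
    exact Subgroup.map_mono hCle
  have hh : Nrm H (C.map Γ₁.subtype) Γ₁ := nrm_map hU C hCn
  have h6 : (C.map Γ₁.subtype).relIndex Γ = 2 := by
    have h7 := Subgroup.relIndex_map_map_of_injective (f := Γ₁.subtype) C (Γ.subgroupOf Γ₁)
      Subtype.val_injective
    rw [hmap] at h7
    rw [h7]
    exact h4
  have h8 : (C.map Γ₁.subtype).relIndex Γ₁ ≠ 0 := by
    rw [← Subgroup.relIndex_mul_relIndex _ Γ Γ₁ hN1 hle, h6, h3]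
    norm_num
  exact caseC hGLUE hFRB hDOM hOPN hh hN1 hle h8 hF h6 h5

end MOD
end Pool.Agent.RFO
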