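import Mathlib
import Pool.Agent.RFO.Cases
import Pool.Agent.RFO.St2

/-!
# Unitary modular forms and reflection overgroups: the two steps of the proof (MP_06550c_nt)
-/

set_option autoImplicit false

namespace Pool.Agent.RFO

variable {n : ℕ}

/-- a reflection `x ↦ x - (1 - ε) (h(x, r) / h(r, r)) r` with `h(r, r) > 0` and `ε ≠ 1` a root of
unity -/
def IsRefl (H : HForm n) (ρ : Vn n ≃ₗ[ℂ] Vn n) : Prop :=
  ∃ (r : Vn n) (ε : ℂ), 0 < (H.h r r).re ∧ ε ≠ 1 ∧ (∃ m : ℕ, 0 < m ∧ ε ^ m = 1) ∧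
    ∀ x, ρ x = x - ((1 - ε) * (H.h x r / H.h r r)) • r

/-- the algebra of modular forms is a polynomial algebra over `ℂ` in `n + 1` algebraically
independent homogeneous generators -/
def FreeN (H : HForm n) (Γ : Subgroup (Vn n ≃ₗ[ℂ] Vn n)) : Prop :=
  ∃ (f : Fin (n + 1) → (cone H → ℂ)) (k : Fin (n + 1) → ℕ), (∀ i, IsMF H Γ (k i) (f i)) ∧
    AlgebraicIndependent ℂ f ∧ Algebra.adjoin ℂ (Set.range f) = MS H Γ

/-- the subgroup generated by `Γ` and the conjugates `s Γ s⁻¹`, `s ∈ S` -/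
def Cj (Γ : Subgroup (Vn n ≃ₗ[ℂ] Vn n)) (S : Set (Vn n ≃ₗ[ℂ] Vn n)) :
    Subgroup (Vn n ≃ₗ[ℂ] Vn n) :=
  Subgroup.closure ((Γ : Set (Vn n ≃ₗ[ℂ] Vn n)) ∪ {x | ∃ s ∈ S, ∃ γ ∈ Γ, x = s * γ * s⁻¹})

namespace MOD

variable {H : HForm n} {N N' Γ Γ' Γ₁ : Subgroup (Vn n ≃ₗ[ℂ] Vn n)}

theorem free_of_freeN (hF : FreeN H Γ) : Free H Γ := by
  obtain ⟨f, k, h⟩ := hF
  exact ⟨n + 1, f, k, h⟩

theorem cnt (hh : Nrm H N Γ₁) (hN : N ≤ Γ') (hle : Γ' ≤ Γ₁) (hf : N.relIndex Γ₁ ≠ 0) {m : ℕ}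
    {x : Fin m → (cone H → ℂ)} (hx : ∀ i, x i ∈ MS H Γ') (hi : AlgebraicIndependent ℂ x)
    (had : Algebra.adjoin ℂ (Set.range x) = MS H Γ') :
    ∃ f : Fin m → ↥(MS H N), (∀ i, (f i).1 = x i) ∧ AlgebraicIndependent ℂ f ∧
      Algebra.adjoin ℂ (Set.range f) = Fx (KK hh Γ') := by
  have hval : ∀ i, x i ∈ MS H N := fun i => ms_mono hN (hx i)
  have hcomp : (MS H N).val ∘ (fun i => (⟨x i, hval i⟩ : MS H N)) = x := rfl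
  refine ⟨fun i => ⟨x i, hval i⟩, fun _ => rfl, ?_, ?_⟩
  · rw [← AlgHom.algebraicIndependent_iff (MS H N).val Subtype.val_injective, hcomp]
    exact hi
  · apply Subalgebra.map_injective (f := (MS H N).val) Subtype.val_injective
    rw [AlgHom.map_adjoin, ← Set.range_comp, hcomp, had]
    apply Subalgebra.ext
    intro y
    rw [Subalgebra.mem_map]
    constructor
    · intro hy
      exact ⟨⟨y, ms_mono hN hy⟩, (mem_Fx_KK hh hle hf _).2 hy, rfl⟩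
    · rintro ⟨a, ha, rfl⟩
      exact (mem_Fx_KK hh hle hf _).1 ha

/-- the number of generators -/
theorem freeN_of (hCRD : S_CRD) (hDOM : S_DOM) (hOPN : S_OPN) (hh : Nrm H N Γ₁) (hN : N ≤ Γ)
    (hle : Γ ≤ Γ₁) (hf : N.relIndex Γ₁ ≠ 0) (hF : FreeN H Γ) (h1 : Free H Γ₁) :
    FreeN H Γ₁ := by
  have := isDomain (N := N) (H := H) hDOM hOPN
  have := finite_GG hh hf
  obtain ⟨x, k, hx, hi, had⟩ := hF
  obtain ⟨m, x', k', hx', hi', had'⟩ := h1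
  obtain ⟨f, -, hfi, hfa⟩ := cnt hh hN hle hf (fun i => mf_mem (hx i)) hi had
  obtain ⟨f', -, hfi', hfa'⟩ := cnt hh (hN.trans hle) le_rfl hf (fun i => mf_mem (hx' i)) hi' had'
  have h2 := hCRD (GG hh) ↥(MS H N) (KK hh Γ) (KK hh Γ₁) (n + 1) m f f' hfi hfa hfi' hfa'
  subst h2
  exact ⟨x', k', hx', hi', had'⟩

/-! ### Conjugates -/

/-- the conjugate `s Γ s⁻¹` -/
def cj (s : Vn n ≃ₗ[ℂ] Vn n) (Γ : Subgroup (Vn n ≃ₗ[ℂ] Vn n)) : Subgroup (Vn n ≃ₗ[ℂ] Vn n) :=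
  Γ.map (MulAut.conj s).toMonoidHom

theorem mem_cj {s x : Vn n ≃ₗ[ℂ] Vn n} : x ∈ cj s Γ ↔ ∃ γ ∈ Γ, x = s * γ * s⁻¹ := by
  rw [cj, Subgroup.mem_map]
  constructor
  · rintro ⟨γ, hγ, rfl⟩
    exact ⟨γ, hγ, rfl⟩
  · rintro ⟨γ, hγ, rfl⟩
    exact ⟨γ, hγ, rfl⟩

theorem cj_le_Cj {S : Set (Vn n ≃ₗ[ℂ] Vn n)} {s : Vn n ≃ₗ[ℂ] Vn n} (hs : s ∈ S) :
    cj s Γ ≤ Cj Γ S := by
  intro x hx
  obtain ⟨γ, hγ, rfl⟩ := mem_cj.1 hx
  exact Subgroup.subset_closure (Or.inr ⟨s, hs, γ, hγ, rfl⟩)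

theorem le_Cj {S : Set (Vn n ≃ₗ[ℂ] Vn n)} : Γ ≤ Cj Γ S := fun _ hx =>
  Subgroup.subset_closure (Or.inl hx)

/-- the automorphism given by an element which normalizes all the groups -/
theorem tr (hh₁ : Nrm H N Γ₁) (hh : Nrm H N Γ') (hΓ' : Γ' ≤ Γ₁)
    (hle : Γ ≤ Γ') (hf : N.relIndex Γ' ≠ 0) (hn : ∀ g ∈ Γ₁, ∀ x ∈ Γ', g * x * g⁻¹ ∈ Γ')
    (s : Γ₁) (hs : cj s.1 Γ ≤ Γ') :
    Tr (hMF H N) (KK hh Γ) (KK hh (cj s.1 Γ)) (actHom hh₁ s⁻¹) := by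
  have hinv : (s⁻¹ : Γ₁).1⁻¹ = s.1 := by
    rw [Subgroup.coe_inv, inv_inv]
  -- the values
  have hval : ∀ (g : Γ₁) (x : MS H N),
      (actHom hh₁ g x).1 = pc (mv (⟨g.1, hh₁.un g.2⟩ : Uh H)⁻¹) x.1 := fun g x => rfl
  have hcanc : ∀ (g : Γ₁) (x : MS H N), actHom hh₁ g⁻¹ (actHom hh₁ g x) = x := by
    intro g x
    show (actHom hh₁ g⁻¹ * actHom hh₁ g) x = x
    rw [← map_mul, inv_mul_cancel, map_one]
    rfl
  have key : ∀ (A B : Subgroup (Vn n ≃ₗ[ℂ] Vn n)) (g : Γ₁) (x : MS H N),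
      (∀ a ∈ A, g.1⁻¹ * a * g.1 ∈ B) → x.1 ∈ MS H B → (actHom hh₁ g x).1 ∈ MS H A := by
    intro A B g x hab hx
    rw [hval]
    exact ms_act (g := ⟨g.1, hh₁.un g.2⟩) hab hx
  have key2 : ∀ (g : Γ₁) (j : ℤ) (x : MS H N), x ∈ hMF H N j → actHom hh₁ g x ∈ hMF H N j := by
    intro g j x hx
    refine ⟨fun h => ?_, fun h => ?_⟩
    · rw [hx.1 h, map_zero]
    · rw [hval]
      exact mf_act (g := ⟨g.1, hh₁.un g.2⟩) (fun h hn => by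
        have := hh₁.nm g.1⁻¹ (Γ₁.inv_mem g.2) h hn
        rwa [inv_inv] at this) (hx.2 h)
  refine ⟨?_, ?_, ?_⟩
  · intro j x
    refine ⟨fun h => ?_, key2 _ j x⟩
    have h1 := key2 s j _ h
    have h2 := hcanc s⁻¹ x
    rw [inv_inv] at h2
    rwa [h2] at h1
  · intro x
    have h0 : ∀ y : MS H N, (∀ g : GG hh, g • y = y) ↔ y.1 ∈ MS H Γ' := by
      intro y
      rw [← mem_Fx_KK hh le_rfl hf, mem_Fx, KK_top]
      exact ⟨fun h g _ => h g, fun h g => h g trivial⟩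
    rw [h0, h0]
    constructor
    · intro h
      have h1 := key Γ' Γ' s _ (fun a ha => by
        have := hn s.1⁻¹ (Γ₁.inv_mem s.2) a ha
        rwa [inv_inv] at this) h
      have h2 := hcanc s⁻¹ x
      rw [inv_inv] at h2
      rwa [h2] at h1
    · intro h
      exact key Γ' Γ' s⁻¹ _ (fun a ha => by
        rw [hinv]
        exact hn s.1 s.2 a ha) h
  · intro x
    have h1 : ∀ y : MS H N, (∀ g ∈ KK hh Γ, g • y = y) ↔ y.1 ∈ MS H Γ := fun y =>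
      mem_Fx_KK hh hle hf y
    have h2 : ∀ y : MS H N, (∀ g ∈ KK hh (cj s.1 Γ), g • y = y) ↔ y.1 ∈ MS H (cj s.1 Γ) :=
      fun y => mem_Fx_KK hh hs hf y
    rw [h1, h2]
    constructor
    · intro h
      have h1 := key (cj s.1 Γ) Γ s _ (fun a ha => by
        obtain ⟨γ, hγ, rfl⟩ := mem_cj.1 ha
        have : s.1⁻¹ * (s.1 * γ * s.1⁻¹) * s.1 = γ := by group
        rw [this]
        exact hγ) h
      have h2 := hcanc s⁻¹ x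
      rw [inv_inv] at h2
      rwa [h2] at h1
    · intro h
      exact key Γ (cj s.1 Γ) s⁻¹ _ (fun a ha => by
        rw [hinv]
        exact mem_cj.2 ⟨a, ha, rfl⟩) h

/-- the conjugates generate -/
theorem gen_cj (S : Set (Vn n ≃ₗ[ℂ] Vn n)) (hh : Nrm H N (Cj Γ S)) :
    KK hh Γ ⊔ sSup {K' | ∃ s ∈ S, K' = KK hh (cj s Γ)} = ⊤ := by
  rw [eq_top_iff]
  intro g _
  obtain ⟨γ, rfl⟩ := ph_surj hh g
  refine ph_gen hh (S := (Γ : Set (Vn n ≃ₗ[ℂ] Vn n)) ∪ {x | ∃ s ∈ S, ∃ γ ∈ Γ, x = s * γ * s⁻¹})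
    Subgroup.subset_closure _ ?_ γ γ.2
  rintro δ (hδ | ⟨s, hs, γ, hγ, hδ⟩)
  · exact Subgroup.mem_sup_left (ph_mem_KK hh hδ)
  · refine Subgroup.mem_sup_right ?_
    have h3 : KK hh (cj s Γ) ≤ sSup {K' | ∃ s ∈ S, K' = KK hh (cj s Γ)} := le_sSup ⟨s, hs, rfl⟩
    refine h3 (ph_mem_KK hh ?_)
    rw [hδ]
    exact mem_cj.2 ⟨γ, hγ, rfl⟩

/-- the first step in the case of abelian quotients -/
theorem step_ab (hGLUE : S_GLUE) (hFRE : S_FRE) (hDOM : S_DOM) (hOPN : S_OPN)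
    (S : Set (Vn n ≃ₗ[ℂ] Vn n)) (hS : S ⊆ Γ₁) (hh₁ : Nrm H N Γ₁) (hN : N ≤ Γ)
    (hle : Cj Γ S ≤ Γ₁) (hf : N.relIndex Γ₁ ≠ 0) (hF : Free H Γ)
    (hn : ∀ g ∈ Γ₁, ∀ x ∈ Cj Γ S, g * x * g⁻¹ ∈ Cj Γ S)
    (hc : ∀ s ∈ S, ∀ a ∈ Γ, ∀ b ∈ Γ, s * (a * b * a⁻¹ * b⁻¹) * s⁻¹ ∈ Γ) : Free H (Cj Γ S) := by
  have hh : Nrm H N (Cj Γ S) := ⟨hle.trans hh₁.un, fun g hg => hh₁.nm g (hle hg)⟩
  have hf' : N.relIndex (Cj Γ S) ≠ 0 := by
    intro h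
    apply hf
    rw [← Subgroup.relIndex_mul_relIndex N (Cj Γ S) Γ₁ (hN.trans le_Cj) hle, h, zero_mul]
  have := isDomain (N := N) (H := H) hDOM hOPN
  have := finite_GG hh hf'
  refine main hGLUE hDOM hOPN hh hN le_Cj hf' hF ?_
  refine hFRE (GG hh) ↥(MS H N) (hMF H N) (gr hh le_Cj hF) (KK hh Γ) _ (gen_cj S hh) ?_ ?_
  · exact (fxEquiv hh hN le_Cj hf').toMulEquiv.uniqueFactorizationMonoid (free_ufd hF)
  · rintro - ⟨s, hs, rfl⟩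
    refine ⟨⟨_, tr hh₁ hh hle le_Cj hf' hn ⟨s, hS hs⟩ (cj_le_Cj hs)⟩, ?_⟩
    rintro - ⟨a, ha, rfl⟩ - ⟨b, hb, rfl⟩
    rw [← map_inv, ← map_inv, ← map_mul, ← map_mul, ← map_mul]
    refine ph_mem_KK hh ?_
    obtain ⟨α, hα, ha'⟩ := mem_cj.1 ha
    obtain ⟨β, hβ, hb'⟩ := mem_cj.1 hb
    have h1 : ((a * b * a⁻¹ * b⁻¹ : ↥(Cj Γ S)) : Vn n ≃ₗ[ℂ] Vn n) =
        s * (α * β * α⁻¹ * β⁻¹) * s⁻¹ := by
      have ha2 : (a : Vn n ≃ₗ[ℂ] Vn n) = s * α * s⁻¹ := ha'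
      have hb2 : (b : Vn n ≃ₗ[ℂ] Vn n) = s * β * s⁻¹ := hb'
      rw [Subgroup.coe_mul, Subgroup.coe_mul, Subgroup.coe_mul, Subgroup.coe_inv,
        Subgroup.coe_inv, ha2, hb2]
      group
    rw [h1]
    exact hc s hs α hα β hβ

/-! ### The normal case -/

theorem refl_fix {ρ : Vn n ≃ₗ[ℂ] Vn n} {r : Vn n} {ε : ℂ}
    (hρ : ∀ x, ρ x = x - ((1 - ε) * (H.h x r / H.h r r)) • r) (z : Vn n) (hz : H.h z r = 0) :
    ρ z = z := by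
  rw [hρ, hz, zero_div, mul_zero, zero_smul, sub_zero]

theorem refl_dd (hLIN : S_LIN) (hDDL : S_DDL) (hEIG : S_EIG) (hKER : S_KER) (hDOM : S_DOM)
    (hOPN : S_OPN) {d : ℤ} (hd : d < 0) {L : AddSubgroup (Vn n)} (hL : IsLat d H L)
    (hU : Γ₁ ≤ UL H L) (hh : Nrm H Γ Γ₁) (hle : Γ ≤ Γ₁) (hf : Γ.relIndex Γ₁ ≠ 0)
    (hF : FreeN H Γ) (ρ : Γ₁) (hρ : IsRefl H ρ.1) : DD (hMF H Γ) (ph hh ρ) := by
  have := isDomain (N := Γ) (H := H) hDOM hOPN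
  have := finite_GG hh hf
  have hgr := gr hh hle (free_of_freeN hF)
  have hK : KK hh Γ = ⊥ := by
    rw [eq_bot_iff]
    rintro - ⟨γ, hγ, rfl⟩
    rw [ph_eq_one hh hγ]
    exact Subgroup.one_mem _
  obtain ⟨x, k, hx, hi, had⟩ := id hF
  obtain ⟨f, hfx, hfi, hfa⟩ := cnt hh le_rfl hle hf (fun i => mf_mem (hx i)) hi had
  have hfa' : Algebra.adjoin ℂ (Set.range f) = ⊤ := by
    rw [hfa, hK, eq_top_iff]
    rintro y - g hg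
    rw [Subgroup.mem_bot] at hg
    rw [hg, one_smul]
  have hdeg : ∀ i, 0 < (k i : ℤ) ∧ f i ∈ hMF H Γ (k i : ℤ) := by
    intro i
    refine ⟨?_, mem_hMF_nat (by rw [hfx]; exact hx i)⟩
    rcases Nat.eq_zero_or_pos (k i) with h0 | h0
    · exfalso
      have h1 := hx i
      rw [h0] at h1
      obtain ⟨c, hc⟩ := mf0_const (free_of_freeN hF) h1
      have h2 := hi.transcendental i
      apply h2
      rw [hc]
      exact isAlgebraic_algebraMap c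
    · exact_mod_cast h0
  obtain ⟨y, c, hy, hya⟩ := hLIN (GG hh) ↥(MS H Γ) (hMF H Γ) hgr (n + 1) f (fun i => (k i : ℤ))
    hdeg hfi hfa' (ph hh ρ)
  refine hDDL (GG hh) ↥(MS H Γ) (hMF H Γ) hgr (n + 1) y c (ph hh ρ) hy hya ?_
  intro i j hci hcj
  by_contra hij
  obtain ⟨r, ε, hr, -, -, hρr⟩ := hρ
  obtain ⟨z, hz, hker⟩ := hKER n d hd H L hL r hr
  have hya' : Algebra.adjoin ℂ (Set.range fun i => (y i).1) = MS H Γ := by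
    have h1 : (Set.range fun i => (y i).1) = (MS H Γ).val '' Set.range y := by
      rw [← Set.range_comp]
      rfl
    rw [h1, ← AlgHom.map_adjoin, hya, Algebra.map_top]
    exact Subalgebra.range_val _
  obtain ⟨w, hw0, hwr, hw⟩ := hEIG n H r hr ρ.1 (hh.un ρ.2) (refl_fix hρr)
    (fun i => (y i).1) c (fun i => ms_hol (y i).2) (fun i z w hzw => by
      have h1 := (hy i).2
      have h2 := congrFun (congrArg Subtype.val h1) w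
      rw [ph_smul_val, pc_apply] at h2
      have h3 : mv (⟨ρ.1, hh.un ρ.2⟩ : Uh H)⁻¹ w = z := by
        apply Subtype.ext
        show (ρ.1⁻¹ : Vn n ≃ₗ[ℂ] Vn n) w.1 = z.1
        rw [hzw, ← LinearEquiv.mul_apply, inv_mul_cancel]
        rfl
      rw [h3] at h2
      exact h2) i j hij hci hcj z hz
  apply hw0
  apply hker w hwr
  intro k f hf
  apply hw
  rw [hya']
  exact mf_mem (mf_mono (hle.trans hU) hf)

/-- the second step -/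
theorem step_nm (hGLUE : S_GLUE) (hFRA : S_FRA) (hCRD : S_CRD) (hLIN : S_LIN) (hDDL : S_DDL)
    (hEIG : S_EIG) (hKER : S_KER) (hDOM : S_DOM)
    (hOPN : S_OPN) {d : ℤ} (hd : d < 0) {L : AddSubgroup (Vn n)} (hL : IsLat d H L)
    (hU : Γ₁ ≤ UL H L) (hn : ∀ g ∈ Γ₁, ∀ x ∈ Γ, g * x * g⁻¹ ∈ Γ) (hle : Γ ≤ Γ₁)
    (hf : Γ.relIndex Γ₁ ≠ 0) (hF : FreeN H Γ)
    (hgen : Subgroup.closure ((Γ : Set (Vn n ≃ₗ[ℂ] Vn n)) ∪ {ρ | ρ ∈ Γ₁ ∧ IsRefl H ρ}) = Γ₁) :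
    FreeN H Γ₁ := by
  have hh : Nrm H Γ Γ₁ := ⟨hU.trans fun g hg => hg.1, hn⟩
  have := isDomain (N := Γ) (H := H) hDOM hOPN
  have := finite_GG hh hf
  refine freeN_of hCRD hDOM hOPN hh le_rfl hle hf hF ?_
  refine main hGLUE hDOM hOPN hh le_rfl hle hf (free_of_freeN hF) ?_
  refine hFRA (GG hh) ↥(MS H Γ) (hMF H Γ) (gr hh hle (free_of_freeN hF)).toHm _
    (gen_GG hh hgen) ?_ _
  rintro - ⟨γ, hγ, rfl⟩
  exact refl_dd hLIN hDDL hEIG hKER hDOM hOPN hd hL hU hh hle hf hF γ hγ.2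

end MOD
end Pool.Agent.RFO
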