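import Mathlib
import Pool.Agent.RFO.St2
import Pool.Agent.RFO.OPN

/-!
# Generic points of the mirror (module GEN)
-/

set_option autoImplicit false

namespace Pool.Agent.RFO

namespace GEN

variable {n : ℕ}

/-- the linear form `z ↦ h z v - h z v'` -/
noncomputable def lf (H : HForm n) (v v' : Vn n) : Vn n →ₗ[ℂ] ℂ where
  toFun := fun z => H.h z v - H.h z v'
  map_add' := by
    intro x y
    rw [H.add, H.add]
    ring
  map_smul' := by
    intro a x
    rw [H.smul, H.smul, RingHom.id_apply, smul_eq_mul]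
    ring

theorem lf_apply (H : HForm n) (v v' z : Vn n) : lf H v v' z = H.h z v - H.h z v' := rfl

theorem h_zero_left (H : HForm n) (y : Vn n) : H.h 0 y = 0 := by
  have := H.smul 0 0 y
  simpa using this

theorem h_zero_right (H : HForm n) (y : Vn n) : H.h y 0 = 0 := by
  rw [H.herm, h_zero_left, map_zero]

theorem h_sub_left (H : HForm n) (c : ℂ) (x y z : Vn n) :
    H.h (x - c • y) z = H.h x z - c * H.h y z := by
  have h1 : x - c • y = x + (-c) • y := by
    rw [neg_smul, sub_eq_add_neg]
  rw [h1, H.add, H.smul]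
  ring

theorem h_sub_right (H : HForm n) (c : ℂ) (x y z : Vn n) :
    H.h z (x - c • y) = H.h z x - (starRingEnd ℂ) c * H.h z y := by
  rw [H.herm, h_sub_left, map_sub, map_mul, ← H.herm, ← H.herm]

theorem h_self_im (H : HForm n) (x : Vn n) : (H.h x x).im = 0 := by
  have h1 := H.herm x x
  have h2 : (H.h x x).im = ((starRingEnd ℂ) (H.h x x)).im := by rw [← h1]
  rw [Complex.conj_im] at h2
  linarith

theorem countable_of_fg (L : AddSubgroup (Vn n)) (hL : L.FG) : Countable L := by
  have h1 : AddGroup.FG L := (AddGroup.fg_iff_addSubgroup_fg L).mpr hL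
  have h2 : Module.Finite ℤ L := Module.Finite.iff_addGroup_fg.mpr h1
  obtain ⟨k, f, hf⟩ := Module.Finite.exists_fin' ℤ L
  exact hf.countable

theorem dense_ne {W : Type} [NormedAddCommGroup W] [NormedSpace ℂ W]
    (f : W →ₗ[ℂ] ℂ) (hf : f ≠ 0) : Dense {z : W | f z ≠ 0} := by
  have h1 : {z : W | f z ≠ 0} = ((LinearMap.ker f : Submodule ℂ W) : Set W)ᶜ := by
    ext z
    simp
  rw [h1, ← interior_eq_empty_iff_dense_compl]
  by_contra h2
  have h3 := Submodule.eq_top_of_nonempty_interior' (LinearMap.ker f)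
    (Set.nonempty_iff_ne_empty.mpr h2)
  exact hf (LinearMap.ker_eq_top.mp h3)

end GEN

open GEN in
theorem GEN_thm : S_GEN := by
  intro n H L hL r hr
  obtain ⟨hopen, -, z0, hz0⟩ := OPN_thm n H
  have hcL : Countable L := countable_of_fg L hL
  have hrr : H.h r r ≠ 0 := by
    intro h
    rw [h] at hr
    simp at hr
  let W : Submodule ℂ (Vn n) := LinearMap.ker (lf H r 0)
  have hW : ∀ z : Vn n, z ∈ W ↔ H.h z r = 0 := by
    intro z
    show lf H r 0 z = 0 ↔ _
    rw [lf_apply, h_zero_right, sub_zero]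
  have hcomp : CompleteSpace W := FiniteDimensional.complete ℂ W
  -- the open sets
  let U : L × L → Set W := fun p =>
    {z | (∃ w : W, lf H p.1 p.2 w ≠ 0) → lf H p.1 p.2 (z : Vn n) ≠ 0}
  have hU : ∀ p, IsOpen (U p) ∧ Dense (U p) := by
    intro p
    by_cases hp : ∃ w : W, lf H p.1 p.2 w ≠ 0
    · have h1 : U p = {z : W | ((lf H p.1 p.2).comp W.subtype) z ≠ 0} := by
        ext z
        simp only [U, Set.mem_setOf_eq, hp, forall_const, LinearMap.comp_apply,
          Submodule.subtype_apply]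
      rw [h1]
      refine ⟨?_, ?_⟩
      · have h2 : Continuous ((lf H p.1 p.2).comp W.subtype) :=
          LinearMap.continuous_of_finiteDimensional _
        exact isOpen_ne_fun h2 continuous_const
      · refine dense_ne _ ?_
        intro h2
        obtain ⟨w, hw⟩ := hp
        apply hw
        have h3 := LinearMap.congr_fun h2 w
        simpa using h3
    · have h1 : U p = Set.univ := by
        ext z
        simp only [U, Set.mem_setOf_eq, Set.mem_univ, iff_true]
        intro h
        exact absurd h hp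
      rw [h1]
      exact ⟨isOpen_univ, dense_univ⟩
  have hD : Dense (⋂ p, U p) :=
    dense_iInter_of_isOpen (fun p => (hU p).1) (fun p => (hU p).2)
  have hC : IsOpen {z : W | (z : Vn n) ∈ cone H} := hopen.preimage continuous_subtype_val
  have hne : {z : W | (z : Vn n) ∈ cone H}.Nonempty := by
    have hz1 : H.h (z0 - (H.h z0 r / H.h r r) • r) r = 0 := by
      rw [h_sub_left, div_mul_cancel₀ _ hrr, sub_self]
    refine ⟨⟨z0 - (H.h z0 r / H.h r r) • r, (hW _).mpr hz1⟩, ?_⟩
    show (H.h (z0 - (H.h z0 r / H.h r r) • r) (z0 - (H.h z0 r / H.h r r) • r)).re < 0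
    rw [h_sub_right, hz1, mul_zero, sub_zero, h_sub_left]
    have h1 : (H.h z0 z0).re < 0 := hz0
    have h2 : H.h r r = (((H.h r r).re : ℝ) : ℂ) := by
      apply Complex.ext
      · simp
      · simp [h_self_im H r]
    have h3 : H.h z0 r / H.h r r * H.h r z0
        = ((Complex.normSq (H.h z0 r) / (H.h r r).re : ℝ) : ℂ) := by
      rw [H.herm z0 r, div_mul_eq_mul_div, Complex.mul_conj]
      conv_lhs => rw [h2]
      push_cast
      rfl
    rw [h3, Complex.sub_re, Complex.ofReal_re]
    have h4 : 0 ≤ Complex.normSq (H.h z0 r) / (H.h r r).re :=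
      div_nonneg (Complex.normSq_nonneg _) hr.le
    linarith
  obtain ⟨z, hz, hzU⟩ := hD.inter_open_nonempty _ hC hne
  rw [Set.mem_iInter] at hzU
  refine ⟨z, hz, (hW _).mp z.2, ?_⟩
  intro v hv v' hv' he w hw
  by_contra hne2
  have h5 := hzU (⟨v, hv⟩, ⟨v', hv'⟩) ⟨⟨w, (hW w).mpr hw⟩, by
    show lf H v v' w ≠ 0
    rw [lf_apply]
    exact sub_ne_zero.mpr hne2⟩
  apply h5
  show lf H v v' (z : Vn n) = 0
  rw [lf_apply, he, sub_self]

end Pool.Agent.RFO
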