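import Mathlib
import Pool.Agent.RFO.St

/-!
# GLUE: transport between the polynomial ring and the invariants of `K`
-/

set_option autoImplicit false

namespace Pool.Agent.RFO

namespace GLUE

open MvPolynomial

section Hom

variable {G T : Type} [Group G] [CommRing T] [Algebra ℂ T] [MulSemiringAction G T]
  [SMulCommClass G ℂ T] {hom : ℤ → Submodule ℂ T}

theorem pow_mem (hG : Gr G hom) {x : T} {k : ℤ} (hx : x ∈ hom k) (n : ℕ) :
    x ^ n ∈ hom (n * k) := by
  induction n with
  | zero =>
    rw [pow_zero, Nat.cast_zero, zero_mul]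
    exact hG.one
  | succ n ih =>
    rw [pow_succ, Nat.cast_succ, add_mul, one_mul]
    exact hG.mul _ _ _ _ ih hx

theorem prod_mem (hG : Gr G hom) {ι : Type} (s : Finset ι) (x : ι → T) (k : ι → ℤ)
    (hx : ∀ i ∈ s, x i ∈ hom (k i)) : ∏ i ∈ s, x i ∈ hom (∑ i ∈ s, k i) := by
  classical
  induction s using Finset.induction_on with
  | empty =>
    rw [Finset.prod_empty, Finset.sum_empty]
    exact hG.one
  | insert a s ha ih =>
    rw [Finset.prod_insert ha, Finset.sum_insert ha]
    exact hG.mul _ _ _ _ (hx a (Finset.mem_insert_self _ _))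
      (ih fun i hi => hx i (Finset.mem_insert_of_mem hi))

/-- The polynomial map respects the degrees. -/
theorem aeval_mem (hG : Gr G hom) {m : ℕ} (f : Fin m → T) (k : Fin m → ℤ)
    (hk : ∀ i, 0 < k i ∧ f i ∈ hom (k i)) (j : ℤ) (p : MvPolynomial (Fin m) ℂ)
    (hp : p ∈ WH (fun i => (k i).toNat) j) : aeval f p ∈ hom j := by
  unfold WH at hp
  by_cases hj : j < 0
  · rw [if_pos hj, Submodule.mem_bot] at hp
    rw [hp, map_zero]
    exact (hom j).zero_mem
  · rw [if_neg hj, mem_weightedHomogeneousSubmodule] at hp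
    rw [p.as_sum, map_sum]
    refine (hom j).sum_mem fun d hd => ?_
    rw [aeval_monomial, ← Algebra.smul_def]
    refine (hom j).smul_mem _ ?_
    have h1 := hp (mem_support_iff.mp hd)
    rw [Finsupp.prod_fintype _ _ (fun i => pow_zero _)]
    have h2 := prod_mem hG Finset.univ (fun i => f i ^ d i) (fun i => (d i : ℤ) * k i)
      (fun i _ => pow_mem hG (hk i).2 (d i))
    have h3 : ∑ i, (d i : ℤ) * k i = j := by
      have h4 : (j.toNat : ℤ) = j := Int.toNat_of_nonneg (not_lt.mp hj)
      have h5 : d.sum (fun i c => c • (k i).toNat) = ∑ i, d i • (k i).toNat :=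
        Finsupp.sum_fintype _ _ (fun i => by simp)
      rw [← h4, ← h1, Finsupp.weight_apply, h5, Nat.cast_sum]
      refine Finset.sum_congr rfl fun i _ => ?_
      rw [smul_eq_mul, Nat.cast_mul, Int.toNat_of_nonneg (hk i).1.le]
    rw [h3] at h2
    exact h2

/-- Homogeneous components. -/
theorem exists_proj (hG : Gr G hom) : ∃ pr : ℤ → T →ₗ[ℂ] T,
    (∀ i x, x ∈ hom i → pr i x = x) ∧ ∀ i j x, x ∈ hom i → i ≠ j → pr j x = 0 := by
  classical
  have hint : DirectSum.IsInternal hom :=
    DirectSum.isInternal_submodule_of_iSupIndep_of_iSup_eq_top hG.ind hG.top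
  let _ := hint.chooseDecomposition
  refine ⟨fun i => (hom i).subtype ∘ₗ (DirectSum.component ℂ ℤ (fun i => hom i) i) ∘ₗ
    (DirectSum.decomposeLinearEquiv hom).toLinearMap, ?_, ?_⟩
  · intro i x hx
    exact DirectSum.decompose_of_mem_same hom hx
  · intro i j x hx hij
    exact DirectSum.decompose_of_mem_ne hom hx hij

/-- The polynomial map reflects the degrees. -/
theorem mem_of_aeval (hG : Gr G hom) {m : ℕ} (f : Fin m → T) (k : Fin m → ℤ)
    (hk : ∀ i, 0 < k i ∧ f i ∈ hom (k i)) (hinj : Function.Injective (aeval f :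
      MvPolynomial (Fin m) ℂ →ₐ[ℂ] T)) (j : ℤ) (p : MvPolynomial (Fin m) ℂ)
    (hp : aeval f p ∈ hom j) : p ∈ WH (fun i => (k i).toNat) j := by
  classical
  obtain ⟨pr, hpr, hpr'⟩ := exists_proj hG
  set w : Fin m → ℕ := fun i => (k i).toNat with hw
  have hcomp : ∀ n : ℕ, aeval f (weightedHomogeneousComponent w n p) ∈ hom (n : ℤ) := by
    intro n
    refine aeval_mem hG f k hk n _ ?_
    unfold WH
    rw [if_neg (by omega), Int.toNat_natCast, mem_weightedHomogeneousSubmodule]
    exact weightedHomogeneousComponent_isWeightedHomogeneous n p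
  have hzero : ∀ n : ℕ, (n : ℤ) ≠ j → weightedHomogeneousComponent w n p = 0 := by
    intro n hn
    apply hinj
    rw [map_zero]
    have h1 : pr n (aeval f p) = 0 := hpr' j n _ hp (Ne.symm hn)
    have h2 : p = ∑ᶠ i, weightedHomogeneousComponent w i p :=
      (finsum_weightedHomogeneousComponent w p).symm
    have hfin : (Function.support fun i => weightedHomogeneousComponent w i p).Finite :=
      weightedHomogeneousComponent_finsupp p
    rw [h2, finsum_eq_sum _ hfin, map_sum, map_sum] at h1
    by_cases hn0 : weightedHomogeneousComponent w n p = 0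
    · rw [hn0, map_zero]
    · rw [Finset.sum_eq_single n] at h1
      · rw [hpr _ _ (hcomp n)] at h1
        exact h1
      · intro i _ hi
        exact hpr' i n _ (hcomp i) (by exact_mod_cast hi)
      · intro h3
        exact absurd (hfin.mem_toFinset.mpr hn0) h3
  have h2 : p = ∑ᶠ i, weightedHomogeneousComponent w i p :=
    (finsum_weightedHomogeneousComponent w p).symm
  unfold WH
  by_cases hj : j < 0
  · rw [if_pos hj, Submodule.mem_bot, h2]
    have h3 : (fun i => weightedHomogeneousComponent w i p) = fun _ => 0 := by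
      funext i
      exact hzero i (by omega)
    rw [h3, finsum_zero]
  · rw [if_neg hj, mem_weightedHomogeneousSubmodule]
    have h3 : p = weightedHomogeneousComponent w j.toNat p := by
      conv_lhs => rw [h2]
      refine finsum_eq_single _ j.toNat fun i hi => ?_
      exact hzero i (by omega)
    rw [h3]
    exact weightedHomogeneousComponent_isWeightedHomogeneous _ _

end Hom

section Rey

variable (G T : Type) [Group G] [Finite G] [CommRing T] [Algebra ℂ T] [MulSemiringAction G T]
  [SMulCommClass G ℂ T]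

/-- The averaging operator. -/
theorem exists_rey : ∃ R : T →ₗ[ℂ] T, (∀ x (g : G), g • R x = R x) ∧
    (∀ x, (∀ g : G, g • x = x) → R x = x) ∧
    (∀ s x, (∀ g : G, g • s = s) → R (s * x) = s * R x) ∧
    (∀ S : Submodule ℂ T, (∀ (g : G) x, x ∈ S → g • x ∈ S) → ∀ x ∈ S, R x ∈ S) := by
  classical
  have := Fintype.ofFinite G
  have hc : ((Fintype.card G : ℕ) : ℂ) ≠ 0 := by
    exact_mod_cast Fintype.card_ne_zero
  refine ⟨((Fintype.card G : ℕ) : ℂ)⁻¹ • ∑ g : G,
    ({ toFun := fun x => g • x
       map_add' := fun x y => smul_add g x y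
       map_smul' := fun c x => smul_comm g c x } : T →ₗ[ℂ] T), ?_, ?_, ?_, ?_⟩
  · intro x g
    simp only [LinearMap.smul_apply, LinearMap.sum_apply, LinearMap.coe_mk, AddHom.coe_mk]
    rw [smul_comm, Finset.smul_sum]
    congr 1
    simp only [smul_smul]
    exact Fintype.sum_equiv (Equiv.mulLeft g) _ _ fun h => rfl
  · intro x hx
    simp only [LinearMap.smul_apply, LinearMap.sum_apply, LinearMap.coe_mk, AddHom.coe_mk, hx]
    rw [Finset.sum_const, Finset.card_univ, ← Nat.cast_smul_eq_nsmul ℂ, smul_smul,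
      inv_mul_cancel₀ hc, one_smul]
  · intro s x hs
    simp only [LinearMap.smul_apply, LinearMap.sum_apply, LinearMap.coe_mk, AddHom.coe_mk,
      smul_mul', hs]
    rw [← Finset.mul_sum, mul_smul_comm]
  · intro S hS x hx
    simp only [LinearMap.smul_apply, LinearMap.sum_apply, LinearMap.coe_mk, AddHom.coe_mk]
    exact S.smul_mem _ (S.sum_mem fun g _ => hS g x hx)

end Rey

end GLUE

open GLUE MvPolynomial in
/-- GLUE -/
theorem GLUE_thm (h : S_CH2) : S_GLUE := by
  classical
  intro G T _ _ _ _ _ _ _ hom hG K hFR hfree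
  obtain ⟨m, f, k, hk, hind, hadj⟩ := hfree
  obtain ⟨R, hR1, hR2, hR3, hR4⟩ := exists_rey G T
  set φ : MvPolynomial (Fin m) ℂ →ₐ[ℂ] T := aeval f with hφ
  have hinj : Function.Injective φ := hind
  have hinj' : Function.Injective φ.toLinearMap := hinj
  have hrange : φ.range = Fx K := by
    rw [← hadj, Algebra.adjoin_range_eq_range_aeval]
  have hle : ∀ x : T, (∀ g : G, g • x = x) → ∃ p, φ p = x := by
    intro x hx
    have h1 : x ∈ φ.range := by
      rw [hrange]
      exact fun g _ => hx g
    exact h1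
  have htop : ∀ x : T, x ∈ (Fx (⊤ : Subgroup G) : Subalgebra ℂ T) ↔ ∀ g : G, g • x = x := by
    intro x
    rw [mem_Fx]
    exact ⟨fun h1 g => h1 g (Subgroup.mem_top g), fun h1 g _ => h1 g⟩
  have hA := fun j p => aeval_mem hG f k hk j p
  have hB := fun j p => mem_of_aeval hG f k hk hinj j p
  set w : Fin m → ℕ := fun i => (k i).toNat with hw
  have hmem : ∀ p, (R ∘ₗ φ.toLinearMap) p ∈ LinearMap.range φ.toLinearMap := by
    intro p
    obtain ⟨q, hq⟩ := hle (R (φ p)) (hR1 _)
    exact ⟨q, hq⟩
  set π : MvPolynomial (Fin m) ℂ →ₗ[ℂ] MvPolynomial (Fin m) ℂ :=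
    (LinearEquiv.ofInjective φ.toLinearMap hinj').symm.toLinearMap ∘ₗ
      (LinearMap.codRestrict (LinearMap.range φ.toLinearMap) (R ∘ₗ φ.toLinearMap) hmem) with hπ
  have hφπ : ∀ p, φ (π p) = R (φ p) := by
    intro p
    have h1 : φ (π p) = ((LinearEquiv.ofInjective φ.toLinearMap hinj' (π p) :
        LinearMap.range φ.toLinearMap) : T) := rfl
    rw [h1, hπ]
    simp only [LinearMap.comp_apply, LinearEquiv.coe_coe, LinearEquiv.apply_symm_apply]
    rfl
  set S : Subalgebra ℂ (MvPolynomial (Fin m) ℂ) :=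
    (Fx (⊤ : Subgroup G) : Subalgebra ℂ T).comap φ with hS
  have hSmem : ∀ p, p ∈ S ↔ ∀ g : G, g • φ p = φ p := by
    intro p
    rw [hS, Subalgebra.mem_comap, htop]
  have hFP : FP w S := by
    intro r s p a b c hs hp hab hsum hnot
    have hrel : Rel G hom (fun i => φ (s i)) (fun i => φ (p i)) := by
      refine ⟨⟨a, b, c, fun i => hA _ _ (hs i).2, fun i => hA _ _ (hp i), hab⟩, ?_, ?_⟩
      · intro i g
        exact (hSmem _).mp (hs i).1 g
      · rw [← map_zero φ, ← hsum, map_sum]
        exact Finset.sum_congr rfl fun i _ => (map_mul φ _ _).symm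
    obtain ⟨q, u, v, hu, hv, huv⟩ := hFR r _ _ hrel
      (by
        intro i g hg
        have h1 : φ (p i) ∈ (Fx K : Subalgebra ℂ T) := by
          rw [← hrange]
          exact ⟨p i, rfl⟩
        exact h1 g hg)
      (by
        rintro ⟨e, he, he'⟩
        apply hnot
        choose u hu using fun i => hle (e i) (he i)
        refine ⟨u, fun i => ?_, ?_⟩
        · rw [hSmem, hu]
          exact he i
        · apply hinj
          rw [map_sum]
          refine he'.trans (Finset.sum_congr rfl fun i _ => ?_)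
          rw [map_mul, hu])
    choose u' hu' using fun j => hle (u j) (hu j).1
    have hv1 : ∀ j, ∃ x, φ x = v j := by
      intro j
      have h1 := hv j
      rw [← hrange] at h1
      exact h1
    choose v' hv' using hv1
    have h1 : p 0 = ∑ j, u' j * v' j := by
      apply hinj
      rw [map_sum]
      refine huv.trans (Finset.sum_congr rfl fun j _ => ?_)
      rw [map_mul, hu', hv']
    rw [h1]
    refine Ideal.sum_mem _ fun j _ => Ideal.mul_mem_right _ _ (Ideal.subset_span ?_)
    obtain ⟨hinv, i, hi, hui⟩ := hu j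
    refine ⟨?_, i, hi, hB _ _ ?_⟩
    · rw [hSmem, hu']
      exact hinv
    · change φ (u' j) ∈ hom i
      rw [hu']
      exact hui
  obtain ⟨r, f', k', hf', hind', hadj'⟩ := h m w (fun i => by
      have := (hk i).1
      change 0 < (k i).toNat
      omega) S π
    (by
      intro j p hp
      refine hB _ _ ?_
      change φ (π p) ∈ hom j
      rw [hφπ]
      exact hR4 (hom j) (fun g x hx => hG.act g j x hx) _ (hA _ _ hp))
    (by
      intro p
      rw [hSmem, hφπ]
      exact hR1 _)
    (by
      intro s hs p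
      apply hinj
      rw [hφπ, map_mul φ s p, map_mul φ s (π p), hφπ]
      exact hR3 _ _ ((hSmem s).mp hs))
    (by
      apply hinj
      rw [hφπ, map_one]
      exact hR2 _ fun g => smul_one g) hFP
  refine ⟨r, fun i => φ (f' i), k', fun i => ⟨(hf' i).1, hA _ _ (hf' i).2⟩, ?_, ?_⟩
  · exact hind'.map' hinj
  · have h1 : Set.range (fun i => φ (f' i)) = φ '' Set.range f' := by
      rw [← Set.range_comp]
      rfl
    rw [h1, Algebra.adjoin_image, hadj']
    apply le_antisymm
    · rintro _ ⟨p, hp, rfl⟩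
      exact hp
    · intro x hx
      obtain ⟨p, rfl⟩ := hle x ((htop x).mp hx)
      exact ⟨p, hx, rfl⟩

end Pool.Agent.RFO
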