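import Mathlib
import Pool.Agent.RFO.St

/-!
# IDT: identity theorem in several variables
-/

set_option autoImplicit false

namespace Pool.Agent.RFO

namespace IDT

variable {n : ℕ}

/-- the restriction to a complex line -/
theorem line {f : Vn n → ℂ} {B : Set (Vn n)} (hB : IsOpen B) (hc : Convex ℝ B)
    (hf : DifferentiableOn ℂ f B) {y v : Vn n} (hy : y ∈ B) (hv : v ∈ B)
    (h0 : f =ᶠ[nhds y] 0) : f v = 0 := by
  set L : ℂ → Vn n := fun s => y + s • (v - y) with hL
  have hLd : Differentiable ℂ L := by
    intro s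
    exact (differentiableAt_id.smul_const (v - y)).const_add y
  have hLc : Continuous L := hLd.continuous
  set S : Set ℂ := L ⁻¹' B with hS
  have hSo : IsOpen S := hB.preimage hLc
  have hSc : Convex ℝ S := by
    intro a ha b hb p q hp hq hpq
    have : L (p • a + q • b) = p • L a + q • L b := by
      simp only [hL]
      have hq' : (q : ℝ) = 1 - p := by linarith
      subst hq'
      ext i
      simp only [Pi.add_apply, Pi.smul_apply, Pi.sub_apply, smul_eq_mul, Complex.real_smul]
      push_cast
      ring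
    show L (p • a + q • b) ∈ B
    rw [this]
    exact hc ha hb hp hq hpq
  have h1 : DifferentiableOn ℂ (f ∘ L) S :=
    hf.comp hLd.differentiableOn (fun s hs => hs)
  have h2 : AnalyticOnNhd ℂ (f ∘ L) S := h1.analyticOnNhd hSo
  have s0 : (0 : ℂ) ∈ S := by
    show L 0 ∈ B
    simp only [hL, zero_smul, add_zero]
    exact hy
  have s1 : (1 : ℂ) ∈ S := by
    show L 1 ∈ B
    simp only [hL, one_smul, add_sub_cancel]
    exact hv
  have h3 : (f ∘ L) =ᶠ[nhds 0] 0 := by
    have hL0 : L 0 = y := by simp only [hL, zero_smul, add_zero]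
    have ht : Filter.Tendsto L (nhds 0) (nhds y) := by
      have := hLc.tendsto 0
      rwa [hL0] at this
    exact ht.eventually h0
  have h4 := h2.eqOn_zero_of_preconnected_of_eventuallyEq_zero hSc.isPreconnected s0 h3 s1
  have hL1 : L 1 = v := by simp only [hL, one_smul, add_sub_cancel]
  have h5 : f (L 1) = 0 := h4
  rwa [hL1] at h5

end IDT

open IDT in
theorem IDT_thm : S_IDT := by
  intro n U hU hc f hf z hz h0 x hx
  set A : Set (Vn n) := {y | f =ᶠ[nhds y] 0} with hA
  have hAo : IsOpen A := isOpen_setOfPred_eventually_nhds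
  have hsub : U ⊆ A := by
    apply hc.subset_of_closure_inter_subset hAo ⟨z, hz, h0⟩
    rintro w ⟨hw, hwU⟩
    obtain ⟨ε, hε, hB⟩ := Metric.isOpen_iff.1 hU w hwU
    obtain ⟨y, hyA, hyB⟩ := Metric.mem_closure_iff.1 hw ε hε
    have hyB' : y ∈ Metric.ball w ε := by
      rw [Metric.mem_ball, dist_comm]; exact hyB
    show f =ᶠ[nhds w] 0
    filter_upwards [Metric.ball_mem_nhds w hε] with v hv
    exact line Metric.isOpen_ball (convex_ball w ε) (hf.mono hB) hyB' hv hyA
  exact (hsub hx : f =ᶠ[nhds x] 0).self_of_nhds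

end Pool.Agent.RFO
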