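import Mathlib
import Pool.Agent.RFO.St2

/-!
# The differentials of the modular forms at a generic point of the mirror (module KER)
-/

set_option autoImplicit false

namespace Pool.Agent.RFO

theorem KER_thm (h1 : S_SER) (h2 : S_UNQ) (h3 : S_GEN) (h4 : S_SPN) : S_KER := by
  intro n d hd H L hL r hr
  obtain ⟨z, hz, hzr, hgen⟩ := h3 n H L hL.fg r hr
  refine ⟨⟨z, hz⟩, hzr, fun w hw hf => ?_⟩
  refine h4 n d hd H L hL w fun v₀ hv₀ hneg => ?_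
  obtain ⟨k0, hser⟩ := h1 n d hd H L hL
  have hc : H.h v₀ v₀ = (((H.h v₀ v₀).re : ℝ) : ℂ) :=
    (Complex.conj_eq_iff_re.1 (H.herm v₀ v₀).symm).symm
  set c : ℝ := (H.h v₀ v₀).re with hcdef
  let i0 : VN H L (c : ℂ) := ⟨v₀, hv₀, hc⟩
  have hne : ∀ v : VN H L (c : ℂ), H.h z v.1 ≠ 0 := ((hser c hneg k0 le_rfl).1 z hz).1
  obtain ⟨s, hs, hsum⟩ := h2 (VN H L (c : ℂ)) (fun v => H.h w v.1) (fun v => (H.h z v.1)⁻¹)
    (k0 + 2) (fun v => inv_ne_zero (hne v)) ((hser c hneg (k0 + 2) (by omega)).1 z hz).2.1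
    (fun k hk => ((hser c hneg k (by omega)).1 z hz).2.2 w) (fun k hk => by
      obtain ⟨k', rfl⟩ : ∃ k', k = k' + 1 := ⟨k - 1, by omega⟩
      obtain ⟨f, hfm, hfd⟩ := (hser c hneg k' (by omega)).2
      have h5 := hf k' f hfm
      have h6 := hfd ⟨z, hz⟩ w
      rw [h5] at h6
      have h7 : (-(k' : ℂ)) ≠ 0 := by
        rw [neg_ne_zero, Nat.cast_ne_zero]
        omega
      exact (mul_eq_zero.1 h6.symm).resolve_left h7) i0
  have h8 : ∀ v ∈ s, H.h w v.1 = H.h w v₀ := by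
    intro v hv
    have h9 : (H.h z v.1)⁻¹ = (H.h z v₀)⁻¹ := (hs v).1 hv
    exact hgen v.1 v.2.1 v₀ hv₀ (inv_injective h9) w hw
  rw [Finset.sum_congr rfl h8, Finset.sum_const, nsmul_eq_mul] at hsum
  have h10 : i0 ∈ s := (hs i0).2 rfl
  have h11 : ((s.card : ℕ) : ℂ) ≠ 0 := by
    rw [Nat.cast_ne_zero]
    exact (Finset.card_pos.2 ⟨i0, h10⟩).ne'
  exact (mul_eq_zero.1 hsum).resolve_left h11

end Pool.Agent.RFO
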