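import Mathlib
import Pool.Agent.RFO.St2

/-!
# LAT: sums over the lattice
-/

namespace Pool.Agent.RFO

namespace LAT

open Module

/-- The square root of `d`. -/
noncomputable def w (d : ℤ) : ℂ := Complex.I * (Real.sqrt (-(d : ℝ)) : ℂ)

theorem w_sq {d : ℤ} (hd : d < 0) : w d * w d = ((d : ℚ) : ℂ) := by
  have h1 : (0 : ℝ) ≤ -(d : ℝ) := by
    have : (d : ℝ) < 0 := by exact_mod_cast hd
    linarith
  have h2 : (Real.sqrt (-(d : ℝ)) : ℂ) * (Real.sqrt (-(d : ℝ)) : ℂ) = ((-(d : ℝ) : ℝ) : ℂ) := by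
    rw [← Complex.ofReal_mul, Real.mul_self_sqrt h1]
  have h3 : w d * w d = (Complex.I * Complex.I) *
      ((Real.sqrt (-(d : ℝ)) : ℂ) * (Real.sqrt (-(d : ℝ)) : ℂ)) := by
    rw [w]
    ring
  rw [h3, h2, Complex.I_mul_I]
  push_cast
  ring

/-- The field of the `p + q w`. -/
noncomputable def FF (d : ℤ) (hd : d < 0) : Subfield ℂ where
  carrier := {z | ∃ p q : ℚ, z = (p : ℂ) + (q : ℂ) * w d}
  mul_mem' := by
    rintro _ _ ⟨p, q, rfl⟩ ⟨p', q', rfl⟩
    refine ⟨p * p' + q * q' * d, p * q' + q * p', ?_⟩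
    have h := w_sq hd
    push_cast at h ⊢
    linear_combination ((q : ℂ) * (q' : ℂ)) * h
  one_mem' := ⟨1, 0, by push_cast; ring⟩
  add_mem' := by
    rintro _ _ ⟨p, q, rfl⟩ ⟨p', q', rfl⟩
    exact ⟨p + p', q + q', by push_cast; ring⟩
  zero_mem' := ⟨0, 0, by push_cast; ring⟩
  neg_mem' := by
    rintro _ ⟨p, q, rfl⟩
    exact ⟨-p, -q, by push_cast; ring⟩
  inv_mem' := by
    rintro _ ⟨p, q, rfl⟩
    by_cases hN : p * p - d * (q * q) = 0
    · have hd' : (d : ℚ) < 0 := by exact_mod_cast hd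
      have h1 : 0 ≤ p * p := mul_self_nonneg p
      have h2 : 0 ≤ q * q := mul_self_nonneg q
      have h3 : p * p = 0 := by nlinarith
      have h4 : (d : ℚ) * (q * q) = 0 := by linarith
      have h5 : p = 0 := by simpa using h3
      have h6 : q = 0 := by
        rcases mul_eq_zero.1 h4 with h | h
        · exact absurd h hd'.ne
        · simpa using h
      refine ⟨0, 0, ?_⟩
      rw [h5, h6]
      simp
    · refine ⟨p / (p * p - d * (q * q)), -q / (p * p - d * (q * q)), ?_⟩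
      have hN' : ((p * p - d * (q * q) : ℚ) : ℂ) ≠ 0 := by exact_mod_cast hN
      rw [inv_eq_iff_eq_inv]
      refine eq_inv_of_mul_eq_one_left ?_
      have h := w_sq hd
      have h2 : ((p : ℂ) + (q : ℂ) * w d) * (((p / (p * p - d * (q * q)) : ℚ) : ℂ) +
          ((-q / (p * p - d * (q * q)) : ℚ) : ℂ) * w d) =
          ((p : ℂ) * p - (w d * w d) * ((q : ℂ) * q)) / ((p * p - d * (q * q) : ℚ) : ℂ) := by
        push_cast
        ring
      have h3 : (p : ℂ) * p - ((d : ℚ) : ℂ) * ((q : ℂ) * q) =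
          ((p * p - d * (q * q) : ℚ) : ℂ) := by
        push_cast
        ring
      rw [h2, h, h3, div_self hN']

theorem Fd_le {d : ℤ} (hd : d < 0) : Fd d ≤ FF d hd := by
  unfold Fd
  rw [Subfield.closure_le]
  intro z hz
  rw [Set.mem_singleton_iff] at hz
  refine ⟨0, 1, ?_⟩
  rw [hz, w]
  push_cast
  ring

theorem exists_pq {d : ℤ} (hd : d < 0) {z : ℂ} (hz : z ∈ Fd d) :
    ∃ p q : ℚ, z = (p : ℂ) + (q : ℂ) * w d := Fd_le hd hz

/-- The basis `1, w` of the complex numbers. -/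
theorem exists_basis {d : ℤ} (hd : d < 0) : ∃ B : Basis (Fin 2) ℝ ℂ, B 0 = 1 ∧ B 1 = w d := by
  have h1 : Real.sqrt (-(d : ℝ)) ≠ 0 := by
    have : (d : ℝ) < 0 := by exact_mod_cast hd
    exact (Real.sqrt_pos.2 (by linarith)).ne'
  refine ⟨Complex.basisOneI.unitsSMul ![1, Units.mk0 _ h1], ?_, ?_⟩
  · rw [Basis.unitsSMul_apply]
    simp
  · rw [Basis.unitsSMul_apply]
    simp [Units.smul_def, w, mul_comm]

section

variable {n : ℕ} (M : AddSubgroup (Vn n))

/-- Some positive multiple of `x` is in `M`. -/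
def Q (x : Vn n) : Prop := ∃ D : ℕ, 0 < D ∧ D • x ∈ M

variable {M}

theorem Q_add {x y : Vn n} (hx : Q M x) (hy : Q M y) : Q M (x + y) := by
  obtain ⟨D, hD, hDx⟩ := hx
  obtain ⟨D', hD', hDy⟩ := hy
  refine ⟨D * D', Nat.mul_pos hD hD', ?_⟩
  rw [smul_add, mul_comm D D', mul_smul, mul_comm D' D, mul_smul]
  exact M.add_mem (M.nsmul_mem hDx _) (M.nsmul_mem hDy _)

theorem Q_zero : Q M 0 := ⟨1, one_pos, by rw [smul_zero]; exact M.zero_mem⟩

theorem Q_rat {x : Vn n} (hx : x ∈ M) (p : ℚ) : Q M ((p : ℂ) • x) := by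
  refine ⟨p.den, p.pos, ?_⟩
  have h1 : p.den • ((p : ℂ) • x) = p.num • x := by
    have h2 : (p.den : ℂ) * (p : ℂ) = (p.num : ℂ) := by
      have := Rat.den_mul_eq_num p
      exact_mod_cast congrArg (fun x : ℚ => (x : ℂ)) this
    rw [← Nat.cast_smul_eq_nsmul ℂ, smul_smul, h2, Int.cast_smul_eq_zsmul]
  rw [h1]
  exact M.zsmul_mem hx _

/-- A common multiple for finitely many elements. -/
theorem Q_finset (S : Finset (Vn n)) (h : ∀ x ∈ S, Q M x) :
    ∃ D : ℕ, 0 < D ∧ ∀ x ∈ S, D • x ∈ M := by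
  classical
  induction S using Finset.induction_on with
  | empty => exact ⟨1, one_pos, fun x hx => by simp at hx⟩
  | insert a S _ ih =>
    obtain ⟨D, hD, hDS⟩ := ih fun x hx => h x (Finset.mem_insert_of_mem hx)
    obtain ⟨D', hD', hDa⟩ := h a (Finset.mem_insert_self a S)
    refine ⟨D * D', Nat.mul_pos hD hD', fun x hx => ?_⟩
    rcases Finset.mem_insert.1 hx with rfl | hx
    · rw [mul_smul]
      exact M.nsmul_mem hDa _
    · rw [mul_comm, mul_smul]
      exact M.nsmul_mem (hDS x hx) _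

theorem exists_mult {L : AddSubgroup (Vn n)} (hL : L.FG) (h : ∀ x ∈ L, Q M x) :
    ∃ D : ℕ, 0 < D ∧ ∀ x ∈ L, D • x ∈ M := by
  obtain ⟨S, hS⟩ := hL
  obtain ⟨D, hD, hDS⟩ := Q_finset S fun x hx => h x (by
    rw [← hS]
    exact AddSubgroup.subset_closure hx)
  refine ⟨D, hD, fun x hx => ?_⟩
  rw [← hS] at hx
  induction hx using AddSubgroup.closure_induction with
  | mem x hx => exact hDS x hx
  | zero =>
    rw [smul_zero]
    exact M.zero_mem
  | add x y _ _ hx hy =>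
    rw [smul_add]
    exact M.add_mem hx hy
  | neg x _ hx =>
    rw [smul_neg]
    exact M.neg_mem hx

end

end LAT

open Module in
theorem LAT_thm : S_LAT := by
  intro n d hd H L hL
  obtain ⟨b, _, hb⟩ := hL.ba
  obtain ⟨B, hB0, hB1⟩ := LAT.exists_basis hd
  let E : Basis (Fin 2 × Fin (n + 1)) ℝ (Vn n) := B.smulTower b
  let M : Submodule ℤ (Vn n) := Submodule.span ℤ (Set.range E)
  have hE : ∀ i, b i ∈ M.toAddSubgroup ∧ LAT.w d • b i ∈ M.toAddSubgroup := by
    intro i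
    constructor
    · have h1 : E (0, i) = b i := by
        rw [Basis.smulTower_apply, hB0, one_smul]
      exact Submodule.subset_span ⟨(0, i), h1⟩
    · have h1 : E (1, i) = LAT.w d • b i := by
        rw [Basis.smulTower_apply, hB1]
      exact Submodule.subset_span ⟨(1, i), h1⟩
  have hQ : ∀ x ∈ L, LAT.Q M.toAddSubgroup x := by
    intro x hx
    rw [← b.sum_repr x]
    refine Finset.sum_induction _ (LAT.Q M.toAddSubgroup) (fun _ _ => LAT.Q_add) LAT.Q_zero
      fun i _ => ?_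
    obtain ⟨p, q, hpq⟩ := LAT.exists_pq hd (hb x hx i)
    rw [hpq, add_smul, mul_smul]
    exact LAT.Q_add (LAT.Q_rat (hE i).1 p) (LAT.Q_rat (hE i).2 q)
  obtain ⟨D, hD, hDL⟩ := LAT.exists_mult hL.fg hQ
  refine ⟨finrank ℤ M + 1, fun k hk => ?_⟩
  have h1 := ZLattice.summable_norm_pow_inv M k (by omega)
  let φ : L → M := fun v => ⟨D • (v : Vn n), hDL v v.2⟩
  have hφ : Function.Injective φ := by
    intro v v' h
    have h2 : D • (v : Vn n) = D • (v' : Vn n) := congrArg Subtype.val h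
    apply Subtype.ext
    have h3 : ((D : ℝ)) • (v : Vn n) = (D : ℝ) • (v' : Vn n) := by
      rw [Nat.cast_smul_eq_nsmul, Nat.cast_smul_eq_nsmul, h2]
    exact smul_right_injective (Vn n) (by positivity : (D : ℝ) ≠ 0) h3
  have h2 := (h1.comp_injective hφ).mul_left ((D : ℝ) ^ k)
  refine h2.congr fun v => ?_
  have h3 : ‖φ v‖ = (D : ℝ) * ‖(v : Vn n)‖ := by
    show ‖D • (v : Vn n)‖ = _
    rw [← Nat.cast_smul_eq_nsmul ℝ, norm_smul, Real.norm_natCast]
  show (D : ℝ) ^ k * (‖φ v‖⁻¹ ^ k) = _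
  rw [h3, mul_inv, mul_pow, ← mul_assoc, ← mul_pow,
    mul_inv_cancel₀ (by positivity : (D : ℝ) ≠ 0), one_pow, one_mul]

end Pool.Agent.RFO
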