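import Mathlib
import Pool.Agent.RFO.St2

/-!
# LIN: generators of a graded algebra which are eigenvectors
-/

set_option autoImplicit false

namespace Pool.Agent.RFO

namespace LIN

section

variable {G T : Type} [Group G] [CommRing T] [Algebra ℂ T] [MulSemiringAction G T]

theorem exists_proj {hom : ℤ → Submodule ℂ T} (h : Gr G hom) :
    ∃ p : ℤ → T →ₗ[ℂ] T, (∀ j x, x ∈ hom j → p j x = x) ∧
      ∀ i j x, i ≠ j → x ∈ hom i → p j x = 0 := by
  classical
  have hi : DirectSum.IsInternal hom :=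
    DirectSum.isInternal_submodule_of_iSupIndep_of_iSup_eq_top h.ind h.top
  let _ := hi.chooseDecomposition
  refine ⟨fun j => (hom j).subtype ∘ₗ (DirectSum.component ℂ ℤ (fun i => hom i) j) ∘ₗ
    (DirectSum.decomposeLinearEquiv hom).toLinearMap, ?_, ?_⟩
  · intro j x hx
    exact DirectSum.decompose_of_mem_same hom hx
  · intro i j x hij hx
    exact DirectSum.decompose_of_mem_ne hom hx hij

/-- homogeneous elements of positive degree -/
def HP (hom : ℤ → Submodule ℂ T) : Set T := {x | ∃ a : ℤ, 0 < a ∧ x ∈ hom a}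

/-- products of homogeneous elements of positive degree -/
def DQ (hom : ℤ → Submodule ℂ T) : Set T :=
  {z | ∃ a b : ℤ, 0 < a ∧ 0 < b ∧ ∃ x ∈ hom a, ∃ y ∈ hom b, z = x * y}

theorem mul_mem {hom : ℤ → Submodule ℂ T} {x y : T}
    (hx : x ∈ Submodule.span ℂ (HP hom)) (hy : y ∈ Submodule.span ℂ (HP hom)) :
    x * y ∈ Submodule.span ℂ (DQ hom) := by
  have h1 : x * y ∈ Submodule.span ℂ (HP hom) * Submodule.span ℂ (HP hom) :=
    Submodule.mul_mem_mul hx hy
  rw [Submodule.span_mul_span] at h1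
  refine Submodule.span_mono ?_ h1
  rintro z ⟨x, ⟨a, ha, hx⟩, y, ⟨b, hb, hy⟩, rfl⟩
  exact ⟨a, b, ha, hb, x, hx, y, hy, rfl⟩

theorem DQ_le {hom : ℤ → Submodule ℂ T} (h : Gr G hom) :
    Submodule.span ℂ (DQ hom) ≤ Submodule.span ℂ (HP hom) := by
  refine Submodule.span_mono ?_
  rintro z ⟨a, b, ha, hb, x, hx, y, hy, rfl⟩
  exact ⟨a + b, by omega, h.mul a b x y hx hy⟩

/-- Every element is a constant plus a linear combination of the generators plus a combination of
products. -/
theorem step_A {hom : ℤ → Submodule ℂ T} (h : Gr G hom) {m : ℕ} (f : Fin m → T)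
    (hf : ∀ i, f i ∈ HP hom) (hgen : Algebra.adjoin ℂ (Set.range f) = ⊤) (x : T) :
    ∃ c : ℂ, x - algebraMap ℂ T c ∈
      Submodule.span ℂ (Set.range f) ⊔ Submodule.span ℂ (DQ hom) := by
  have hle : Submodule.span ℂ (Set.range f) ⊔ Submodule.span ℂ (DQ hom) ≤
      Submodule.span ℂ (HP hom) := by
    refine sup_le (Submodule.span_mono ?_) (DQ_le h)
    rintro _ ⟨i, rfl⟩
    exact hf i
  have hx : x ∈ Algebra.adjoin ℂ (Set.range f) := by
    rw [hgen]
    exact Algebra.mem_top
  induction hx using Algebra.adjoin_induction with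
  | mem x hx =>
    refine ⟨0, ?_⟩
    rw [map_zero, sub_zero]
    exact Submodule.mem_sup_left (Submodule.subset_span hx)
  | algebraMap r => exact ⟨r, by rw [sub_self]; exact Submodule.zero_mem _⟩
  | add x y _ _ hx hy =>
    obtain ⟨c, hc⟩ := hx
    obtain ⟨c', hc'⟩ := hy
    refine ⟨c + c', ?_⟩
    have e : x + y - algebraMap ℂ T (c + c') =
        (x - algebraMap ℂ T c) + (y - algebraMap ℂ T c') := by
      rw [map_add]
      ring
    rw [e]
    exact Submodule.add_mem _ hc hc'
  | mul x y _ _ hx hy =>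
    obtain ⟨c, hc⟩ := hx
    obtain ⟨c', hc'⟩ := hy
    refine ⟨c * c', ?_⟩
    have e : x * y - algebraMap ℂ T (c * c') =
        (x - algebraMap ℂ T c) * (y - algebraMap ℂ T c') +
          (c • (y - algebraMap ℂ T c') + c' • (x - algebraMap ℂ T c)) := by
      rw [map_mul, Algebra.smul_def, Algebra.smul_def]
      ring
    rw [e]
    exact Submodule.add_mem _ (Submodule.mem_sup_right (mul_mem (hle hc) (hle hc')))
      (Submodule.add_mem _ (Submodule.smul_mem _ _ hc') (Submodule.smul_mem _ _ hc))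

theorem proj_zero {hom : ℤ → Submodule ℂ T} {p : ℤ → T →ₗ[ℂ] T}
    (hp : ∀ i j x, i ≠ j → x ∈ hom i → p j x = 0) {x : T}
    (hx : x ∈ Submodule.span ℂ (HP hom)) : p 0 x = 0 := by
  induction hx using Submodule.span_induction with
  | mem x hx =>
    obtain ⟨a, ha, hx⟩ := hx
    exact hp a 0 x (by omega) hx
  | zero => exact map_zero _
  | add x y _ _ hx hy => rw [map_add, hx, hy, add_zero]
  | smul c x _ hx => rw [map_smul, hx, smul_zero]

theorem const_mem {hom : ℤ → Submodule ℂ T} (h : Gr G hom) (c : ℂ) :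
    algebraMap ℂ T c ∈ hom 0 := by
  rw [Algebra.algebraMap_eq_smul_one]
  exact Submodule.smul_mem _ _ h.one

variable [SMulCommClass G ℂ T]

/-- eigenvectors -/
def EV (hom : ℤ → Submodule ℂ T) (ρ : G) (j : ℤ) : Set T :=
  {y | y ∈ hom j ∧ ∃ c : ℂ, ρ • y = c • y}

theorem step_B [Finite G] {hom : ℤ → Submodule ℂ T} (h : Gr G hom) (ρ : G) (j : ℤ) {x : T}
    (hx : x ∈ hom j) : x ∈ Submodule.span ℂ (EV hom ρ j) := by
  have hn : 0 < orderOf ρ := orderOf_pos ρ
  set n := orderOf ρ with hn'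
  obtain ⟨ζ, hζ⟩ : ∃ ζ : ℂ, IsPrimitiveRoot ζ n := ⟨_, Complex.isPrimitiveRoot_exp n hn.ne'⟩
  have hζ0 : ζ ≠ 0 := hζ.ne_zero hn.ne'
  let E : ℕ → T := fun l => ∑ s ∈ Finset.range n, (ζ ^ l) ^ s • (ρ ^ s • x)
  have hE : ∀ l, E l ∈ EV hom ρ j := by
    intro l
    refine ⟨Submodule.sum_mem _ fun s _ => Submodule.smul_mem _ _ (h.act _ _ _ hx),
      (ζ ^ l)⁻¹, ?_⟩
    have h1 : (ζ ^ l) • (ρ • E l) = E l := by
      have h2 : (ζ ^ l) • (ρ • E l) =
          ∑ s ∈ Finset.range n, (ζ ^ l) ^ (s + 1) • (ρ ^ (s + 1) • x) := by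
        rw [Finset.smul_sum, Finset.smul_sum]
        refine Finset.sum_congr rfl fun s _ => ?_
        rw [smul_comm ρ, smul_smul, smul_smul, ← pow_succ', ← pow_succ']
      have h3 := Finset.sum_range_succ (fun s => (ζ ^ l) ^ s • (ρ ^ s • x)) n
      have h4 := Finset.sum_range_succ' (fun s => (ζ ^ l) ^ s • (ρ ^ s • x)) n
      have h5 : (ζ ^ l) ^ n • (ρ ^ n • x) = (ζ ^ l) ^ 0 • (ρ ^ 0 • x) := by
        rw [hn', pow_orderOf_eq_one, ← hn', ← pow_mul, mul_comm l n, pow_mul, hζ.pow_eq_one,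
          one_pow, pow_zero, pow_zero]
      rw [h3, h5] at h4
      rw [h2]
      exact (add_right_cancel h4).symm
    rw [eq_inv_smul_iff₀ (pow_ne_zero l hζ0)]
    exact h1
  have hsum : ∑ l ∈ Finset.range n, E l = (n : ℂ) • x := by
    have h1 : ∑ l ∈ Finset.range n, E l =
        ∑ s ∈ Finset.range n, (∑ l ∈ Finset.range n, (ζ ^ s) ^ l) • (ρ ^ s • x) := by
      rw [Finset.sum_comm]
      refine Finset.sum_congr rfl fun s _ => ?_
      rw [Finset.sum_smul]
      refine Finset.sum_congr rfl fun l _ => ?_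
      rw [← pow_mul, ← pow_mul, mul_comm l s]
    rw [h1, Finset.sum_eq_single_of_mem 0 (Finset.mem_range.2 hn)]
    · simp
    · intro s hs hs0
      have h2 : ζ ^ s ≠ 1 := hζ.pow_ne_one_of_pos_of_lt hs0 (Finset.mem_range.1 hs)
      have h3 : ∑ l ∈ Finset.range n, (ζ ^ s) ^ l = 0 := by
        rw [geom_sum_eq h2, ← pow_mul, mul_comm s n, pow_mul, hζ.pow_eq_one, one_pow, sub_self,
          zero_div]
      rw [h3, zero_smul]
  have hx' : x = (n : ℂ)⁻¹ • ∑ l ∈ Finset.range n, E l := by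
    rw [hsum, smul_smul, inv_mul_cancel₀ (by exact_mod_cast hn.ne'), one_smul]
  rw [hx']
  exact Submodule.smul_mem _ _ (Submodule.sum_mem _ fun l _ => Submodule.subset_span (hE l))

/-- Nakayama -/
theorem step_E {hom : ℤ → Submodule ℂ T} (h : Gr G hom) {m m' : ℕ} (f : Fin m → T)
    (hf : ∀ i, f i ∈ HP hom) (hgen : Algebra.adjoin ℂ (Set.range f) = ⊤)
    (y : Fin m' → T) (hy : ∀ i, y i ∈ HP hom)
    (hle : ∀ i, f i ∈ Submodule.span ℂ (Set.range y) ⊔ Submodule.span ℂ (DQ hom)) :
    Algebra.adjoin ℂ (Set.range y) = ⊤ := by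
  obtain ⟨p, hp, hp'⟩ := exists_proj h
  have hle1 : Submodule.span ℂ (Set.range f) ⊔ Submodule.span ℂ (DQ hom) ≤
      Submodule.span ℂ (Set.range y) ⊔ Submodule.span ℂ (DQ hom) := by
    refine sup_le (Submodule.span_le.2 ?_) le_sup_right
    rintro _ ⟨i, rfl⟩
    exact hle i
  have hle2 : Submodule.span ℂ (Set.range y) ⊔ Submodule.span ℂ (DQ hom) ≤
      Submodule.span ℂ (HP hom) := by
    refine sup_le (Submodule.span_mono ?_) (DQ_le h)
    rintro _ ⟨i, rfl⟩
    exact hy i
  have hx : ∀ x : T, ∃ c : ℂ, x - algebraMap ℂ T c ∈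
      Submodule.span ℂ (Set.range y) ⊔ Submodule.span ℂ (DQ hom) := by
    intro x
    obtain ⟨c, hc⟩ := step_A h f hf hgen x
    exact ⟨c, hle1 hc⟩
  have key : ∀ n : ℕ, ∀ x ∈ hom (n : ℤ), x ∈ Algebra.adjoin ℂ (Set.range y) := by
    intro n
    induction n using Nat.strong_induction_on with
    | _ n ih =>
      intro x hxn
      obtain ⟨c, hc⟩ := hx x
      rcases Nat.eq_zero_or_pos n with rfl | hn
      · have h1 : x - algebraMap ℂ T c ∈ hom 0 :=
          Submodule.sub_mem _ (by simpa using hxn) (const_mem h c)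
        have h2 := hp 0 _ h1
        rw [proj_zero hp' (hle2 hc)] at h2
        rw [sub_eq_zero.1 h2.symm]
        exact Subalgebra.algebraMap_mem _ _
      · have h1 : p n (algebraMap ℂ T c) = 0 := hp' 0 n _ (by omega) (const_mem h c)
        have h2 : p n (x - algebraMap ℂ T c) = x := by
          rw [map_sub, h1, sub_zero, hp _ _ hxn]
        rw [← h2]
        obtain ⟨u, hu, v, hv, huv⟩ := Submodule.mem_sup.1 hc
        rw [← huv, map_add]
        clear huv
        refine Subalgebra.add_mem _ ?_ ?_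
        · induction hu using Submodule.span_induction with
          | mem u hu =>
            obtain ⟨i, rfl⟩ := hu
            obtain ⟨a, ha, hya⟩ := hy i
            by_cases hna : a = n
            · rw [hp _ _ (hna ▸ hya)]
              exact Algebra.subset_adjoin ⟨i, rfl⟩
            · rw [hp' a n _ hna hya]
              exact Subalgebra.zero_mem _
          | zero => rw [map_zero]; exact Subalgebra.zero_mem _
          | add u v _ _ hu hv => rw [map_add]; exact Subalgebra.add_mem _ hu hv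
          | smul c u _ hu => rw [map_smul]; exact Subalgebra.smul_mem _ hu c
        · induction hv using Submodule.span_induction with
          | mem v hv =>
            obtain ⟨a, b, ha, hb, s, hs, t, ht, rfl⟩ := hv
            have hst := h.mul a b s t hs ht
            by_cases hab : a + b = n
            · rw [hp _ _ (hab ▸ hst)]
              refine Subalgebra.mul_mem _ (ih a.toNat (by omega) s ?_)
                (ih b.toNat (by omega) t ?_)
              · rw [Int.toNat_of_nonneg ha.le]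
                exact hs
              · rw [Int.toNat_of_nonneg hb.le]
                exact ht
            · rw [hp' (a + b) n _ hab hst]
              exact Subalgebra.zero_mem _
          | zero => rw [map_zero]; exact Subalgebra.zero_mem _
          | add u v _ _ hu hv => rw [map_add]; exact Subalgebra.add_mem _ hu hv
          | smul c u _ hu => rw [map_smul]; exact Subalgebra.smul_mem _ hu c
  rw [eq_top_iff]
  intro x _
  have htop : x ∈ ⨆ i, hom i := by rw [h.top]; exact Submodule.mem_top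
  have hle3 : ⨆ i, hom i ≤ Subalgebra.toSubmodule (Algebra.adjoin ℂ (Set.range y)) := by
    refine iSup_le fun i => ?_
    intro z hz
    rw [Subalgebra.mem_toSubmodule]
    rcases lt_or_ge i 0 with hi | hi
    · rw [h.neg i z hi hz]
      exact Subalgebra.zero_mem _
    · refine key i.toNat z ?_
      rw [Int.toNat_of_nonneg hi]
      exact hz
  exact hle3 htop

end

end LIN

open LIN in
theorem LIN_thm : S_LIN := by
  classical
  intro G T _ _ _ _ _ _ _ hom h m f k hk _ hgen ρ
  obtain ⟨p, hp, hp'⟩ := exists_proj h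
  have hf : ∀ i, f i ∈ HP hom := fun i => ⟨k i, (hk i).1, (hk i).2⟩
  have hle2 : Submodule.span ℂ (Set.range f) ⊔ Submodule.span ℂ (DQ hom) ≤
      Submodule.span ℂ (HP hom) := by
    refine sup_le (Submodule.span_mono ?_) (DQ_le h)
    rintro _ ⟨i, rfl⟩
    exact hf i
  -- homogeneous elements of positive degree
  have hA : ∀ x ∈ HP hom, x ∈ Submodule.span ℂ (Set.range f) ⊔ Submodule.span ℂ (DQ hom) := by
    intro x hx
    obtain ⟨c, hc⟩ := step_A h f hf hgen x
    have h1 : p 0 (x - algebraMap ℂ T c) = 0 := proj_zero hp' (hle2 hc)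
    rw [map_sub, proj_zero hp' (Submodule.subset_span hx), hp _ _ (const_mem h c), zero_sub,
      neg_eq_zero] at h1
    rwa [h1, sub_zero] at hc
  let ι : Type := {y : T // ∃ j : ℤ, 0 < j ∧ y ∈ EV hom ρ j}
  let q : T →ₗ[ℂ] T ⧸ Submodule.span ℂ (DQ hom) := (Submodule.span ℂ (DQ hom)).mkQ
  let v : ι → T ⧸ Submodule.span ℂ (DQ hom) := fun y => q y.1
  obtain ⟨κ, a, ha, hspan, hli⟩ := exists_linearIndependent' ℂ v
  have hv : Set.range v ⊆ Submodule.span ℂ (Set.range (q ∘ f)) := by
    rintro _ ⟨y, rfl⟩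
    obtain ⟨j, hj, hy, _⟩ := y.2
    obtain ⟨u, hu, w, hw, huw⟩ := Submodule.mem_sup.1 (hA y.1 ⟨j, hj, hy⟩)
    have h1 : v y = q u := by
      change q y.1 = q u
      rw [← huw, map_add]
      have h2 : q w = 0 := (Submodule.Quotient.mk_eq_zero _).2 hw
      rw [h2, add_zero]
    rw [h1, Set.range_comp, Submodule.span_image]
    exact Submodule.mem_map_of_mem hu
  have hva : Set.range (v ∘ a) ⊆ Submodule.span ℂ (Set.range (q ∘ f)) :=
    (Set.range_comp_subset_range _ _).trans hv
  have hfin : Finite κ := hli.finite_of_le_span_finite _ _ hva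
  have : Fintype κ := Fintype.ofFinite κ
  have hcard : Fintype.card κ ≤ m := by
    have h1 := linearIndependent_le_span' _ hli (Set.range (q ∘ f)) hva
    rw [Cardinal.mk_fintype, Nat.cast_le] at h1
    exact h1.trans ((Fintype.card_range_le _).trans (by rw [Fintype.card_fin]))
  obtain ⟨φ⟩ : Nonempty (κ ↪ Fin m) := by
    refine Function.Embedding.nonempty_of_card_le ?_
    rw [Fintype.card_fin]
    exact hcard
  let y : Fin m → T := Function.extend φ (fun k => (a k).1) 0
  have hy : ∀ i, y i = 0 ∨ ∃ k, y i = (a k).1 := by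
    intro i
    by_cases hi : ∃ k, φ k = i
    · obtain ⟨k, rfl⟩ := hi
      exact Or.inr ⟨k, φ.injective.extend_apply _ _ _⟩
    · left
      exact Function.extend_apply' _ _ _ hi
  have hy1 : ∀ i, ∃ j, 0 < j ∧ y i ∈ hom j := by
    intro i
    rcases hy i with h1 | ⟨k, h1⟩
    · exact ⟨1, one_pos, h1 ▸ Submodule.zero_mem _⟩
    · obtain ⟨j, hj, h2, _⟩ := (a k).2
      exact ⟨j, hj, h1 ▸ h2⟩
  have hy2 : ∀ i, ∃ c : ℂ, ρ • y i = c • y i := by
    intro i
    rcases hy i with h1 | ⟨k, h1⟩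
    · exact ⟨1, by rw [h1, smul_zero, smul_zero]⟩
    · obtain ⟨j, hj, _, c, h2⟩ := (a k).2
      exact ⟨c, by rw [h1, h2]⟩
  choose c hc using hy2
  refine ⟨y, c, fun i => ⟨hy1 i, hc i⟩, ?_⟩
  refine step_E h f hf hgen y hy1 fun i => ?_
  -- `f i` in the span
  have h1 : q (f i) ∈ Submodule.span ℂ (Set.range v) := by
    have h2 := step_B h ρ (k i) (hk i).2
    have h3 : q (f i) ∈ (Submodule.span ℂ (EV hom ρ (k i))).map q :=
      Submodule.mem_map_of_mem h2
    rw [← Submodule.span_image] at h3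
    refine Submodule.span_mono ?_ h3
    rintro _ ⟨z, hz, rfl⟩
    exact ⟨⟨z, k i, (hk i).1, hz⟩, rfl⟩
  rw [← hspan] at h1
  have h4 : q (f i) ∈ (Submodule.span ℂ (Set.range y)).map q := by
    rw [← Submodule.span_image]
    refine Submodule.span_mono ?_ h1
    rintro _ ⟨k, rfl⟩
    refine ⟨(a k).1, ⟨φ k, φ.injective.extend_apply _ _ _⟩, rfl⟩
  obtain ⟨u, hu, h5⟩ := h4
  rw [Submodule.mem_sup]
  refine ⟨u, hu, f i - u, ?_, by ring⟩
  have h6 : q (f i - u) = 0 := by rw [map_sub, h5, sub_self]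
  exact (Submodule.Quotient.mk_eq_zero _).1 h6

end Pool.Agent.RFO
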