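import Mathlib
import Pool.Agent.RFO.St2

/-!
# The part of an element of a factorial domain free of `m`-th powers
-/

set_option autoImplicit false

namespace Pool.Agent.RFO

/-- Splitting off the `m`-th powers. -/
theorem MPF.exists_free {R : Type} [CommRing R] [IsDomain R] [UniqueFactorizationMonoid R] (m : ℕ)
    (hm : 0 < m) (g : R) (hg : g ≠ 0) :
    ∃ c g' : R, g = c ^ m * g' ∧ ∀ d : R, d ^ m ∣ g' → IsUnit d := by
  have hwf : WellFounded (DvdNotUnit : R → R → Prop) := wellFounded_dvdNotUnit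
  induction g using hwf.induction with
  | _ g ih =>
    by_cases h : ∀ d : R, d ^ m ∣ g → IsUnit d
    · exact ⟨1, g, by rw [one_pow, one_mul], h⟩
    · push Not at h
      obtain ⟨d, ⟨g₁, hg₁⟩, hd⟩ := h
      have h0 : g₁ ≠ 0 := by
        rintro rfl
        exact hg (by rw [hg₁, mul_zero])
      obtain ⟨c, g', hc, hg'⟩ := ih g₁ ⟨h0, d ^ m, fun hu => hd ((isUnit_pow_iff hm.ne').1 hu),
        by rw [hg₁, mul_comm]⟩ h0
      exact ⟨d * c, g', by rw [hg₁, hc, mul_pow, mul_assoc], hg'⟩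

theorem MPF_thm : S_MPF := by
  intro R _ _ _ m hm g hg
  obtain ⟨c, g', hc, hfree⟩ := MPF.exists_free m hm g hg
  have hg' : g' ≠ 0 := by
    rintro rfl
    exact hg (by rw [hc, mul_zero])
  refine ⟨c, g', hc, fun a b hab => ?_⟩
  by_cases ha : a = 0
  · rw [ha]
    exact dvd_zero b
  obtain ⟨a', b', d, hrel, rfl, rfl⟩ := UniqueFactorizationMonoid.exists_reduced_factors a ha b
  have hd : d ≠ 0 := fun h => ha (by rw [h, zero_mul])
  rw [mul_pow, mul_pow, mul_assoc] at hab
  have h1 : b' ^ m ∣ a' ^ m * g' := (mul_dvd_mul_iff_left (pow_ne_zero m hd)).1 hab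
  have h2 : IsRelPrime (b' ^ m) (a' ^ m) := hrel.symm.pow
  have h3 : b' ^ m ∣ g' := h2.dvd_of_dvd_mul_left h1
  exact mul_dvd_mul_left d (hfree b' h3).dvd

end Pool.Agent.RFO
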