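import Mathlib
import Pool.Agent.RFO.St2
import Pool.Agent.RFO.OPN

/-!
# The series over the vectors of negative norm and its derivative (module SER, MP_06550c_nt)
-/

set_option autoImplicit false

namespace Pool.Agent.RFO

namespace SER

variable {n : ℕ}

/-- the linear form `h(·, v)` -/
noncomputable def hL (H : HForm n) (v : Vn n) : Vn n →L[ℂ] ℂ :=
  LinearMap.toContinuousLinearMap
    { toFun := fun w => H.h w v
      map_add' := fun x y => H.add x y v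
      map_smul' := fun a x => by rw [H.smul]; rfl }

theorem hL_apply (H : HForm n) (v w : Vn n) : hL H v w = H.h w v := rfl

theorem bound1 (H : HForm n) (w : Vn n) : ∃ C : ℝ, 0 ≤ C ∧ ∀ v, ‖H.h w v‖ ≤ C * ‖v‖ := by
  refine ⟨‖hL H w‖, norm_nonneg _, fun v => ?_⟩
  have h1 := (hL H w).le_opNorm v
  rw [hL_apply] at h1
  rw [H.herm v w, RCLike.norm_conj]
  exact h1

theorem bound2 (H : HForm n) : ∃ C : ℝ, 0 ≤ C ∧ ∀ v, ‖hL H v‖ ≤ C * ‖v‖ := by
  choose C hC0 hC using fun i : Fin (n + 1) =>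
    bound1 H (fun j => if i = j then (1 : ℂ) else 0)
  refine ⟨∑ i, C i, Finset.sum_nonneg fun i _ => hC0 i, fun v => ?_⟩
  have hS : 0 ≤ ∑ i, C i := Finset.sum_nonneg fun i _ => hC0 i
  refine ContinuousLinearMap.opNorm_le_bound _ (by positivity) fun w => ?_
  have e : hL H v w = ∑ i, w i • H.h (fun j => if i = j then (1 : ℂ) else 0) v :=
    LinearMap.pi_apply_eq_sum_univ (hL H v).toLinearMap w
  rw [e]
  refine (norm_sum_le _ _).trans ?_
  rw [Finset.sum_mul, Finset.sum_mul]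
  refine Finset.sum_le_sum fun i _ => ?_
  rw [norm_smul, mul_comm]
  exact mul_le_mul (hC i v) (norm_le_pi_norm w i) (norm_nonneg _)
    (mul_nonneg (hC0 i) (norm_nonneg _))

theorem pos_norm (H : HForm n) (L : AddSubgroup (Vn n)) {c : ℝ} (hc : c < 0)
    (v : VN H L (c : ℂ)) : 0 < ‖v.1‖ := by
  rw [norm_pos_iff]
  intro h
  have h1 := v.2.2
  rw [h, OPN.h_zero_left] at h1
  exact hc.ne (Complex.ofReal_eq_zero.1 h1.symm)

theorem sumV (H : HForm n) (L : AddSubgroup (Vn n)) (c : ℂ) {k : ℕ}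
    (h : Summable (fun v : L => ‖(v : Vn n)‖⁻¹ ^ k)) :
    Summable (fun v : VN H L c => ‖v.1‖⁻¹ ^ k) :=
  h.comp_injective (i := fun v : VN H L c => (⟨v.1, v.2.1⟩ : L))
    (fun _ _ hab => Subtype.ext (congrArg (fun x : L => (x : Vn n)) hab))

theorem inv_le {δ : ℝ} (hδ : 0 < δ) {x : ℝ} (hx : 0 < x) {y : ℂ} (h : δ * x ≤ ‖y‖) (k : ℕ) :
    ‖y⁻¹‖ ^ k ≤ δ⁻¹ ^ k * x⁻¹ ^ k := by
  rw [← mul_pow, ← mul_inv, norm_inv]
  exact pow_le_pow_left₀ (inv_nonneg.2 (norm_nonneg _)) (inv_anti₀ (mul_pos hδ hx) h) k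

/-- the derivative of a term of the series -/
noncomputable def dt (H : HForm n) (k : ℕ) (v z : Vn n) : Vn n →L[ℂ] ℂ :=
  (-(k : ℂ) * (H.h z v)⁻¹ ^ (k + 1)) • hL H v

theorem hasDeriv (H : HForm n) (k : ℕ) (v z : Vn n) (h : H.h z v ≠ 0) :
    HasFDerivAt (fun z => (H.h z v)⁻¹ ^ k) (dt H k v z) z := by
  have h1 : HasFDerivAt (fun z => hL H v z) (hL H v) z := (hL H v).hasFDerivAt
  have h2 : HasDerivAt (fun x : ℂ => x⁻¹ ^ k) (-(k : ℂ) * (H.h z v)⁻¹ ^ (k + 1)) (hL H v z) := by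
    have h3 := (hasDerivAt_inv (x := hL H v z) h).pow k
    rw [hL_apply] at h3 ⊢
    refine h3.congr_deriv ?_
    rcases k with _ | k
    · simp
    · rw [Nat.add_sub_cancel]
      ring
  exact h2.comp_hasFDerivAt z h1

theorem dt_norm (H : HForm n) {C δ : ℝ} (hC : ∀ v, ‖hL H v‖ ≤ C * ‖v‖)
    (hδ : 0 < δ) (k : ℕ) (v z : Vn n) (hv : 0 < ‖v‖) (h : δ * ‖v‖ ≤ ‖H.h z v‖) :
    ‖dt H k v z‖ ≤ (k * C * δ⁻¹ ^ (k + 1)) * ‖v‖⁻¹ ^ k := by
  rw [dt, norm_smul, norm_mul, norm_neg, norm_pow, Complex.norm_natCast]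
  have h1 := inv_le hδ hv h (k + 1)
  have h2 := hC v
  calc (k : ℝ) * ‖(H.h z v)⁻¹‖ ^ (k + 1) * ‖hL H v‖
      ≤ (k : ℝ) * (δ⁻¹ ^ (k + 1) * ‖v‖⁻¹ ^ (k + 1)) * (C * ‖v‖) := by
        gcongr
    _ = (k * C * δ⁻¹ ^ (k + 1)) * ‖v‖⁻¹ ^ k := by
        rw [pow_succ ‖v‖⁻¹ k]
        field_simp

/-- the series -/
noncomputable def F (H : HForm n) (L : AddSubgroup (Vn n)) (c : ℝ) (k : ℕ) (z : Vn n) : ℂ :=
  ∑' v : VN H L (c : ℂ), (H.h z v.1)⁻¹ ^ k

theorem F_smul (H : HForm n) (L : AddSubgroup (Vn n)) (c : ℝ) (k : ℕ) (t : ℂ) (ht : t ≠ 0)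
    (z : Vn n) : F H L c k z = t ^ k * F H L c k (t • z) := by
  rw [F, F, ← tsum_mul_left]
  refine tsum_congr fun v => ?_
  rw [H.smul, mul_inv, mul_pow, ← mul_assoc, ← mul_pow, mul_inv_cancel₀ ht, one_pow, one_mul]

/-- the action of the unitary group of the lattice on the vectors of norm `c` -/
def act (H : HForm n) (L : AddSubgroup (Vn n)) (c : ℂ) (g : Vn n ≃ₗ[ℂ] Vn n)
    (hg : g ∈ UL H L) : VN H L c ≃ VN H L c where
  toFun v := ⟨g v.1, (hg.2 _).2 v.2.1, by rw [hg.1]; exact v.2.2⟩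
  invFun v := ⟨g.symm v.1, (hg.2 _).1 (by rw [g.apply_symm_apply]; exact v.2.1), by
    rw [← hg.1, g.apply_symm_apply]; exact v.2.2⟩
  left_inv v := Subtype.ext (g.symm_apply_apply _)
  right_inv v := Subtype.ext (g.apply_symm_apply _)

theorem F_act (H : HForm n) (L : AddSubgroup (Vn n)) (c : ℝ) (k : ℕ) (g : Vn n ≃ₗ[ℂ] Vn n)
    (hg : g ∈ UL H L) (z : Vn n) : F H L c k (g z) = F H L c k z := by
  rw [F, F, ← (act H L (c : ℂ) g hg).tsum_eq]
  refine tsum_congr fun v => ?_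
  show (H.h (g z) (g v.1))⁻¹ ^ k = _
  rw [hg.1]

theorem F_deriv (h2 : S_BND) (H : HForm n) (L : AddSubgroup (Vn n)) (c : ℝ) (hc : c < 0) (k : ℕ)
    (hs : Summable (fun v : VN H L (c : ℂ) => ‖v.1‖⁻¹ ^ k)) (z : Vn n) (hz : z ∈ cone H) :
    ∃ ε : ℝ, 0 < ε ∧ Metric.ball z ε ⊆ cone H ∧
      HasFDerivAt (F H L c k) (∑' v : VN H L (c : ℂ), dt H k v.1 z) z ∧
      Summable (fun v : VN H L (c : ℂ) => dt H k v.1 z) := by
  obtain ⟨δ, hδ, ε, hε, hb⟩ := h2 n H z hz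
  obtain ⟨C, hC0, hC⟩ := bound2 H
  have hre : ∀ v : VN H L (c : ℂ), (H.h v.1 v.1).re ≤ 0 := fun v => by
    rw [v.2.2]; simpa using hc.le
  have hb1 : ∀ x ∈ Metric.ball z ε, x ∈ cone H ∧ ∀ v : VN H L (c : ℂ),
      δ * ‖v.1‖ ≤ ‖H.h x v.1‖ := fun x hx => by
    rw [mem_ball_iff_norm] at hx
    exact ⟨(hb x hx).1, fun v => (hb x hx).2 v.1 (hre v)⟩
  have hz0 : z ∈ Metric.ball z ε := Metric.mem_ball_self hε
  have hne : ∀ x ∈ Metric.ball z ε, ∀ v : VN H L (c : ℂ), H.h x v.1 ≠ 0 := fun x hx v => by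
    have h3 := (hb1 x hx).2 v
    have h4 := mul_pos hδ (pos_norm H L hc v)
    exact norm_pos_iff.1 (h4.trans_le h3)
  have hu : Summable (fun v : VN H L (c : ℂ) =>
      (k * C * δ⁻¹ ^ (k + 1)) * ‖v.1‖⁻¹ ^ k) := hs.mul_left _
  have hn : ∀ (v : VN H L (c : ℂ)) (x : Vn n), x ∈ Metric.ball z ε →
      ‖dt H k v.1 x‖ ≤ (k * C * δ⁻¹ ^ (k + 1)) * ‖v.1‖⁻¹ ^ k := fun v x hx =>
    dt_norm H hC hδ k v.1 x (pos_norm H L hc v) ((hb1 x hx).2 v)
  refine ⟨ε, hε, fun x hx => (hb1 x hx).1, ?_, ?_⟩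
  · refine hasFDerivAt_tsum_of_isPreconnected (s := Metric.ball z ε) (x₀ := z) hu
      Metric.isOpen_ball (convex_ball z ε).isPreconnected
      (fun v x hx => hasDeriv H k v.1 x (hne x hx v)) hn hz0 ?_ hz0
    refine Summable.of_norm_bounded (hs.mul_left (δ⁻¹ ^ k)) fun v => ?_
    rw [norm_pow]
    exact inv_le hδ (pos_norm H L hc v) ((hb1 z hz0).2 v) k
  · exact Summable.of_norm_bounded hu fun v => hn v z hz0

end SER

theorem SER_thm (h1 : S_LAT) (h2 : S_BND) : S_SER := by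
  intro n d hd H L hL
  obtain ⟨k1, hk1⟩ := h1 n d hd H L hL
  refine ⟨k1 + 1, fun c hc k hk => ?_⟩
  have hs1 := SER.sumV H L (c : ℂ) (hk1 k (by omega))
  have hs2 := SER.sumV H L (c : ℂ) (hk1 (k - 1) (by omega))
  refine ⟨fun z hz => ?_, fun z => SER.F H L c k z, ⟨?_, ?_, ?_⟩, ?_⟩
  · obtain ⟨δ, hδ, ε, hε, hb⟩ := h2 n H z hz
    have hb' := (hb z (by simpa using hε)).2
    have hb1 : ∀ v : VN H L (c : ℂ), δ * ‖v.1‖ ≤ ‖H.h z v.1‖ := fun v =>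
      hb' v.1 (by rw [v.2.2]; simpa using hc.le)
    refine ⟨fun v => norm_pos_iff.1 ((mul_pos hδ (SER.pos_norm H L hc v)).trans_le (hb1 v)),
      ?_, fun w => ?_⟩
    · refine Summable.of_nonneg_of_le (fun v => by positivity) (fun v => ?_)
        (hs1.mul_left (δ⁻¹ ^ k))
      exact SER.inv_le hδ (SER.pos_norm H L hc v) (hb1 v) k
    · obtain ⟨C, hC0, hC⟩ := SER.bound1 H w
      refine Summable.of_nonneg_of_le (fun v => by positivity) (fun v => ?_)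
        (hs2.mul_left (C * δ⁻¹ ^ k))
      have h3 := SER.inv_le hδ (SER.pos_norm H L hc v) (hb1 v) k
      have h4 := hC v.1
      have h5 := SER.pos_norm H L hc v
      obtain ⟨m, rfl⟩ : ∃ m, k = m + 1 := ⟨k - 1, by omega⟩
      rw [Nat.add_sub_cancel]
      calc ‖H.h w v.1‖ * ‖(H.h z v.1)⁻¹‖ ^ (m + 1)
          ≤ (C * ‖v.1‖) * (δ⁻¹ ^ (m + 1) * ‖v.1‖⁻¹ ^ (m + 1)) := by
            gcongr
        _ = C * δ⁻¹ ^ (m + 1) * ‖v.1‖⁻¹ ^ m := by
            rw [pow_succ ‖v.1‖⁻¹ m]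
            field_simp
  · rw [ MOD.hol_iff]
    intro z hz
    obtain ⟨ε, hε, hb, hd1, -⟩ := SER.F_deriv h2 H L c hc k hs1 z hz
    refine (hd1.differentiableAt.differentiableWithinAt).congr (fun x hx => ?_) ?_
    · rw [ MOD.ext_of_mem _ hx]
    · rw [ MOD.ext_of_mem _ hz]
  · intro t ht z w hw
    show SER.F H L c k z = t ^ k * SER.F H L c k w
    rw [hw]
    exact SER.F_smul H L c k t ht z
  · intro g hg z w hw
    show SER.F H L c k w = SER.F H L c k z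
    rw [hw]
    exact SER.F_act H L c k g hg z
  · intro z w
    obtain ⟨ε, hε, hb, hd1, hd2⟩ := SER.F_deriv h2 H L c hc k hs1 z.1 z.2
    have h3 : MOD.ext (fun z : cone H => SER.F H L c k z) =ᶠ[nhds z.1] SER.F H L c k := by
      filter_upwards [Metric.ball_mem_nhds z.1 hε] with x hx
      rw [ MOD.ext_of_mem _ (hb hx)]
    rw [(hd1.congr_of_eventuallyEq h3).fderiv, ← tsum_mul_left]
    have h4 := (ContinuousLinearMap.apply ℂ ℂ w).map_tsum hd2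
    rw [ContinuousLinearMap.apply_apply] at h4
    rw [h4]
    refine tsum_congr fun v => ?_
    rw [ContinuousLinearMap.apply_apply, SER.dt, smul_apply, SER.hL_apply,
      smul_eq_mul]
    ring

end Pool.Agent.RFO
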