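import Mathlib
import Pool.Agent.RFO.St2
import Pool.Agent.RFO.OPN

/-!
# The negative vectors of a Hermitian lattice span (module SPN)
-/

set_option autoImplicit false

namespace Pool.Agent.RFO

namespace SPN

variable {n : ℕ}

open Filter Topology

theorem mem_cone_smul (H : HForm n) (t : ℂ) (ht : t ≠ 0) (x : Vn n) :
    t • x ∈ cone H ↔ x ∈ cone H := by
  have h1 : H.h (t • x) (t • x) = ((Complex.normSq t : ℝ) : ℂ) * H.h x x := by
    rw [H.smul, H.herm (t • x) x, H.smul, map_mul, ← H.herm, ← mul_assoc, Complex.mul_conj]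
  have h2 : (H.h (t • x) (t • x)).re = Complex.normSq t * (H.h x x).re := by
    rw [h1, Complex.re_ofReal_mul]
  have h3 : 0 < Complex.normSq t := Complex.normSq_pos.mpr ht
  change (H.h (t • x) (t • x)).re < 0 ↔ (H.h x x).re < 0
  rw [h2]
  exact ⟨fun h => by
    by_contra hc
    push Not at hc
    exact absurd h (not_lt.mpr (mul_nonneg h3.le hc)), fun h => mul_neg_of_pos_of_neg h3 h⟩

theorem h_add_right (H : HForm n) (x y z : Vn n) : H.h x (y + z) = H.h x y + H.h x z := by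
  rw [H.herm, H.add, map_add, ← H.herm, ← H.herm]

theorem h_smul_right (H : HForm n) (t : ℂ) (x y : Vn n) :
    H.h x (t • y) = (starRingEnd ℂ) t * H.h x y := by
  rw [H.herm, H.smul, map_mul, ← H.herm]

theorem floor_tend (x : ℝ) : Tendsto (fun N : ℕ => ((⌊(N : ℝ) * x⌋ : ℤ) : ℝ) / N) atTop (𝓝 x) := by
  have h1 : Tendsto (fun N : ℕ => x - 1 / (N : ℝ)) atTop (𝓝 (x - 0)) :=
    tendsto_const_nhds.sub tendsto_one_div_atTop_nhds_zero_nat
  rw [sub_zero] at h1
  refine tendsto_of_tendsto_of_tendsto_of_le_of_le' h1 tendsto_const_nhds ?_ ?_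
  · filter_upwards [eventually_gt_atTop 0] with N hN
    have hN' : (0 : ℝ) < N := by exact_mod_cast hN
    rw [le_div_iff₀ hN', sub_mul, one_div_mul_cancel hN'.ne']
    have := Int.sub_one_lt_floor ((N : ℝ) * x)
    linarith
  · filter_upwards [eventually_gt_atTop 0] with N hN
    have hN' : (0 : ℝ) < N := by exact_mod_cast hN
    rw [div_le_iff₀ hN']
    have := Int.floor_le ((N : ℝ) * x)
    linarith

/-- A negative vector in the lattice. -/
theorem exists_neg (d : ℤ) (hd : d < 0) (H : HForm n) (L : AddSubgroup (Vn n))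
    (hL : IsLat d H L) : ∃ v ∈ L, v ∈ cone H := by
  obtain ⟨hopen, -, ⟨z₀, hz₀⟩⟩ := OPN_thm n H
  obtain ⟨b, hb, -⟩ := hL.ba
  have hd' : (0 : ℝ) < -(d : ℝ) := by
    have : (d : ℝ) < 0 := by exact_mod_cast hd
    linarith
  have hs : 0 < Real.sqrt (-(d : ℝ)) := Real.sqrt_pos.mpr hd'
  have hω1 : Complex.I * (Real.sqrt (-(d : ℝ)) : ℂ) ∈ Fd d := Subfield.subset_closure rfl
  have hω2 : IsIntegral ℤ (Complex.I * (Real.sqrt (-(d : ℝ)) : ℂ)) := by
    refine IsIntegral.of_pow (n := 2) two_pos ?_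
    have h1 : (Complex.I * (Real.sqrt (-(d : ℝ)) : ℂ)) ^ 2 = algebraMap ℤ ℂ d := by
      rw [mul_pow, Complex.I_sq, ← Complex.ofReal_pow, Real.sq_sqrt hd'.le]
      push_cast
      simp
    rw [h1]
    exact isIntegral_algebraMap
  let a : ℕ → Fin (n + 1) → ℂ := fun N i =>
    ((⌊(N : ℝ) * (b.repr z₀ i).re⌋ : ℤ) : ℂ) +
      ((⌊(N : ℝ) * ((b.repr z₀ i).im / Real.sqrt (-(d : ℝ)))⌋ : ℤ) : ℂ) *
        (Complex.I * (Real.sqrt (-(d : ℝ)) : ℂ))
  have ha1 : ∀ N i, a N i ∈ Fd d := fun N i =>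
    add_mem (intCast_mem _ _) (mul_mem (intCast_mem _ _) hω1)
  have ha2 : ∀ N i, IsIntegral ℤ (a N i) := fun N i =>
    (isIntegral_algebraMap (R := ℤ) (A := ℂ)).add
      ((isIntegral_algebraMap (R := ℤ) (A := ℂ)).mul hω2)
  have hv : ∀ N, ∑ i, a N i • b i ∈ L := fun N =>
    L.sum_mem fun i _ => hL.sm _ (ha1 N i) (ha2 N i) _ (hb i)
  have ht : Tendsto (fun N : ℕ => ((N : ℂ))⁻¹ • ∑ i, a N i • b i) atTop (𝓝 z₀) := by
    have h1 : ∀ i, Tendsto (fun N : ℕ => ((N : ℂ))⁻¹ * a N i) atTop (𝓝 (b.repr z₀ i)) := by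
      intro i
      have e1 := (Complex.continuous_ofReal.tendsto _).comp (floor_tend (b.repr z₀ i).re)
      have e2 := (Complex.continuous_ofReal.tendsto _).comp
        (floor_tend ((b.repr z₀ i).im / Real.sqrt (-(d : ℝ))))
      have e3 := e1.add (e2.mul_const (Complex.I * (Real.sqrt (-(d : ℝ)) : ℂ)))
      have e4 : ((((b.repr z₀ i).re : ℝ) : ℂ) +
          (((b.repr z₀ i).im / Real.sqrt (-(d : ℝ)) : ℝ) : ℂ) *
            (Complex.I * (Real.sqrt (-(d : ℝ)) : ℂ))) = b.repr z₀ i := by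
        have hs' : ((Real.sqrt (-(d : ℝ)) : ℝ) : ℂ) ≠ 0 := by
          exact_mod_cast hs.ne'
        rw [Complex.ofReal_div]
        have e5 : (((b.repr z₀ i).im : ℝ) : ℂ) / ((Real.sqrt (-(d : ℝ)) : ℝ) : ℂ) *
            (Complex.I * (Real.sqrt (-(d : ℝ)) : ℂ)) = ((b.repr z₀ i).im : ℂ) * Complex.I := by
          field_simp
        rw [e5, Complex.re_add_im]
      rw [e4] at e3
      refine e3.congr fun N => ?_
      simp only [Function.comp_apply, a]
      push_cast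
      rw [div_eq_mul_inv, div_eq_mul_inv]
      ring
    have h2 : Tendsto (fun N : ℕ => ∑ i, (((N : ℂ))⁻¹ * a N i) • b i) atTop
        (𝓝 (∑ i, b.repr z₀ i • b i)) :=
      tendsto_finsetSum _ fun i _ => (h1 i).smul_const (b i)
    rw [b.sum_repr] at h2
    refine h2.congr fun N => ?_
    rw [Finset.smul_sum]
    exact Finset.sum_congr rfl fun i _ => by rw [smul_smul]
  have hev : ∀ᶠ N : ℕ in atTop, ((N : ℂ))⁻¹ • ∑ i, a N i • b i ∈ cone H :=
    ht.eventually (hopen.mem_nhds hz₀)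
  obtain ⟨N, hN, hN0⟩ := (hev.and (eventually_gt_atTop 0)).exists
  have hN' : ((N : ℂ))⁻¹ ≠ 0 := inv_ne_zero (by exact_mod_cast hN0.ne')
  exact ⟨_, hv N, (mem_cone_smul H _ hN' _).mp hN⟩

end SPN

open Filter Topology in
theorem SPN_thm : S_SPN := by
  intro n d hd H L hL w hw
  obtain ⟨v, hvL, hv⟩ := SPN.exists_neg d hd H L hL
  have hopen := (OPN_thm n H).1
  have h1 : ∀ u ∈ L, H.h w u = 0 := by
    intro u hu
    have ht : Tendsto (fun N : ℕ => v + ((N : ℂ))⁻¹ • u) atTop (𝓝 (v + (0 : ℂ) • u)) := by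
      refine tendsto_const_nhds.add (Tendsto.smul_const ?_ u)
      exact tendsto_inv_atTop_nhds_zero_nat (𝕜 := ℂ)
    rw [zero_smul, add_zero] at ht
    have hev : ∀ᶠ N : ℕ in atTop, v + ((N : ℂ))⁻¹ • u ∈ cone H :=
      ht.eventually (hopen.mem_nhds hv)
    obtain ⟨N, hN, hN0⟩ := (hev.and (eventually_gt_atTop 0)).exists
    have hN' : (N : ℂ) ≠ 0 := by exact_mod_cast hN0.ne'
    have h2 : (N : ℂ) • (v + ((N : ℂ))⁻¹ • u) ∈ cone H := (SPN.mem_cone_smul H _ hN' _).mpr hN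
    rw [smul_add, smul_smul, mul_inv_cancel₀ hN', one_smul] at h2
    have h3 : (N : ℂ) • v + u ∈ L := by
      have h4 : (N : ℂ) • v = N • v := by
        rw [Nat.cast_smul_eq_nsmul]
      rw [h4]
      exact L.add_mem (L.nsmul_mem hvL N) hu
    have h5 := hw _ h3 h2
    rw [SPN.h_add_right, SPN.h_smul_right, hw v hvL hv, mul_zero, zero_add] at h5
    exact h5
  obtain ⟨b, hb, -⟩ := hL.ba
  have h2 : ∀ y, H.h w y = 0 := by
    intro y
    rw [← b.sum_repr y, OPN.h_sum_right]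
    exact Finset.sum_eq_zero fun i _ => by rw [h1 _ (hb i), mul_zero]
  obtain ⟨e, he⟩ := H.sig
  apply e.repr.injective
  rw [map_zero]
  ext j
  have h3 := h2 (e j)
  rw [← e.sum_repr w, OPN.h_sum_left, Finset.sum_eq_single j] at h3
  · rw [he, if_pos rfl] at h3
    rw [Finsupp.zero_apply]
    rcases mul_eq_zero.mp h3 with h | h
    · exact h
    · exfalso
      split_ifs at h
      · exact absurd h (by norm_num)
      · exact absurd h one_ne_zero
  · intro i _ hij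
    rw [he, if_neg hij, mul_zero]
  · intro h
    exact absurd (Finset.mem_univ j) h

end Pool.Agent.RFO
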