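import Mathlib
import Pool.Agent.RFO.St2

/-!
# Elements of the integral closure with a given character
-/

set_option autoImplicit false

namespace Pool.Agent.RFO

namespace TCH

open FRB

section

variable {G T : Type} [Group G] [CommRing T] [Algebra ℂ T] [MulSemiringAction G T]
  [SMulCommClass G ℂ T] {hom : ℤ → Submodule ℂ T}

theorem pow_mem (gr : Gr G hom) {n : ℤ} {x : T} (hx : x ∈ hom n) (m : ℕ) :
    x ^ m ∈ hom (m * n) := by
  induction m with
  | zero =>
    rw [pow_zero, Nat.cast_zero, zero_mul]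
    exact gr.one
  | succ m ih =>
    have h := gr.mul _ _ _ _ ih hx
    have e : (m : ℤ) * n + n = ((m + 1 : ℕ) : ℤ) * n := by push_cast; ring
    rw [e] at h
    rwa [pow_succ]

/-- The (unnormalised) projection to the elements with the character `χ`. -/
noncomputable def pr (K : Subgroup G) [Fintype K] (χ : K →* ℂˣ) (x : T) : T :=
  ∑ k : K, ((χ k⁻¹ : ℂˣ) : ℂ) • ((k : G) • x)

theorem pr_add (K : Subgroup G) [Fintype K] (χ : K →* ℂˣ) (x y : T) :
    pr K χ (x + y) = pr K χ x + pr K χ y := by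
  rw [pr, pr, pr, ← Finset.sum_add_distrib]
  exact Finset.sum_congr rfl fun k _ => by rw [smul_add, smul_add]

theorem pr_zero (K : Subgroup G) [Fintype K] (χ : K →* ℂˣ) : pr K χ (0 : T) = 0 := by
  rw [pr]
  exact Finset.sum_eq_zero fun k _ => by rw [smul_zero, smul_zero]

theorem act_pr (K : Subgroup G) [Fintype K] (χ : K →* ℂˣ) (l : K) (x : T) :
    (l : G) • pr K χ x = ((χ l : ℂˣ) : ℂ) • pr K χ x := by
  rw [pr, Finset.smul_sum, Finset.smul_sum]
  refine Fintype.sum_equiv (Equiv.mulLeft l) _ _ fun k => ?_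
  show (l : G) • (((χ k⁻¹ : ℂˣ) : ℂ) • ((k : G) • x)) =
    ((χ l : ℂˣ) : ℂ) • (((χ (l * k)⁻¹ : ℂˣ) : ℂ) • (((l * k : K) : G) • x))
  have h1 : ((χ l : ℂˣ) : ℂ) * ((χ (l * k)⁻¹ : ℂˣ) : ℂ) = ((χ k⁻¹ : ℂˣ) : ℂ) := by
    rw [mul_comm, ← Units.val_mul, ← map_mul, mul_inv_rev, inv_mul_cancel_right]
  rw [smul_comm, ← mul_smul (l : G), ← mul_smul ((χ l : ℂˣ) : ℂ), h1]
  rfl

theorem pr_eigen (K : Subgroup G) [Fintype K] (χ : K →* ℂˣ) (x : T)
    (hx : ∀ k : K, (k : G) • x = ((χ k : ℂˣ) : ℂ) • x) :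
    pr K χ x = ((Fintype.card K : ℕ) : ℂ) • x := by
  rw [pr]
  have h : ∀ k : K, ((χ k⁻¹ : ℂˣ) : ℂ) • ((k : G) • x) = x := by
    intro k
    rw [hx, ← mul_smul, ← Units.val_mul, ← map_mul, inv_mul_cancel, map_one, Units.val_one,
      one_smul]
  rw [Finset.sum_congr rfl fun k _ => h k, Finset.sum_const, Finset.card_univ,
    Nat.cast_smul_eq_nsmul]

theorem pr_mem (gr : Gr G hom) (K : Subgroup G) [Fintype K] (χ : K →* ℂˣ) {n : ℤ} {x : T}
    (hx : x ∈ hom n) : pr K χ x ∈ hom n :=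
  (hom n).sum_mem fun k _ => (hom n).smul_mem _ (gr.act _ _ _ hx)

/-- A homogeneous element with the character. -/
theorem exists_hom (gr : Gr G hom) [IsDomain T] (K : Subgroup G) [Fintype K] (χ : K →* ℂˣ)
    (x : T) (hx : ∀ k : K, (k : G) • x = ((χ k : ℂˣ) : ℂ) • x) (hx0 : x ≠ 0) :
    ∃ n, ∃ y ∈ hom n, y ≠ 0 ∧ ∀ k : K, (k : G) • y = ((χ k : ℂˣ) : ℂ) • y := by
  by_contra hcon
  push Not at hcon
  have h0 : ∀ n, ∀ y ∈ hom n, pr K χ y = 0 := by
    intro n y hy
    by_contra hne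
    obtain ⟨k, hk⟩ := hcon n (pr K χ y) (pr_mem gr K χ hy) hne
    exact hk (act_pr K χ k y)
  have h1 : pr K χ x = 0 := by
    have hx' : x ∈ ⨆ i, hom i := by rw [gr.top]; trivial
    exact Submodule.iSup_induction hom (motive := fun x => pr K χ x = 0) hx'
      (fun i x hx => h0 i x hx) (pr_zero K χ) (fun x y hx hy => by rw [pr_add, hx, hy, add_zero])
  rw [pr_eigen K χ x hx] at h1
  rcases smul_eq_zero.1 h1 with h | h
  · exact Fintype.card_ne_zero (Nat.cast_eq_zero.1 h)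
  · exact hx0 h

end

section

variable {G T KK : Type} [Group G] [CommRing T] [IsDomain T] [Algebra ℂ T]
  [MulSemiringAction G T] [SMulCommClass G ℂ T] [Field KK] [Algebra T KK]
  [IsFractionRing T KK] [Algebra ℂ KK] [IsScalarTower ℂ T KK] [MulSemiringAction G KK]
  [SMulDistribClass G T KK]

theorem map_smul' (c : ℂ) (x : T) : algebraMap T KK (c • x) = c • algebraMap T KK x := by
  rw [Algebra.smul_def, Algebra.smul_def, map_mul, ← IsScalarTower.algebraMap_apply ℂ T KK]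

omit [Algebra ℂ T] [SMulCommClass G ℂ T] [Algebra ℂ KK] [IsScalarTower ℂ T KK] in
/-- Every element of the fraction field is a quotient with an `L`-invariant denominator. -/
theorem exists_quot [Finite G] (L : Subgroup G) (x : KK) :
    ∃ a b : T, b ≠ 0 ∧ (∀ g ∈ L, g • b = b) ∧ x * algebraMap T KK b = algebraMap T KK a := by
  classical
  have : Fintype L := Fintype.ofFinite L
  obtain ⟨a, b, hb, hab⟩ := IsFractionRing.div_surjective (A := T) x
  have hb0 : b ≠ 0 := nonZeroDivisors.ne_zero hb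
  set b' : T := ∏ g : L, g • b with hb'
  have hb'0 : b' ≠ 0 := by
    rw [hb', Finset.prod_ne_zero_iff]
    intro g _
    exact (smul_ne_zero_iff_ne (g : G)).2 hb0
  have hb'L : ∀ g ∈ L, g • b' = b' := by
    intro g hg
    exact Finset.smul_prod_perm b (⟨g, hg⟩ : L)
  set r : T := ∏ g ∈ Finset.univ.erase (1 : L), g • b with hr
  have hbr : b' = b * r := by
    rw [hb', hr, ← Finset.mul_prod_erase Finset.univ _ (Finset.mem_univ (1 : L)), one_smul]
  have hιb : algebraMap T KK b ≠ 0 := fun h0 => hb0 (inj (by rw [h0, map_zero]))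
  refine ⟨a * r, b', hb'0, hb'L, ?_⟩
  rw [← hab, hbr, map_mul, map_mul]
  field_simp

end

end TCH

open FRB TCH in
theorem TCH_thm (h1 : S_FAC) (h2 : S_MPF) : S_TCH := by
  classical
  intro G T KK _ _ _ _ _ _ _ _ _ _ _ _ _ _ hom gr K hufm χ hχ
  have fac : ∀ (x y : T) (k : ℤ), x * y ∈ hom k → x * y ≠ 0 → ∃ i, x ∈ hom i := h1 G T hom gr
  by_cases hall : ∀ x ∈ TT G T KK, (∀ k : K, (k : G) • x = ((χ k : ℂˣ) : ℂ) • x) → x = 0
  · refine ⟨1, one_pos, 1, (TT G T KK).one_mem, one_ne_zero, fun x hx hk =>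
      ⟨0, (TT G T KK).zero_mem, fun k _ => smul_zero k, ?_, fun j _ => isH_zero gr _⟩⟩
    rw [hall x hx hk, mul_zero]
  push Not at hall
  obtain ⟨xx, -, hxk, hxx0⟩ := hall
  have : Fintype K := Fintype.ofFinite K
  -- an element of `T` with the character
  obtain ⟨a, b, hb0, hbL, hab⟩ := exists_quot (T := T) K xx
  have hιb : algebraMap T KK b ≠ 0 := fun h0 => hb0 (inj (KK := KK) (by rw [h0, map_zero]))
  have ha0 : a ≠ 0 := by
    intro h
    rw [h, map_zero] at hab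
    rcases mul_eq_zero.1 hab with h | h
    · exact hxx0 h
    · exact hιb h
  have hak : ∀ k : K, (k : G) • a = ((χ k : ℂˣ) : ℂ) • a := by
    intro k
    apply inj (KK := KK)
    rw [← act_map, ← hab, smul_mul', hxk k, act_map, hbL k k.2, map_smul', ← hab, smul_mul_assoc]
  obtain ⟨n, x0, hx0h, hx00, hx0k⟩ := exists_hom gr K χ a hak ha0
  obtain ⟨m, hm⟩ : ∃ m, m = Fintype.card K := ⟨_, rfl⟩
  have hmpos : 0 < m := by rw [hm]; exact Fintype.card_pos
  have hχm : ∀ k : K, ((χ k : ℂˣ) : ℂ) ^ m = 1 := by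
    intro k
    rw [← Units.val_pow_eq_pow_val, ← map_pow, hm, pow_card_eq_one, map_one, Units.val_one]
  have hpowT : ∀ k ∈ K, k • x0 ^ m = x0 ^ m := by
    intro k hk
    have h3 := hx0k ⟨k, hk⟩
    have h4 : k • x0 = ((χ ⟨k, hk⟩ : ℂˣ) : ℂ) • x0 := h3
    rw [smul_pow', h4, smul_pow, hχm, one_smul]
  set R := ↥(Fx K : Subalgebra ℂ T) with hR
  have hne : (⟨x0 ^ m, hpowT⟩ : R) ≠ 0 := fun h => pow_ne_zero m hx00 (congrArg Subtype.val h)
  obtain ⟨c, g, hcg, hdiv⟩ := h2 R m hmpos ⟨x0 ^ m, hpowT⟩ hne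
  have hcg' : x0 ^ m = (c : T) ^ m * (g : T) := congrArg Subtype.val hcg
  have hc0 : (c : T) ≠ 0 := by
    intro h
    rw [h, zero_pow hmpos.ne', zero_mul] at hcg'
    exact pow_ne_zero m hx00 hcg'
  obtain ⟨i, hi⟩ := fac (c : T) ((c : T) ^ (m - 1) * g) (m * n) (by
    have e : (c : T) * ((c : T) ^ (m - 1) * g) = x0 ^ m := by
      rw [hcg', ← mul_assoc, ← pow_succ', Nat.sub_add_cancel hmpos]
    rw [e]; exact pow_mem gr hx0h m) (by
    have e : (c : T) * ((c : T) ^ (m - 1) * g) = x0 ^ m := by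
      rw [hcg', ← mul_assoc, ← pow_succ', Nat.sub_add_cancel hmpos]
    rw [e]; exact pow_ne_zero m hx00)
  have hιc : algebraMap T KK (c : T) ≠ 0 := fun h => hc0 (inj (KK := KK) (by rw [h, map_zero]))
  have hιx : algebraMap T KK x0 ≠ 0 := fun h => hx00 (inj (KK := KK) (by rw [h, map_zero]))
  obtain ⟨t, ht⟩ : ∃ t : KK, t = algebraMap T KK x0 / algebraMap T KK (c : T) := ⟨_, rfl⟩
  have htc : t * algebraMap T KK (c : T) = algebraMap T KK x0 := by
    rw [ht, div_mul_cancel₀ _ hιc]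
  have ht_ne : t ≠ 0 := by rw [ht]; exact div_ne_zero hιx hιc
  have htm : t ^ m = algebraMap T KK (g : T) := by
    have e2 : algebraMap T KK (c : T) ^ m * t ^ m =
        algebraMap T KK (c : T) ^ m * algebraMap T KK (g : T) := by
      rw [← mul_pow, mul_comm _ t, htc, ← map_pow, hcg', map_mul, map_pow]
    exact mul_left_cancel₀ (pow_ne_zero m hιc) e2
  have htT : t ∈ TT G T KK := by
    have h3 : IsIntegral (SS G T) (t ^ m) := by
      rw [htm]
      exact map_mem (g : T)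
    exact h3.of_pow hmpos
  have htk : ∀ k : K, (k : G) • t = ((χ k : ℂˣ) : ℂ) • t := by
    intro k
    have hck : (k : G) • (c : T) = c := c.2 k k.2
    rw [ht, smul_div₀', act_map, act_map, hx0k, hck, map_smul', smul_div_assoc]
  have htH : IsH hom (n - i) t := ⟨n, i, x0, c, hx0h, hi, hc0, htc, rfl⟩
  have hIC : IsIntegrallyClosed R := inferInstance
  have he : 0 < n - i := by
    rcases lt_trichotomy (n - i) 0 with h | h | h
    · exact absurd (neg_zero_of gr fac K h htT htH) ht_ne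
    · exfalso
      rw [h] at htH
      obtain ⟨z, hz⟩ := const_of gr fac K htT htH
      apply hχ
      ext k
      have h3 : (k : G) • t = t := by rw [hz]; exact act_const T (k : G) z
      rw [htk k] at h3
      have h4 : (((χ k : ℂˣ) : ℂ) - 1) • t = 0 := by rw [sub_smul, h3, one_smul, sub_self]
      rcases smul_eq_zero.1 h4 with h5 | h5
      · rw [MonoidHom.one_apply, Units.val_one]
        exact sub_eq_zero.1 h5
      · exact absurd h5 ht_ne
    · exact h
  refine ⟨n - i, he, t, htT, ht_ne, ?_⟩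
  intro x hx hk
  -- the quotient
  obtain ⟨z, hz⟩ : ∃ z : KK, z = x / t := ⟨_, rfl⟩
  have hxz : x = t * z := by rw [hz, mul_div_cancel₀ _ ht_ne]
  have hzk : ∀ k ∈ K, k • z = z := by
    intro k hkK
    have e1 : k • x = ((χ ⟨k, hkK⟩ : ℂˣ) : ℂ) • x := hk ⟨k, hkK⟩
    have e2 : k • t = ((χ ⟨k, hkK⟩ : ℂˣ) : ℂ) • t := htk ⟨k, hkK⟩
    have e3 : algebraMap ℂ KK ((χ ⟨k, hkK⟩ : ℂˣ) : ℂ) ≠ 0 := by
      rw [Ne, FaithfulSMul.algebraMap_eq_zero_iff]
      exact Units.ne_zero _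
    rw [hz, smul_div₀', e1, e2, Algebra.smul_def, Algebra.smul_def, mul_div_mul_left _ _ e3]
  obtain ⟨a1, b1, hb10, hb1L, hab1⟩ := exists_quot (T := T) K z
  have ha1L : ∀ k ∈ K, k • a1 = a1 := by
    intro k hkK
    apply inj (KK := KK)
    rw [← act_map, ← hab1, smul_mul', hzk k hkK, act_map, hb1L k hkK]
  obtain ⟨v, hvR, hv⟩ := inv_mem K ((TT G T KK).pow_mem hx m) (fun k hkK => by
    have e1 : k • x = ((χ ⟨k, hkK⟩ : ℂˣ) : ℂ) • x := hk ⟨k, hkK⟩
    rw [smul_pow', e1, smul_pow, hχm, one_smul])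
  have hιb1 : algebraMap T KK b1 ≠ 0 := fun h0 => hb10 (inj (KK := KK) (by rw [h0, map_zero]))
  have key : (⟨a1, ha1L⟩ : R) ^ m * g = (⟨b1, hb1L⟩ : R) ^ m * ⟨v, hvR⟩ := by
    apply Subtype.ext
    apply inj (KK := KK)
    show algebraMap T KK (a1 ^ m * (g : T)) = algebraMap T KK (b1 ^ m * v)
    rw [map_mul, map_mul, map_pow, map_pow, ← htm, hv, ← hab1, hxz]
    ring
  obtain ⟨w, hw⟩ := hdiv _ _ ⟨_, key⟩
  have hw' : a1 = b1 * (w : T) := congrArg Subtype.val hw
  have hzw : z = algebraMap T KK (w : T) := by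
    have e1 : algebraMap T KK b1 * z = algebraMap T KK b1 * algebraMap T KK (w : T) := by
      rw [mul_comm, hab1, hw', map_mul]
    exact mul_left_cancel₀ hιb1 e1
  refine ⟨z, ?_, hzk, hxz, ?_⟩
  · rw [hzw]; exact map_mem _
  · intro j hj
    obtain ⟨i1, j1, a2, b2, ha2, hb2, hb20, e1, hk1⟩ := hj
    refine ⟨i1 + i, j1 + n, a2 * c, b2 * x0, gr.mul _ _ _ _ ha2 hi, gr.mul _ _ _ _ hb2 hx0h,
      mul_ne_zero hb20 hx00, ?_, by omega⟩
    rw [map_mul, map_mul, ← htc, ← e1, hxz]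
    ring

end Pool.Agent.RFO
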