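import Mathlib
import Pool.Agent.RFO.St2

/-!
# UNQ: uniqueness of the exponents in sums of powers
-/

set_option autoImplicit false

namespace Pool.Agent.RFO

namespace UNQ

open Polynomial Filter

variable {ι : Type} {b y : ι → ℂ} {k0 : ℕ}

theorem finite_large (hs : Summable (fun i => ‖y i‖ ^ k0)) {r : ℝ} (hr : 0 < r) :
    {i | r ≤ ‖y i‖}.Finite := by
  have h1 : ∀ᶠ i in cofinite, ‖y i‖ ^ k0 < r ^ k0 :=
    hs.tendsto_cofinite_zero.eventually (gt_mem_nhds (by positivity))
  refine Set.Finite.subset (Filter.eventually_cofinite.1 h1) fun i hi => ?_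
  intro h2
  have h3 : r ^ k0 ≤ ‖y i‖ ^ k0 := pow_le_pow_left₀ hr.le hi k0
  exact absurd h2 (not_lt.2 h3)

theorem summable_term (hb : ∀ k, k0 ≤ k → Summable (fun i => ‖b i‖ * ‖y i‖ ^ k)) (p : ℂ[X])
    (k : ℕ) (hk : k0 ≤ k) : Summable (fun i => ‖b i‖ * (‖p.eval (y i)‖ * ‖y i‖ ^ k)) := by
  have h1 : Summable fun i => ∑ j ∈ Finset.range (p.natDegree + 1),
      ‖p.coeff j‖ * (‖b i‖ * ‖y i‖ ^ (k + j)) :=
    summable_sum fun j _ => (hb (k + j) (by omega)).mul_left _
  refine Summable.of_nonneg_of_le (fun i => by positivity) (fun i => ?_) h1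
  have h2 : ‖p.eval (y i)‖ ≤ ∑ j ∈ Finset.range (p.natDegree + 1), ‖p.coeff j‖ * ‖y i‖ ^ j := by
    rw [Polynomial.eval_eq_sum_range]
    refine (norm_sum_le _ _).trans (le_of_eq ?_)
    refine Finset.sum_congr rfl fun j _ => ?_
    rw [norm_mul, norm_pow]
  calc ‖b i‖ * (‖p.eval (y i)‖ * ‖y i‖ ^ k)
      ≤ ‖b i‖ * ((∑ j ∈ Finset.range (p.natDegree + 1), ‖p.coeff j‖ * ‖y i‖ ^ j) *
          ‖y i‖ ^ k) := by gcongr
    _ = ∑ j ∈ Finset.range (p.natDegree + 1), ‖p.coeff j‖ * (‖b i‖ * ‖y i‖ ^ (k + j)) := by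
      rw [Finset.sum_mul, Finset.mul_sum]
      refine Finset.sum_congr rfl fun j _ => ?_
      rw [pow_add]
      ring

theorem tsum_term (hb : ∀ k, k0 ≤ k → Summable (fun i => ‖b i‖ * ‖y i‖ ^ k))
    (h0 : ∀ k, k0 ≤ k → ∑' i, b i * y i ^ k = 0) (p : ℂ[X]) (k : ℕ) (hk : k0 ≤ k) :
    ∑' i, b i * (p.eval (y i) * y i ^ k) = 0 := by
  have h1 : ∀ i, b i * (p.eval (y i) * y i ^ k) =
      ∑ j ∈ Finset.range (p.natDegree + 1), p.coeff j * (b i * y i ^ (k + j)) := by
    intro i
    rw [Polynomial.eval_eq_sum_range, Finset.sum_mul, Finset.mul_sum]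
    refine Finset.sum_congr rfl fun j _ => ?_
    rw [pow_add]
    ring
  have h2 : ∀ l, k0 ≤ l → Summable fun i => b i * y i ^ l := by
    intro l hl
    refine Summable.of_norm ?_
    simp only [norm_mul, norm_pow]
    exact hb l hl
  simp only [h1]
  rw [Summable.tsum_finsetSum fun j _ => (h2 (k + j) (by omega)).mul_left _]
  refine Finset.sum_eq_zero fun j _ => ?_
  rw [tsum_mul_left, h0 (k + j) (by omega), mul_zero]

end UNQ

open UNQ Polynomial Filter in
theorem UNQ_thm : S_UNQ := by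
  classical
  intro ι b y k0 hy hs hb h0 i0
  have hY : y i0 ≠ 0 := hy i0
  have hr : 0 < ‖y i0‖ := norm_pos_iff.2 hY
  have hfin := finite_large (k0 := k0) hs hr
  set A : Finset ι := hfin.toFinset with hA
  have hmA : ∀ i, i ∈ A ↔ ‖y i0‖ ≤ ‖y i‖ := fun i => by rw [hA, Set.Finite.mem_toFinset]; rfl
  set s : Finset ι := A.filter fun i => y i = y i0 with hsdef
  have hms : ∀ i, i ∈ s ↔ y i = y i0 := by
    intro i
    rw [hsdef, Finset.mem_filter, hmA]
    exact ⟨fun h => h.2, fun h => ⟨by rw [h], h⟩⟩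
  refine ⟨s, hms, ?_⟩
  set W : Finset ℂ := (A.image y).erase (y i0) with hW
  set p : ℂ[X] := ∏ v ∈ W, (X - C v) with hp
  have hpY : p.eval (y i0) ≠ 0 := by
    rw [hp, Polynomial.eval_prod, Finset.prod_ne_zero_iff]
    intro v hv
    rw [hW, Finset.mem_erase] at hv
    rw [eval_sub, eval_X, eval_C, sub_ne_zero]
    exact hv.1.symm
  have hpA : ∀ i, i ∈ A → y i ≠ y i0 → p.eval (y i) = 0 := by
    intro i hi hne
    rw [hp, Polynomial.eval_prod]
    refine Finset.prod_eq_zero (i := y i) ?_ ?_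
    · rw [hW, Finset.mem_erase]
      exact ⟨hne, Finset.mem_image_of_mem _ hi⟩
    · rw [eval_sub, eval_X, eval_C, sub_self]
  -- the terms
  set g : ℕ → ι → ℂ := fun k i => b i * (p.eval (y i) * (y i / y i0) ^ (k0 + k)) with hg
  have hg0 : ∀ k, ∑' i, g k i = 0 := by
    intro k
    have h1 : ∀ i, g k i = (b i * (p.eval (y i) * y i ^ (k0 + k))) * (y i0 ^ (k0 + k))⁻¹ := by
      intro i
      rw [hg]
      simp only [div_eq_mul_inv]
      ring
    simp only [h1]
    rw [tsum_mul_right, tsum_term hb h0 p (k0 + k) (by omega), zero_mul]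
  have hbound : ∀ k i, ‖g k i‖ ≤ ‖b i‖ * (‖p.eval (y i)‖ * ‖y i‖ ^ k0) * (‖y i0‖ ^ k0)⁻¹ := by
    intro k i
    have h1 : ‖g k i‖ = ‖b i‖ * (‖p.eval (y i)‖ * (‖y i‖ / ‖y i0‖) ^ (k0 + k)) := by
      rw [hg]
      simp only [norm_mul, norm_pow, norm_div]
    have h2 : ‖b i‖ * (‖p.eval (y i)‖ * ‖y i‖ ^ k0) * (‖y i0‖ ^ k0)⁻¹ =
        ‖b i‖ * (‖p.eval (y i)‖ * (‖y i‖ / ‖y i0‖) ^ k0) := by
      rw [div_pow, div_eq_mul_inv]
      ring
    rw [h1, h2]
    by_cases h3 : p.eval (y i) = 0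
    · rw [h3, norm_zero, zero_mul, zero_mul]
    · have h4 : ‖y i‖ / ‖y i0‖ ≤ 1 := by
        rw [div_le_one hr]
        by_contra hcon
        push Not at hcon
        apply h3
        refine hpA i ((hmA i).2 hcon.le) fun h => ?_
        rw [h] at hcon
        exact lt_irrefl _ hcon
      refine mul_le_mul_of_nonneg_left (mul_le_mul_of_nonneg_left ?_ (norm_nonneg _))
        (norm_nonneg _)
      exact pow_le_pow_of_le_one (by positivity) h4 (by omega)
  have hlim : ∀ i, Tendsto (fun k => g k i) atTop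
      (nhds (if i ∈ s then b i * p.eval (y i0) else 0)) := by
    intro i
    by_cases h1 : i ∈ s
    · have h2 := (hms i).1 h1
      rw [if_pos h1]
      have h3 : ∀ k, g k i = b i * p.eval (y i0) := by
        intro k
        rw [hg]
        simp only [h2]
        rw [div_self hY, one_pow, mul_one]
      simp only [h3]
      exact tendsto_const_nhds
    · rw [if_neg h1]
      have h2 : y i ≠ y i0 := fun h => h1 ((hms i).2 h)
      by_cases h3 : i ∈ A
      · have h4 : ∀ k, g k i = 0 := by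
          intro k
          rw [hg]
          simp only [hpA i h3 h2]
          ring
        simp only [h4]
        exact tendsto_const_nhds
      · rw [hmA, not_le] at h3
        have h4 : ‖y i / y i0‖ < 1 := by
          rw [norm_div, div_lt_one hr]
          exact h3
        have h5 := tendsto_pow_atTop_nhds_zero_of_norm_lt_one h4
        have h6 : Tendsto (fun k : ℕ => (y i / y i0) ^ (k0 + k)) atTop (nhds 0) :=
          h5.comp (tendsto_atTop_mono (fun k => Nat.le_add_left k k0) tendsto_id)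
        have h7 := (h6.const_mul (p.eval (y i))).const_mul (b i)
        rw [mul_zero, mul_zero] at h7
        exact h7
  have hsum : Summable fun i => ‖b i‖ * (‖p.eval (y i)‖ * ‖y i‖ ^ k0) * (‖y i0‖ ^ k0)⁻¹ :=
    (summable_term hb p k0 le_rfl).mul_right _
  have hT := tendsto_tsum_of_dominated_convergence hsum hlim
    (Eventually.of_forall fun k i => hbound k i)
  simp only [hg0] at hT
  have h1 := tendsto_nhds_unique hT tendsto_const_nhds
  rw [tsum_eq_sum (s := s) (fun i hi => if_neg hi), Finset.sum_ite_mem, Finset.inter_self,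
    ← Finset.sum_mul] at h1
  rcases mul_eq_zero.1 h1 with h2 | h2
  · exact h2
  · exact absurd h2 hpY

end Pool.Agent.RFO
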