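import Mathlib
import Pool.Agent.RFO.Fin
import Pool.Agent.RFO.CH1
import Pool.Agent.RFO.FRA
import Pool.Agent.RFO.FAC
import Pool.Agent.RFO.CH2
import Pool.Agent.RFO.GLUE
import Pool.Agent.RFO.OPN
import Pool.Agent.RFO.IDT
import Pool.Agent.RFO.DOM
import Pool.Agent.RFO.CHC
import Pool.Agent.RFO.MPF
import Pool.Agent.RFO.CHR
import Pool.Agent.RFO.TCH
import Pool.Agent.RFO.EXT
import Pool.Agent.RFO.FDT
import Pool.Agent.RFO.FRE
import Pool.Agent.RFO.CRD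
import Pool.Agent.RFO.LIN
import Pool.Agent.RFO.DDL
import Pool.Agent.RFO.LAT
import Pool.Agent.RFO.BND
import Pool.Agent.RFO.SER
import Pool.Agent.RFO.UNQ
import Pool.Agent.RFO.GEN
import Pool.Agent.RFO.SPN
import Pool.Agent.RFO.KER
import Pool.Agent.RFO.EIG

/-!
# Unitary modular forms and reflection overgroups: the theorem on abelian quotients
-/

set_option autoImplicit false

namespace Pool.Agent.RFO

variable {n : ℕ}

theorem P_DOM : S_DOM := DOM_thm OPN_thm (IDT_thm)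

theorem P_GLUE : S_GLUE := GLUE_thm CH2_thm

theorem P_FRA : S_FRA := FRA_thm CH1_thm

theorem P_FRE : S_FRE :=
  FRE_thm CHC_thm FAC_thm (FDT_thm EXT_thm CHR_thm (TCH_thm FAC_thm MPF_thm))

theorem P_KER : S_KER := KER_thm (SER_thm LAT_thm BND_thm) UNQ_thm GEN_thm SPN_thm

namespace MOD

variable {H : HForm n} {Γ Γ₁ : Subgroup (Vn n ≃ₗ[ℂ] Vn n)}

/-- the normal core of `Γ` in `Γ₁` -/
theorem exists_core (hU : Γ₁ ≤ Uh H) (hle : Γ ≤ Γ₁) (hf : Γ.relIndex Γ₁ ≠ 0) :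
    ∃ N : Subgroup (Vn n ≃ₗ[ℂ] Vn n), N ≤ Γ ∧ Nrm H N Γ₁ ∧ N.relIndex Γ₁ ≠ 0 := by
  have hmap : (Γ.subgroupOf Γ₁).map Γ₁.subtype = Γ := Subgroup.map_subgroupOf_eq_of_le hle
  have hfi : (Γ.subgroupOf Γ₁).FiniteIndex := ⟨hf⟩
  refine ⟨(Γ.subgroupOf Γ₁).normalCore.map Γ₁.subtype, ?_, nrm_map hU _ inferInstance, ?_⟩
  · conv_rhs => rw [← hmap]
    exact Subgroup.map_mono (Subgroup.normalCore_le _)
  · have h1 : (Γ.subgroupOf Γ₁).normalCore.FiniteIndex := inferInstance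
    have h2 : ((Γ.subgroupOf Γ₁).normalCore.map Γ₁.subtype).subgroupOf Γ₁ =
        (Γ.subgroupOf Γ₁).normalCore :=
      Subgroup.comap_map_eq_self_of_injective Subtype.val_injective _
    show (((Γ.subgroupOf Γ₁).normalCore.map Γ₁.subtype).subgroupOf Γ₁).index ≠ 0
    rw [h2]
    exact h1.index_ne_zero

/-- the theorem on abelian quotients -/
theorem abel {d : ℤ} (hd : d < 0) {L : AddSubgroup (Vn n)} (hL : IsLat d H L)
    (hle : Γ ≤ Γ₁) (hU : Γ₁ ≤ UL H L) (hf : Γ.relIndex (UL H L) ≠ 0)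
    (hgen : Γ₁ ≤ Subgroup.closure ((Γ : Set (Vn n ≃ₗ[ℂ] Vn n)) ∪ {ρ | ρ ∈ Γ₁ ∧ IsRefl H ρ}))
    (hF : FreeN H Γ) (S : Set (Vn n ≃ₗ[ℂ] Vn n)) (hS : S ⊆ Γ₁)
    (hn : ∀ g ∈ Γ₁, ∀ x ∈ Cj Γ S, g * x * g⁻¹ ∈ Cj Γ S)
    (hc : ∀ s ∈ S, ∀ a ∈ Γ, ∀ b ∈ Γ, s * (a * b * a⁻¹ * b⁻¹) * s⁻¹ ∈ Γ) : FreeN H Γ₁ := by
  have hUh : Γ₁ ≤ Uh H := hU.trans fun g hg => hg.1
  have hf1 : Γ.relIndex Γ₁ ≠ 0 := by
    intro h
    apply hf
    rw [← Subgroup.relIndex_mul_relIndex Γ Γ₁ (UL H L) hle hU, h, zero_mul]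
  have hC : Cj Γ S ≤ Γ₁ := by
    rw [Cj, Subgroup.closure_le]
    rintro x (hx | ⟨s, hs, γ, hγ, rfl⟩)
    · exact hle hx
    · exact Γ₁.mul_mem (Γ₁.mul_mem (hS hs) (hle hγ)) (Γ₁.inv_mem (hS hs))
  obtain ⟨N, hN, hh, hNf⟩ := exists_core hUh hle hf1
  -- the first step
  have h1 : Free H (Cj Γ S) := step_ab P_GLUE P_FRE P_DOM OPN_thm S hS hh hN hC hNf
    (free_of_freeN hF) hn hc
  have hh' : Nrm H N (Cj Γ S) := ⟨hC.trans hUh, fun g hg => hh.nm g (hC hg)⟩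
  have hNf' : N.relIndex (Cj Γ S) ≠ 0 := by
    intro h
    apply hNf
    rw [← Subgroup.relIndex_mul_relIndex N (Cj Γ S) Γ₁ (hN.trans le_Cj) hC, h, zero_mul]
  have h2 : FreeN H (Cj Γ S) := freeN_of CRD_thm P_DOM OPN_thm hh' hN le_Cj hNf' hF h1
  -- the second step
  have hCf : (Cj Γ S).relIndex Γ₁ ≠ 0 := by
    intro h
    apply hf1
    rw [← Subgroup.relIndex_mul_relIndex Γ (Cj Γ S) Γ₁ le_Cj hC, h, mul_zero]
  refine step_nm P_GLUE P_FRA CRD_thm LIN_thm DDL_thm EIG_thm P_KER P_DOM OPN_thm hd hL hU hn hC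
    hCf h2 ?_
  apply le_antisymm
  · rw [Subgroup.closure_le]
    rintro x (hx | hx)
    · exact hC hx
    · exact hx.1
  · refine hgen.trans ?_
    apply Subgroup.closure_mono
    rintro x (hx | hx)
    · exact Or.inl (le_Cj hx)
    · exact Or.inr hx

end MOD
end Pool.Agent.RFO
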