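import Mathlib
import Pool.Agent.RFO.St2

/-!
# CRD: the number of generators
-/

set_option autoImplicit false

namespace Pool.Agent.RFO

namespace CRD

theorem basis {G T : Type} [Group G] [Finite G] [CommRing T] [IsDomain T] [Algebra ℂ T]
    [MulSemiringAction G T] [SMulCommClass G ℂ T] (K : Subgroup G) (m : ℕ)
    (f : Fin m → T) (hf : AlgebraicIndependent ℂ f)
    (hK : Algebra.adjoin ℂ (Set.range f) = Fx K) : IsTranscendenceBasis ℂ f := by
  rw [hf.isTranscendenceBasis_iff_isAlgebraic, hK]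
  have h1 : SMulCommClass K (Fx K : Subalgebra ℂ T) T := ⟨fun g a x => by
    change g.1 • ((a : T) * x) = (a : T) * (g.1 • x)
    rw [smul_mul', a.2 g.1 g.2]⟩
  have h2 : Algebra.IsInvariant (Fx K : Subalgebra ℂ T) T K := ⟨fun b hb =>
    ⟨⟨b, fun g hg => hb ⟨g, hg⟩⟩, rfl⟩⟩
  have h3 : Algebra.IsIntegral (Fx K : Subalgebra ℂ T) T :=
    Algebra.IsInvariant.isIntegral (Fx K : Subalgebra ℂ T) T K
  exact Algebra.IsIntegral.isAlgebraic

end CRD

open CRD in
theorem CRD_thm : S_CRD := by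
  intro G T _ _ _ _ _ _ _ K K' m m' f f' hf hK hf' hK'
  have h := (basis K m f hf hK).cardinalMk_eq (basis K' m' f' hf' hK')
  simpa using h

end Pool.Agent.RFO
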