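import Mathlib
import Pool.Agent.RFO.St2

/-!
# Reflection overgroups of index at most four: statements of the modules (MP_06550c_nt)

Third series. `A ⊆ R` are factorial graded domains, `R` is finite over `A` of degree at most `4`.
-/

set_option autoImplicit false

namespace Pool.Agent.RFO

/-- a grading with the constants in degree `0` and nothing in negative degrees -/
structure Gd {B : Type} [CommRing B] [Algebra ℂ B] (h : ℤ → Submodule ℂ B) : Prop where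
  one : (1 : B) ∈ h 0
  mul : ∀ i j x y, x ∈ h i → y ∈ h j → x * y ∈ h (i + j)
  neg : ∀ i x, i < 0 → x ∈ h i → x = 0
  zero : ∀ x, x ∈ h 0 → ∃ c : ℂ, x = algebraMap ℂ B c
  top : ⨆ i, h i = ⊤
  ind : iSupIndep h

/-- the Gram determinant -/
def Gm {A M ι : Type} [CommRing A] [AddCommGroup M] [Module A M] [Fintype ι] [DecidableEq ι]
    (B : M →ₗ[A] M →ₗ[A] A) (u : ι → M) : A :=
  (Matrix.of fun i j => B (u i) (u j)).det

section AR

variable {A R : Type} [CommRing A] [CommRing R] [Algebra A R]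

/-- trace and norm of an extension of degree `d` -/
structure Cov (d : ℕ) (Tr : R →ₗ[A] A) (N : R → A) : Prop where
  pos : 0 < d
  inj : Function.Injective (algebraMap A R)
  int : ∀ x : R, IsIntegral A x
  N_mul : ∀ x y, N (x * y) = N x * N y
  N_ne : ∀ x, N x = 0 → x = 0
  N_dvd : ∀ x, x ∣ algebraMap A R (N x)
  N_alg : ∀ a, N (algebraMap A R a) = a ^ d
  Tr_alg : ∀ a, Tr (algebraMap A R a) = d * a

/-- the form `F (x y)` is perfect -/
def SD (F : R →ₗ[A] A) : Prop :=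
  ∀ (x : R) (a : A), a ≠ 0 → (∀ y, a ∣ F (x * y)) → algebraMap A R a ∣ x

/-- the gradings of `A` and `R` -/
structure GE [Algebra ℂ A] [Algebra ℂ R] (hA : ℤ → Submodule ℂ A) (hR : ℤ → Submodule ℂ R) :
    Prop where
  gA : Gd hA
  gR : Gd hR
  al : ∀ i a, algebraMap A R a ∈ hR i ↔ a ∈ hA i

/-- the form `F (x y)` -/
def FF (F : R →ₗ[A] A) : R →ₗ[A] R →ₗ[A] A := (LinearMap.mul A R).compr₂ F

end AR

theorem FF_apply {A R : Type} [CommRing A] [CommRing R] [Algebra A R] (F : R →ₗ[A] A) (x y : R) :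
    FF F x y = F (x * y) := rfl

/-- INC: the primes of `A` and of `R` -/
def S_INC : Prop :=
  ∀ (A R : Type) [CommRing A] [IsDomain A] [UniqueFactorizationMonoid A] [CommRing R] [IsDomain R]
    [Algebra A R] (d : ℕ) (Tr : R →ₗ[A] A) (N : R → A), Cov d Tr N → ∀ π : R, Prime π →
    ∃ p : A, Prime p ∧ ∀ a, π ∣ algebraMap A R a ↔ p ∣ a

/-- THT: the different -/
def S_THT : Prop :=
  ∀ (A R : Type) [CommRing A] [IsDomain A] [UniqueFactorizationMonoid A] [CommRing R] [IsDomain R]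
    [UniqueFactorizationMonoid R] [Algebra A R] [Algebra ℂ A] [Algebra ℂ R] [IsScalarTower ℂ A R]
    (hA : ℤ → Submodule ℂ A) (hR : ℤ → Submodule ℂ R), GE hA hR →
    ∀ (d : ℕ) (Tr : R →ₗ[A] A) (N : R → A), Cov d Tr N → (∀ i x, x ∈ hR i → Tr x ∈ hA i) →
    ∀ D : A, D ≠ 0 → (∃ i, D ∈ hA i) →
    (∀ (x : R) (a : A), a ≠ 0 → (∀ y, a ∣ Tr (x * y)) → algebraMap A R a ∣ algebraMap A R D * x) →
    ∃ (δ : ℤ) (θ θ' : R) (m : A) (Φ : R →ₗ[A] A), 0 ≤ δ ∧ θ ∈ hR δ ∧ m ≠ 0 ∧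
      (∀ y, m * Φ y = Tr (θ' * y)) ∧ (∀ y, Tr y = Φ (θ * y)) ∧
      (∀ j x, x ∈ hR j → Φ x ∈ hA (j - δ)) ∧ SD Φ ∧ (δ = 0 → SD Tr)

/-- SPA: if the rank is at most the number of the `u i`, and these are independent, then they
span -/
def S_SPA : Prop :=
  ∀ (A M ι : Type) [CommRing A] [IsDomain A] [AddCommGroup M] [Module A M] [Fintype ι]
    [DecidableEq ι] (B : M →ₗ[A] M →ₗ[A] A), (2 : A) ≠ 0 → (∀ x y, B x y = B y x) →
    (∀ x, (∀ y, B x y = 0) → x = 0) → (∀ u : Option ι → M, Gm B u = 0) →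
    ∀ u : ι → M, Gm B u ≠ 0 → ∀ y, ∃ c : ι → A, Gm B u • y = ∑ i, c i • u i

/-- DSC: bases at a prime of a lattice which is self-dual at the prime -/
def S_DSC : Prop :=
  ∀ (A M ι : Type) [CommRing A] [IsDomain A] [UniqueFactorizationMonoid A] [AddCommGroup M]
    [Module A M] [Fintype ι] [DecidableEq ι] (B : M →ₗ[A] M →ₗ[A] A), (∀ x y, B x y = B y x) →
    ∀ p : A, Prime p →
    (∀ u : ι → M, Gm B u ≠ 0 → ∀ y, ∃ c : ι → A, Gm B u • y = ∑ i, c i • u i) →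
    (∀ w, (∀ y, p ∣ B w y) → ∃ z, w = p • z) → (∃ u : ι → M, Gm B u ≠ 0) →
    ∃ u : ι → M, ¬ p ∣ Gm B u

/-- GRD: the Gram determinants of more than `d` elements vanish -/
def S_GRD : Prop :=
  ∀ (A R T Q ι : Type) [CommRing A] [IsDomain A] [CommRing R] [Algebra A R] [CommRing T]
    [IsDomain T] [Fintype Q] [Fintype ι] [DecidableEq ι] (j : A →+* T) (φ : Q → (R →+* T))
    (Tr Φ : R →ₗ[A] A) (θ' : R) (m : A), Function.Injective j → (∀ x, j (Tr x) = ∑ q, φ q x) →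
    m ≠ 0 → (∀ y, m * Φ y = Tr (θ' * y)) → Fintype.card Q < Fintype.card ι →
    ∀ u : ι → R, Gm (FF Φ) u = 0

/-- DSK: the discriminant annihilates the quotient of the dual lattice -/
def S_DSK : Prop :=
  ∀ (A R T Q : Type) [CommRing A] [IsDomain A] [CommRing R] [IsDomain R] [Algebra A R]
    [CommRing T] [IsDomain T] [Fintype Q] [DecidableEq Q] (j : A →+* T) (φ : Q → (R →+* T))
    (Tr : R →ₗ[A] A), Function.Injective j → (∀ q a, φ q (algebraMap A R a) = j a) →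
    (∀ q, Function.Injective (φ q)) → Nonempty Q → (∀ x, j (Tr x) = ∑ q, φ q x) →
    ∀ u : Q → R, (Matrix.of fun q r => φ r (u q)).det ≠ 0 →
    Gm (FF Tr) u ≠ 0 ∧ ∀ (x : R) (a : A), a ≠ 0 → (∀ y, a ∣ Tr (x * y)) →
      algebraMap A R a ∣ algebraMap A R (Gm (FF Tr) u) * x

/-- GAL: the conjugates are linearly independent -/
def S_GAL : Prop :=
  ∀ (G T : Type) [Group G] [Finite G] [CommRing T] [IsDomain T] [Algebra ℂ T]
    [MulSemiringAction G T] [SMulCommClass G ℂ T] [FaithfulSMul G T] (hom : ℤ → Submodule ℂ T),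
    Gr G hom → ∀ (K : Subgroup G) (s : G ⧸ K → G), (∀ q, (s q : G ⧸ K) = q) →
    ∀ [Fintype (G ⧸ K)] [DecidableEq (G ⧸ K)], ∃ (u : G ⧸ K → T) (e : G ⧸ K → ℤ),
      (∀ q, u q ∈ (Fx K : Subalgebra ℂ T) ∧ u q ∈ hom (e q)) ∧
      (Matrix.of fun q r : G ⧸ K => s r • u q).det ≠ 0

/-! ### Graded self-dual lattices -/

/-- a graded `A`-module with a perfect symmetric form of degree `-δ` -/
structure Ltc {A M : Type} [CommRing A] [Algebra ℂ A] [AddCommGroup M] [Module A M] [Module ℂ M]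
    (hA : ℤ → Submodule ℂ A) (hM : ℤ → Submodule ℂ M) (δ : ℤ) (B : M →ₗ[A] M →ₗ[A] A) :
    Prop where
  sym : ∀ x y, B x y = B y x
  nd : ∀ x, (∀ y, B x y = 0) → x = 0
  sd : ∀ (x : M) (a : A), a ≠ 0 → (∀ y, a ∣ B x y) → ∃ z, x = a • z
  deg : ∀ i j x y, x ∈ hM i → y ∈ hM j → B x y ∈ hA (i + j - δ)
  top : ⨆ i, hM i = ⊤
  neg : ∀ i x, i < 0 → x ∈ hM i → x = 0
  smul : ∀ i j a x, a ∈ hA i → x ∈ hM j → a • x ∈ hM (i + j)
  fac : ∀ (a : A) (x : M) (k : ℤ), a • x ∈ hM k → a • x ≠ 0 →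
    ∃ i j, i + j = k ∧ a ∈ hA i ∧ x ∈ hM j

/-- a homogeneous basis -/
def HBs (A : Type) {M : Type} [CommRing A] [AddCommGroup M] [Module A M] [Module ℂ M]
    (hM : ℤ → Submodule ℂ M) : Prop :=
  ∃ (k : ℕ) (u : Fin k → M) (e : Fin k → ℤ), (∀ i, u i ∈ hM (e i)) ∧
    ∀ x, ∃! c : Fin k → A, x = ∑ i, c i • u i

/-- PMV: primitive vectors -/
def S_PMV : Prop :=
  ∀ (A M : Type) [CommRing A] [IsDomain A] [UniqueFactorizationMonoid A] [Algebra ℂ A]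
    [AddCommGroup M] [Module A M] [Module ℂ M] [IsScalarTower ℂ A M]
    (hA : ℤ → Submodule ℂ A) (hM : ℤ → Submodule ℂ M) (δ : ℤ) (B : M →ₗ[A] M →ₗ[A] A),
    Gd hA → Ltc hA hM δ B → ∀ (i : ℤ) (w : M), w ∈ hM i → w ≠ 0 →
    ∃ (a : A) (w' : M) (j : ℤ), a ≠ 0 ∧ w = a • w' ∧ w' ≠ 0 ∧ w' ∈ hM j ∧
      ∀ p : A, Prime p → ∀ z : M, w' ≠ p • z

/-- LTA: lattices of rank at most one -/
def S_LTA : Prop :=
  ∀ (A M : Type) [CommRing A] [IsDomain A] [UniqueFactorizationMonoid A] [Algebra ℂ A]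
    [AddCommGroup M] [Module A M] [Module ℂ M] [IsScalarTower ℂ A M]
    (hA : ℤ → Submodule ℂ A) (hM : ℤ → Submodule ℂ M) (δ : ℤ) (B : M →ₗ[A] M →ₗ[A] A),
    Gd hA → Ltc hA hM δ B → (∀ u : Fin 2 → M, Gm B u = 0) → HBs A hM

/-- HPR: homogeneous pairs -/
def S_HPR : Prop :=
  ∀ (A M : Type) [CommRing A] [IsDomain A] [Algebra ℂ A]
    [AddCommGroup M] [Module A M] [Module ℂ M] [IsScalarTower ℂ A M]
    (hA : ℤ → Submodule ℂ A) (hM : ℤ → Submodule ℂ M) (δ : ℤ) (B : M →ₗ[A] M →ₗ[A] A),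
    Gd hA → Ltc hA hM δ B → (∃ u : Fin 2 → M, Gm B u ≠ 0) →
    ∃ (w : Fin 2 → M) (e : Fin 2 → ℤ), (∀ i, w i ∈ hM (e i)) ∧ Gm B w ≠ 0

/-- SQD: the discriminant of a lattice of rank two is the opposite of a square -/
def S_SQD : Prop :=
  ∀ (A M : Type) [CommRing A] [IsDomain A] [UniqueFactorizationMonoid A] [Algebra ℂ A]
    [AddCommGroup M] [Module A M] [Module ℂ M] [IsScalarTower ℂ A M]
    (hA : ℤ → Submodule ℂ A) (hM : ℤ → Submodule ℂ M) (δ : ℤ) (B : M →ₗ[A] M →ₗ[A] A),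
    Gd hA → Ltc hA hM δ B → (∀ u : Fin 3 → M, Gm B u = 0) →
    ∀ w : Fin 2 → M, Gm B w ≠ 0 → ∃ t : A, t ^ 2 = - Gm B w

/-- ISO: lattices of rank two with an isotropic vector -/
def S_ISO : Prop :=
  ∀ (A M : Type) [CommRing A] [IsDomain A] [UniqueFactorizationMonoid A] [Algebra ℂ A]
    [AddCommGroup M] [Module A M] [Module ℂ M] [IsScalarTower ℂ A M]
    (hA : ℤ → Submodule ℂ A) (hM : ℤ → Submodule ℂ M) (δ : ℤ) (B : M →ₗ[A] M →ₗ[A] A),
    Gd hA → Ltc hA hM δ B → (∀ u : Fin 3 → M, Gm B u = 0) →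
    ∀ (i : ℤ) (e : M), e ∈ hM i → e ≠ 0 → B e e = 0 → HBs A hM

/-- LTB: lattices of rank at most two -/
def S_LTB : Prop :=
  ∀ (A M : Type) [CommRing A] [IsDomain A] [UniqueFactorizationMonoid A] [Algebra ℂ A]
    [AddCommGroup M] [Module A M] [Module ℂ M] [IsScalarTower ℂ A M]
    (hA : ℤ → Submodule ℂ A) (hM : ℤ → Submodule ℂ M) (δ : ℤ) (B : M →ₗ[A] M →ₗ[A] A),
    Gd hA → Ltc hA hM δ B → (∀ u : Fin 3 → M, Gm B u = 0) → HBs A hM

/-- DEC: the decomposition of `R` -/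
def S_DEC : Prop :=
  ∀ (A R : Type) [CommRing A] [IsDomain A] [UniqueFactorizationMonoid A] [CommRing R] [IsDomain R]
    [Algebra A R] [Algebra ℂ A] [Algebra ℂ R] [IsScalarTower ℂ A R]
    (hA : ℤ → Submodule ℂ A) (hR : ℤ → Submodule ℂ R), GE hA hR →
    ∀ (d : ℕ) (Tr : R →ₗ[A] A) (N : R → A), Cov d Tr N →
    ∀ (δ : ℤ) (θ : R) (Φ : R →ₗ[A] A), 0 < δ → θ ∈ hR δ → (∀ y, Tr y = Φ (θ * y)) →
      (∀ j x, x ∈ hR j → Φ x ∈ hA (j - δ)) → SD Φ → (∀ u : Fin 5 → R, Gm (FF Φ) u = 0) →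
    HBs A hR

/-- RAM: there is ramification -/
def S_RAM : Prop :=
  ∀ (A R Q : Type) [CommRing A] [IsDomain A] [UniqueFactorizationMonoid A] [CommRing R]
    [IsDomain R] [Algebra A R] [Fintype Q] [DecidableEq Q] (d : ℕ) (Tr : R →ₗ[A] A) (N : R → A),
    (2 : A) ≠ 0 → Cov d Tr N → (d : A) ≠ 0 → (∃ u : Q → R, Gm (FF Tr) u ≠ 0) →
    (∀ u : Option Q → R, Gm (FF Tr) u = 0) →
    ∀ p : A, Prime p → (∀ u : Q → R, p ∣ Gm (FF Tr) u) → ¬ SD Tr

/-- FRF: the criterion of flatness from a homogeneous basis -/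
def S_FRF : Prop :=
  ∀ (G T : Type) [Group G] [Finite G] [CommRing T] [IsDomain T] [Algebra ℂ T]
    [MulSemiringAction G T] [SMulCommClass G ℂ T] (hom : ℤ → Submodule ℂ T), Gr G hom →
    ∀ K : Subgroup G, HB hom K ⊤ → FR hom K

/-- SUB: the grading of the invariants -/
def S_SUB : Prop :=
  ∀ (G T : Type) [Group G] [Finite G] [CommRing T] [IsDomain T] [Algebra ℂ T]
    [MulSemiringAction G T] [SMulCommClass G ℂ T] (hom : ℤ → Submodule ℂ T), Gr G hom →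
    ∀ K : Subgroup G, Gd (B := ↥(Fx K : Subalgebra ℂ T))
      (fun i => (hom i).comap (Fx K : Subalgebra ℂ T).val.toLinearMap)

end Pool.Agent.RFO
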