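import Mathlib
import Pool.Agent.RFO.St3
import Pool.Agent.RFO.FAC

/-!
# Graded domains and Gram determinants: basic lemmas (MP_06550c_nt, third series)
-/

set_option autoImplicit false

namespace Pool.Agent.RFO

section Gd

variable {B : Type} [CommRing B] [Algebra ℂ B] {h : ℤ → Submodule ℂ B}

theorem Gd.uniq (hB : Gd h) {i j : ℤ} {x : B} (hi : x ∈ h i) (hj : x ∈ h j) (h0 : x ≠ 0) :
    i = j := by
  by_contra hne
  have h1 : Disjoint (h i) (h j) := hB.ind.pairwiseDisjoint hne
  exact h0 (Submodule.disjoint_def.1 h1 x hi hj)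

theorem Gd.nonneg (hB : Gd h) {i : ℤ} {x : B} (hi : x ∈ h i) (h0 : x ≠ 0) : 0 ≤ i := by
  by_contra hne
  exact h0 (hB.neg i x (not_le.1 hne) hi)

/-- the factors of a homogeneous element are homogeneous -/
theorem Gd.fac [IsDomain B] (hB : Gd h) {x y : B} {k : ℤ} (hk : x * y ∈ h k) (h0 : x * y ≠ 0) :
    ∃ i j, i + j = k ∧ x ∈ h i ∧ y ∈ h j := by
  classical
  have hI : DirectSum.IsInternal h :=
    DirectSum.isInternal_submodule_of_iSupIndep_of_iSup_eq_top hB.ind hB.top
  let _ : DirectSum.Decomposition h := hI.chooseDecomposition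
  let _ : GradedRing h :=
    { one_mem := hB.one
      mul_mem := fun {i j x y} hx hy => hB.mul i j x y hx hy }
  obtain ⟨i, hi⟩ := FAC.main h x y k hk h0
  obtain ⟨j, hj⟩ := FAC.main h y x k (by rwa [mul_comm]) (by rwa [mul_comm])
  exact ⟨i, j, hB.uniq (hB.mul i j x y hi hj) hk h0, hi, hj⟩

/-- units are constants -/
theorem Gd.unit [IsDomain B] (hB : Gd h) {u : B} (hu : IsUnit u) :
    ∃ c : ℂ, c ≠ 0 ∧ u = algebraMap ℂ B c := by
  obtain ⟨v, hv⟩ := hu.exists_right_inv
  obtain ⟨i, j, hij, hi, hj⟩ := hB.fac (x := u) (y := v) (k := 0) (by rw [hv]; exact hB.one)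
    (by rw [hv]; exact one_ne_zero)
  have h1 := hB.nonneg hi hu.ne_zero
  have h2 := hB.nonneg hj (IsUnit.of_mul_eq_one (a := v) u (by rw [mul_comm]; exact hv)).ne_zero
  have h3 : i = 0 := by omega
  rw [h3] at hi
  obtain ⟨c, hc⟩ := hB.zero u hi
  refine ⟨c, fun h => ?_, hc⟩
  rw [h, map_zero] at hc
  exact hu.ne_zero hc

/-- units are squares -/
theorem Gd.unit_sq [IsDomain B] (hB : Gd h) {u : B} (hu : IsUnit u) : ∃ v, v ^ 2 = u := by
  obtain ⟨c, -, hc⟩ := hB.unit hu
  obtain ⟨s, hs⟩ := IsAlgClosed.exists_pow_nat_eq c (n := 2) two_pos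
  exact ⟨algebraMap ℂ B s, by rw [← map_pow, hs, hc]⟩

/-- nonzero elements of degree `0` are units -/
theorem Gd.isUnit (hB : Gd h) {x : B} (hx : x ∈ h 0) (h0 : x ≠ 0) : IsUnit x := by
  obtain ⟨c, hc⟩ := hB.zero x hx
  have h1 : c ≠ 0 := by
    rintro rfl
    exact h0 (by rw [hc, map_zero])
  rw [hc]
  exact (isUnit_iff_ne_zero.2 h1).map _

/-- a homogeneous prime has positive degree -/
theorem Gd.pos_of_prime (hB : Gd h) {x : B} {i : ℤ} (hx : x ∈ h i) (hp : Prime x) : 0 < i := by
  have h1 := hB.nonneg hx hp.ne_zero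
  rcases h1.lt_or_eq with h2 | h2
  · exact h2
  · exfalso
    rw [← h2] at hx
    exact hp.not_unit (hB.isUnit hx hp.ne_zero)

/-- homogeneous components -/
theorem Gd.proj (hB : Gd h) : ∃ pr : ℤ → B →ₗ[ℂ] B, (∀ i x, pr i x ∈ h i) ∧
    (∀ i x, x ∈ h i → pr i x = x) ∧ ∀ i j x, x ∈ h i → i ≠ j → pr j x = 0 := by
  classical
  have hint : DirectSum.IsInternal h :=
    DirectSum.isInternal_submodule_of_iSupIndep_of_iSup_eq_top hB.ind hB.top
  let _ := hint.chooseDecomposition
  refine ⟨fun i => (h i).subtype ∘ₗ (DirectSum.component ℂ ℤ (fun i => h i) i) ∘ₗ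
    (DirectSum.decomposeLinearEquiv h).toLinearMap, ?_, ?_, ?_⟩
  · intro i x
    exact Subtype.property _
  · intro i x hx
    exact DirectSum.decompose_of_mem_same h hx
  · intro i j x hx hij
    exact DirectSum.decompose_of_mem_ne h hx hij

end Gd

section Gm

variable {A M ι : Type} [CommRing A] [AddCommGroup M] [Module A M] [Fintype ι] [DecidableEq ι]
  {B : M →ₗ[A] M →ₗ[A] A}

/-- the Gram determinant of linear combinations -/
theorem Gm_comb {κ : Type} [Fintype κ] [DecidableEq κ] (P : Matrix κ κ A) (u : κ → M) :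
    Gm B (fun i => ∑ j, P i j • u j) = P.det ^ 2 * Gm B u := by
  have h1 : (Matrix.of fun i j => B (∑ k, P i k • u k) (∑ k, P j k • u k)) =
      P * (Matrix.of fun i j => B (u i) (u j)) * P.transpose := by
    ext i j
    simp only [Matrix.of_apply, Matrix.mul_apply, Matrix.transpose_apply, map_sum,
      LinearMap.sum_apply, map_smul, LinearMap.smul_apply, smul_eq_mul, Finset.sum_mul,
      Finset.mul_sum]
    refine Finset.sum_congr rfl fun k _ => Finset.sum_congr rfl fun l _ => ?_
    ring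
  rw [Gm, h1, Matrix.det_mul, Matrix.det_mul, Matrix.det_transpose, Gm]
  ring

theorem Gm_update_comb (u : ι → M) (i : ι) (c : ι → A) :
    Gm B (Function.update u i (∑ j, c j • u j)) = c i ^ 2 * Gm B u := by
  have h1 : Function.update u i (∑ j, c j • u j) =
      fun k => ∑ j, ((1 : Matrix ι ι A).updateRow i c) k j • u j := by
    funext k
    by_cases hk : k = i
    · subst hk
      rw [Function.update_self]
      refine Finset.sum_congr rfl fun j _ => ?_
      rw [Matrix.updateRow_self]
    · rw [Function.update_of_ne hk]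
      rw [Finset.sum_eq_single k]
      · rw [Matrix.updateRow_ne hk, Matrix.one_apply_eq, one_smul]
      · intro j _ hj
        rw [Matrix.updateRow_ne hk, Matrix.one_apply_ne (Ne.symm hj), zero_smul]
      · intro h
        exact absurd (Finset.mem_univ _) h
  rw [h1, Gm_comb]
  congr 2
  rw [← Matrix.det_transpose, ← Matrix.updateCol_transpose, Matrix.transpose_one,
    ← Matrix.cramer_apply, Matrix.cramer_one]
  rfl

theorem Gm_update_smul (u : ι → M) (i : ι) (a : A) (x : M) :
    Gm B (Function.update u i (a • x)) = a ^ 2 * Gm B (Function.update u i x) := by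
  have h := Gm_update_comb (B := B) (Function.update u i x) i (fun j => if j = i then a else 0)
  rw [Function.update_idem] at h
  have h2 : (∑ j, (if j = i then a else 0) • Function.update u i x j) = a • x := by
    rw [Finset.sum_eq_single i]
    · rw [if_pos rfl, Function.update_self]
    · intro j _ hj
      rw [if_neg hj, zero_smul]
    · intro h
      exact absurd (Finset.mem_univ _) h
  rw [h2, if_pos rfl] at h
  exact h

theorem Gm_reindex {κ : Type} [Fintype κ] [DecidableEq κ] (e : κ ≃ ι) (u : ι → M) :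
    Gm B (u ∘ e) = Gm B u := by
  rw [Gm, Gm, ← Matrix.det_submatrix_equiv_self e (Matrix.of fun i j => B (u i) (u j))]
  rfl

theorem Gm_two (w : Fin 2 → M) :
    Gm B w = B (w 0) (w 0) * B (w 1) (w 1) - B (w 0) (w 1) * B (w 1) (w 0) := by
  rw [Gm, Matrix.det_fin_two]
  rfl

end Gm

end Pool.Agent.RFO
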