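import Mathlib
import Pool.Agent.RFO.Gdb

/-!
# The decomposition of `R` (MP_06550c_nt, third series)
-/

set_option autoImplicit false

namespace Pool.Agent.RFO

namespace DEC

section Proj

variable {B : Type} [CommRing B] [Algebra ℂ B] {h : ℤ → Submodule ℂ B}

/-- an element is the sum of its components -/
theorem sum_pr (hB : Gd h) (pr : ℤ → B →ₗ[ℂ] B) (h1 : ∀ i x, x ∈ h i → pr i x = x)
    (h2 : ∀ i j x, x ∈ h i → i ≠ j → pr j x = 0) (x : B) :
    ∃ s : Finset ℤ, x = ∑ i ∈ s, pr i x ∧ ∀ i, i ∉ s → pr i x = 0 := by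
  classical
  have hx : x ∈ ⨆ i, h i := by
    rw [hB.top]
    exact Submodule.mem_top
  induction hx using Submodule.iSup_induction' with
  | mem j x hx =>
    refine ⟨{j}, ?_, ?_⟩
    · rw [Finset.sum_singleton, h1 j x hx]
    · intro i hi
      rw [Finset.mem_singleton] at hi
      exact h2 j i x hx (Ne.symm hi)
  | zero => exact ⟨∅, by simp, fun i _ => map_zero _⟩
  | add x y _ _ hx hy =>
    obtain ⟨s, hs, hs0⟩ := hx
    obtain ⟨t, ht, ht0⟩ := hy
    refine ⟨s ∪ t, ?_, ?_⟩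
    · have e1 : ∑ i ∈ s ∪ t, pr i x = x := by
        rw [← Finset.sum_subset Finset.subset_union_left (fun i _ hi => hs0 i hi), ← hs]
      have e2 : ∑ i ∈ s ∪ t, pr i y = y := by
        rw [← Finset.sum_subset Finset.subset_union_right (fun i _ hi => ht0 i hi), ← ht]
      simp only [map_add, Finset.sum_add_distrib, e1, e2]
    · intro i hi
      rw [Finset.mem_union, not_or] at hi
      rw [map_add, hs0 i hi.1, ht0 i hi.2, add_zero]

/-- graded maps commute with the projections -/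
theorem map_pr {A : Type} [CommRing A] [Algebra ℂ A] {hA : ℤ → Submodule ℂ A} (hB : Gd h)
    (pr : ℤ → B →ₗ[ℂ] B) (h1 : ∀ i x, x ∈ h i → pr i x = x)
    (h2 : ∀ i j x, x ∈ h i → i ≠ j → pr j x = 0) (q : ℤ → A →ₗ[ℂ] A)
    (q1 : ∀ i x, x ∈ hA i → q i x = x) (q2 : ∀ i j x, x ∈ hA i → i ≠ j → q j x = 0)
    (F : B →ₗ[ℂ] A) (e : ℤ) (hF : ∀ i x, x ∈ h i → F x ∈ hA (i - e)) (i : ℤ) (x : B) :
    F (pr i x) = q (i - e) (F x) := by
  have hx : x ∈ ⨆ i, h i := by
    rw [hB.top]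
    exact Submodule.mem_top
  induction hx using Submodule.iSup_induction' with
  | mem j x hx =>
    by_cases hij : j = i
    · subst hij
      rw [h1 j x hx, q1 _ _ (hF j x hx)]
    · rw [h2 j i x hx hij, map_zero, q2 (j - e) (i - e) _ (hF j x hx) (fun h => hij (by omega))]
  | zero => simp
  | add x y _ _ hx hy => rw [map_add, map_add, map_add, map_add, hx, hy]

end Proj

section Main

variable {A R : Type} [CommRing A] [IsDomain A] [CommRing R] [IsDomain R] [Algebra A R]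
  [Algebra ℂ A] [Algebra ℂ R] [IsScalarTower ℂ A R]

/-- the orthogonal complement of `1` and `θ` -/
def MM (Tr Φ : R →ₗ[A] A) : Submodule A R := LinearMap.ker Φ ⊓ LinearMap.ker Tr

theorem mem_MM {Tr Φ : R →ₗ[A] A} {x : R} : x ∈ MM Tr Φ ↔ Φ x = 0 ∧ Tr x = 0 := by
  rw [MM, Submodule.mem_inf, LinearMap.mem_ker, LinearMap.mem_ker]

/-- the grading of the complement -/
def hM (hR : ℤ → Submodule ℂ R) (Tr Φ : R →ₗ[A] A) (i : ℤ) : Submodule ℂ ↥(MM Tr Φ) :=
  (hR i).comap ((MM Tr Φ).subtype.restrictScalars ℂ)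

theorem mem_hM {hR : ℤ → Submodule ℂ R} {Tr Φ : R →ₗ[A] A} {i : ℤ} {x : ↥(MM Tr Φ)} :
    x ∈ hM hR Tr Φ i ↔ (x : R) ∈ hR i := Iff.rfl

/-- the form on the complement -/
def BB (Tr Φ : R →ₗ[A] A) : ↥(MM Tr Φ) →ₗ[A] ↥(MM Tr Φ) →ₗ[A] A :=
  (FF Φ).domRestrict₁₂ (MM Tr Φ) (MM Tr Φ)

theorem BB_apply (Tr Φ : R →ₗ[A] A) (x y : ↥(MM Tr Φ)) : BB Tr Φ x y = Φ ((x : R) * y) := rfl

/-- the hypotheses -/
structure Hyp (hA : ℤ → Submodule ℂ A) (hR : ℤ → Submodule ℂ R) (d : ℕ) (Tr : R →ₗ[A] A)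
    (N : R → A) (δ : ℤ) (θ : R) (Φ : R →ₗ[A] A) : Prop where
  ge : GE hA hR
  cov : Cov d Tr N
  pos : 0 < δ
  hθ : θ ∈ hR δ
  tr : ∀ y, Tr y = Φ (θ * y)
  deg : ∀ j x, x ∈ hR j → Φ x ∈ hA (j - δ)
  sd : SD Φ

variable {hA : ℤ → Submodule ℂ A} {hR : ℤ → Submodule ℂ R} {d : ℕ} {Tr : R →ₗ[A] A}
  {N : R → A} {δ : ℤ} {θ : R} {Φ : R →ₗ[A] A}

theorem Phi_one (H : Hyp hA hR d Tr N δ θ Φ) : Φ 1 = 0 :=
  H.ge.gA.neg _ _ (by have := H.pos; omega) (H.deg 0 1 H.ge.gR.one)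

theorem Tr_one (H : Hyp hA hR d Tr N δ θ Φ) : Tr 1 = d := by
  have h := H.cov.Tr_alg 1
  rwa [map_one, mul_one] at h

theorem Phi_theta (H : Hyp hA hR d Tr N δ θ Φ) : Φ θ = d := by
  rw [← Tr_one H, H.tr 1, mul_one]

theorem d_ne (H : Hyp hA hR d Tr N δ θ Φ) : (d : A) ≠ 0 := by
  have h1 : CharZero A := charZero_of_injective_algebraMap (FaithfulSMul.algebraMap_injective ℂ A)
  exact Nat.cast_ne_zero.2 H.cov.pos.ne'

theorem dC_ne (H : Hyp hA hR d Tr N δ θ Φ) : (d : ℂ) ≠ 0 :=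
  Nat.cast_ne_zero.2 H.cov.pos.ne'

/-- division by `d` -/
theorem div_d (H : Hyp hA hR d Tr N δ θ Φ) (a : A) : ((d : ℂ)⁻¹ • a) * d = a := by
  have h1 : (d : A) = algebraMap ℂ A d := by rw [map_natCast]
  rw [h1, mul_comm, ← Algebra.smul_def, smul_smul, mul_inv_cancel₀ (dC_ne H), one_smul]

/-- the values of `Φ` and `Tr` -/
theorem vals (H : Hyp hA hR d Tr N δ θ Φ) (α β : A) (y : ↥(MM Tr Φ)) :
    Φ (α • (1 : R) + β • θ + y) = β * d ∧ Tr (α • (1 : R) + β • θ + y) = α * d + β * Tr θ := by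
  have hy := mem_MM.1 y.2
  constructor
  · rw [map_add, map_add, map_smul, map_smul, Phi_one H, Phi_theta H, hy.1, smul_zero, zero_add,
      add_zero, smul_eq_mul]
  · rw [map_add, map_add, map_smul, map_smul, Tr_one H, hy.2, add_zero, smul_eq_mul, smul_eq_mul]

/-- coordinates -/
theorem dec (H : Hyp hA hR d Tr N δ θ Φ) (x : R) : ∃ (α β : A) (y : ↥(MM Tr Φ)),
    x = α • (1 : R) + β • θ + y := by
  set β : A := (d : ℂ)⁻¹ • Φ x with hβ
  set α : A := (d : ℂ)⁻¹ • (Tr x - β * Tr θ) with hα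
  have h1 : β * d = Φ x := div_d H _
  have h2 : α * d = Tr x - β * Tr θ := div_d H _
  refine ⟨α, β, ⟨x - (α • (1 : R) + β • θ), ?_⟩, ?_⟩
  · have hv := vals H α β 0
    rw [ZeroMemClass.coe_zero, add_zero] at hv
    rw [mem_MM, map_sub, map_sub, hv.1, hv.2, h1, h2]
    constructor <;> ring
  · simp

/-- uniqueness of the coordinates -/
theorem dec_uniq (H : Hyp hA hR d Tr N δ θ Φ) {α β α' β' : A} {y y' : ↥(MM Tr Φ)}
    (h : α • (1 : R) + β • θ + y = α' • (1 : R) + β' • θ + y') : α = α' ∧ β = β' ∧ y = y' := by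
  have v1 := vals H α β y
  have v2 := vals H α' β' y'
  rw [h] at v1
  have h1 : β = β' := mul_right_cancel₀ (d_ne H) (v1.1.symm.trans v2.1)
  have h2 : α = α' := by
    have h3 := v1.2.symm.trans v2.2
    rw [h1] at h3
    exact mul_right_cancel₀ (d_ne H) (add_right_cancel h3)
  refine ⟨h2, h1, ?_⟩
  rw [h1, h2] at h
  exact Subtype.ext (add_left_cancel h)

/-- the values of `Φ (x y)` for `x` in the complement -/
theorem val_mul (H : Hyp hA hR d Tr N δ θ Φ) (x : ↥(MM Tr Φ)) (α β : A) (y : ↥(MM Tr Φ)) :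
    Φ ((x : R) * (α • (1 : R) + β • θ + y)) = BB Tr Φ x y := by
  have hx := mem_MM.1 x.2
  rw [mul_add, mul_add, mul_smul_comm, mul_smul_comm, mul_one, map_add, map_add, map_smul,
    map_smul, hx.1, mul_comm (x : R) θ, ← H.tr, hx.2, smul_zero, smul_zero, zero_add, zero_add,
    BB_apply]

/-- the form is nondegenerate -/
theorem nondeg (H : Hyp hA hR d Tr N δ θ Φ) (x : R) (hx : ∀ y, Φ (x * y) = 0) : x = 0 := by
  apply H.cov.N_ne
  obtain ⟨c, hc⟩ := H.cov.N_dvd x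
  have h1 : Tr (algebraMap A R (N x)) = 0 := by
    rw [H.tr, hc, ← hx (θ * c)]
    congr 1
    ring
  rw [H.cov.Tr_alg] at h1
  exact (mul_eq_zero.1 h1).resolve_left (d_ne H)

theorem ltc (H : Hyp hA hR d Tr N δ θ Φ) : Ltc hA (hM hR Tr Φ) δ (BB Tr Φ) where
  sym x y := by rw [BB_apply, BB_apply, mul_comm]
  nd x hx := by
    apply Subtype.ext
    refine nondeg H _ fun y => ?_
    obtain ⟨α, β, y', rfl⟩ := dec H y
    rw [val_mul H, hx]
  sd x a ha hx := by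
    have h1 : algebraMap A R a ∣ (x : R) := by
      refine H.sd x a ha fun y => ?_
      obtain ⟨α, β, y', rfl⟩ := dec H y
      rw [val_mul H]
      exact hx y'
    obtain ⟨z, hz⟩ := h1
    have hx' := mem_MM.1 x.2
    rw [hz, ← Algebra.smul_def, map_smul, map_smul, smul_eq_mul, smul_eq_mul] at hx'
    refine ⟨⟨z, mem_MM.2 ⟨(mul_eq_zero.1 hx'.1).resolve_left ha,
      (mul_eq_zero.1 hx'.2).resolve_left ha⟩⟩, ?_⟩
    apply Subtype.ext
    rw [hz]
    exact (Algebra.smul_def a z).symm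
  deg i j x y hx hy := H.deg (i + j) _ (H.ge.gR.mul i j _ _ hx hy)
  top := by
    rw [eq_top_iff]
    rintro x -
    obtain ⟨pr, p0, p1, p2⟩ := H.ge.gR.proj
    obtain ⟨q, -, q1, q2⟩ := H.ge.gA.proj
    have hpr : ∀ i, pr i (x : R) ∈ MM Tr Φ := by
      intro i
      have hx := mem_MM.1 x.2
      have e1 : Φ (pr i (x : R)) = q (i - δ) (Φ x) :=
        map_pr H.ge.gR pr p1 p2 q q1 q2 (Φ.restrictScalars ℂ) δ H.deg i x
      have e2 : Tr (pr i (x : R)) = q (i - 0) (Tr x) := by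
        refine map_pr H.ge.gR pr p1 p2 q q1 q2 (Tr.restrictScalars ℂ) 0 ?_ i x
        intro j y hy
        have h3 := H.deg (δ + j) _ (H.ge.gR.mul δ j _ _ H.hθ hy)
        rw [← H.tr] at h3
        have h4 : δ + j - δ = j - 0 := by ring
        rw [h4] at h3
        exact h3
      rw [mem_MM, e1, e2, hx.1, hx.2, map_zero, map_zero]
      exact ⟨rfl, rfl⟩
    obtain ⟨s, hs, -⟩ := sum_pr H.ge.gR pr p1 p2 (x : R)
    have h1 : x = ∑ i ∈ s, (⟨pr i (x : R), hpr i⟩ : ↥(MM Tr Φ)) := by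
      apply Subtype.ext
      rw [AddSubmonoidClass.coe_finsetSum]
      exact hs
    rw [h1]
    exact Submodule.sum_mem _ fun i _ =>
      (le_iSup (hM hR Tr Φ) i) (show (⟨pr i (x : R), hpr i⟩ : ↥(MM Tr Φ)) ∈ hM hR Tr Φ i from
        p0 i x)
  neg i x hi hx := Subtype.ext (H.ge.gR.neg i x hi hx)
  smul i j a x ha hx := by
    rw [mem_hM] at hx ⊢
    rw [Submodule.coe_smul, Algebra.smul_def]
    exact H.ge.gR.mul i j _ _ ((H.ge.al i a).2 ha) hx
  fac a x k hk h0 := by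
    have h1 : ((a • x : ↥(MM Tr Φ)) : R) = algebraMap A R a * x := by
      rw [Submodule.coe_smul, Algebra.smul_def]
    rw [mem_hM, h1] at hk
    have h2 : algebraMap A R a * (x : R) ≠ 0 := by
      rw [← h1]
      exact fun h => h0 (Subtype.ext h)
    obtain ⟨i, j, hij, hi, hj⟩ := H.ge.gR.fac hk h2
    exact ⟨i, j, hij, (H.ge.al i a).1 hi, hj⟩

/-- the Gram determinants of three elements of the complement -/
theorem gram (H : Hyp hA hR d Tr N δ θ Φ) (h5 : ∀ u : Fin 5 → R, Gm (FF Φ) u = 0)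
    (u : Fin 3 → ↥(MM Tr Φ)) : Gm (BB Tr Φ) u = 0 := by
  have h1 : Gm (FF Φ) (Sum.elim ![1, θ] (fun i => (u i : R))) = 0 := by
    rw [← Gm_reindex (B := FF Φ) (finSumFinEquiv (m := 2) (n := 3)).symm]
    exact h5 _
  have h2 : (Matrix.of fun i j => FF Φ (Sum.elim ![1, θ] (fun i => (u i : R)) i)
      (Sum.elim ![1, θ] (fun i => (u i : R)) j)) =
      Matrix.fromBlocks !![0, (d : A); (d : A), Tr θ] 0 0
        (Matrix.of fun i j => BB Tr Φ (u i) (u j)) := by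
    have k1 := Phi_one H
    have k2 := Phi_theta H
    have k3 : ∀ i, Φ (u i : R) = 0 := fun i => (mem_MM.1 (u i).2).1
    have k4 : ∀ i, Φ (θ * (u i : R)) = 0 := fun i => by
      rw [← H.tr]
      exact (mem_MM.1 (u i).2).2
    have k5 : Φ (θ * θ) = Tr θ := (H.tr θ).symm
    have k6 : ∀ i, Φ ((u i : R) * θ) = 0 := fun i => by rw [mul_comm, k4]
    ext i j
    rcases i with i | i <;> rcases j with j | j
    · fin_cases i <;> fin_cases j <;> simp [FF_apply, k1, k2, k5]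
    · fin_cases i <;> simp [FF_apply, k3, k4]
    · fin_cases j <;> simp [FF_apply, k3, k6]
    · simp [FF_apply, BB_apply]
  rw [Gm, h2, Matrix.det_fromBlocks_zero₂₁, Matrix.det_fin_two_of, zero_mul, zero_sub,
    neg_mul, neg_eq_zero, mul_eq_zero] at h1
  rcases h1 with h1 | h1
  · exact absurd h1 (mul_ne_zero (d_ne H) (d_ne H))
  · exact h1

/-- a basis of the complement gives a basis -/
theorem basis (H : Hyp hA hR d Tr N δ θ Φ) (hb : HBs A (hM hR Tr Φ)) : HBs A hR := by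
  obtain ⟨k, u, e, hu, hc⟩ := hb
  have hsum : ∀ c : Fin (k + 2) → A,
      ∑ i, c i • (Fin.cons 1 (Fin.cons θ (fun i => (u i : R)) : Fin (k + 1) → R) :
        Fin (k + 2) → R) i = c 0 • (1 : R) + c 1 • θ +
        ((∑ i, c i.succ.succ • u i : ↥(MM Tr Φ)) : R) := by
    intro c
    rw [Fin.sum_univ_succ, Fin.sum_univ_succ, ← add_assoc, AddSubmonoidClass.coe_finsetSum]
    simp only [Fin.cons_zero, Fin.cons_succ, Submodule.coe_smul]
    rfl
  refine ⟨k + 2, Fin.cons 1 (Fin.cons θ (fun i => (u i : R))), Fin.cons 0 (Fin.cons δ e), ?_, ?_⟩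
  · intro i
    refine Fin.cases ?_ (fun i => ?_) i
    · exact H.ge.gR.one
    · refine Fin.cases ?_ (fun i => ?_) i
      · exact H.hθ
      · exact hu i
  · intro x
    obtain ⟨α, β, y, rfl⟩ := dec H x
    obtain ⟨c, hc1, hc2⟩ := hc y
    refine ⟨Fin.cons α (Fin.cons β c), ?_, ?_⟩
    · simp only
      rw [hsum]
      simp only [Fin.cons_succ, Fin.cons_zero]
      rw [← hc1]
      rfl
    · intro c' hc'
      rw [hsum] at hc'
      obtain ⟨h1, h2, h3⟩ := dec_uniq H hc'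
      have h4 := hc2 (fun i => c' i.succ.succ) h3
      funext i
      refine Fin.cases ?_ (fun i => ?_) i
      · rw [Fin.cons_zero, h1]
      · refine Fin.cases ?_ (fun i => ?_) i
        · rw [Fin.cons_succ, Fin.cons_zero, h2]
          rfl
        · rw [Fin.cons_succ, Fin.cons_succ, ← h4]

end Main

end DEC

/-- DEC: the decomposition of `R` -/
theorem DEC_thm (h : S_LTB) : S_DEC := by
  intro A R _ _ _ _ _ _ _ _ _ hA hR hge d Tr N hcov δ θ Φ hδ hθ htr hdeg hsd h5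
  have H : DEC.Hyp hA hR d Tr N δ θ Φ := ⟨hge, hcov, hδ, hθ, htr, hdeg, hsd⟩
  exact DEC.basis H (h A ↥(DEC.MM Tr Φ) hA (DEC.hM hR Tr Φ) δ (DEC.BB Tr Φ) hge.gA (DEC.ltc H)
    (DEC.gram H h5))

end Pool.Agent.RFO
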