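import Mathlib
import Pool.Agent.RFO.Gdb

/-!
# DSC: bases at a prime of a lattice which is self-dual at the prime (MP_06550c_nt)
-/

set_option autoImplicit false

namespace Pool.Agent.RFO

namespace DSC

variable {A : Type} [CommRing A] [IsDomain A]

theorem uniq {p : A} (hp : Prime p) {a b : ℕ} {x y : A} (hx : ¬ p ∣ x) (hy : ¬ p ∣ y)
    (h : p ^ a * x = p ^ b * y) : a = b := by
  have key : ∀ {a b : ℕ} {x y : A}, ¬ p ∣ x → p ^ a * x = p ^ b * y → b ≤ a := by
    intro a b x y hx h
    by_contra hlt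
    obtain ⟨c, rfl⟩ : ∃ c, b = a + (c + 1) := ⟨b - a - 1, by omega⟩
    rw [pow_add, mul_assoc] at h
    have h1 := mul_left_cancel₀ (pow_ne_zero a hp.ne_zero) h
    refine hx ?_
    rw [h1, pow_succ']
    exact ⟨p ^ c * y, by ring⟩
  exact le_antisymm (key hy h.symm) (key hx h)

theorem split [UniqueFactorizationMonoid A] {p : A} (hp : Prime p) {x : A} (hx : x ≠ 0) :
    ∃ (k : ℕ) (y : A), x = p ^ k * y ∧ ¬ p ∣ y := by
  have h : FiniteMultiplicity p x := FiniteMultiplicity.of_not_isUnit hp.not_isUnit hx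
  obtain ⟨c, hc, hc'⟩ := h.exists_eq_pow_mul_and_not_dvd
  exact ⟨_, c, hc, hc'⟩

omit [IsDomain A] in
theorem not_dvd_mul {p : A} (hp : Prime p) {x y : A} (hx : ¬ p ∣ x) (hy : ¬ p ∣ y) :
    ¬ p ∣ x * y := fun h => (hp.dvd_or_dvd h).elim hx hy

omit [IsDomain A] in
theorem ker {ι : Type} [Fintype ι] [DecidableEq ι] {p : A} (hp : Prime p) (G : Matrix ι ι A)
    (h : p ∣ G.det) : ∃ (a : ι → A) (i : ι), ¬ p ∣ a i ∧ ∀ i, p ∣ ∑ j, G i j * a j := by
  have hpr : (Ideal.span {p}).IsPrime := (Ideal.span_singleton_prime hp.ne_zero).2 hp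
  have hdet : (G.map (Ideal.Quotient.mk (Ideal.span {p}))).det = 0 := by
    rw [← RingHom.mapMatrix_apply, ← RingHom.map_det, Ideal.Quotient.eq_zero_iff_mem,
      Ideal.mem_span_singleton]
    exact h
  obtain ⟨v, hv, hv'⟩ := Matrix.exists_mulVec_eq_zero_iff.2 hdet
  choose a ha using fun i => Ideal.Quotient.mk_surjective (v i)
  obtain ⟨i, hi⟩ : ∃ i, v i ≠ 0 := by
    by_contra hne
    push Not at hne
    exact hv (funext hne)
  refine ⟨a, i, fun hd => hi ?_, fun i => ?_⟩
  · rw [← ha i, Ideal.Quotient.eq_zero_iff_mem, Ideal.mem_span_singleton]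
    exact hd
  · rw [← Ideal.mem_span_singleton, ← Ideal.Quotient.eq_zero_iff_mem, map_sum]
    have h1 := congrFun hv' i
    rw [Matrix.mulVec, dotProduct] at h1
    refine Eq.trans (Finset.sum_congr rfl fun j _ => ?_) h1
    rw [map_mul, ha]
    rfl

end DSC

open DSC in
/-- DSC: bases at a prime of a lattice which is self-dual at the prime. -/
theorem DSC_thm : S_DSC := by
  classical
  intro A M ι _ _ _ _ _ _ _ B hsym p hp hspan hsd hne
  have hex : ∃ k : ℕ, ∃ (u : ι → M) (x : A), Gm B u = p ^ k * x ∧ ¬ p ∣ x := by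
    obtain ⟨u, hu⟩ := hne
    obtain ⟨k, x, h1, h2⟩ := split hp hu
    exact ⟨k, u, x, h1, h2⟩
  obtain ⟨k, ⟨u, D', hD, hD'⟩, hmin⟩ : ∃ k : ℕ, (∃ (u : ι → M) (x : A),
      Gm B u = p ^ k * x ∧ ¬ p ∣ x) ∧ ∀ l : ℕ, (∃ (u : ι → M) (x : A),
      Gm B u = p ^ l * x ∧ ¬ p ∣ x) → k ≤ l :=
    ⟨Nat.find hex, Nat.find_spec hex, fun l hl => Nat.find_min' hex hl⟩
  have hmin' : ∀ u : ι → M, Gm B u ≠ 0 → ∃ (l : ℕ) (x : A), Gm B u = p ^ l * x ∧ ¬ p ∣ x ∧
      k ≤ l := by
    intro u hu
    obtain ⟨l, x, h1, h2⟩ := split hp hu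
    exact ⟨l, x, h1, h2, hmin l ⟨u, x, h1, h2⟩⟩
  have hx0 : ∀ x : A, ¬ p ∣ x → x ≠ 0 := fun x hx h => hx (h ▸ dvd_zero p)
  have hD0 : Gm B u ≠ 0 := by
    rw [hD]
    exact mul_ne_zero (pow_ne_zero _ hp.ne_zero) (hx0 _ hD')
  refine ⟨u, ?_⟩
  rcases Nat.eq_zero_or_pos k with hk | hk
  · rw [hD, hk, pow_zero, one_mul]
    exact hD'
  · exfalso
    obtain ⟨a, i, hi, ha⟩ := ker hp (Matrix.of fun i j => B (u i) (u j)) (by
      change p ∣ Gm B u
      rw [hD]
      exact (dvd_pow_self p hk.ne').mul_right _)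
    set w := ∑ j, a j • u j with hw
    have hwu : ∀ i, p ∣ B w (u i) := by
      intro i
      rw [hsym, hw, map_sum]
      have h1 := ha i
      have h2 : ∑ j, B (u i) (a j • u j) =
          ∑ j, (Matrix.of fun i j => B (u i) (u j)) i j * a j := by
        refine Finset.sum_congr rfl fun j _ => ?_
        rw [map_smul, smul_eq_mul, Matrix.of_apply, mul_comm]
      rw [h2]
      exact h1
    have hwy : ∀ y, p ∣ B w y := by
      intro y
      obtain ⟨c, hc⟩ := hspan u hD0 y
      have hcj : ∀ j, ∃ c', c j = p ^ k * c' := by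
        intro j
        have h1 : Gm B u ^ 2 * Gm B (Function.update u j y) = c j ^ 2 * Gm B u := by
          rw [← Gm_update_smul, hc, Gm_update_comb]
        have h2 : Gm B u * Gm B (Function.update u j y) = c j ^ 2 := by
          apply mul_left_cancel₀ hD0
          rw [← mul_assoc, ← pow_two, h1, mul_comm]
        by_cases hcz : c j = 0
        · exact ⟨0, by rw [hcz, mul_zero]⟩
        · have h3 : Gm B (Function.update u j y) ≠ 0 := by
            intro h
            rw [h, mul_zero] at h2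
            exact hcz (by simpa using h2.symm)
          obtain ⟨l, g', hg, hg', hl⟩ := hmin' _ h3
          obtain ⟨m, c', hc1, hc2⟩ := split hp hcz
          have h4 : p ^ (k + l) * (D' * g') = p ^ (2 * m) * (c' * c') := by
            rw [hD, hg, hc1] at h2
            calc p ^ (k + l) * (D' * g') = p ^ k * D' * (p ^ l * g') := by ring
              _ = _ := by
                rw [h2]
                ring
          have h5 := uniq hp (not_dvd_mul hp hD' hg') (not_dvd_mul hp hc2 hc2) h4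
          obtain ⟨r, rfl⟩ : ∃ r, m = k + r := ⟨m - k, by omega⟩
          exact ⟨p ^ r * c', by rw [hc1]; ring⟩
      choose c' hc' using hcj
      have h1 : Gm B u * B w y = ∑ j, c j * B w (u j) := by
        rw [← smul_eq_mul, ← map_smul, hc, map_sum]
        refine Finset.sum_congr rfl fun j _ => ?_
        rw [map_smul, smul_eq_mul]
      have h2 : p ^ k * (D' * B w y) = p ^ k * ∑ j, c' j * B w (u j) := by
        rw [← mul_assoc, ← hD, h1, Finset.mul_sum]
        refine Finset.sum_congr rfl fun j _ => ?_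
        rw [hc' j, mul_assoc]
      have h3 := mul_left_cancel₀ (pow_ne_zero k hp.ne_zero) h2
      have h4 : p ∣ D' * B w y := by
        rw [h3]
        exact Finset.dvd_sum fun j _ => (hwu j).mul_left _
      exact (hp.dvd_or_dvd h4).resolve_left hD'
    obtain ⟨z, hz⟩ := hsd w hwy
    have h1 : p ^ 2 * Gm B (Function.update u i z) = a i ^ 2 * Gm B u := by
      rw [← Gm_update_smul, ← hz, hw, Gm_update_comb]
    have hai : ¬ p ∣ a i ^ 2 := by
      rw [pow_two]
      exact not_dvd_mul hp hi hi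
    have h3 : Gm B (Function.update u i z) ≠ 0 := by
      intro h
      rw [h, mul_zero] at h1
      exact mul_ne_zero (hx0 _ hai) hD0 h1.symm
    obtain ⟨l, g', hg, hg', hl⟩ := hmin' _ h3
    have h4 : p ^ (2 + l) * g' = p ^ k * (a i ^ 2 * D') := by
      rw [hg, hD] at h1
      calc p ^ (2 + l) * g' = p ^ 2 * (p ^ l * g') := by ring
        _ = _ := by
          rw [h1]
          ring
    have h5 := uniq hp hg' (not_dvd_mul hp hai hD') h4
    omega

end Pool.Agent.RFO
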