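import Mathlib
import Pool.Agent.RFO.Gdb

/-!
# The discriminant annihilates the quotient of the dual lattice (MP_06550c_nt, third series)
-/

set_option autoImplicit false

namespace Pool.Agent.RFO

namespace DSK

open Matrix

/-- Cramer: `Uᵀ adj(U Uᵀ) U = det(U)^2`. -/
theorem cramer_sq {T Q : Type} [CommRing T] [Fintype Q] [DecidableEq Q] (U : Matrix Q Q T) :
    Uᵀ * ((U * Uᵀ).adjugate * U) = (U.det ^ 2) • (1 : Matrix Q Q T) := by
  rw [Matrix.adjugate_mul_distrib, Matrix.mul_assoc, Matrix.adjugate_mul, Matrix.mul_smul,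
    Matrix.mul_smul, Matrix.mul_one, Matrix.mul_adjugate, Matrix.det_transpose, smul_smul, sq]

end DSK

theorem DSK_thm : S_DSK := by
  intro A R T Q _ _ _ _ _ _ _ _ _ j φ Tr hj hφ hinj hne hTr u hdet
  have hG : (Matrix.of fun i k => FF Tr (u i) (u k)).map j =
      (Matrix.of fun q r => φ r (u q)) * (Matrix.of fun q r => φ r (u q)).transpose := by
    ext i k
    rw [Matrix.map_apply, Matrix.of_apply, FF_apply, hTr, Matrix.mul_apply]
    refine Finset.sum_congr rfl fun r _ => ?_
    rw [map_mul, Matrix.transpose_apply, Matrix.of_apply, Matrix.of_apply]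
  have hD : j (Gm (FF Tr) u) = (Matrix.of fun q r => φ r (u q)).det ^ 2 := by
    rw [Gm, RingHom.map_det, RingHom.mapMatrix_apply, hG, Matrix.det_mul, Matrix.det_transpose, sq]
  have hadj : (Matrix.of fun i k => FF Tr (u i) (u k)).adjugate.map j =
      ((Matrix.of fun q r => φ r (u q)) *
        (Matrix.of fun q r => φ r (u q)).transpose).adjugate := by
    rw [← hG]
    exact RingHom.map_adjugate j _
  refine ⟨fun h => ?_, fun x a ha hx => ?_⟩
  · rw [h, map_zero] at hD
    exact pow_ne_zero 2 hdet hD.symm
  · obtain ⟨r⟩ := hne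
    choose b hb using fun q => hx (u q)
    refine ⟨∑ q, algebraMap A R
      ((Matrix.of fun i k => FF Tr (u i) (u k)).adjugate.mulVec b q) * u q, hinj r ?_⟩
    have hb' : ∀ q, j a * j (b q) =
        (Matrix.of fun q r => φ r (u q)).mulVec (fun r => φ r x) q := by
      intro q
      rw [← map_mul, ← hb q, hTr, Matrix.mulVec, dotProduct]
      refine Finset.sum_congr rfl fun s _ => ?_
      rw [map_mul, Matrix.of_apply, mul_comm]
    have hc : ∀ q, j a * j ((Matrix.of fun i k => FF Tr (u i) (u k)).adjugate.mulVec b q) =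
        (((Matrix.of fun q r => φ r (u q)) *
          (Matrix.of fun q r => φ r (u q)).transpose).adjugate *
            (Matrix.of fun q r => φ r (u q))).mulVec (fun r => φ r x) q := by
      intro q
      rw [← Matrix.mulVec_mulVec, ← hadj, Matrix.mulVec, Matrix.mulVec, dotProduct, dotProduct,
        map_sum, Finset.mul_sum]
      refine Finset.sum_congr rfl fun s _ => ?_
      rw [map_mul, Matrix.map_apply, ← hb' s]
      ring
    have hfin : ∑ q, (Matrix.of fun q r => φ r (u q)).transpose r q *
        (((Matrix.of fun q r => φ r (u q)) *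
          (Matrix.of fun q r => φ r (u q)).transpose).adjugate *
            (Matrix.of fun q r => φ r (u q))).mulVec (fun r => φ r x) q =
        (Matrix.of fun q r => φ r (u q)).det ^ 2 * φ r x := by
      have h := congrFun (congrArg (fun M : Matrix Q Q T => M.mulVec (fun r => φ r x))
        (DSK.cramer_sq (Matrix.of fun q r => φ r (u q)))) r
      rw [← Matrix.mulVec_mulVec, Matrix.smul_mulVec, Matrix.one_mulVec, Pi.smul_apply,
        smul_eq_mul] at h
      exact h
    rw [map_mul, hφ, hD, map_mul, hφ, map_sum, Finset.mul_sum, ← hfin]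
    refine Finset.sum_congr rfl fun q _ => ?_
    rw [map_mul, hφ, ← mul_assoc, hc, Matrix.transpose_apply, Matrix.of_apply]
    exact mul_comm _ _

end Pool.Agent.RFO
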