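import Mathlib
import Pool.Agent.RFO.St2

/-!
# The criterion of flatness, with conjugate subgroups
-/

set_option autoImplicit false

namespace Pool.Agent.RFO

namespace FRC

variable {G T : Type} [Group G] [Finite G] [CommRing T] [Algebra ℂ T]
  [MulSemiringAction G T] [SMulCommClass G ℂ T]

/-- The mean over `K`. -/
noncomputable def av (K : Subgroup G) [Fintype K] (v : T) : T :=
  ((Fintype.card K : ℂ)⁻¹) • ∑ k : K, (k : G) • v

theorem av_mem (K : Subgroup G) [Fintype K] (v : T) : av K v ∈ (Fx K : Subalgebra ℂ T) := by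
  intro g hg
  unfold av
  rw [smul_comm, Finset.smul_sum]
  congr 1
  have h : ∀ k : K, g • ((k : G) • v) = ((Equiv.mulLeft (⟨g, hg⟩ : K) k : K) : G) • v := by
    intro k
    rw [smul_smul]
    rfl
  rw [Finset.sum_congr rfl fun k _ => h k]
  exact Equiv.sum_comp (Equiv.mulLeft (⟨g, hg⟩ : K)) fun k : K => (k : G) • v

theorem av_inv (K : Subgroup G) [Fintype K] (v : T) (h : ∀ g ∈ K, g • v = v) : av K v = v := by
  unfold av
  have h1 : ∀ k : K, (k : G) • v = v := fun k => h k k.2
  rw [Finset.sum_congr rfl fun k _ => h1 k, Finset.sum_const, Finset.card_univ]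
  have hc : (Fintype.card K : ℂ) ≠ 0 := Nat.cast_ne_zero.2 Fintype.card_ne_zero
  rw [← Nat.cast_smul_eq_nsmul ℂ, smul_smul, inv_mul_cancel₀ hc, one_smul]

theorem av_sum (K : Subgroup G) [Fintype K] (q : ℕ) (u v : Fin q → T)
    (hu : ∀ j, ∀ g : G, g • u j = u j) :
    av K (∑ j, v j * u j) = ∑ j, u j * av K (v j) := by
  unfold av
  have h1 : ∀ k : K, (k : G) • (∑ j, v j * u j) = ∑ j, u j * ((k : G) • v j) := by
    intro k
    rw [Finset.smul_sum]
    refine Finset.sum_congr rfl fun j _ => ?_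
    rw [smul_mul', hu, mul_comm]
  rw [Finset.sum_congr rfl fun k _ => h1 k, Finset.sum_comm, Finset.smul_sum]
  refine Finset.sum_congr rfl fun j _ => ?_
  rw [mul_smul_comm, Finset.mul_sum]

end FRC

theorem FRC_thm (h : S_CHC) : S_FRC := by
  intro G T _ _ _ _ _ _ _ hom hHm K P hP hFD r s f hrel hK hnot
  have hK' : Fintype K := Fintype.ofFinite K
  have h0 := h G T hom hHm K P hP hFD r s f hrel hK hnot
  rw [Ideal.span] at h0
  obtain ⟨q, v, u, huv⟩ := Submodule.mem_span_set'.1 h0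
  refine ⟨q, fun j => (u j : T), fun j => FRC.av K (v j), fun j => (u j).2,
    fun j => FRC.av_mem K (v j), ?_⟩
  rw [← FRC.av_sum K q (fun j => (u j : T)) v (fun j => (u j).2.1)]
  have h1 : ∑ j, v j * (u j : T) = f 0 := huv
  rw [h1, FRC.av_inv K (f 0) (hK 0)]

end Pool.Agent.RFO
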