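import Mathlib
import Pool.Agent.RFO.St2

/-!
# HBD: the case of a homogeneous basis
-/

set_option autoImplicit false

namespace Pool.Agent.RFO

namespace HBD

open Polynomial

variable {G T : Type} [Group G] [CommRing T] [Algebra ℂ T] [MulSemiringAction G T]
  [SMulCommClass G ℂ T] {hom : ℤ → Submodule ℂ T}

/-- Homogeneous components. -/
theorem exists_proj (hG : Gr G hom) : ∃ pr : ℤ → T →ₗ[ℂ] T, (∀ i x, pr i x ∈ hom i) ∧
    (∀ i x, x ∈ hom i → pr i x = x) ∧ ∀ i j x, x ∈ hom i → i ≠ j → pr j x = 0 := by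
  classical
  have hint : DirectSum.IsInternal hom :=
    DirectSum.isInternal_submodule_of_iSupIndep_of_iSup_eq_top hG.ind hG.top
  let _ := hint.chooseDecomposition
  refine ⟨fun i => (hom i).subtype ∘ₗ (DirectSum.component ℂ ℤ (fun i => hom i) i) ∘ₗ
    (DirectSum.decomposeLinearEquiv hom).toLinearMap, ?_, ?_, ?_⟩
  · intro i x
    exact Subtype.property _
  · intro i x hx
    exact DirectSum.decompose_of_mem_same hom hx
  · intro i j x hx hij
    exact DirectSum.decompose_of_mem_ne hom hx hij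

theorem lin_eq (hG : Gr G hom) (A B : T →ₗ[ℂ] T) (h : ∀ i, ∀ x ∈ hom i, A x = B x) (x : T) :
    A x = B x := by
  have h1 : (⊤ : Submodule ℂ T) ≤ LinearMap.eqLocus A B := by
    rw [← hG.top]
    exact iSup_le fun i x hx => h i x hx
  exact h1 (Submodule.mem_top : x ∈ (⊤ : Submodule ℂ T))

section pr

variable {pr : ℤ → T →ₗ[ℂ] T}

theorem pr_mul (hG : Gr G hom) (h1 : ∀ i x, x ∈ hom i → pr i x = x)
    (h2 : ∀ i j x, x ∈ hom i → i ≠ j → pr j x = 0) {i : ℤ} {a : T} (ha : a ∈ hom i) (j : ℤ)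
    (x : T) : pr (i + j) (a * x) = a * pr j x := by
  refine lin_eq hG ((pr (i + j)).comp (LinearMap.mulLeft ℂ a))
    ((LinearMap.mulLeft ℂ a).comp (pr j)) (fun k y hy => ?_) x
  simp only [LinearMap.comp_apply, LinearMap.mulLeft_apply]
  by_cases hk : k = j
  · subst hk
    rw [h1 _ _ hy, h1 _ _ (hG.mul _ _ _ _ ha hy)]
  · rw [h2 k j y hy hk, h2 (i + k) (i + j) _ (hG.mul _ _ _ _ ha hy) (by omega), mul_zero]

theorem pr_smul (hG : Gr G hom) (h1 : ∀ i x, x ∈ hom i → pr i x = x)
    (h2 : ∀ i j x, x ∈ hom i → i ≠ j → pr j x = 0) (g : G) (j : ℤ) (x : T) :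
    pr j (g • x) = g • pr j x := by
  refine lin_eq hG ((pr j).comp (DistribSMul.toLinearMap ℂ T g))
    ((DistribSMul.toLinearMap ℂ T g).comp (pr j)) (fun k y hy => ?_) x
  simp only [LinearMap.comp_apply, DistribSMul.toLinearMap_apply]
  by_cases hk : k = j
  · subst hk
    rw [h1 _ _ hy, h1 _ _ (hG.act g _ _ hy)]
  · rw [h2 k j y hy hk, h2 k j _ (hG.act g _ _ hy) hk, smul_zero]

end pr

/-- The elements of degree `0`. -/
def A0 (gr : Gr G hom) : Subring T where
  carrier := {x | x ∈ hom 0}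
  mul_mem' := by
    intro a b ha hb
    have h := gr.mul 0 0 a b ha hb
    rwa [add_zero] at h
  one_mem' := gr.one
  add_mem' := fun ha hb => (hom 0).add_mem ha hb
  zero_mem' := (hom 0).zero_mem
  neg_mem' := fun ha => (hom 0).neg_mem ha

/-- The elements of degree `0` are constants. -/
theorem const_of [IsDomain T] [Finite G] (gr : Gr G hom) {x : T} (hx : x ∈ hom 0) :
    ∃ c : ℂ, x = algebraMap ℂ T c := by
  classical
  haveI : Fintype G := Fintype.ofFinite G
  have h1 : MulSemiringAction.charpoly G x ∈ Polynomial.lifts (A0 gr).subtype := by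
    rw [MulSemiringAction.charpoly_eq]
    apply Subsemiring.prod_mem
    intro g _
    have e : (X - C (g • x) : T[X]) = X + C ((A0 gr).subtype
        (-⟨g • x, gr.act g _ _ hx⟩)) := by
      rw [map_neg, C_neg, sub_eq_add_neg]
      rfl
    rw [e]
    exact (Polynomial.lifts _).add_mem (Polynomial.X_mem_lifts _) (Polynomial.C_mem_lifts _ _)
  have h2 : ∀ n, ∃ c : ℂ, algebraMap ℂ T c = (MulSemiringAction.charpoly G x).coeff n := by
    intro n
    obtain ⟨y, hy⟩ := (Polynomial.lifts_iff_coeff_lifts _).1 h1 n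
    have hy' : (y : T) = (MulSemiringAction.charpoly G x).coeff n := hy
    obtain ⟨c, hc⟩ := gr.zero (y : T) y.2 (fun g => by
      rw [hy']; exact MulSemiringAction.smul_coeff_charpoly x n g)
    exact ⟨c, by rw [← hc, hy']⟩
  have h3 : MulSemiringAction.charpoly G x ∈ Polynomial.lifts (algebraMap ℂ T) :=
    (Polynomial.lifts_iff_coeff_lifts _).2 h2
  obtain ⟨p, hp1, -, hp2⟩ := Polynomial.lifts_and_natDegree_eq_and_monic h3
    (MulSemiringAction.monic_charpoly G x)
  have h4 : IsIntegral ℂ x := ⟨p, hp2, by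
    rw [← eval_map, hp1, MulSemiringAction.eval_charpoly]⟩
  have h5 := minpoly.mem_range_of_degree_eq_one ℂ x
    (IsAlgClosed.degree_eq_one_of_irreducible ℂ (minpoly.irreducible h4))
  obtain ⟨c, hc⟩ := h5
  exact ⟨c, hc.symm⟩

end HBD

open HBD in
theorem HBD_thm : S_HBD := by
  classical
  intro G T _ _ _ _ _ _ _ hom hG K K' hσ hB
  obtain ⟨q, b, e, hb, hu⟩ := hB
  obtain ⟨pr, h0, h1, h2⟩ := exists_proj hG
  have hex : ∀ x : T, ∃ y : Fin q → T, (∀ g ∈ K ⊓ K', g • x = x) →
      ((∀ l, ∀ g ∈ K', g • y l = y l) ∧ x = ∑ l, b l * y l) := by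
    intro x
    by_cases h : ∀ g ∈ K ⊓ K', g • x = x
    · obtain ⟨y, hy, -⟩ := hu x h
      exact ⟨y, fun _ => hy⟩
    · exact ⟨0, fun h' => absurd h' h⟩
  choose yy hyy using hex
  have huq : ∀ x : T, (∀ g ∈ K ⊓ K', g • x = x) → ∀ z : Fin q → T,
      (∀ l, ∀ g ∈ K', g • z l = z l) → x = ∑ l, b l * z l → yy x = z := by
    intro x hx z hz hxz
    exact (hu x hx).unique (hyy x hx) ⟨hz, hxz⟩
  have hKM : ∀ x : T, (∀ g ∈ K, g • x = x) → ∀ g ∈ K ⊓ K', g • x = x :=
    fun x hx g hg => hx g hg.1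
  have hb0 : ∀ l, b l ≠ 0 := by
    intro l hl
    have h3 := huq 0 (fun g _ => smul_zero g) (Pi.single l 1) (fun j g _ => by
      by_cases hj : j = l
      · subst hj
        rw [Pi.single_eq_same, smul_one]
      · rw [Pi.single_eq_of_ne hj, smul_zero]) (by
      symm
      refine Finset.sum_eq_zero fun j _ => ?_
      by_cases hj : j = l
      · subst hj
        rw [hl, zero_mul]
      · rw [Pi.single_eq_of_ne hj, mul_zero])
    have h4 := huq 0 (fun g _ => smul_zero g) 0 (fun j g _ => smul_zero g) (by simp)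
    rw [h3] at h4
    have h5 := congrFun h4 l
    rw [Pi.single_eq_same] at h5
    exact one_ne_zero h5
  have he0 : ∀ l, 0 ≤ e l := by
    intro l
    by_contra h
    exact hb0 l (hG.neg _ _ (not_le.1 h) (hb l).1)
  have hadd : ∀ x x' : T, (∀ g ∈ K, g • x = x) → (∀ g ∈ K, g • x' = x') →
      yy (x + x') = yy x + yy x' := by
    intro x x' hx hx'
    have hy := hyy x (hKM x hx)
    have hy' := hyy x' (hKM x' hx')
    refine huq _ (hKM _ fun g hg => by rw [smul_add, hx g hg, hx' g hg]) _ (fun l g hg => ?_) ?_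
    · rw [Pi.add_apply, smul_add, hy.1 l g hg, hy'.1 l g hg]
    · conv_lhs => rw [hy.2, hy'.2]
      rw [← Finset.sum_add_distrib]
      exact Finset.sum_congr rfl fun l _ => by rw [Pi.add_apply, mul_add]
  have hmul : ∀ s x : T, (∀ g : G, g • s = s) → (∀ g ∈ K, g • x = x) →
      yy (s * x) = fun l => s * yy x l := by
    intro s x hs hx
    have hy := hyy x (hKM x hx)
    refine huq _ (hKM _ fun g hg => by rw [smul_mul', hs, hx g hg]) _ (fun l g hg => ?_) ?_
    · rw [smul_mul', hs, hy.1 l g hg]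
    · conv_lhs => rw [hy.2]
      rw [Finset.mul_sum]
      exact Finset.sum_congr rfl fun l _ => by ring
  have hdeg : ∀ j x, (∀ g ∈ K, g • x = x) → x ∈ hom j → ∀ l, yy x l ∈ hom (j - e l) := by
    intro j x hx hj l
    have hy := hyy x (hKM x hx)
    have h3 : yy x = fun l => pr (j - e l) (yy x l) := by
      refine huq _ (hKM _ hx) _ (fun l g hg => ?_) ?_
      · rw [← pr_smul hG h1 h2, hy.1 l g hg]
      · have h4 : x = pr j x := (h1 _ _ hj).symm
        conv_lhs => rw [h4, hy.2, map_sum]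
        refine Finset.sum_congr rfl fun l _ => ?_
        have h5 := pr_mul hG h1 h2 (hb l).1 (j - e l) (yy x l)
        rwa [show e l + (j - e l) = j by ring] at h5
    rw [h3]
    exact h0 _ _
  refine ⟨hσ, q, fun l => if e l = 0 then 0 else b l, fun l => if e l = 0 then 1 else e l,
    fun l x => if e l = 0 then 0 else yy x l, fun l => ?_, fun l x x' hx hx' => ?_,
    fun l s x hs hx => ?_, fun l j x hx hj => ?_, fun l x hx g hg => ?_, fun x hx g hg => ?_⟩
  · have := he0 l
    dsimp only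
    split_ifs with h
    · exact one_pos
    · omega
  · dsimp only
    split_ifs with h
    · rw [add_zero]
    · rw [hadd x x' hx hx', Pi.add_apply]
  · dsimp only
    split_ifs with h
    · rw [mul_zero]
    · rw [hmul s x hs hx]
  · dsimp only
    split_ifs with h
    · exact Submodule.zero_mem _
    · exact hdeg j x hx hj l
  · dsimp only
    split_ifs with h
    · exact smul_zero g
    · exact (hyy x (hKM x hx)).1 l g hg
  · have hy := hyy x (hKM x hx)
    have h3 : x - ∑ l, (if e l = 0 then 0 else b l) * (if e l = 0 then 0 else yy x l) =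
        ∑ l, if e l = 0 then b l * yy x l else 0 := by
      rw [sub_eq_iff_eq_add, ← Finset.sum_add_distrib]
      conv_lhs => rw [hy.2]
      refine Finset.sum_congr rfl fun l _ => ?_
      split_ifs with h
      · rw [mul_zero, add_zero]
      · rw [zero_add]
    rw [h3, Finset.smul_sum]
    refine Finset.sum_congr rfl fun l _ => ?_
    split_ifs with h
    · have h4 := (hb l).1
      rw [h] at h4
      obtain ⟨c, hc⟩ := const_of hG h4
      rw [hc, smul_mul', hy.1 l g hg, Algebra.algebraMap_eq_smul_one, smul_comm, smul_one]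
    · exact smul_zero g

end Pool.Agent.RFO
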