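import Mathlib
import Pool.Agent.RFO.Gdb
import Pool.Agent.RFO.HBD

/-!
# FRF: the criterion of flatness from a homogeneous basis
-/

set_option autoImplicit false

namespace Pool.Agent.RFO

open HBD in
theorem FRF_thm : S_FRF := by
  classical
  intro G T _ _ _ _ _ _ _ hom hG K hB r s f hrel hf hN
  obtain ⟨q, b, e, hb, hu⟩ := hB
  obtain ⟨pr, h0, h1, h2⟩ := exists_proj hG
  obtain ⟨da, db, w, hsa, hfb, hw⟩ := hrel.ex
  have hex : ∀ i, ∃ y : Fin q → T, (∀ l, ∀ g ∈ (⊤ : Subgroup G), g • y l = y l) ∧
      f i = ∑ l, b l * y l := fun i => (hu (f i) (hf i)).exists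
  choose y hy1 hy2 using hex
  have hinv : ∀ i l (g : G), g • y i l = y i l := fun i l g => hy1 i l g (Subgroup.mem_top g)
  -- the coefficients are homogeneous
  have hdeg : ∀ i l, y i l ∈ hom (db i - e l) := by
    intro i l
    have h3 : y i = fun l => pr (db i - e l) (y i l) := by
      refine (hu (f i) (hf i)).unique ⟨hy1 i, hy2 i⟩ ⟨fun l g _ => ?_, ?_⟩
      · rw [← pr_smul hG h1 h2, hinv i l g]
      · have h4 : f i = pr (db i) (f i) := (h1 _ _ (hfb i)).symm
        conv_lhs => rw [h4, hy2 i, map_sum]
        refine Finset.sum_congr rfl fun l _ => ?_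
        have h5 := pr_mul hG h1 h2 (hb l).1 (db i - e l) (y i l)
        rwa [show e l + (db i - e l) = db i by ring] at h5
    rw [h3]
    exact h0 _ _
  -- the relations between the coefficients
  have hsum : ∀ l, ∑ i, s i * y i l = 0 := by
    intro l
    have h3 : (fun l => ∑ i, s i * y i l) = (0 : Fin q → T) := by
      refine (hu 0 (fun g _ => smul_zero g)).unique ⟨fun l g _ => ?_, ?_⟩
        ⟨fun l g _ => ?_, ?_⟩
      · rw [Finset.smul_sum]
        refine Finset.sum_congr rfl fun i _ => ?_
        rw [smul_mul', hrel.fx i g, hinv i l g]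
      · have h4 := hrel.sum
        rw [← h4]
        have h5 : ∀ i, s i * f i = ∑ l, b l * (s i * y i l) := by
          intro i
          conv_lhs => rw [hy2 i, Finset.mul_sum]
          exact Finset.sum_congr rfl fun l _ => by ring
        rw [Finset.sum_congr rfl fun i _ => h5 i, Finset.sum_comm]
        exact Finset.sum_congr rfl fun l _ => by rw [Finset.mul_sum]
      · exact smul_zero g
      · simp
    exact congrFun h3 l
  refine ⟨q, y 0, b, fun l => ?_, fun l => (hb l).2, ?_⟩
  · refine ⟨hinv 0 l, ?_⟩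
    by_cases hz : y 0 l = 0
    · exact ⟨1, one_pos, by rw [hz]; exact Submodule.zero_mem _⟩
    · rcases lt_trichotomy (db 0 - e l) 0 with h | h | h
      · exact absurd (hG.neg _ _ h (hdeg 0 l)) hz
      · exfalso
        have h3 := hdeg 0 l
        rw [h] at h3
        obtain ⟨c, hc⟩ := hG.zero _ h3 (hinv 0 l)
        have hc0 : c ≠ 0 := by
          rintro rfl
          exact hz (by rw [hc, map_zero])
        refine hN ⟨fun i => - (algebraMap ℂ T c⁻¹ * y i.succ l), fun i g => ?_, ?_⟩
        · rw [smul_neg, smul_mul', hinv, Algebra.algebraMap_eq_smul_one, smul_comm, smul_one]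
        · have h4 := hsum l
          rw [Fin.sum_univ_succ, hc] at h4
          have h5 : algebraMap ℂ T c⁻¹ * algebraMap ℂ T c = 1 := by
            rw [← map_mul, inv_mul_cancel₀ hc0, map_one]
          have h6 : s 0 = algebraMap ℂ T c⁻¹ * (s 0 * algebraMap ℂ T c) := by
            rw [mul_comm (s 0), ← mul_assoc, h5, one_mul]
          rw [h6, eq_neg_of_add_eq_zero_left h4, mul_neg, Finset.mul_sum, ← Finset.sum_neg_distrib]
          exact Finset.sum_congr rfl fun i _ => by ring
      · exact ⟨_, h, hdeg 0 l⟩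
  · conv_lhs => rw [hy2 0]
    exact Finset.sum_congr rfl fun l _ => mul_comm _ _

end Pool.Agent.RFO
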