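import Mathlib
import Pool.Agent.RFO.Gdb
import Pool.Agent.RFO.HBD

/-!
# GAL: independence of the conjugates (MP_06550c_nt, third series)
-/

set_option autoImplicit false

namespace Pool.Agent.RFO

namespace GAL

variable {G T : Type} [Group G] [Finite G] [CommRing T] [IsDomain T] [Algebra ℂ T]
  [MulSemiringAction G T] [SMulCommClass G ℂ T]

/-- an element which fixes the invariants of `K` lies in `K` -/
theorem mem_of_fix [FaithfulSMul G T] (K : Subgroup G) (g : G)
    (h : ∀ x ∈ (Fx K : Subalgebra ℂ T), g • x = x) : g ∈ K := by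
  classical
  have : Fintype K := Fintype.ofFinite K
  have key : ∀ x : T, ∃ k : K, g • x = (k : G) • x := by
    intro x
    let P : Polynomial T := ∏ k : K, (Polynomial.X - Polynomial.C ((k : G) • x))
    have hP : ∀ n, P.coeff n ∈ (Fx K : Subalgebra ℂ T) := by
      intro n k hk
      have h1 : Polynomial.map (MulSemiringAction.toRingHom G T k) P = P := by
        simp only [P, Polynomial.map_prod, Polynomial.map_sub, Polynomial.map_X, Polynomial.map_C]
        refine Fintype.prod_equiv (Equiv.mulLeft (⟨k, hk⟩ : K)) _ _ (fun j => ?_)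
        simp [MulSemiringAction.toRingHom_apply, mul_smul]
      have h2 := congrArg (fun p => Polynomial.coeff p n) h1
      simpa [Polynomial.coeff_map] using h2
    have h1 : Polynomial.map (MulSemiringAction.toRingHom G T g) P = P := by
      ext n
      rw [Polynomial.coeff_map]
      exact h _ (hP n)
    have h2 : P.eval (g • x) = 0 := by
      rw [← h1, Polynomial.eval_map]
      have h3 : P.eval x = 0 := by
        simp only [P, Polynomial.eval_prod]
        refine Finset.prod_eq_zero (Finset.mem_univ (1 : K)) ?_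
        simp
      have h4 := Polynomial.hom_eval₂ P (RingHom.id T) (MulSemiringAction.toRingHom G T g) x
      rw [RingHomCompTriple.comp_eq] at h4
      have h5 : Polynomial.eval₂ (MulSemiringAction.toRingHom G T g)
          ((MulSemiringAction.toRingHom G T g) x) P = 0 := by
        rw [← h4]
        have : Polynomial.eval₂ (RingHom.id T) x P = P.eval x := rfl
        rw [this, h3, map_zero]
      exact h5
    simp only [P, Polynomial.eval_prod, Polynomial.eval_sub, Polynomial.eval_X,
      Polynomial.eval_C] at h2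
    obtain ⟨k, -, hk⟩ := Finset.prod_eq_zero_iff.1 h2
    exact ⟨k, sub_eq_zero.1 hk⟩
  let p : K → Submodule ℂ T := fun k =>
    LinearMap.eqLocus (DistribSMul.toLinearMap ℂ T g) (DistribSMul.toLinearMap ℂ T (k : G))
  have hcov : ⋃ k, (p k : Set T) = Set.univ := by
    refine Set.eq_univ_of_forall fun x => ?_
    obtain ⟨k, hk⟩ := key x
    exact Set.mem_iUnion.2 ⟨k, hk⟩
  obtain ⟨k, hk⟩ := Subspace.exists_eq_top_of_iUnion_eq_univ hcov
  have h1 : g = (k : G) := by
    refine FaithfulSMul.eq_of_smul_eq_smul (α := T) fun x => ?_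
    have : x ∈ p k := by rw [hk]; exact Submodule.mem_top
    exact this
  rw [h1]
  exact k.2

/-- the sum over `K` -/
noncomputable def av (K : Subgroup G) [Fintype K] : T →ₗ[ℂ] T :=
  ∑ k : K, DistribSMul.toLinearMap ℂ T (k : G)

theorem av_apply (K : Subgroup G) [Fintype K] (x : T) : av K x = ∑ k : K, (k : G) • x := by
  simp [av, LinearMap.sum_apply]

theorem av_mem (K : Subgroup G) [Fintype K] (x : T) : av K x ∈ (Fx K : Subalgebra ℂ T) := by
  intro g hg
  rw [av_apply, Finset.smul_sum]
  refine Fintype.sum_equiv (Equiv.mulLeft (⟨g, hg⟩ : K)) _ _ (fun j => ?_)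
  simp [mul_smul]

theorem av_of_mem (K : Subgroup G) [Fintype K] (x : T) (hx : x ∈ (Fx K : Subalgebra ℂ T)) :
    av K x = (Fintype.card K : ℂ) • x := by
  have h1 : ∀ k : K, (k : G) • x = x := fun k => hx (k : G) k.2
  rw [av_apply, Finset.sum_congr rfl (fun k _ => h1 k), Finset.sum_const,
    Finset.card_univ, Nat.cast_smul_eq_nsmul]

theorem av_hom {hom : ℤ → Submodule ℂ T} (hG : Gr G hom) (K : Subgroup G) [Fintype K] {i : ℤ}
    {x : T} (hx : x ∈ hom i) : av K x ∈ hom i := by
  rw [av_apply]
  exact Submodule.sum_mem _ fun k _ => hG.act _ _ _ hx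

end GAL

open GAL in
theorem GAL_thm : S_GAL := by
  intro G T _ _ _ _ _ _ _ _ hom hG K s hs _ _
  classical
  have : Fintype K := Fintype.ofFinite K
  let F := FractionRing T
  let ψ : T →+* F := algebraMap T F
  have hψ : Function.Injective ψ := IsFractionRing.injective T F
  let φ : G ⧸ K → (↥(Fx K : Subalgebra ℂ T) →* F) := fun q =>
    ((ψ.comp (MulSemiringAction.toRingHom G T (s q))).comp
      (Fx K : Subalgebra ℂ T).val.toRingHom).toMonoidHom
  have φ_apply : ∀ q (x : ↥(Fx K : Subalgebra ℂ T)), φ q x = ψ (s q • (x : T)) := fun q x => rfl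
  have hφ : Function.Injective φ := by
    intro q r hqr
    have h1 : (s q)⁻¹ * s r ∈ K := by
      refine mem_of_fix (T := T) K _ fun x hx => ?_
      have h2 := congrArg (fun f => f (⟨x, hx⟩ : ↥(Fx K : Subalgebra ℂ T))) hqr
      simp only [φ_apply] at h2
      have h3 := hψ h2
      rw [mul_smul, ← h3, inv_smul_smul]
    have h2 : (s q : G ⧸ K) = (s r : G ⧸ K) := QuotientGroup.eq.2 h1
    rwa [hs, hs] at h2
  have hli : LinearIndependent F (fun q => (φ q : ↥(Fx K : Subalgebra ℂ T) → F)) :=
    (linearIndependent_monoidHom (↥(Fx K : Subalgebra ℂ T)) F).comp φ hφ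
  let v : T → (G ⧸ K → F) := fun x r => ψ (s r • x)
  let S : Set (G ⧸ K → F) := {w | ∃ (x : T) (i : ℤ), x ∈ (Fx K : Subalgebra ℂ T) ∧ x ∈ hom i ∧
    v x = w}
  have hspan : Submodule.span F S = ⊤ := by
    by_contra hne
    obtain ⟨f, hf, hle⟩ := Submodule.exists_le_ker_of_lt_top _ (lt_top_iff_ne_top.2 hne)
    let c : G ⧸ K → F := fun r => f (Pi.single r 1)
    have hfc : ∀ w, f w = ∑ r, w r * c r := by
      intro w
      conv_lhs => rw [pi_eq_sum_univ' w]
      rw [map_sum]
      refine Finset.sum_congr rfl fun r _ => ?_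
      rw [map_smul, smul_eq_mul]
    have h1 : ∀ (x : T) (i : ℤ), x ∈ (Fx K : Subalgebra ℂ T) → x ∈ hom i →
        ∑ r, ψ (s r • x) * c r = 0 := by
      intro x i hx hi
      have h2 : v x ∈ LinearMap.ker f := hle (Submodule.subset_span ⟨x, i, hx, hi, rfl⟩)
      rw [LinearMap.mem_ker, hfc] at h2
      exact h2
    let L : T →ₗ[ℂ] F := ∑ r, (LinearMap.mulRight ℂ (c r)).comp
      (((IsScalarTower.toAlgHom ℂ T F).toLinearMap).comp (DistribSMul.toLinearMap ℂ T (s r)))
    have hL : ∀ x, L x = ∑ r, ψ (s r • x) * c r := by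
      intro x
      simp only [L, LinearMap.sum_apply, LinearMap.comp_apply, LinearMap.mulRight_apply]
      rfl
    have h2 : ∀ x, L (av K x) = 0 := by
      have h3 : (⊤ : Submodule ℂ T) ≤ LinearMap.ker (L.comp (av K)) := by
        rw [← hG.top]
        refine iSup_le fun i x hx => ?_
        rw [LinearMap.mem_ker, LinearMap.comp_apply, hL]
        exact h1 _ i (av_mem K x) (av_hom hG K hx)
      intro x
      exact LinearMap.mem_ker.1 (h3 (Submodule.mem_top : x ∈ (⊤ : Submodule ℂ T)))
    have h4 : ∀ x ∈ (Fx K : Subalgebra ℂ T), ∑ r, ψ (s r • x) * c r = 0 := by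
      intro x hx
      have h5 := h2 x
      rw [av_of_mem K x hx, map_smul, hL] at h5
      have h6 : (Fintype.card K : ℂ) ≠ 0 := Nat.cast_ne_zero.2 Fintype.card_ne_zero
      exact (smul_eq_zero.1 h5).resolve_left h6
    have h5 : ∀ r, c r = 0 := by
      refine Fintype.linearIndependent_iff.1 hli c ?_
      funext x
      have h6 := h4 x x.2
      simp only [Finset.sum_apply, Pi.smul_apply, smul_eq_mul, Pi.zero_apply]
      rw [← h6]
      refine Finset.sum_congr rfl fun r _ => ?_
      rw [mul_comm]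
      rfl
    apply hf
    refine LinearMap.ext fun w => ?_
    rw [hfc, LinearMap.zero_apply]
    exact Finset.sum_eq_zero fun r _ => by rw [h5 r, mul_zero]
  obtain ⟨b, hbS, hbs, hbl⟩ := exists_linearIndependent F S
  rw [hspan] at hbs
  let B : Module.Basis b F (G ⧸ K → F) := Module.Basis.mk hbl (by
    rw [Subtype.range_coe, hbs])
  have hfin : Finite b := Module.Finite.finite_basis B
  have : Fintype b := Fintype.ofFinite b
  have hcard : Fintype.card (G ⧸ K) = Fintype.card b := by
    rw [← Module.finrank_eq_card_basis B, Module.finrank_fintype_fun_eq_card]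
  let e : G ⧸ K ≃ b := Fintype.equivOfCardEq hcard
  have hch : ∀ q : G ⧸ K, ∃ (x : T) (i : ℤ), x ∈ (Fx K : Subalgebra ℂ T) ∧ x ∈ hom i ∧
      v x = (e q : G ⧸ K → F) := fun q => hbS (e q).2
  choose u d hu1 hu2 hu3 using hch
  refine ⟨u, d, fun q => ⟨hu1 q, hu2 q⟩, fun hdet => ?_⟩
  have h1 : LinearIndependent F (fun q => v (u q)) := by
    have h2 : LinearIndependent F (fun q : G ⧸ K => ((e q : b) : G ⧸ K → F)) :=
      hbl.comp e e.injective
    have h3 : (fun q => v (u q)) = fun q : G ⧸ K => ((e q : b) : G ⧸ K → F) := by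
      funext q
      exact hu3 q
    rw [h3]
    exact h2
  let M : Matrix (G ⧸ K) (G ⧸ K) F := Matrix.of fun q r => v (u q) r
  have h2 : IsUnit M := Matrix.linearIndependent_rows_iff_isUnit.1 h1
  have h3 : M.det ≠ 0 := ((Matrix.isUnit_iff_isUnit_det M).1 h2).ne_zero
  apply h3
  have h4 : M = ψ.mapMatrix (Matrix.of fun q r : G ⧸ K => s r • u q) := by
    ext q r
    rfl
  rw [h4, ← RingHom.map_det, hdet, map_zero]

end Pool.Agent.RFO
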