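import Mathlib
import Pool.Agent.RFO.Gdb

/-!
# GRD: Gram determinants of more than `d` elements vanish (MP_06550c_nt, third series)
-/

set_option autoImplicit false

namespace Pool.Agent.RFO

namespace GRD

/-- A product of an `ι × Q` and a `Q × ι` matrix with `card Q < card ι` has determinant `0`. -/
theorem det_mul_zero {T Q ι : Type} [CommRing T] [Fintype Q] [Fintype ι] [DecidableEq ι]
    (h : Fintype.card Q < Fintype.card ι) (U : Matrix ι Q T) (W : Matrix Q ι T) :
    (U * W).det = 0 := by
  obtain ⟨e⟩ := Function.Embedding.nonempty_of_card_le h.le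
  have hns : ¬ Function.Surjective e := fun hs =>
    absurd (Fintype.card_le_of_surjective e hs) (not_le.2 h)
  obtain ⟨l0, hl0⟩ : ∃ l, ∀ q, e q ≠ l := by
    by_contra hc
    push Not at hc
    exact hns hc
  have h1 : U * W = (Matrix.of fun i l => Function.extend e (U i) 0 l) *
      (Matrix.of fun l k => Function.extend e (fun q => W q k) 0 l) := by
    ext i k
    simp only [Matrix.mul_apply, Matrix.of_apply]
    refine Finset.sum_of_injOn e e.injective.injOn (fun _ _ => Finset.mem_coe.2 (Finset.mem_univ _))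
      (fun l _ hl => ?_) (fun q _ => ?_)
    · have h2 : ¬ ∃ q, e q = l := fun ⟨q, hq⟩ => hl ⟨q, Finset.mem_coe.2 (Finset.mem_univ _), hq⟩
      rw [Function.extend_apply' _ _ _ h2, Pi.zero_apply, zero_mul]
    · rw [e.injective.extend_apply, e.injective.extend_apply]
  rw [h1, Matrix.det_mul, Matrix.det_eq_zero_of_column_eq_zero l0, zero_mul]
  intro i
  rw [Matrix.of_apply, Function.extend_apply' _ _ _ (fun ⟨q, hq⟩ => hl0 q hq), Pi.zero_apply]

end GRD

/-- The Gram determinants of more than `d` elements vanish. -/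
theorem GRD_thm : S_GRD := by
  intro A R T Q ι _ _ _ _ _ _ _ _ _ j φ Tr Φ θ' m hj hTr hm hΦ hcard u
  have h1 : m ^ Fintype.card ι * Gm (FF Φ) u =
      (Matrix.of fun i k => Tr (θ' * (u i * u k))).det := by
    rw [Gm, ← Matrix.det_smul]
    congr 1
    ext i k
    rw [Matrix.smul_apply, Matrix.of_apply, Matrix.of_apply, FF_apply, smul_eq_mul, hΦ]
  have h2 : j (Matrix.of fun i k => Tr (θ' * (u i * u k))).det = 0 := by
    rw [RingHom.map_det]
    have h3 : j.mapMatrix (Matrix.of fun i k => Tr (θ' * (u i * u k))) =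
        (Matrix.of fun (i : ι) (q : Q) => φ q θ' * φ q (u i)) *
          (Matrix.of fun (q : Q) (k : ι) => φ q (u k)) := by
      ext i k
      rw [RingHom.mapMatrix_apply, Matrix.map_apply, Matrix.of_apply, hTr, Matrix.mul_apply]
      refine Finset.sum_congr rfl fun q _ => ?_
      rw [Matrix.of_apply, Matrix.of_apply, map_mul, map_mul, mul_assoc]
    rw [h3, GRD.det_mul_zero hcard]
  have h4 : (Matrix.of fun i k => Tr (θ' * (u i * u k))).det = 0 :=
    hj (by rw [h2, map_zero])
  rw [h4] at h1
  exact (mul_eq_zero.1 h1).resolve_left (pow_ne_zero _ hm)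

end Pool.Agent.RFO
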