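import Mathlib
import Pool.Agent.RFO.Gdb

/-!
# Index at most four: the extension of the invariants (MP_06550c_nt, third series)
-/

set_option autoImplicit false

namespace Pool.Agent.RFO

/-- X4: the criterion of flatness for subgroups of index at most four -/
def S_X4 : Prop :=
  ∀ (G T : Type) [Group G] [Finite G] [CommRing T] [IsDomain T] [Algebra ℂ T]
    [MulSemiringAction G T] [SMulCommClass G ℂ T] [FaithfulSMul G T] (hom : ℤ → Submodule ℂ T),
    Gr G hom → ∀ K : Subgroup G, K.index ≤ 4 →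
    UniqueFactorizationMonoid ↥(Fx (⊤ : Subgroup G) : Subalgebra ℂ T) →
    UniqueFactorizationMonoid ↥(Fx K : Subalgebra ℂ T) →
    (K ≠ ⊤ → ∃ (ρ : G) (P : Ideal T) (p : ↥(Fx (⊤ : Subgroup G) : Subalgebra ℂ T)), P.IsPrime ∧
      ρ ∉ K ∧ (∀ x : T, ρ • x - x ∈ P) ∧
      ∀ q : ↥(Fx (⊤ : Subgroup G) : Subalgebra ℂ T), (q : T) ∈ P ↔ p ∣ q) →
    FR hom K

namespace X4

variable {G T : Type} [Group G] [CommRing T] [Algebra ℂ T]
  [MulSemiringAction G T] [SMulCommClass G ℂ T]

variable (G T) in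
/-- the invariants of `G` -/
abbrev AA : Type := ↥(Fx (⊤ : Subgroup G) : Subalgebra ℂ T)

variable (T) in
/-- the invariants of `K` -/
abbrev RR (K : Subgroup G) : Type := ↥(Fx K : Subalgebra ℂ T)

theorem fx_le (K : Subgroup G) :
    (Fx (⊤ : Subgroup G) : Subalgebra ℂ T) ≤ (Fx K : Subalgebra ℂ T) :=
  fun _ hx g _ => hx g trivial

/-- the inclusion -/
noncomputable abbrev alg (K : Subgroup G) : Algebra (AA G T) (RR T K) :=
  (Subalgebra.inclusion (fx_le (T := T) K)).toRingHom.toAlgebra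

theorem out_mem (K : Subgroup G) (g : G) : ((g : G ⧸ K).out)⁻¹ * g ∈ K := by
  rw [← QuotientGroup.eq]
  exact QuotientGroup.out_eq' _

theorem smul_out {K : Subgroup G} (g : G) {x : T} (hx : x ∈ (Fx K : Subalgebra ℂ T)) :
    (g : G ⧸ K).out • x = g • x := by
  have h1 := hx _ (out_mem K g)
  rw [mul_smul, inv_smul_eq_iff] at h1
  exact h1.symm

theorem smul_smul_out {K : Subgroup G} (g : G) (q : G ⧸ K) {x : T}
    (hx : x ∈ (Fx K : Subalgebra ℂ T)) : g • q.out • x = (g • q).out • x := by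
  rw [← mul_smul, ← smul_out (g * q.out) hx]
  congr 2
  conv_rhs => rw [← QuotientGroup.out_eq' q]
  rfl

section fin

variable (K : Subgroup G) [Fintype (G ⧸ K)]

theorem sum_mem {x : T} (hx : x ∈ (Fx K : Subalgebra ℂ T)) :
    ∑ q : G ⧸ K, q.out • x ∈ (Fx (⊤ : Subgroup G) : Subalgebra ℂ T) := by
  intro g _
  rw [Finset.smul_sum, Finset.sum_congr rfl fun q _ => smul_smul_out g q hx]
  exact Fintype.sum_equiv (MulAction.toPerm g) _ _ fun _ => rfl

theorem prod_mem {x : T} (hx : x ∈ (Fx K : Subalgebra ℂ T)) :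
    ∏ q : G ⧸ K, q.out • x ∈ (Fx (⊤ : Subgroup G) : Subalgebra ℂ T) := by
  intro g _
  rw [Finset.smul_prod', Finset.prod_congr rfl fun q _ => smul_smul_out g q hx]
  exact Fintype.prod_equiv (MulAction.toPerm g) _ _ fun _ => rfl

/-- the trace -/
noncomputable def tr : letI := alg (T := T) K; RR T K →ₗ[AA G T] AA G T :=
  letI := alg (T := T) K
  { toFun := fun x => ⟨∑ q : G ⧸ K, q.out • x.1, sum_mem K x.2⟩
    map_add' := fun x y => Subtype.ext (by
      show ∑ q : G ⧸ K, q.out • (x.1 + y.1) = ∑ q : G ⧸ K, q.out • x.1 + ∑ q : G ⧸ K, q.out • y.1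
      rw [← Finset.sum_add_distrib]
      exact Finset.sum_congr rfl fun q _ => smul_add _ _ _)
    map_smul' := fun a x => Subtype.ext (by
      show ∑ q : G ⧸ K, q.out • (a.1 * x.1) = a.1 * ∑ q : G ⧸ K, q.out • x.1
      rw [Finset.mul_sum]
      refine Finset.sum_congr rfl fun q _ => ?_
      rw [smul_mul', a.2 _ trivial]) }

theorem tr_coe (x : RR T K) : ((tr K x : AA G T) : T) = ∑ q : G ⧸ K, q.out • x.1 := rfl

/-- the norm -/
noncomputable def nm (x : RR T K) : AA G T := ⟨∏ q : G ⧸ K, q.out • x.1, prod_mem K x.2⟩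

/-- the conjugates -/
noncomputable def cg (q : G ⧸ K) : RR T K →+* T :=
  (MulSemiringAction.toRingHom G T q.out).comp (Fx K : Subalgebra ℂ T).val.toRingHom

theorem cg_apply (q : G ⧸ K) (x : RR T K) : cg K q x = q.out • x.1 := rfl

theorem cg_inj (q : G ⧸ K) : Function.Injective (cg (T := T) K q) := by
  intro x y hxy
  rw [cg_apply, cg_apply] at hxy
  exact Subtype.ext (MulAction.injective _ hxy)

end fin

section dom

variable [Finite G] [IsDomain T] (K : Subgroup G) [Fintype (G ⧸ K)]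

theorem cov : letI := alg (T := T) K
    Cov (A := AA G T) (R := RR T K) (Fintype.card (G ⧸ K)) (tr K) (nm K) := by
  classical
  letI := alg (T := T) K
  have hone : ∀ x : RR T K, ((1 : G) : G ⧸ K).out • x.1 = x.1 := fun x => by
    rw [smul_out 1 x.2, one_smul]
  refine ⟨Fintype.card_pos_iff.2 ⟨((1 : G) : G ⧸ K)⟩, ?_, ?_, ?_, ?_, ?_, ?_, ?_⟩
  · intro a b hab
    exact Subtype.ext (congrArg (fun z : RR T K => z.1) hab)
  · intro x
    have h1 : SMulCommClass G (AA G T) T := ⟨fun g a x => by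
      change g • ((a : T) * x) = (a : T) * (g • x)
      rw [smul_mul', a.2 g trivial]⟩
    have h2 : Algebra.IsInvariant (AA G T) T G := ⟨fun b hb => ⟨⟨b, fun g _ => hb g⟩, rfl⟩⟩
    have h3 : Algebra.IsIntegral (AA G T) T := Algebra.IsInvariant.isIntegral (AA G T) T G
    let f : RR T K →ₐ[AA G T] T :=
      { toRingHom := (Fx K : Subalgebra ℂ T).val.toRingHom
        commutes' := fun a => rfl }
    have hf : Function.Injective f := Subtype.val_injective
    exact (isIntegral_algHom_iff f hf).1 (h3.isIntegral _)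
  · intro x y
    apply Subtype.ext
    show ∏ q : G ⧸ K, q.out • (x.1 * y.1) = (∏ q : G ⧸ K, q.out • x.1) * ∏ q : G ⧸ K, q.out • y.1
    rw [← Finset.prod_mul_distrib]
    exact Finset.prod_congr rfl fun q _ => smul_mul' _ _ _
  · intro x hx
    have h1 : ∏ q : G ⧸ K, q.out • x.1 = 0 := congrArg Subtype.val hx
    rw [Finset.prod_eq_zero_iff] at h1
    obtain ⟨q, -, hq⟩ := h1
    apply Subtype.ext
    rw [smul_eq_zero_iff_eq] at hq
    exact hq
  · intro x
    by_cases hx : x.1 = 0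
    · refine ⟨0, Subtype.ext ?_⟩
      show ∏ q : G ⧸ K, q.out • x.1 = x.1 * 0
      rw [mul_zero, Finset.prod_eq_zero_iff]
      exact ⟨((1 : G) : G ⧸ K), Finset.mem_univ _, by rw [hx, smul_zero]⟩
    · obtain ⟨y, hy⟩ : ∃ y : T, ∏ q : G ⧸ K, q.out • x.1 = x.1 * y := by
        refine ⟨∏ q ∈ Finset.univ.erase ((1 : G) : G ⧸ K), q.out • x.1, ?_⟩
        rw [← Finset.mul_prod_erase Finset.univ _ (Finset.mem_univ ((1 : G) : G ⧸ K)), hone]
      have hyK : y ∈ (Fx K : Subalgebra ℂ T) := by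
        intro g hg
        have h1 : g • (∏ q : G ⧸ K, q.out • x.1) = ∏ q : G ⧸ K, q.out • x.1 :=
          prod_mem K x.2 g trivial
        rw [hy, smul_mul', x.2 g hg] at h1
        exact mul_left_cancel₀ hx h1
      exact ⟨⟨y, hyK⟩, Subtype.ext hy⟩
  · intro a
    apply Subtype.ext
    show ∏ q : G ⧸ K, q.out • a.1 = a.1 ^ Fintype.card (G ⧸ K)
    rw [Finset.prod_congr rfl fun q _ => a.2 _ trivial, Finset.prod_const, Finset.card_univ]
  · intro a
    apply Subtype.ext
    show ∑ q : G ⧸ K, q.out • a.1 = ((Fintype.card (G ⧸ K) : AA G T) : T) * a.1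
    rw [Finset.sum_congr rfl fun q _ => a.2 _ trivial, Finset.sum_const, Finset.card_univ,
      nsmul_eq_mul]
    rfl

end dom

section deg

variable {A R ι : Type} [CommRing A] [CommRing R] [Algebra A R] [Algebra ℂ A] [Algebra ℂ R]
  [Fintype ι] [DecidableEq ι]

theorem gd_prod {B : Type} [CommRing B] [Algebra ℂ B] {h : ℤ → Submodule ℂ B} (hB : Gd h)
    {κ : Type} (s : Finset κ) (f : κ → B) (e : κ → ℤ) (hf : ∀ i ∈ s, f i ∈ h (e i)) :
    ∏ i ∈ s, f i ∈ h (∑ i ∈ s, e i) := by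
  classical
  induction s using Finset.induction_on with
  | empty => simpa using hB.one
  | insert a s ha ih =>
    rw [Finset.prod_insert ha, Finset.sum_insert ha]
    exact hB.mul _ _ _ _ (hf a (Finset.mem_insert_self _ _))
      (ih fun i hi => hf i (Finset.mem_insert_of_mem hi))

/-- the Gram determinant of homogeneous elements -/
theorem gm_hom {hA : ℤ → Submodule ℂ A} {hR : ℤ → Submodule ℂ R} (hg : GE hA hR)
    (F : R →ₗ[A] A) (hF : ∀ i x, x ∈ hR i → F x ∈ hA i) (u : ι → R) (e : ι → ℤ)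
    (hu : ∀ i, u i ∈ hR (e i)) : Gm (FF F) u ∈ hA (∑ i, (e i + e i)) := by
  rw [Gm, Matrix.det_apply]
  refine Submodule.sum_mem _ fun σ _ => ?_
  have h1 : ∏ i, FF F (u (σ i)) (u i) ∈ hA (∑ i, (e (σ i) + e i)) := by
    refine gd_prod hg.gA _ _ _ fun i _ => ?_
    rw [FF_apply]
    exact hF _ _ (hg.gR.mul _ _ _ _ (hu _) (hu _))
  have h2 : ∑ i, (e (σ i) + e i) = ∑ i, (e i + e i) := by
    rw [Finset.sum_add_distrib, Finset.sum_add_distrib, Equiv.sum_comp σ e]
  rw [h2] at h1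
  have h4 : ∏ i, (Matrix.of fun i j => FF F (u i) (u j)) (σ i) i = ∏ i, FF F (u (σ i)) (u i) := rfl
  rw [h4]
  rcases Int.units_eq_one_or (Equiv.Perm.sign σ) with h3 | h3
  · rw [h3, one_smul]
    exact h1
  · rw [h3, Units.smul_def, Units.val_neg, Units.val_one, neg_smul, one_smul]
    exact Submodule.neg_mem _ h1

end deg

end X4

end Pool.Agent.RFO
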