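import Mathlib
import Pool.Agent.RFO.Gal4a

/-!
# Index at most four: the extension of the invariants, end (MP_06550c_nt, third series)
-/

set_option autoImplicit false

namespace Pool.Agent.RFO

namespace X4

theorem main (hTHT : S_THT) (hGRD : S_GRD) (hDSK : S_DSK) (hGAL : S_GAL) (hDEC : S_DEC)
    (hRAM : S_RAM) (hFRF : S_FRF) (hSUB : S_SUB) : S_X4 := by
  classical
  intro G T _ _ _ _ _ _ _ _ hom gr K hK4 hUA hUR hram
  by_cases hKt : K = ⊤
  · subst hKt
    refine hFRF G T hom gr ⊤ ⟨1, fun _ => 1, fun _ => 0, fun _ => ⟨gr.one, fun g _ => smul_one g⟩,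
      fun x hx => ⟨fun _ => x, ⟨fun _ => hx, by simp⟩, ?_⟩⟩
    rintro y ⟨-, hy⟩
    funext i
    rw [Fin.sum_univ_one, one_mul] at hy
    rw [hy, Subsingleton.elim i 0]
  obtain ⟨ρ, P, p, hP, hρ, hρP, hp⟩ := hram hKt
  letI := alg (T := T) K
  letI : Fintype (G ⧸ K) := Fintype.ofFinite _
  have hcard : Fintype.card (G ⧸ K) ≤ 4 := by
    rw [← Nat.card_eq_fintype_card]
    exact hK4
  haveI : IsScalarTower ℂ (AA G T) (RR T K) := IsScalarTower.of_algebraMap_eq fun c => rfl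
  have hgA := hSUB G T hom gr ⊤
  have hgR := hSUB G T hom gr K
  have hge : GE (A := AA G T) (R := RR T K)
      (fun i => (hom i).comap (Fx (⊤ : Subgroup G) : Subalgebra ℂ T).val.toLinearMap)
      (fun i => (hom i).comap (Fx K : Subalgebra ℂ T).val.toLinearMap) :=
    ⟨hgA, hgR, fun i a => Iff.rfl⟩
  have hcov := cov (T := T) K
  have hTr : ∀ i (x : RR T K), x ∈ (hom i).comap (Fx K : Subalgebra ℂ T).val.toLinearMap →
      tr K x ∈ (hom i).comap (Fx (⊤ : Subgroup G) : Subalgebra ℂ T).val.toLinearMap := by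
    intro i x hx
    show ∑ q : G ⧸ K, q.out • x.1 ∈ hom i
    exact Submodule.sum_mem _ fun q _ => gr.act _ _ _ hx
  have hjinj : Function.Injective ((Fx (⊤ : Subgroup G) : Subalgebra ℂ T).val.toRingHom) :=
    Subtype.val_injective
  have hφj : ∀ (q : G ⧸ K) (a : AA G T), cg K q (algebraMap (AA G T) (RR T K) a) =
      (Fx (⊤ : Subgroup G) : Subalgebra ℂ T).val.toRingHom a := fun q a => a.2 _ trivial
  have htr : ∀ x : RR T K, (Fx (⊤ : Subgroup G) : Subalgebra ℂ T).val.toRingHom (tr K x) =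
      ∑ q, cg K q x := fun x => rfl
  -- independent conjugates
  obtain ⟨u0, e, hu0, hdet⟩ := hGAL G T hom gr K (fun q => q.out) (fun q => QuotientGroup.out_eq' q)
  let u : G ⧸ K → RR T K := fun q => ⟨u0 q, (hu0 q).1⟩
  obtain ⟨hD0, hD⟩ := hDSK (AA G T) (RR T K) T (G ⧸ K) _ (cg K) (tr K) hjinj hφj (cg_inj K)
    ⟨((1 : G) : G ⧸ K)⟩ htr u hdet
  have hDh := gm_hom hge (tr K) hTr u e fun q => (hu0 q).2
  obtain ⟨δ, θ, θ', m, Φ, hδ, hθ, hm, hΦ, hTΦ, hΦd, hsd, h0⟩ := hTHT (AA G T) (RR T K) _ _ hge _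
    (tr K) (nm K) hcov hTr _ hD0 ⟨_, hDh⟩ hD
  have h2 : (2 : AA G T) ≠ 0 := by
    have : (2 : AA G T) = algebraMap ℂ (AA G T) 2 := by rw [map_ofNat]
    rw [this]
    exact (map_ne_zero_iff _ (algebraMap ℂ (AA G T)).injective).2 two_ne_zero
  have hd : ((Fintype.card (G ⧸ K) : ℕ) : AA G T) ≠ 0 := by
    have : ((Fintype.card (G ⧸ K) : ℕ) : AA G T) =
        algebraMap ℂ (AA G T) ((Fintype.card (G ⧸ K) : ℕ) : ℂ) := by rw [map_natCast]
    rw [this]
    exact (map_ne_zero_iff _ (algebraMap ℂ (AA G T)).injective).2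
      (Nat.cast_ne_zero.2 hcov.pos.ne')
  -- the prime `p` divides the discriminants
  have hpd : ∀ u : G ⧸ K → RR T K, p ∣ Gm (FF (tr K)) u := by
    intro u
    rw [← hp]
    have h3 : ((Gm (FF (tr (T := T) K)) u : AA G T) : T) =
        (Matrix.of fun q r => cg K r (u q)).det * (Matrix.of fun q r => cg K r (u q)).det := by
      have h4 : ((Gm (FF (tr (T := T) K)) u : AA G T) : T) =
          (Matrix.of fun q r : G ⧸ K => ((tr (T := T) K (u q * u r) : AA G T) : T)).det := by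
        rw [Gm]
        exact RingHom.map_det (Fx (⊤ : Subgroup G) : Subalgebra ℂ T).val.toRingHom _
      have h5 : (Matrix.of fun q r => cg K r (u q)).det * (Matrix.of fun q r => cg K r (u q)).det =
          ((Matrix.of fun q r => cg K r (u q)) *
            (Matrix.of fun q r => cg K r (u q)).transpose).det := by
        rw [Matrix.det_mul, Matrix.det_transpose]
      rw [h4, h5]
      congr 1
      ext q r
      rw [Matrix.mul_apply]
      show ∑ s : G ⧸ K, s.out • ((u q).1 * (u r).1) =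
        ∑ s : G ⧸ K, (s.out • (u q).1) * (s.out • (u r).1)
      exact Finset.sum_congr rfl fun s _ => smul_mul' _ _ _
    rw [h3]
    refine Ideal.mul_mem_left _ _ ?_
    rw [← Ideal.Quotient.eq_zero_iff_mem, RingHom.map_det]
    have hne : ((1 : G) : G ⧸ K) ≠ ((ρ : G) : G ⧸ K) := by
      intro h
      rw [QuotientGroup.eq, inv_one, one_mul] at h
      exact hρ h
    refine Matrix.det_zero_of_column_eq hne fun q => ?_
    show Ideal.Quotient.mk P (((1 : G) : G ⧸ K).out • (u q).1) =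
      Ideal.Quotient.mk P (((ρ : G) : G ⧸ K).out • (u q).1)
    rw [smul_out 1 (u q).2, smul_out ρ (u q).2, one_smul, Ideal.Quotient.eq]
    have := hρP (u q).1
    rw [← neg_sub]
    exact P.neg_mem this
  have hprime : Prime p := by
    refine ⟨?_, ?_, ?_⟩
    · rintro rfl
      exact hD0 (zero_dvd_iff.1 (hpd u))
    · intro hu
      have h1 : ((1 : AA G T) : T) ∈ P := (hp 1).2 hu.dvd
      exact hP.ne_top ((Ideal.eq_top_iff_one P).2 h1)
    · intro a b hab
      rw [← hp, ← hp]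
      exact hP.mem_or_mem ((hp (a * b)).2 hab)
  have hgrT : ∀ u : Option (G ⧸ K) → RR T K, Gm (FF (tr K)) u = 0 := by
    refine hGRD (AA G T) (RR T K) T (G ⧸ K) (Option (G ⧸ K)) _ (cg K) (tr K) (tr K) 1 1 hjinj htr
      one_ne_zero (fun y => by rw [one_mul, one_mul]) ?_
    rw [Fintype.card_option]
    exact Nat.lt_succ_self _
  have hnsd := hRAM (AA G T) (RR T K) (G ⧸ K) _ (tr K) (nm K) h2 hcov hd ⟨u, hD0⟩ hgrT p hprime hpd
  have hδ' : 0 < δ := by
    rcases hδ.lt_or_eq with h | h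
    · exact h
    · exact absurd (h0 h.symm) hnsd
  have hgr5 : ∀ u : Fin 5 → RR T K, Gm (FF Φ) u = 0 := by
    refine hGRD (AA G T) (RR T K) T (G ⧸ K) (Fin 5) _ (cg K) (tr K) Φ θ' m hjinj htr hm hΦ ?_
    rw [Fintype.card_fin]
    omega
  obtain ⟨k, b, f, hb, hbu⟩ := hDEC (AA G T) (RR T K) _ _ hge _ (tr K) (nm K) hcov δ θ Φ hδ' hθ hTΦ
    hΦd hsd hgr5
  refine hFRF G T hom gr K ⟨k, fun i => (b i).1, f, fun i => ⟨hb i, fun g hg => (b i).2 g hg⟩, ?_⟩
  intro x hx
  obtain ⟨c, hc, hcu⟩ := hbu ⟨x, hx⟩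
  refine ⟨fun i => (c i).1, ⟨fun i g hg => (c i).2 g hg, ?_⟩, ?_⟩
  · have h3 := congrArg Subtype.val hc
    rw [AddSubmonoidClass.coe_finsetSum] at h3
    refine h3.trans (Finset.sum_congr rfl fun i _ => ?_)
    exact mul_comm _ _
  · rintro y ⟨hy, hxy⟩
    have h3 := hcu (fun i => ⟨y i, hy i⟩) (Subtype.ext (by
      rw [AddSubmonoidClass.coe_finsetSum]
      refine hxy.trans (Finset.sum_congr rfl fun i _ => ?_)
      exact mul_comm _ _))
    rw [← h3]

end X4

end Pool.Agent.RFO
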