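import Mathlib
import Pool.Agent.RFO.Gdb

/-!
# Homogeneous pairs (MP_06550c_nt, third series)
-/

set_option autoImplicit false

namespace Pool.Agent.RFO

namespace HPR

theorem two_zero {A M : Type} [CommRing A] [IsDomain A] [AddCommGroup M] [Module A M]
    {B : M →ₗ[A] M →ₗ[A] A} (sym : ∀ x y, B x y = B y x) {x y : M} (hx : B x x = 0)
    (hG : Gm B ![x, y] = 0) : B x y = 0 := by
  rw [Gm_two] at hG
  simp only [Matrix.cons_val_zero, Matrix.cons_val_one] at hG
  rw [hx, zero_mul, zero_sub, neg_eq_zero, sym y x, mul_self_eq_zero] at hG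
  exact hG

theorem all_zero {A M : Type} [CommRing A] [IsDomain A] [Algebra ℂ A]
    [AddCommGroup M] [Module A M] [Module ℂ M]
    {hM : ℤ → Submodule ℂ M} (top : ⨆ i, hM i = ⊤) (C : M →ₗ[A] M →ₗ[A] A)
    (h : ∀ i j x y, x ∈ hM i → y ∈ hM j → C x y = 0) (x y : M) : C x y = 0 := by
  have hy : ∀ i x, x ∈ hM i → ∀ y, C x y = 0 := by
    intro i x hx y
    have h1 : y ∈ ⨆ i, hM i := by rw [top]; exact Submodule.mem_top
    induction h1 using Submodule.iSup_induction' with
    | mem j y hy => exact h i j x y hx hy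
    | zero => exact map_zero _
    | add y z _ _ h1 h2 => rw [map_add, h1, h2, add_zero]
  have h1 : x ∈ ⨆ i, hM i := by rw [top]; exact Submodule.mem_top
  induction h1 using Submodule.iSup_induction' with
  | mem j x hx => exact hy j x hx y
  | zero => rw [map_zero, LinearMap.zero_apply]
  | add x z _ _ h1 h2 => rw [map_add, LinearMap.add_apply, h1, h2, add_zero]

end HPR

open HPR in
theorem HPR_thm : S_HPR := by
  intro A M _ _ _ _ _ _ _ hA hM δ B _ hL hu
  obtain ⟨u, hu⟩ := hu
  by_contra hcon
  have H : ∀ i j x y, x ∈ hM i → y ∈ hM j → Gm B ![x, y] = 0 := by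
    intro i j x y hx hy
    by_contra hne
    refine hcon ⟨![x, y], ![i, j], ?_, hne⟩
    intro k
    fin_cases k
    · exact hx
    · exact hy
  by_cases hw : ∀ i w, w ∈ hM i → B w w = 0
  · have h0 : ∀ x y, B x y = 0 :=
      all_zero hL.top B fun i j x y hx hy => two_zero hL.sym (hw i x hx) (H i j x y hx hy)
    exact hu (by rw [Gm_two, h0, h0 (u 0) (u 1)]; ring)
  · simp only [not_forall] at hw
    obtain ⟨i, w, hwi, hb⟩ := hw
    -- the projection
    let L : M →ₗ[A] M := B w w • LinearMap.id - (B w).smulRight w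
    have hLa : ∀ z, L z = B w w • z - B w z • w := fun z => rfl
    have hLhom : ∀ j z, z ∈ hM j → L z ∈ hM (i + i - δ + j) := by
      intro j z hz
      rw [hLa]
      refine Submodule.sub_mem _ (hL.smul _ _ _ _ (hL.deg i i w w hwi hwi) hz) ?_
      have h1 := hL.smul _ _ _ _ (hL.deg i j w z hwi hz) hwi
      rwa [show i + j - δ + i = i + i - δ + j by ring] at h1
    have hself : ∀ j z, z ∈ hM j → B (L z) (L z) = 0 := by
      intro j z hz
      have h1 := H i j w z hwi hz
      rw [Gm_two] at h1
      simp only [Matrix.cons_val_zero, Matrix.cons_val_one] at h1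
      rw [hLa]
      simp only [map_sub, map_smul, LinearMap.sub_apply, LinearMap.smul_apply, smul_eq_mul]
      rw [hL.sym z w] at h1 ⊢
      linear_combination (B w w) * h1
    have hC : ∀ y z, B (L y) (L z) = 0 := by
      intro y z
      have := all_zero hL.top ((B.comp L).compl₂ L) (fun j k y z hy hz => by
        rw [LinearMap.compl₂_apply, LinearMap.comp_apply]
        exact two_zero hL.sym (hself j y hy) (H _ _ _ _ (hLhom j y hy) (hLhom k z hz))) y z
      rwa [LinearMap.compl₂_apply, LinearMap.comp_apply] at this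
    have hLw : ∀ y, B (L y) w = 0 := by
      intro y
      rw [hLa]
      simp only [map_sub, map_smul, LinearMap.sub_apply, LinearMap.smul_apply, smul_eq_mul]
      rw [hL.sym y w]
      ring
    have hL0 : ∀ y, L y = 0 := by
      intro y
      refine hL.nd _ fun z => ?_
      have h1 := hC y z
      rw [hLa z, map_sub, map_smul, map_smul, hLw, smul_zero, sub_zero, smul_eq_mul] at h1
      exact (mul_eq_zero.1 h1).resolve_left hb
    have hy : ∀ y, B w w • y = B w y • w := by
      intro y
      have h1 := hL0 y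
      rw [hLa] at h1
      exact sub_eq_zero.1 h1
    have hB : ∀ y z, B w w * B y z = B w y * B w z := by
      intro y z
      have h1 := congrArg (fun v => B v z) (hy y)
      simpa only [map_smul, LinearMap.smul_apply, smul_eq_mul] using h1
    refine hu ?_
    have h1 : B w w ^ 2 * Gm B u = 0 := by
      rw [Gm_two]
      have e1 := hB (u 0) (u 0)
      have e2 := hB (u 1) (u 1)
      have e3 := hB (u 0) (u 1)
      have e4 := hB (u 1) (u 0)
      calc B w w ^ 2 * (B (u 0) (u 0) * B (u 1) (u 1) - B (u 0) (u 1) * B (u 1) (u 0))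
          = (B w w * B (u 0) (u 0)) * (B w w * B (u 1) (u 1)) -
            (B w w * B (u 0) (u 1)) * (B w w * B (u 1) (u 0)) := by ring
        _ = 0 := by rw [e1, e2, e3, e4]; ring
    exact (mul_eq_zero.1 h1).resolve_left (pow_ne_zero 2 hb)

end Pool.Agent.RFO
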