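import Mathlib
import Pool.Agent.RFO.Gdb

/-!
# INC: the primes of `A` and of `R` (MP_06550c_nt, third series)
-/

set_option autoImplicit false

namespace Pool.Agent.RFO

theorem INC_thm : S_INC := by
  intro A R _ _ _ _ _ _ d Tr N hC π hπ
  have hN0 : N π ≠ 0 := fun h => hπ.ne_zero (hC.N_ne π h)
  obtain ⟨f, hf, u, hu⟩ := UniqueFactorizationMonoid.exists_prime_factors (N π) hN0
  have h1 : π ∣ algebraMap A R f.prod := by
    have h2 : algebraMap A R f.prod * algebraMap A R (u : A) = algebraMap A R (N π) := by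
      rw [← map_mul, hu]
    have h3 : π ∣ algebraMap A R f.prod * algebraMap A R (u : A) := by
      rw [h2]
      exact hC.N_dvd π
    rcases hπ.dvd_or_dvd h3 with h | h
    · exact h
    · exact absurd (isUnit_of_dvd_unit h (u.isUnit.map (algebraMap A R))) hπ.not_unit
  rw [map_multiset_prod] at h1
  obtain ⟨p, hp, hπp⟩ := hπ.exists_mem_multiset_map_dvd h1
  have hpp : Prime p := hf p hp
  have hpN : p ∣ N π := (Multiset.dvd_prod hp).trans ⟨u, hu.symm⟩
  refine ⟨p, hpp, fun a => ⟨fun h => ?_, fun h => hπp.trans (map_dvd (algebraMap A R) h)⟩⟩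
  obtain ⟨b, hb⟩ := h
  have h4 : a ^ d = N π * N b := by
    rw [← hC.N_alg, hb, hC.N_mul]
  exact hpp.dvd_of_dvd_pow (h4 ▸ hpN.mul_right (N b))

end Pool.Agent.RFO
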