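import Mathlib
import Pool.Agent.RFO.Gdb

/-!
# Perfect lattices of rank two with an isotropic vector split (MP_06550c_nt)
-/

set_option autoImplicit false

namespace Pool.Agent.RFO

namespace ISO

section

variable {A M : Type} [CommRing A] [IsDomain A] [AddCommGroup M] [Module A M]
  {B : M →ₗ[A] M →ₗ[A] A}

/-- vectors orthogonal to the hyperbolic pair are isotropic -/
theorem orth (sym : ∀ x y, B x y = B y x) (hG : ∀ u : Fin 3 → M, Gm B u = 0) {e1 e2 : M}
    (h11 : B e1 e1 = 0) (h12 : B e1 e2 ≠ 0) {z : M} (hz1 : B z e1 = 0)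
    (hz2 : B z e2 = 0) : B z z = 0 := by
  have h1 := hG ![e1, e2, z]
  rw [Gm, Matrix.det_fin_three] at h1
  simp only [Matrix.of_apply, Matrix.cons_val_zero, Matrix.cons_val_one, Matrix.cons_val] at h1
  rw [sym e1 z, sym e2 z, sym e2 e1, hz1, hz2, h11] at h1
  have h2 : B e1 e2 * B e1 e2 * B z z = 0 := by linear_combination -h1
  exact (mul_eq_zero.1 h2).resolve_left (mul_ne_zero h12 h12)

/-- the expansion along the hyperbolic pair -/
theorem expand (h2 : (2 : A) ≠ 0) (sym : ∀ x y, B x y = B y x)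
    (nd : ∀ x, (∀ y, B x y = 0) → x = 0) (hG : ∀ u : Fin 3 → M, Gm B u = 0) {e1 e2 : M}
    (h11 : B e1 e1 = 0) (h22 : B e2 e2 = 0) (h12 : B e1 e2 ≠ 0) (y : M) :
    B e1 e2 • y = B y e2 • e1 + B y e1 • e2 := by
  have hf : ∀ y : M, B (B e1 e2 • y - B y e2 • e1 - B y e1 • e2) e1 = 0 ∧
      B (B e1 e2 • y - B y e2 • e1 - B y e1 • e2) e2 = 0 := by
    intro y
    simp only [map_sub, map_smul, LinearMap.sub_apply, LinearMap.smul_apply, smul_eq_mul]
    constructor
    · rw [h11, sym e2 e1]
      ring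
    · rw [h22]
      ring
  have h0 : B e1 e2 • y - B y e2 • e1 - B y e1 • e2 = 0 := by
    refine nd _ fun z => ?_
    set y' : M := B e1 e2 • y - B y e2 • e1 - B y e1 • e2 with hy'
    set z' : M := B e1 e2 • z - B z e2 • e1 - B z e1 • e2 with hz'
    have hy1 : B y' e1 = 0 := (hf y).1
    have hy2 : B y' e2 = 0 := (hf y).2
    have hz1 : B z' e1 = 0 := (hf z).1
    have hz2 : B z' e2 = 0 := (hf z).2
    have a1 : B y' y' = 0 := orth sym hG h11 h12 hy1 hy2
    have a2 : B z' z' = 0 := orth sym hG h11 h12 hz1 hz2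
    have a3 : B (y' + z') (y' + z') = 0 := by
      refine orth sym hG h11 h12 ?_ ?_
      · rw [map_add, LinearMap.add_apply, hy1, hz1, add_zero]
      · rw [map_add, LinearMap.add_apply, hy2, hz2, add_zero]
    have a4 : B y' z' = 0 := by
      have h3 : (2 : A) * B y' z' = 0 := by
        simp only [map_add, LinearMap.add_apply, a1, a2, sym z' y'] at a3
        linear_combination a3
      exact (mul_eq_zero.1 h3).resolve_left h2
    have a5 : B y' z' = B e1 e2 * B y' z := by
      rw [hz', map_sub, map_sub, map_smul, map_smul, map_smul, hy1, hy2, smul_eq_mul, smul_zero,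
        smul_zero, sub_zero, sub_zero]
    rw [a4] at a5
    exact (mul_eq_zero.1 a5.symm).resolve_left h12
  have h1 := sub_eq_zero.1 h0
  rw [sub_eq_iff_eq_add] at h1
  rw [h1, add_comm]

end

end ISO

theorem ISO_thm (h : S_PMV) : S_ISO := by
  intro A M _ _ _ _ _ _ _ _ hA hM δ B gA L hG i e he he0 hee
  have hu2 : IsUnit (2 : A) := by
    have h1 : IsUnit (algebraMap ℂ A 2) := (isUnit_iff_ne_zero.2 two_ne_zero).map _
    rwa [map_ofNat] at h1
  have h2 : (2 : A) ≠ 0 := hu2.ne_zero
  obtain ⟨a, e1, j1, ha, hae, he1, hj1, hp1⟩ := h A M hA hM δ B gA L i e he he0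
  have h11 : B e1 e1 = 0 := by
    rw [hae, map_smul, map_smul, LinearMap.smul_apply, smul_eq_mul, smul_eq_mul] at hee
    exact (mul_eq_zero.1 ((mul_eq_zero.1 hee).resolve_left ha)).resolve_left ha
  -- a homogeneous vector not orthogonal to `e1`
  obtain ⟨k, x, hx, hb⟩ : ∃ (k : ℤ) (x : M), x ∈ hM k ∧ B e1 x ≠ 0 := by
    by_contra hcon
    push Not at hcon
    apply he1
    refine L.nd e1 fun y => ?_
    have hy : y ∈ ⨆ i, hM i := by rw [L.top]; exact Submodule.mem_top
    refine Submodule.iSup_induction hM (motive := fun y => B e1 y = 0) hy ?_ ?_ ?_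
    · intro i x hx
      exact hcon i x hx
    · exact map_zero _
    · intro x y hx hy
      rw [map_add, hx, hy, add_zero]
  have hbA := L.deg j1 k e1 x hj1 hx
  have hcA := L.deg k k x x hx hx
  set e2' : M := (2 * B e1 x) • x - B x x • e1 with he2'
  have he2'h : e2' ∈ hM (j1 + k - δ + k) := by
    refine Submodule.sub_mem _ (L.smul _ _ _ _ ?_ hx) ?_
    · rw [two_mul]
      exact Submodule.add_mem _ hbA hbA
    · have h3 := L.smul _ _ _ _ hcA hj1
      rwa [show k + k - δ + j1 = j1 + k - δ + k by ring] at h3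
  have hsym : B x e1 = B e1 x := L.sym x e1
  have h22' : B e2' e2' = 0 := by
    rw [he2']
    simp only [map_sub, map_smul, LinearMap.sub_apply, LinearMap.smul_apply, smul_eq_mul]
    rw [h11, hsym]
    ring
  have h12' : B e1 e2' = 2 * B e1 x * B e1 x := by
    rw [he2']
    simp only [map_sub, map_smul, smul_eq_mul]
    rw [h11]
    ring
  have h12'0 : B e1 e2' ≠ 0 := by
    rw [h12']
    exact mul_ne_zero (mul_ne_zero h2 hb) hb
  have he2'0 : e2' ≠ 0 := by
    intro h0
    exact h12'0 (by rw [h0, map_zero])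
  obtain ⟨a2, e2, j2, ha2, hae2, he2, hj2, hp2⟩ := h A M hA hM δ B gA L _ e2' he2'h he2'0
  have h22 : B e2 e2 = 0 := by
    rw [hae2, map_smul, map_smul, LinearMap.smul_apply, smul_eq_mul, smul_eq_mul] at h22'
    exact (mul_eq_zero.1 ((mul_eq_zero.1 h22').resolve_left ha2)).resolve_left ha2
  have h12 : B e1 e2 ≠ 0 := by
    intro h0
    apply h12'0
    rw [hae2, map_smul, h0, smul_zero]
  have hexp := ISO.expand h2 L.sym L.nd hG h11 h22 h12
  -- the number `B e1 e2` is a unit
  have hu : IsUnit (B e1 e2) := by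
    by_contra hnu
    obtain ⟨p, hp, hpa⟩ := WfDvdMonoid.exists_irreducible_factor hnu h12
    have hpp : Prime p := UniqueFactorizationMonoid.irreducible_iff_prime.1 hp
    have hp2' : ¬ p ∣ 2 := fun hd => hpp.not_isUnit (isUnit_of_dvd_unit hd hu2)
    obtain ⟨y, hy⟩ : ∃ y, ¬ p ∣ B e1 y := by
      by_contra hcon
      push Not at hcon
      obtain ⟨z, hz⟩ := L.sd e1 p hpp.ne_zero hcon
      exact hp1 p hpp z hz
    obtain ⟨x, hx⟩ : ∃ x, ¬ p ∣ B e2 x := by
      by_contra hcon
      push Not at hcon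
      obtain ⟨z, hz⟩ := L.sd e2 p hpp.ne_zero hcon
      exact hp2 p hpp z hz
    have key : ∀ x y : M, B e1 e2 * B x y = B e2 x * B e1 y + B e1 x * B e2 y := by
      intro x y
      have h3 : B (B e1 e2 • x) y = B (B x e2 • e1 + B x e1 • e2) y := by rw [hexp x]
      rw [map_add, map_smul, map_smul, map_smul, LinearMap.add_apply, LinearMap.smul_apply,
        LinearMap.smul_apply, LinearMap.smul_apply, smul_eq_mul, smul_eq_mul, smul_eq_mul,
        L.sym x e2, L.sym x e1] at h3
      exact h3
    have hx1 : p ∣ B e1 x := by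
      have h3 : p ∣ 2 * (B e2 x * B e1 x) := by
        have h4 := key x x
        have h5 : 2 * (B e2 x * B e1 x) = B e1 e2 * B x x := by rw [h4]; ring
        rw [h5]
        exact hpa.mul_right _
      exact (hpp.dvd_or_dvd ((hpp.dvd_or_dvd h3).resolve_left hp2')).resolve_left hx
    have h6 : p ∣ B e2 x * B e1 y := by
      have h4 := key x y
      have h5 : B e2 x * B e1 y = B e1 e2 * B x y - B e1 x * B e2 y := by rw [h4]; ring
      rw [h5]
      exact dvd_sub (hpa.mul_right _) (hx1.mul_right _)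
    rcases hpp.dvd_or_dvd h6 with h7 | h7
    · exact hx h7
    · exact hy h7
  obtain ⟨v, hv⟩ := hu.exists_left_inv
  refine ⟨2, ![e1, e2], ![j1, j2], ?_, fun y => ⟨![v * B y e2, v * B y e1], ?_, ?_⟩⟩
  · intro i
    fin_cases i
    · exact hj1
    · exact hj2
  · simp only [Fin.sum_univ_two, Matrix.cons_val_zero, Matrix.cons_val_one]
    rw [mul_smul, mul_smul, ← smul_add, ← hexp y, ← mul_smul, hv, one_smul]
  · intro c hc
    simp only [Fin.sum_univ_two, Matrix.cons_val_zero, Matrix.cons_val_one] at hc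
    have hc0 : c 0 = v * B y e2 := by
      have h3 : B y e2 = c 0 * B e1 e2 := by
        rw [hc, map_add, map_smul, map_smul, LinearMap.add_apply, LinearMap.smul_apply,
          LinearMap.smul_apply, h22, smul_eq_mul, smul_eq_mul, mul_zero, add_zero]
      rw [h3]
      linear_combination -(c 0) * hv
    have hc1 : c 1 = v * B y e1 := by
      have h3 : B y e1 = c 1 * B e1 e2 := by
        rw [hc, map_add, map_smul, map_smul, LinearMap.add_apply, LinearMap.smul_apply,
          LinearMap.smul_apply, h11, smul_eq_mul, smul_eq_mul, mul_zero, zero_add, L.sym e2 e1]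
      rw [h3]
      linear_combination -(c 1) * hv
    funext i
    fin_cases i
    · exact hc0
    · exact hc1

end Pool.Agent.RFO
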