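import Mathlib
import Pool.Agent.RFO.Gdb

/-!
# Perfect lattices of rank at most one over a graded factorial domain (MP_06550c_nt)
-/

set_option autoImplicit false

namespace Pool.Agent.RFO

namespace LTA

section

variable {A M : Type} [CommRing A] [IsDomain A] [AddCommGroup M] [Module A M]
  {B : M →ₗ[A] M →ₗ[A] A}

/-- the module is torsion-free -/
theorem tf (nd : ∀ x, (∀ y, B x y = 0) → x = 0) {a : A} (ha : a ≠ 0) {x : M} (hx : a • x = 0) :
    x = 0 := by
  refine nd x fun y => ?_
  have h1 : a * B x y = 0 := by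
    have h2 : B (a • x) y = 0 := by rw [hx, map_zero, LinearMap.zero_apply]
    rwa [map_smul, LinearMap.smul_apply, smul_eq_mul] at h2
  exact (mul_eq_zero.1 h1).resolve_left ha

theorem iso (sym : ∀ x y, B x y = B y x) (hG : ∀ u : Fin 2 → M, Gm B u = 0) {x : M}
    (hx : B x x = 0) (y : M) : B x y = 0 := by
  have h1 := hG ![x, y]
  rw [Gm_two] at h1
  simp only [Matrix.cons_val_zero, Matrix.cons_val_one, hx, zero_mul, zero_sub, neg_eq_zero] at h1
  rw [sym y x] at h1
  exact mul_self_eq_zero.1 h1

/-- every vector is proportional to `w` -/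
theorem prop (sym : ∀ x y, B x y = B y x) (nd : ∀ x, (∀ y, B x y = 0) → x = 0)
    (hG : ∀ u : Fin 2 → M, Gm B u = 0) {w : M} (hw : B w w ≠ 0) (y : M) :
    B w w • y = B w y • w := by
  have h0 : B w w • y - B w y • w = 0 := by
    refine nd _ (iso sym hG ?_)
    set y' : M := B w w • y - B w y • w with hy'
    have h1 : B w y' = 0 := by
      rw [hy', map_sub, map_smul, map_smul, smul_eq_mul, smul_eq_mul]
      ring
    have h2 := hG ![w, y']
    rw [Gm_two] at h2
    simp only [Matrix.cons_val_zero, Matrix.cons_val_one, h1, zero_mul, sub_zero] at h2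
    exact (mul_eq_zero.1 h2).resolve_left hw
  exact sub_eq_zero.1 h0

end

end LTA

theorem LTA_thm (h : S_PMV) : S_LTA := by
  intro A M _ _ _ _ _ _ _ _ hA hM δ B gA L hG
  by_cases hz : ∀ (i : ℤ) (w : M), w ∈ hM i → B w w = 0
  · have h1 : ∀ x : M, x = 0 := by
      have h2 : ∀ i, hM i = ⊥ := by
        intro i
        rw [Submodule.eq_bot_iff]
        intro w hw
        exact L.nd w (LTA.iso L.sym hG (hz i w hw))
      have h3 : (⊤ : Submodule ℂ M) = ⊥ := by
        rw [← L.top]
        simp [h2]
      intro x
      have h4 : x ∈ (⊤ : Submodule ℂ M) := Submodule.mem_top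
      rw [h3] at h4
      exact (Submodule.mem_bot ℂ).1 h4
    refine ⟨0, fun _ => 0, fun _ => 0, fun i => i.elim0, fun x => ⟨fun _ => 0, ?_, ?_⟩⟩
    · exact (h1 x).trans (h1 _).symm
    · intro c _
      funext i
      exact i.elim0
  · push Not at hz
    obtain ⟨i, w0, hw0, hne⟩ := hz
    have hw00 : w0 ≠ 0 := by
      rintro rfl
      exact hne (by rw [map_zero])
    obtain ⟨a, w, j, ha, haw, hw_ne, hwj, hprim⟩ := h A M hA hM δ B gA L i w0 hw0 hw00
    have hww : B w w ≠ 0 := by
      intro h0
      apply hne
      rw [haw, map_smul, map_smul, LinearMap.smul_apply, h0, smul_zero, smul_zero]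
    refine ⟨1, fun _ => w, fun _ => j, fun _ => hwj, fun y => ?_⟩
    obtain ⟨a1, b1, g, hrel, hga, hgb⟩ :=
      UniqueFactorizationMonoid.exists_reduced_factors (B w w) hww (B w y)
    have hg : g ≠ 0 := by
      rintro rfl
      exact hww (by rw [← hga, zero_mul])
    have h1 : a1 • y = b1 • w := by
      have h2 := LTA.prop L.sym L.nd hG hww y
      rw [← hgb, ← hga, mul_smul, mul_smul] at h2
      have h3 : g • (a1 • y - b1 • w) = 0 := by rw [smul_sub, h2, sub_self]
      exact sub_eq_zero.1 (LTA.tf L.nd hg h3)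
    have ha1 : a1 ≠ 0 := by
      rintro rfl
      exact hww (by rw [← hga, mul_zero])
    have hu : IsUnit a1 := by
      by_contra hnu
      obtain ⟨p, hp, hpa⟩ := WfDvdMonoid.exists_irreducible_factor hnu ha1
      have hpp : Prime p := UniqueFactorizationMonoid.irreducible_iff_prime.1 hp
      have hpb : ¬ p ∣ b1 := fun hb => hp.not_isUnit (hrel hpa hb)
      have h4 : ∀ z, p ∣ B w z := by
        intro z
        have h5 : b1 * B w z = a1 * B y z := by
          have h6 : B (a1 • y) z = B (b1 • w) z := by rw [h1]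
          rw [map_smul, map_smul, LinearMap.smul_apply, LinearMap.smul_apply, smul_eq_mul,
            smul_eq_mul] at h6
          exact h6.symm
        have h7 : p ∣ b1 * B w z := by
          rw [h5]
          exact hpa.mul_right _
        exact (hpp.dvd_or_dvd h7).resolve_left hpb
      obtain ⟨z, hz⟩ := L.sd w p hpp.ne_zero h4
      exact hprim p hpp z hz
    obtain ⟨v, hv⟩ := hu.exists_left_inv
    refine ⟨fun _ => v * b1, ?_, ?_⟩
    · simp only [Finset.univ_unique, Finset.sum_singleton]
      rw [mul_smul, ← h1, ← mul_smul, hv, one_smul]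
    · intro c hc
      simp only [Finset.univ_unique, Finset.sum_singleton] at hc
      funext k
      have h8 : (c default - v * b1) • w = 0 := by
        rw [sub_smul, ← hc, mul_smul, ← h1, ← mul_smul, hv, one_smul, sub_self]
      by_contra hne'
      apply hw_ne
      refine LTA.tf L.nd ?_ h8
      rw [sub_ne_zero]
      have : k = default := Subsingleton.elim _ _
      rw [← this]
      exact hne'

end Pool.Agent.RFO
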