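import Mathlib
import Pool.Agent.RFO.Gdb

/-!
# Perfect lattices of rank at most two (MP_06550c_nt, third series)
-/

set_option autoImplicit false

namespace Pool.Agent.RFO

theorem LTB_thm (h1 : S_LTA) (h2 : S_HPR) (h3 : S_SQD) (h4 : S_ISO) : S_LTB := by
  intro A M _ _ _ _ _ _ _ _ hA hM δ B gA hL hG
  by_cases hp : ∀ u : Fin 2 → M, Gm B u = 0
  · exact h1 A M hA hM δ B gA hL hp
  · push Not at hp
    obtain ⟨w, e, hw, hne⟩ := h2 A M hA hM δ B gA hL hp
    obtain ⟨t, ht⟩ := h3 A M hA hM δ B gA hL hG w hne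
    have hsym : B (w 1) (w 0) = B (w 0) (w 1) := hL.sym _ _
    have ha := hL.deg _ _ _ _ (hw 0) (hw 0)
    have hb := hL.deg _ _ _ _ (hw 0) (hw 1)
    have hc := hL.deg _ _ _ _ (hw 1) (hw 1)
    have hGm : Gm B w = B (w 0) (w 0) * B (w 1) (w 1) - B (w 0) (w 1) * B (w 0) (w 1) := by
      rw [Gm_two, hsym]
    have ht0 : t ≠ 0 := by
      rintro rfl
      apply hne
      have : Gm B w = -(0 : A) ^ 2 := by
        rw [ht, neg_neg]
      rw [this]
      ring
    have htt : t * t ∈ hA ((e 0 + e 1 - δ) + (e 0 + e 1 - δ)) := by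
      have h5 : t * t = B (w 0) (w 1) * B (w 0) (w 1) - B (w 0) (w 0) * B (w 1) (w 1) := by
        rw [← pow_two, ht, hGm]
        ring
      rw [h5]
      refine Submodule.sub_mem _ (gA.mul _ _ _ _ hb hb) ?_
      have h6 := gA.mul _ _ _ _ ha hc
      have h7 : e 0 + e 0 - δ + (e 1 + e 1 - δ) = (e 0 + e 1 - δ) + (e 0 + e 1 - δ) := by ring
      rwa [h7] at h6
    have htk : t ∈ hA (e 0 + e 1 - δ) := by
      obtain ⟨i, j, hij, hi, hj⟩ := gA.fac htt (mul_ne_zero ht0 ht0)
      have h8 := gA.uniq hi hj ht0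
      have h9 : i = e 0 + e 1 - δ := by omega
      rw [← h9]
      exact hi
    by_cases h0 : B (w 0) (w 0) = 0
    · refine h4 A M hA hM δ B gA hL hG (e 0) (w 0) (hw 0) ?_ h0
      intro hz
      apply hne
      rw [hGm, hz]
      simp
    · refine h4 A M hA hM δ B gA hL hG (e 0 + e 1 - δ + e 0)
        ((t - B (w 0) (w 1)) • w 0 + B (w 0) (w 0) • w 1) ?_ ?_ ?_
      · refine Submodule.add_mem _ (hL.smul _ _ _ _ (Submodule.sub_mem _ htk hb) (hw 0)) ?_
        have h10 := hL.smul _ _ _ _ ha (hw 1)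
        have h11 : e 0 + e 0 - δ + e 1 = e 0 + e 1 - δ + e 0 := by ring
        rwa [h11] at h10
      · intro hz
        have h12 : B ((t - B (w 0) (w 1)) • w 0 + B (w 0) (w 0) • w 1) (w 0) = 0 := by
          rw [hz]
          simp
        have h13 : B ((t - B (w 0) (w 1)) • w 0 + B (w 0) (w 0) • w 1) (w 0)
            = t * B (w 0) (w 0) := by
          rw [map_add, LinearMap.add_apply, map_smul, map_smul, LinearMap.smul_apply,
            LinearMap.smul_apply, smul_eq_mul, smul_eq_mul, hsym]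
          ring
        rw [h13] at h12
        exact mul_ne_zero ht0 h0 h12
      · have h14 : B ((t - B (w 0) (w 1)) • w 0 + B (w 0) (w 0) • w 1)
            ((t - B (w 0) (w 1)) • w 0 + B (w 0) (w 0) • w 1)
            = B (w 0) (w 0) * (t ^ 2 + Gm B w) := by
          simp only [map_add, map_smul, LinearMap.add_apply, LinearMap.smul_apply, smul_eq_mul,
            hsym]
          rw [hGm]
          ring
        rw [h14, ht]
        ring

end Pool.Agent.RFO
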