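import Mathlib
import Pool.Agent.RFO.Gdb

/-!
# PMV: primitive vectors (MP_06550c_nt, third series)
-/

set_option autoImplicit false

namespace Pool.Agent.RFO

/-- PMV: primitive vectors. -/
theorem PMV_thm : S_PMV := by
  intro A M _ _ _ _ _ _ _ _ hA hM δ B hGd hL
  have key : ∀ (n : ℕ) (i : ℤ) (w : M), i.toNat < n → w ∈ hM i → w ≠ 0 →
      ∃ (a : A) (w' : M) (j : ℤ), a ≠ 0 ∧ w = a • w' ∧ w' ≠ 0 ∧ w' ∈ hM j ∧
        ∀ p : A, Prime p → ∀ z : M, w' ≠ p • z := by
    intro n
    induction n with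
    | zero => intro i w h; exact absurd h (Nat.not_lt_zero _)
    | succ n ih =>
      intro i w hi hw hw0
      by_cases h : ∀ p : A, Prime p → ∀ z : M, w ≠ p • z
      · exact ⟨1, w, i, one_ne_zero, (one_smul A w).symm, hw0, hw, h⟩
      · push Not at h
        obtain ⟨p, hp, z, hz⟩ := h
        rw [hz] at hw hw0
        obtain ⟨i', j', hij, hi', hj'⟩ := hL.fac p z i hw hw0
        have h1 : 0 < i' := hGd.pos_of_prime hi' hp
        have hz0 : z ≠ 0 := by
          rintro rfl
          exact hw0 (smul_zero p)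
        have h2 : 0 ≤ j' := by
          by_contra hneg
          exact hz0 (hL.neg j' z (not_le.1 hneg) hj')
        obtain ⟨a, w', j, ha, hzw, hw0', hwj, hprim⟩ := ih j' z (by omega) hj' hz0
        refine ⟨p * a, w', j, mul_ne_zero hp.ne_zero ha, ?_, hw0', hwj, hprim⟩
        rw [hz, hzw, smul_smul]
  intro i w hw hw0
  exact key (i.toNat + 1) i w (Nat.lt_succ_self _) hw hw0

end Pool.Agent.RFO
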