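import Mathlib
import Pool.Agent.RFO.Abel

/-!
# Unitary modular forms and reflection overgroups: the definitions used in the statements
-/

set_option autoImplicit false

namespace Pool.Agent.RFO.Pub

variable {n : ℕ}

/-- the linear automorphisms of `V = ℂ^(n+1)` -/
def Au (n : ℕ) : Type := Vn n ≃ₗ[ℂ] Vn n

/-- composition -/
noncomputable instance instAu (n : ℕ) : Group (Au n) :=
  inferInstanceAs (Group (Vn n ≃ₗ[ℂ] Vn n))

/-- the vector `g x` -/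
def ap (g : Au n) (x : Vn n) : Vn n := (show Vn n ≃ₗ[ℂ] Vn n from g) x

/-- the vector `t x` -/
def sc (t : ℂ) (x : Vn n) : Vn n := fun i => t * x i

/-- the vector `x - y` -/
def sb (x y : Vn n) : Vn n := fun i => x i - y i

/-! ### Hermitian lattices -/

/-- `x` is a linear combination of the `b i` with coefficients in `ℚ(√d)` -/
def Cmb (d : ℤ) (b : Fin (n + 1) → Vn n) (x : Vn n) : Prop :=
  ∃ c : Fin (n + 1) → ℂ, (∀ i, c i ∈ Fd d) ∧ ∀ j, x j = ∑ i, c i * b i j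

/-- `L` contains a basis of `V` in which the vectors of `L` have coordinates in `ℚ(√d)` -/
def HasB (d : ℤ) (L : AddSubgroup (Vn n)) : Prop :=
  ∃ b : Fin (n + 1) → Vn n, LinearIndependent ℂ b ∧ (∀ i, b i ∈ L) ∧ ∀ x ∈ L, Cmb d b x

theorem hasB {d : ℤ} {L : AddSubgroup (Vn n)} (h : HasB d L) :
    ∃ b : Module.Basis (Fin (n + 1)) ℂ (Vn n), (∀ i, b i ∈ L) ∧ ∀ x ∈ L, ∀ i, b.repr x i ∈ Fd d := by
  obtain ⟨b, hb, hbL, hx⟩ := h
  have hc : Fintype.card (Fin (n + 1)) = Module.finrank ℂ (Vn n) := by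
    rw [Fintype.card_fin, Module.finrank_fin_fun]
  refine ⟨basisOfLinearIndependentOfCardEqFinrank hb hc, fun i => ?_, fun x hxL i => ?_⟩
  · rw [coe_basisOfLinearIndependentOfCardEqFinrank]
    exact hbL i
  · obtain ⟨c, hc1, hc2⟩ := hx x hxL
    have h1 : x = ∑ i, c i • basisOfLinearIndependentOfCardEqFinrank hb hc i := by
      funext j
      rw [hc2 j, coe_basisOfLinearIndependentOfCardEqFinrank, Finset.sum_apply]
      rfl
    rw [h1, Module.Basis.repr_sum_self]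
    exact hc1 i

/-- `L` is a Hermitian lattice over the ring of integers of `ℚ(√d)`, with the form `H` on
`V = L ⊗ ℂ` -/
structure Lat (d : ℤ) (H : HForm n) (L : AddSubgroup (Vn n)) : Prop where
  fg : L.FG
  sm : ∀ a ∈ Fd d, IsIntegral ℤ a → ∀ x ∈ L, sc a x ∈ L
  ba : HasB d L
  vl : ∀ x ∈ L, ∀ y ∈ L, H.h x y ∈ Fd d

/-- `g` preserves the form and the lattice -/
def Pres (H : HForm n) (L : AddSubgroup (Vn n)) (g : Au n) : Prop :=
  (∀ x y, H.h (ap g x) (ap g y) = H.h x y) ∧ ∀ x, ap g x ∈ L ↔ x ∈ L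

theorem pres_one (H : HForm n) (L : AddSubgroup (Vn n)) : Pres H L 1 :=
  (RFO.UL H L).one_mem

theorem pres_mul {H : HForm n} {L : AddSubgroup (Vn n)} {a b : Au n} (ha : Pres H L a)
    (hb : Pres H L b) : Pres H L (a * b) :=
  (RFO.UL H L).mul_mem ha hb

theorem pres_inv {H : HForm n} {L : AddSubgroup (Vn n)} {a : Au n} (ha : Pres H L a) :
    Pres H L a⁻¹ :=
  (RFO.UL H L).inv_mem ha

/-- the group `U(L)` -/
def UL (H : HForm n) (L : AddSubgroup (Vn n)) : Subgroup (Au n) where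
  carrier := {g | Pres H L g}
  one_mem' := pres_one H L
  mul_mem' := pres_mul
  inv_mem' := pres_inv

/-! ### Modular forms -/

/-- modular forms of weight `k` for the group `Γ` -/
structure IsMF (H : HForm n) (Γ : Subgroup (Au n)) (k : ℕ) (f : cone H → ℂ) : Prop where
  hol : Hol H f
  wt : ∀ t : ℂ, t ≠ 0 → ∀ z w : cone H, w.1 = sc t z.1 → f z = t ^ k * f w
  inv : ∀ g ∈ Γ, ∀ z w : cone H, w.1 = ap g z.1 → f w = f z

/-- the algebra of the modular forms of all weights -/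
def MS (H : HForm n) (Γ : Subgroup (Au n)) : Subalgebra ℂ (cone H → ℂ) :=
  Algebra.adjoin ℂ {f | ∃ k, IsMF H Γ k f}

/-- the algebra of modular forms is a polynomial algebra over `ℂ` in `n + 1` algebraically
independent homogeneous generators -/
def Free (H : HForm n) (Γ : Subgroup (Au n)) : Prop :=
  ∃ f : Fin (n + 1) → (cone H → ℂ), (∀ i, ∃ k, IsMF H Γ k (f i)) ∧
    AlgebraicIndependent ℂ f ∧ Algebra.adjoin ℂ (Set.range f) = MS H Γ

/-! ### Reflections and conjugates -/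

/-- a reflection `x ↦ x - (1 - ε) (h(x, r) / h(r, r)) r` with `h(r, r) > 0` and `ε ≠ 1` a root of
unity -/
def IsRefl (H : HForm n) (ρ : Au n) : Prop :=
  ∃ (r : Vn n) (ε : ℂ), 0 < (H.h r r).re ∧ ε ≠ 1 ∧ (∃ m : ℕ, 0 < m ∧ ε ^ m = 1) ∧
    ∀ x, ap ρ x = sb x (sc ((1 - ε) * (H.h x r / H.h r r)) r)

/-- the subgroup generated by `Γ` and by the reflections in `Γ₁` -/
noncomputable def RG (H : HForm n) (Γ Γ₁ : Subgroup (Au n)) : Subgroup (Au n) :=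
  Subgroup.closure {x | x ∈ Γ ∨ x ∈ Γ₁ ∧ IsRefl H x}

/-- the subgroup generated by `Γ` and the conjugates `s Γ s⁻¹`, `s ∈ S` -/
noncomputable def Cj (Γ : Subgroup (Au n)) (S : Set (Au n)) : Subgroup (Au n) :=
  Subgroup.closure {x | x ∈ Γ ∨ ∃ s ∈ S, ∃ γ ∈ Γ, x = s * γ * s⁻¹}

/-! ### The bridge -/

theorem lat {d : ℤ} {H : HForm n} {L : AddSubgroup (Vn n)} (h : Lat d H L) : IsLat d H L :=
  ⟨h.fg, h.sm, hasB h.ba, h.vl⟩

theorem mf_iff (H : HForm n) (Γ : Subgroup (Au n)) (k : ℕ) (f : cone H → ℂ) :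
    IsMF H Γ k f ↔ RFO.IsMF H Γ k f :=
  ⟨fun h => ⟨h.hol, h.wt, h.inv⟩, fun h => ⟨h.hol, h.wt, h.inv⟩⟩

theorem ms_eq (H : HForm n) (Γ : Subgroup (Au n)) : MS H Γ = RFO.MS H Γ := by
  unfold MS RFO.MS
  congr 1
  ext f
  exact exists_congr fun k => mf_iff H Γ k f

theorem free_iff (H : HForm n) (Γ : Subgroup (Au n)) : Free H Γ ↔ RFO.FreeN H Γ := by
  constructor
  · rintro ⟨f, hf, hi, ha⟩
    choose k hk using hf
    exact ⟨f, k, fun i => (mf_iff H Γ _ _).1 (hk i), hi, by rw [ha, ms_eq]⟩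
  · rintro ⟨f, k, hk, hi, ha⟩
    exact ⟨f, fun i => ⟨k i, (mf_iff H Γ _ _).2 (hk i)⟩, hi, by rw [ha, ms_eq]⟩

theorem refl_iff (H : HForm n) (ρ : Au n) : IsRefl H ρ ↔ RFO.IsRefl H ρ := Iff.rfl

theorem rg_eq (H : HForm n) (Γ Γ₁ : Subgroup (Au n)) : RG H Γ Γ₁ =
    Subgroup.closure (((show Subgroup (Vn n ≃ₗ[ℂ] Vn n) from Γ) : Set (Vn n ≃ₗ[ℂ] Vn n)) ∪
      {ρ | ρ ∈ Γ₁ ∧ RFO.IsRefl H ρ}) := rfl

theorem cj_eq (Γ : Subgroup (Au n)) (S : Set (Au n)) : Cj Γ S = RFO.Cj Γ S := rfl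

theorem abel {d : ℤ} (hd : d < 0) {H : HForm n} {L : AddSubgroup (Vn n)} (hL : Lat d H L)
    {Γ Γ₁ : Subgroup (Au n)} (hle : Γ ≤ Γ₁) (hU : Γ₁ ≤ UL H L) (hf : Γ.relIndex (UL H L) ≠ 0)
    (hgen : Γ₁ ≤ RG H Γ Γ₁) (hF : Free H Γ) (S : Set (Au n)) (hS : ∀ s ∈ S, s ∈ Γ₁)
    (hn : ∀ g ∈ Γ₁, ∀ x ∈ Cj Γ S, g * x * g⁻¹ ∈ Cj Γ S)
    (hc : ∀ s ∈ S, ∀ a ∈ Γ, ∀ b ∈ Γ, s * (a * b * a⁻¹ * b⁻¹) * s⁻¹ ∈ Γ) : Free H Γ₁ :=
  (free_iff H Γ₁).2 (MOD.abel hd (lat hL) hle hU hf hgen ((free_iff H Γ).1 hF) S hS hn hc)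

end Pool.Agent.RFO.Pub
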