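import Mathlib
import Pool.Agent.RFO.Gdb

/-!
# RAM: there is ramification (MP_06550c_nt, third series)
-/

set_option autoImplicit false

namespace Pool.Agent.RFO

namespace RAM

theorem nondeg {A R : Type} [CommRing A] [IsDomain A] [CommRing R] [Algebra A R] {d : ℕ}
    {Tr : R →ₗ[A] A} {N : R → A} (hc : Cov d Tr N) (hd : (d : A) ≠ 0) (x : R)
    (h : ∀ y, FF Tr x y = 0) : x = 0 := by
  obtain ⟨y, hy⟩ := hc.N_dvd x
  have h1 := h y
  rw [FF_apply, ← hy, hc.Tr_alg] at h1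
  exact hc.N_ne x ((mul_eq_zero.1 h1).resolve_left hd)

end RAM

/-- RAM: there is ramification -/
theorem RAM_thm (h1 : S_DSC) (h2 : S_SPA) : S_RAM := by
  intro A R Q _ _ _ _ _ _ _ _ d Tr N h20 hc hd hex hop p hp hall hSD
  have hsym : ∀ x y, FF Tr x y = FF Tr y x := by
    intro x y
    rw [FF_apply, FF_apply, mul_comm]
  obtain ⟨u, hu⟩ := h1 A R Q (FF Tr) hsym p hp
    (h2 A R Q (FF Tr) h20 hsym (RAM.nondeg hc hd) hop) (by
      intro w hw
      obtain ⟨z, hz⟩ := hSD w p hp.ne_zero hw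
      exact ⟨z, by rw [hz, Algebra.smul_def]⟩) hex
  exact hu (hall u)

end Pool.Agent.RFO
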