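import Mathlib
import Pool.Agent.RFO.Gdb

/-!
# SPA: independent vectors of maximal rank span (MP_06550c_nt, third series)
-/

set_option autoImplicit false

namespace Pool.Agent.RFO

namespace SPA

open Matrix

section

variable {A M ι : Type} [CommRing A] [IsDomain A] [AddCommGroup M] [Module A M] [Fintype ι]
  [DecidableEq ι] {B : M →ₗ[A] M →ₗ[A] A}

/-- the Gram matrix -/
def Gr (B : M →ₗ[A] M →ₗ[A] A) (u : ι → M) : Matrix ι ι A := Matrix.of fun i j => B (u i) (u j)

/-- the coefficients -/
def co (B : M →ₗ[A] M →ₗ[A] A) (u : ι → M) (z : M) (i : ι) : A :=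
  ∑ j, (Gr B u).adjugate i j * B (u j) z

/-- the orthogonal component -/
def or (B : M →ₗ[A] M →ₗ[A] A) (u : ι → M) (z : M) : M :=
  Gm B u • z - ∑ i, co B u z i • u i

omit [IsDomain A] in
theorem co_add (u : ι → M) (y z : M) (i : ι) : co B u (y + z) i = co B u y i + co B u z i := by
  simp only [co, map_add, mul_add, Finset.sum_add_distrib]

omit [IsDomain A] in
theorem or_add (u : ι → M) (y z : M) : or B u (y + z) = or B u y + or B u z := by
  simp only [or, co_add, add_smul, smul_add, Finset.sum_add_distrib]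
  abel

omit [IsDomain A] in
theorem or_left (hs : ∀ x y, B x y = B y x) (u : ι → M) (z : M) (j : ι) :
    B (or B u z) (u j) = 0 := by
  have h1 : ∑ i, B (u j) (u i) * co B u z i = Gm B u * B (u j) z := by
    have h2 : (Gr B u * (Gr B u).adjugate) *ᵥ (fun k => B (u k) z) =
        Gm B u • (fun k => B (u k) z) := by
      rw [Matrix.mul_adjugate, Matrix.smul_mulVec, Matrix.one_mulVec]
      rfl
    have h3 := congrFun h2 j
    rw [← Matrix.mulVec_mulVec] at h3
    exact h3
  have h4 : ∑ i, co B u z i * B (u i) (u j) = Gm B u * B (u j) z := by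
    rw [← h1]
    refine Finset.sum_congr rfl fun i _ => ?_
    rw [hs (u i) (u j), mul_comm]
  simp only [or, map_sub, map_sum, map_smul, LinearMap.sub_apply, LinearMap.sum_apply,
    LinearMap.smul_apply, smul_eq_mul]
  rw [h4, hs z (u j), sub_self]

omit [IsDomain A] in
theorem det_aux (u : ι → M) (z : M) (h0 : ∀ j, B z (u j) = 0) (h1 : ∀ j, B (u j) z = 0) :
    Gm B (fun o : Option ι => o.elim z u) = Gm B u * B z z := by
  rw [← Gm_reindex (Equiv.optionEquivSumPUnit.{0} ι).symm]
  have h2 : (Matrix.of fun i j : ι ⊕ PUnit.{1} =>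
      B (((fun o : Option ι => o.elim z u) ∘ (Equiv.optionEquivSumPUnit.{0} ι).symm) i)
        (((fun o : Option ι => o.elim z u) ∘ (Equiv.optionEquivSumPUnit.{0} ι).symm) j)) =
      Matrix.fromBlocks (Gr B u) 0 0 (Matrix.of fun _ _ : PUnit.{1} => B z z) := by
    ext i j
    rcases i with i | i <;> rcases j with j | j
    · rfl
    · simp [h1]
    · simp [h0]
    · rfl
  rw [Gm, h2, Matrix.det_fromBlocks_zero₂₁,
    Matrix.det_unique (Matrix.of fun _ _ : PUnit.{1} => B z z)]
  rfl

theorem or_sq (hs : ∀ x y, B x y = B y x) (hr : ∀ u : Option ι → M, Gm B u = 0) (u : ι → M)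
    (hu : Gm B u ≠ 0) (z : M) : B (or B u z) (or B u z) = 0 := by
  have h1 := det_aux (B := B) u (or B u z) (or_left hs u z)
    (fun j => by rw [hs]; exact or_left hs u z j)
  have h3 := (hr (fun o : Option ι => o.elim (or B u z) u)).symm.trans h1
  exact (mul_eq_zero.1 h3.symm).resolve_left hu

end

end SPA

theorem SPA_thm : S_SPA := by
  intro A M ι _ _ _ _ _ _ B h2 hs hnd hr u hu y
  have h0 : ∀ y z, B (SPA.or B u y) (SPA.or B u z) = 0 := by
    intro y z
    have h3 := SPA.or_sq hs hr u hu (y + z)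
    rw [SPA.or_add] at h3
    simp only [map_add, LinearMap.add_apply] at h3
    rw [SPA.or_sq hs hr u hu y, SPA.or_sq hs hr u hu z, hs (SPA.or B u z) (SPA.or B u y)] at h3
    have h4 : 2 * B (SPA.or B u y) (SPA.or B u z) = 0 := by linear_combination h3
    exact (mul_eq_zero.1 h4).resolve_left h2
  have h5 : SPA.or B u y = 0 := by
    refine hnd _ fun z => ?_
    have h6 : Gm B u • z = SPA.or B u z + ∑ i, SPA.co B u z i • u i := by
      rw [SPA.or]
      abel
    have h7 : B (SPA.or B u y) (Gm B u • z) = 0 := by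
      rw [h6, map_add, h0, zero_add, map_sum]
      refine Finset.sum_eq_zero fun i _ => ?_
      rw [map_smul, SPA.or_left hs, smul_zero]
    rw [map_smul, smul_eq_mul] at h7
    exact (mul_eq_zero.1 h7).resolve_left hu
  refine ⟨SPA.co B u y, ?_⟩
  rw [SPA.or, sub_eq_zero] at h5
  exact h5

end Pool.Agent.RFO
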