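import Mathlib
import Pool.Agent.RFO.St

/-!
Squarefree part in a factorial domain.
-/

namespace Pool.Agent.RFO

namespace SQF

/-- a squarefree element which divides a square divides its root -/
theorem dvd {R : Type*} [CommRing R] [IsDomain R] [UniqueFactorizationMonoid R] {g x : R}
    (hg : Squarefree g) (h : g ∣ x ^ 2) : g ∣ x :=
  (hg.dvd_pow_iff_dvd (by norm_num)).1 h

end SQF

theorem SQF_thm : S_SQF := by
  intro R _ _ _ a
  induction a using (wellFounded_dvdNotUnit (α := R)).induction with
  | _ a ih =>
    intro ha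
    by_cases hs : Squarefree a
    · exact ⟨1, a, by ring, hs⟩
    · unfold Squarefree at hs
      push Not at hs
      obtain ⟨x, ⟨b, hb⟩, hx⟩ := hs
      have hb0 : b ≠ 0 := by
        rintro rfl
        exact ha (by rw [hb, mul_zero])
      have hxx : ¬ IsUnit (x * x) := fun h => hx (isUnit_of_mul_isUnit_left h)
      have hd : DvdNotUnit b a := ⟨hb0, x * x, hxx, by rw [hb]; ring⟩
      obtain ⟨c, g, hcg, hg⟩ := ih b hd hb0
      exact ⟨x * c, g, by rw [hb, hcg]; ring, hg⟩

end Pool.Agent.RFO
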