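import Mathlib
import Pool.Agent.RFO.Gdb
import Pool.Agent.RFO.SQF

/-!
# The discriminant of a perfect lattice of rank two (MP_06550c_nt, third series)
-/

set_option autoImplicit false

namespace Pool.Agent.RFO

namespace SQD

/-- parity of the multiplicity of a prime -/
theorem parity {A : Type} [CommRing A] [IsDomain A] [UniqueFactorizationMonoid A] {p x g G d : A}
    (hp : Prime p) (hg : Squarefree g) (hpg : p ∣ g) (hG : ¬ p ∣ G) (hx : x ≠ 0)
    (h : d ^ 2 = x ^ 2 * (g * G)) : False := by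
  have hg0 : g ≠ 0 := hg.ne_zero
  have hG0 : G ≠ 0 := by
    rintro rfl
    exact hG (dvd_zero p)
  have hd0 : d ≠ 0 := by
    rintro rfl
    have h1 : x ^ 2 * (g * G) = 0 := by rw [← h]; ring
    exact (mul_ne_zero (pow_ne_zero 2 hx) (mul_ne_zero hg0 hG0)) h1
  have fm : ∀ a : A, a ≠ 0 → FiniteMultiplicity p a := fun a ha =>
    FiniteMultiplicity.of_not_isUnit hp.not_isUnit ha
  have e1 : multiplicity p (d ^ 2) = 2 * multiplicity p d := by
    rw [pow_two, multiplicity_mul hp (fm _ (mul_ne_zero hd0 hd0))]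
    ring
  have e2 : multiplicity p (x ^ 2 * (g * G)) =
      2 * multiplicity p x + (multiplicity p g + multiplicity p G) := by
    rw [multiplicity_mul hp (fm _ (mul_ne_zero (pow_ne_zero 2 hx) (mul_ne_zero hg0 hG0))),
      multiplicity_mul hp (fm _ (mul_ne_zero hg0 hG0)), pow_two,
      multiplicity_mul hp (fm _ (mul_ne_zero hx hx))]
    ring
  have e3 : multiplicity p G = 0 := multiplicity_eq_zero.2 hG
  have e4 : multiplicity p g = 1 := by
    have h1 : ¬ p ^ 2 ∣ g := by
      intro hh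
      rw [pow_two] at hh
      exact hp.not_isUnit (hg p hh)
    exact (fm g hg0).multiplicity_eq_iff.2 ⟨by rwa [pow_one], h1⟩
  rw [h, e2, e3, e4] at e1
  omega

end SQD

theorem SQD_thm (h1 : S_DSC) (h2 : S_SPA) : S_SQD := by
  intro A M _ _ _ _ _ _ _ _ hA hM δ B gA hL hG w hw
  have h20 : (2 : A) ≠ 0 := by
    have h3 : algebraMap ℂ A 2 = 2 := map_ofNat (algebraMap ℂ A) 2
    rw [← h3]
    exact (map_ne_zero_iff _ (algebraMap ℂ A).injective).2 two_ne_zero
  have hG' : ∀ u : Option (Fin 2) → M, Gm B u = 0 := by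
    intro u
    rw [← Gm_reindex (B := B) (finSuccEquiv 2) u]
    exact hG _
  have spa : ∀ u : Fin 2 → M, Gm B u ≠ 0 → ∀ y, ∃ c : Fin 2 → A,
      Gm B u • y = ∑ i, c i • u i :=
    h2 A M (Fin 2) B h20 hL.sym hL.nd hG'
  obtain ⟨c, g, hcg, hg⟩ := SQF_thm A (Gm B w) hw
  have hc0 : c ≠ 0 := by
    rintro rfl
    apply hw
    rw [hcg]
    ring
  have hg0 : g ≠ 0 := hg.ne_zero
  have hgu : IsUnit g := by
    by_contra hnu
    obtain ⟨p, hp, hpg⟩ := WfDvdMonoid.exists_irreducible_factor hnu hg0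
    have hpp : Prime p := hp.prime
    obtain ⟨u, hu⟩ := h1 A M (Fin 2) B hL.sym p hpp spa
      (fun v hv => hL.sd v p hpp.ne_zero hv) ⟨w, hw⟩
    choose C hC using fun i => spa w hw (u i)
    have e1 : Gm B (fun i => ∑ j, (Matrix.of C) i j • w j) = (Matrix.of C).det ^ 2 * Gm B w :=
      Gm_comb (Matrix.of C) w
    have e2 : Gm B (fun i => ∑ j, (Gm B w • (1 : Matrix (Fin 2) (Fin 2) A)) i j • u j) =
        (Gm B w • (1 : Matrix (Fin 2) (Fin 2) A)).det ^ 2 * Gm B u :=
      Gm_comb _ u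
    have e3 : (fun i => ∑ j, (Matrix.of C) i j • w j) =
        fun i => ∑ j, (Gm B w • (1 : Matrix (Fin 2) (Fin 2) A)) i j • u j := by
      funext i
      change ∑ j, C i j • w j = _
      rw [← hC i, Finset.sum_eq_single i]
      · rw [Matrix.smul_apply, Matrix.one_apply_eq, smul_eq_mul, mul_one]
      · intro j _ hj
        rw [Matrix.smul_apply, Matrix.one_apply_ne (Ne.symm hj), smul_zero, zero_smul]
      · intro h
        exact absurd (Finset.mem_univ _) h
    rw [e3, e2, Matrix.det_smul, Matrix.det_one, Fintype.card_fin, mul_one] at e1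
    have e4 : (Matrix.of C).det ^ 2 = Gm B w ^ 3 * Gm B u := by
      apply mul_right_cancel₀ hw
      rw [← e1]
      ring
    refine SQD.parity hpp hg hpg hu (x := c ^ 3 * g) (mul_ne_zero (pow_ne_zero 3 hc0) hg0)
      (d := (Matrix.of C).det) ?_
    rw [e4]
    conv_lhs => rw [hcg]
    ring
  obtain ⟨v, hv⟩ := gA.unit_sq hgu.neg
  refine ⟨c * v, ?_⟩
  rw [mul_pow, hv, hcg]
  ring

end Pool.Agent.RFO
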