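import Mathlib
import Pool.Agent.RFO.Gdb
import Pool.Agent.RFO.HBD

/-!
# SUB: the grading of the invariants
-/

set_option autoImplicit false

namespace Pool.Agent.RFO

namespace SUB

variable {G T : Type} [Group G] [CommRing T] [Algebra ℂ T] [MulSemiringAction G T]
  [SMulCommClass G ℂ T] {hom : ℤ → Submodule ℂ T}

/-- A series of subspaces of a subalgebra which contains the homogeneous components of its elements
spans it. -/
theorem top_of (hG : Gr G hom) (K : Subgroup G) :
    ⨆ i, (hom i).comap (Fx K : Subalgebra ℂ T).val.toLinearMap = ⊤ := by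
  classical
  obtain ⟨pr, h0, h1, h2⟩ := HBD.exists_proj hG
  rw [eq_top_iff]
  rintro ⟨x, hx⟩ -
  -- the components of `x` are invariant
  have hinv : ∀ i, pr i x ∈ (Fx K : Subalgebra ℂ T) := fun i g hg => by
    rw [← HBD.pr_smul hG h1 h2, hx g hg]
  -- `x` is the sum of finitely many components
  have hsum : ∀ y : T, ∃ s : Finset ℤ, y = ∑ i ∈ s, pr i y ∧ ∀ i ∉ s, pr i y = 0 := by
    intro y
    have hy : y ∈ ⨆ i, hom i := by
      rw [hG.top]
      exact Submodule.mem_top
    refine Submodule.iSup_induction hom (motive := fun y => ∃ s : Finset ℤ,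
      y = ∑ i ∈ s, pr i y ∧ ∀ i ∉ s, pr i y = 0) hy ?_ ?_ ?_
    · intro i y hy
      refine ⟨{i}, ?_, fun j hj => h2 i j y hy fun h => hj (by rw [h]; simp)⟩
      rw [Finset.sum_singleton, h1 i y hy]
    · exact ⟨∅, by simp, fun i _ => map_zero _⟩
    · rintro y z ⟨s, hs, hs'⟩ ⟨t, ht, ht'⟩
      refine ⟨s ∪ t, ?_, fun i hi => ?_⟩
      · have e1 : ∑ i ∈ s ∪ t, pr i y = ∑ i ∈ s, pr i y := by
          symm
          exact Finset.sum_subset Finset.subset_union_left fun i _ hi => hs' i hi
        have e2 : ∑ i ∈ s ∪ t, pr i z = ∑ i ∈ t, pr i z := by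
          symm
          exact Finset.sum_subset Finset.subset_union_right fun i _ hi => ht' i hi
        simp only [map_add]
        rw [Finset.sum_add_distrib, e1, e2, ← hs, ← ht]
      · rw [Finset.mem_union, not_or] at hi
        rw [map_add, hs' i hi.1, ht' i hi.2, add_zero]
  obtain ⟨s, hs, -⟩ := hsum x
  have e : (⟨x, hx⟩ : (Fx K : Subalgebra ℂ T)) = ∑ i ∈ s, ⟨pr i x, hinv i⟩ := by
    apply Subtype.ext
    rw [AddSubmonoidClass.coe_finsetSum]
    exact hs
  rw [e]
  refine Submodule.sum_mem _ fun i _ => ?_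
  refine Submodule.mem_iSup_of_mem i ?_
  exact h0 i x

end SUB

theorem SUB_thm : S_SUB := by
  classical
  intro G T _ _ _ _ _ _ _ hom hG K
  refine ⟨?_, ?_, ?_, ?_, SUB.top_of hG K, ?_⟩
  · exact hG.one
  · intro i j x y hx hy
    exact hG.mul i j _ _ hx hy
  · intro i x hi hx
    apply Subtype.ext
    exact hG.neg i x hi hx
  · intro x hx
    obtain ⟨c, hc⟩ := HBD.const_of hG (x := (x : T)) hx
    exact ⟨c, Subtype.ext hc⟩
  · rw [iSupIndep_def]
    intro i
    rw [Submodule.disjoint_def]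
    intro x hx hx2
    obtain ⟨pr, h0, h1, h2⟩ := HBD.exists_proj hG
    have h3 : (⨆ j, ⨆ (_ : j ≠ i), (hom j).comap (Fx K : Subalgebra ℂ T).val.toLinearMap) ≤
        LinearMap.ker ((pr i) ∘ₗ (Fx K : Subalgebra ℂ T).val.toLinearMap) := by
      refine iSup_le fun j => iSup_le fun hj => ?_
      intro y hy
      rw [LinearMap.mem_ker, LinearMap.comp_apply]
      exact h2 j i _ hy hj
    have h4 := h3 hx2
    rw [LinearMap.mem_ker, LinearMap.comp_apply] at h4
    have h5 := h1 i _ hx
    rw [h4] at h5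
    apply Subtype.ext
    exact h5.symm

end Pool.Agent.RFO
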