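import Mathlib
import Pool.Agent.RFO.Gdb

/-!
# The different of a finite extension of factorial graded domains (MP_06550c_nt, module THT)
-/

set_option autoImplicit false

namespace Pool.Agent.RFO

namespace THT

variable {A R : Type} [CommRing A] [IsDomain A] [UniqueFactorizationMonoid A] [CommRing R]
  [IsDomain R] [UniqueFactorizationMonoid R] [Algebra A R]

/-- the elements which multiply the dual lattice into the lattice -/
def tt (Tr : R →ₗ[A] A) (t : R) : Prop :=
  ∀ (x : R) (a : A), a ≠ 0 → (∀ y, a ∣ Tr (x * y)) → algebraMap A R a ∣ t * x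

theorem exists_min (Tr : R →ₗ[A] A) {D' : R} (hD : tt Tr D') (hD0 : D' ≠ 0) :
    ∃ θ : R, tt Tr θ ∧ θ ≠ 0 ∧ ∀ t, tt Tr t → θ ∣ t := by
  classical
  obtain ⟨θ, ⟨hθ, hθ0⟩, hmin⟩ := (wellFounded_dvdNotUnit (α := R)).has_min
    {t | tt Tr t ∧ t ≠ 0} ⟨D', hD, hD0⟩
  refine ⟨θ, hθ, hθ0, fun t ht => ?_⟩
  letI : GCDMonoid R := UniqueFactorizationMonoid.toGCDMonoid R
  set g := gcd θ t with hg
  have hgθ : g ∣ θ := gcd_dvd_left _ _
  have hgt : g ∣ t := gcd_dvd_right _ _
  have hg0 : g ≠ 0 := fun h => hθ0 (zero_dvd_iff.1 (h ▸ hgθ))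
  have hgtt : tt Tr g := by
    intro x a ha hx
    have h1 := dvd_gcd (hθ x a ha hx) (ht x a ha hx)
    exact h1.trans (gcd_mul_right' x θ t).dvd
  obtain ⟨w, hw⟩ := hgθ
  by_cases hu : IsUnit w
  · have : θ ∣ g := by
      obtain ⟨v, hv⟩ := hu.exists_right_inv
      exact ⟨v, by rw [hw, mul_assoc, hv, mul_one]⟩
    exact this.trans hgt
  · exact absurd ⟨hg0, w, hu, hw⟩ (hmin g ⟨hgtt, hg0⟩)

/-- the claim: `D` divides the traces of the multiples of `θ'` -/
theorem claim (h : S_INC) {d : ℕ} {Tr : R →ₗ[A] A} {N : R → A} (hc : Cov d Tr N) {D : A}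
    (hD0 : D ≠ 0) {θ θ' : R} (hθ : tt Tr θ) (hθ0 : θ ≠ 0) (hmin : ∀ t, tt Tr t → θ ∣ t)
    (hθθ : algebraMap A R D = θ * θ') (y : R) : D ∣ Tr (θ' * y) := by
  by_contra hy
  obtain ⟨n, s', g, hrel, hgn, hgs⟩ :=
    UniqueFactorizationMonoid.exists_reduced_factors D hD0 (Tr (θ' * y))
  have hg0 : g ≠ 0 := by
    rintro rfl
    exact hD0 (by rw [← hgn, zero_mul])
  have hn0 : n ≠ 0 := by
    rintro rfl
    exact hD0 (by rw [← hgn, mul_zero])
  have hnu : ¬ IsUnit n := by
    intro hu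
    apply hy
    obtain ⟨v, hv⟩ := hu.exists_right_inv
    refine ⟨v * s', ?_⟩
    rw [← hgs, ← hgn]
    calc g * s' = g * (n * v) * s' := by rw [hv, mul_one]
      _ = g * n * (v * s') := by ring
  obtain ⟨p, hpi, hpn⟩ := WfDvdMonoid.exists_irreducible_factor hnu hn0
  have hp : Prime p := UniqueFactorizationMonoid.irreducible_iff_prime.1 hpi
  have hps : ¬ p ∣ s' := fun hps => hp.not_isUnit (hrel hpn hps)
  let I : Ideal R :=
    { carrier := {r | ∀ z, D ∣ Tr (r * θ' * z)}
      add_mem' := by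
        intro a b ha hb z
        have : (a + b) * θ' * z = a * θ' * z + b * θ' * z := by ring
        rw [this, map_add]
        exact dvd_add (ha z) (hb z)
      zero_mem' := by
        intro z
        rw [zero_mul, zero_mul, map_zero]
        exact dvd_zero _
      smul_mem' := by
        intro c x hx z
        have : c • x * θ' * z = x * θ' * (c * z) := by
          rw [smul_eq_mul]; ring
        rw [this]
        exact hx _ }
  have hI : ∀ r, r ∈ I ↔ ∀ z, D ∣ Tr (r * θ' * z) := fun r => Iff.rfl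
  have hTr : ∀ (a : A) (x : R), Tr (algebraMap A R a * x) = a * Tr x := by
    intro a x
    rw [← Algebra.smul_def, map_smul, smul_eq_mul]
  have hθI : θ ∈ I := by
    rw [hI]
    intro z
    rw [← hθθ, hTr]
    exact dvd_mul_right _ _
  have hIp : I.comap (algebraMap A R) ≤ Ideal.span {p} := by
    intro a ha
    rw [Ideal.mem_comap, hI] at ha
    have h1 := ha y
    rw [mul_assoc, hTr, ← hgn, ← hgs] at h1
    have h2 : n ∣ a * s' := by
      have h3 : g * n ∣ g * (a * s') := by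
        have : a * (g * s') = g * (a * s') := by ring
        rwa [this] at h1
      exact (mul_dvd_mul_iff_left hg0).1 h3
    rw [Ideal.mem_span_singleton]
    exact (hp.dvd_or_dvd (hpn.trans h2)).resolve_right hps
  have : (Ideal.span {p}).IsPrime := (Ideal.span_singleton_prime hp.ne_zero).2 hp
  have : Algebra.IsIntegral A R := ⟨hc.int⟩
  obtain ⟨q, hIq, hq, hqp⟩ := Ideal.exists_ideal_over_prime_of_isIntegral (Ideal.span {p}) I hIp
  have hpq : algebraMap A R p ∈ q := by
    have : p ∈ q.comap (algebraMap A R) := by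
      rw [hqp]
      exact Ideal.mem_span_singleton_self p
    exact this
  have hq0 : q ≠ ⊥ := by
    rintro rfl
    rw [Ideal.mem_bot] at hpq
    exact hp.ne_zero (hc.inj (by rw [hpq, map_zero]))
  obtain ⟨π, hπq, hπ⟩ := hq.exists_mem_prime_of_ne_bot hq0
  obtain ⟨p1, hp1, hp1π⟩ := h A R d Tr N hc π hπ
  have hpp1 : p ∣ p1 := by
    have h1 : algebraMap A R p1 ∈ q := by
      have h2 : π ∣ algebraMap A R p1 := (hp1π p1).2 dvd_rfl
      exact q.mem_of_dvd h2 hπq
    have h2 : p1 ∈ q.comap (algebraMap A R) := h1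
    rw [hqp, Ideal.mem_span_singleton] at h2
    exact h2
  have hp1p : p1 ∣ p := by
    have := hp.irreducible.associated_of_dvd hp1.irreducible hpp1
    exact this.symm.dvd
  have hπp : (Ideal.span {π}).IsPrime := (Ideal.span_singleton_prime hπ.ne_zero).2 hπ
  have hle : Ideal.span {π} ≤ q := by
    rw [Ideal.span_singleton_le_iff_mem]
    exact hπq
  have hqπ : ∀ x ∈ q, π ∣ x := by
    intro x hx
    by_contra hxπ
    have h1 := Ideal.comap_lt_comap_of_integral_mem_sdiff (R := A) hle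
      (x := x) ⟨hx, fun h => hxπ (Ideal.mem_span_singleton.1 h)⟩ (hc.int x)
    refine absurd h1 (not_lt_of_ge ?_)
    rw [hqp]
    intro a ha
    rw [Ideal.mem_span_singleton] at ha
    rw [Ideal.mem_comap, Ideal.mem_span_singleton, hp1π]
    exact hp1p.trans ha
  obtain ⟨θ1, hθ1⟩ := hqπ θ (hIq hθI)
  have hθ10 : θ1 ≠ 0 := by
    rintro rfl
    exact hθ0 (by rw [hθ1, mul_zero])
  have hθ1t : tt Tr θ1 := by
    intro x a ha hx
    obtain ⟨r, hr⟩ := hθ x a ha hx
    have hrI : r ∈ I := by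
      rw [hI]
      intro z
      obtain ⟨b, hb⟩ := hx z
      refine ⟨b, mul_left_cancel₀ ha ?_⟩
      rw [← hTr]
      have h1 : algebraMap A R a * (r * θ' * z) = algebraMap A R D * (x * z) := by
        rw [hθθ]
        calc algebraMap A R a * (r * θ' * z) = (algebraMap A R a * r) * θ' * z := by ring
          _ = θ * x * θ' * z := by rw [← hr]
          _ = θ * θ' * (x * z) := by ring
      rw [h1, hTr, hb]
      ring
    obtain ⟨r', hr'⟩ := hqπ r (hIq hrI)
    refine ⟨r', mul_left_cancel₀ hπ.ne_zero ?_⟩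
    calc π * (θ1 * x) = θ * x := by rw [hθ1]; ring
      _ = algebraMap A R a * (π * r') := by rw [hr, hr']
      _ = π * (algebraMap A R a * r') := by ring
  obtain ⟨w, hw⟩ := hmin θ1 hθ1t
  have h1 : π * w = 1 := by
    refine mul_left_cancel₀ hθ10 ?_
    calc θ1 * (π * w) = θ * w := by rw [hθ1]; ring
      _ = θ1 * 1 := by rw [← hw, mul_one]
  exact hπ.not_isUnit (IsUnit.of_mul_eq_one (a := π) w h1)

end THT

theorem THT_thm (h : S_INC) : S_THT := by
  intro A R _ _ _ _ _ _ _ _ _ _ hA hR hGE d Tr N hc hTrd D hD0 hDi hDt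
  obtain ⟨i, hi⟩ := hDi
  have hTr : ∀ (a : A) (x : R), Tr (algebraMap A R a * x) = a * Tr x := by
    intro a x
    rw [← Algebra.smul_def, map_smul, smul_eq_mul]
  have hD0' : algebraMap A R D ≠ 0 := by
    intro h0
    exact hD0 (hc.inj (by rw [h0, map_zero]))
  obtain ⟨θ, hθ, hθ0, hmin⟩ := THT.exists_min Tr (D' := algebraMap A R D) hDt hD0'
  obtain ⟨θ', hθθ⟩ := hmin _ hDt
  have hcl := THT.claim h hc hD0 hθ hθ0 hmin hθθ
  have hDR : θ * θ' ∈ hR i := by
    rw [← hθθ]
    exact (hGE.al i D).2 hi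
  obtain ⟨δ, δ', hδ, hθδ, hθ'δ⟩ := hGE.gR.fac hDR (by rw [← hθθ]; exact hD0')
  choose φ hφ using hcl
  let Φ : R →ₗ[A] A :=
    { toFun := φ
      map_add' := by
        intro x y
        refine mul_left_cancel₀ hD0 ?_
        rw [← hφ, mul_add, map_add, hφ, hφ, mul_add]
      map_smul' := by
        intro a x
        refine mul_left_cancel₀ hD0 ?_
        rw [← hφ, mul_smul_comm, map_smul, hφ, RingHom.id_apply, smul_eq_mul, smul_eq_mul]
        ring }
  have hΦ : ∀ y, D * Φ y = Tr (θ' * y) := fun y => (hφ y).symm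
  refine ⟨δ, θ, θ', D, Φ, hGE.gR.nonneg hθδ hθ0, hθδ, hD0, hΦ, ?_, ?_, ?_, ?_⟩
  · intro y
    refine mul_left_cancel₀ hD0 ?_
    rw [hΦ, ← hTr, hθθ]
    congr 1
    ring
  · intro j x hx
    by_cases h0 : Φ x = 0
    · rw [h0]
      exact Submodule.zero_mem _
    · have h1 : D * Φ x ∈ hA (δ' + j) := by
        rw [hΦ]
        exact hTrd _ _ (hGE.gR.mul _ _ _ _ hθ'δ hx)
      obtain ⟨i', j', hij, hDi', hΦj'⟩ := hGE.gA.fac h1 (mul_ne_zero hD0 h0)
      have h2 : i' = i := hGE.gA.uniq hDi' hi hD0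
      have h3 : j' = j - δ := by omega
      rw [← h3]
      exact hΦj'
  · intro x a ha hx
    have h1 : algebraMap A R (a * D) ∣ θ * (θ' * x) := by
      refine hθ (θ' * x) (a * D) (mul_ne_zero ha hD0) fun y => ?_
      obtain ⟨b, hb⟩ := hx y
      refine ⟨b, ?_⟩
      rw [mul_assoc, ← hΦ, hb]
      ring
    have h2 : algebraMap A R D * algebraMap A R a ∣ algebraMap A R D * x := by
      have e1 : algebraMap A R (a * D) = algebraMap A R D * algebraMap A R a := by
        rw [map_mul, mul_comm]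
      have e2 : θ * (θ' * x) = algebraMap A R D * x := by
        rw [hθθ]; ring
      rwa [e1, e2] at h1
    exact (mul_dvd_mul_iff_left hD0').1 h2
  · intro hδ0 x a ha hx
    rw [hδ0] at hθδ
    have hu := hGE.gR.isUnit hθδ hθ0
    exact (hu.dvd_mul_left).1 (hθ x a ha hx)

end Pool.Agent.RFO
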