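import Pool.Agent.RFO.X4M
import Pool.Agent.RFO.INC
import Pool.Agent.RFO.THT
import Pool.Agent.RFO.SPA
import Pool.Agent.RFO.DSC
import Pool.Agent.RFO.GRD
import Pool.Agent.RFO.DSK
import Pool.Agent.RFO.GAL
import Pool.Agent.RFO.PMV
import Pool.Agent.RFO.LTA
import Pool.Agent.RFO.HPR
import Pool.Agent.RFO.SQD
import Pool.Agent.RFO.ISO
import Pool.Agent.RFO.LTB
import Pool.Agent.RFO.DEC
import Pool.Agent.RFO.RAM
import Pool.Agent.RFO.FRF
import Pool.Agent.RFO.SUB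

/-!
# Index at most four: assembly (MP_06550c_nt, third series)
-/

set_option autoImplicit false

namespace Pool.Agent.RFO

theorem p_SQD : S_SQD := SQD_thm DSC_thm SPA_thm

theorem p_LTB : S_LTB := LTB_thm (LTA_thm PMV_thm) HPR_thm p_SQD (ISO_thm PMV_thm)

theorem p_X4 : S_X4 := X4.main (THT_thm INC_thm) GRD_thm DSK_thm GAL_thm (DEC_thm p_LTB)
  (RAM_thm DSC_thm SPA_thm) FRF_thm SUB_thm

end Pool.Agent.RFO
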