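import Mathlib
import Pool.Agent.MFB.All
import Pool.Agent.RFO.Gal4
import Pool.Agent.RFO.GLUE
import Pool.Agent.RFO.CRD
import Pool.Agent.RFO.CH2

/-!
# Index at most four: from the algebra to modular forms (MP_06550c_nt, third series)
-/

set_option autoImplicit false

namespace Pool.Agent.RFO
namespace X4F

open Pool.Agent.MFB

variable {n : ℕ} (Λ : HL n) (Γ₀ : Subgroup (V n ≃ₗ[ℂ] V n))

/-- the homogeneous elements, with degrees in `ℤ` -/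
def hz (k : ℤ) : Submodule ℂ ↥(Λ.MS Γ₀) where
  carrier := {f | (k < 0 → f = 0) ∧ (0 ≤ k → f ∈ Λ.gr Γ₀ k.toNat)}
  add_mem' := by
    intro a b ha hb
    refine ⟨fun h => ?_, fun h => ?_⟩
    · rw [ha.1 h, hb.1 h, add_zero]
    · exact Submodule.add_mem _ (ha.2 h) (hb.2 h)
  zero_mem' := ⟨fun _ => rfl, fun _ => Submodule.zero_mem _⟩
  smul_mem' := by
    intro c a ha
    refine ⟨fun h => ?_, fun h => ?_⟩
    · rw [ha.1 h, smul_zero]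
    · exact Submodule.smul_mem _ _ (ha.2 h)

variable {Λ Γ₀}

theorem hz_nat {k : ℕ} {f : Λ.MS Γ₀} (hf : f ∈ Λ.gr Γ₀ k) : f ∈ hz Λ Γ₀ (k : ℤ) := by
  refine ⟨fun h => ?_, fun _ => ?_⟩
  · omega
  · rw [Int.toNat_natCast]
    exact hf

theorem hz_top : ⨆ k, hz Λ Γ₀ k = ⊤ := by
  rw [eq_top_iff, ← (GR_thm n Λ Γ₀).2.2.submodule_iSup_eq_top]
  refine iSup_le fun k f hf => ?_
  exact Submodule.mem_iSup_of_mem (k : ℤ) (hz_nat hf)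

theorem hz_ind : iSupIndep (hz Λ Γ₀) := by
  rw [← iSupIndep_ne_bot]
  have h1 := (GR_thm n Λ Γ₀).2.2.submodule_iSupIndep
  have hnn : ∀ k : {k : ℤ // hz Λ Γ₀ k ≠ ⊥}, 0 ≤ k.1 := by
    rintro ⟨k, hk⟩
    by_contra hlt
    push Not at hlt
    apply hk
    rw [Submodule.eq_bot_iff]
    intro x hx
    exact hx.1 hlt
  have hinj : Function.Injective (fun k : {k : ℤ // hz Λ Γ₀ k ≠ ⊥} => k.1.toNat) := by
    intro a b hab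
    have ha := hnn a
    have hb := hnn b
    apply Subtype.ext
    have : a.1.toNat = b.1.toNat := hab
    omega
  refine (h1.comp hinj).mono fun k x hx => ?_
  exact hx.2 (hnn k)

theorem hz_mul {i j : ℤ} {x y : Λ.MS Γ₀} (hx : x ∈ hz Λ Γ₀ i) (hy : y ∈ hz Λ Γ₀ j) :
    x * y ∈ hz Λ Γ₀ (i + j) := by
  rcases lt_or_ge i 0 with hi | hi
  · rw [hx.1 hi, zero_mul]
    exact Submodule.zero_mem _
  rcases lt_or_ge j 0 with hj | hj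
  · rw [hy.1 hj, mul_zero]
    exact Submodule.zero_mem _
  refine ⟨fun h => by omega, fun _ => ?_⟩
  have h1 : (i + j).toNat = i.toNat + j.toNat := by omega
  rw [h1]
  exact (GR_thm n Λ Γ₀).2.1 _ _ _ (hx.2 hi) _ (hy.2 hj)

variable (Λ Γ₀) in
theorem isDomain : IsDomain ↥(Λ.MS Γ₀) := by
  have h1 : Nontrivial ↥(Λ.MS Γ₀) := by
    obtain ⟨z, hz⟩ := Λ.exists_mem_A
    refine ⟨⟨0, 1, fun h => ?_⟩⟩
    have h2 := congrFun (congrArg Subtype.val h) ⟨z, hz⟩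
    exact zero_ne_one h2
  have h2 : NoZeroDivisors ↥(Λ.MS Γ₀) := by
    refine ⟨fun {a b} hab => ?_⟩
    have h3 := f_DOM n Λ ⊤ a.1 b.1 (HL.MS_mono bot_le a.2) (HL.MS_mono bot_le b.2)
      (fun z _ => congrFun (congrArg Subtype.val hab) z)
    rcases h3 with h3 | h3
    · exact Or.inl (Subtype.ext (funext fun z => h3 z trivial))
    · exact Or.inr (Subtype.ext (funext fun z => h3 z trivial))
  exact NoZeroDivisors.to_isDomain _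

/-! ### The action -/

section act

variable {Γ₁ Γ' : Subgroup (V n ≃ₗ[ℂ] V n)} (ρ : Γ₁ →* (Λ.MS Γ₀ ≃ₐ[ℂ] Λ.MS Γ₀))

/-- the action is given by the composition with the inverse -/
def HR : Prop := ∀ g f, ((ρ g f : Λ.MS Γ₀) : Λ.A → ℂ) =
  Λ.act ((g⁻¹ : Γ₁) : V n ≃ₗ[ℂ] V n) (f : Λ.A → ℂ)

variable (Γ') in
/-- the image of a subgroup -/
noncomputable def KK : Subgroup ↥ρ.range := (Γ'.subgroupOf Γ₁).map ρ.rangeRestrict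

theorem KK_top : KK Γ₁ ρ = ⊤ := by
  rw [eq_top_iff]
  intro g _
  obtain ⟨γ, rfl⟩ := ρ.rangeRestrict_surjective g
  exact ⟨γ, γ.2, rfl⟩

variable {ρ}

theorem mem_Fx_KK (hρ : HR ρ) (hI : Γ₁ ≤ Λ.I) (hle : Γ' ≤ Γ₁) (x : Λ.MS Γ₀) :
    x ∈ (Fx (KK Γ' ρ) : Subalgebra ℂ ↥(Λ.MS Γ₀)) ↔ (x : Λ.A → ℂ) ∈ Λ.MS Γ' := by
  rw [f_INV n Λ Γ' (hle.trans hI)]
  constructor
  · intro hx
    refine ⟨HL.MS_mono bot_le x.2, fun γ hγ => ?_⟩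
    have h1 := hx (ρ.rangeRestrict (⟨γ, hle hγ⟩ : Γ₁)⁻¹) ⟨(⟨γ, hle hγ⟩ : Γ₁)⁻¹, Γ'.inv_mem hγ, rfl⟩
    have h2 : ((ρ (⟨γ, hle hγ⟩ : Γ₁)⁻¹ x : Λ.MS Γ₀) : Λ.A → ℂ) = x := congrArg Subtype.val h1
    rw [hρ, inv_inv] at h2
    exact h2
  · rintro ⟨-, hx⟩ - ⟨γ, hγ, rfl⟩
    apply Subtype.ext
    show ((ρ γ x : Λ.MS Γ₀) : Λ.A → ℂ) = x
    rw [hρ]
    exact hx _ (Γ'.inv_mem hγ)

/-- the grading of `M_*(Γ₀)` -/
theorem gr (hρ : HR ρ) (hI : Γ₁ ≤ Λ.I) (h0 : Γ₀ ≤ Γ') (hle : Γ' ≤ Γ₁)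
    (hgr : ∀ g k, ∀ b ∈ Λ.gr Γ₀ k, ρ g b ∈ Λ.gr Γ₀ k)
    (hf : (Γ₀.subgroupOf Γ').index ≠ 0) (hF : Λ.IsFree Γ') : Gr ↥ρ.range (hz Λ Γ₀) where
  mul _ _ _ _ hx hy := hz_mul hx hy
  act g i x hx := by
    obtain ⟨γ, rfl⟩ := ρ.rangeRestrict_surjective g
    refine ⟨fun h => ?_, fun h => hgr γ _ _ (hx.2 h)⟩
    rw [hx.1 h, smul_zero]
  neg _ _ hi hx := hx.1 hi
  zero x hx _ := by
    obtain ⟨c, hc⟩ := f_ZER n Λ Γ' Γ₀ (hle.trans hI) hF h0 hf x.1 (hx.2 le_rfl)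
    exact ⟨c, Subtype.ext hc⟩
  one := hz_nat (k := 0) (GR_thm n Λ Γ₀).1
  top := hz_top
  ind := hz_ind

/-- the ring of the invariants of `Γ'` is `M_*(Γ')` -/
noncomputable def fxEquiv (hρ : HR ρ) (hI : Γ₁ ≤ Λ.I) (h0 : Γ₀ ≤ Γ') (hle : Γ' ≤ Γ₁) :
    ↥(Λ.MS Γ') ≃+* ↥(Fx (KK Γ' ρ) : Subalgebra ℂ ↥(Λ.MS Γ₀)) where
  toFun y := ⟨⟨y.1, HL.MS_mono h0 y.2⟩, (mem_Fx_KK hρ hI hle _).2 y.2⟩
  invFun a := ⟨a.1.1, (mem_Fx_KK hρ hI hle _).1 a.2⟩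
  left_inv _ := rfl
  right_inv _ := rfl
  map_mul' _ _ := rfl
  map_add' _ _ := rfl

theorem freeG_of (hρ : HR ρ) (hI : Γ₁ ≤ Λ.I) (h0 : Γ₀ ≤ Γ') (hle : Γ' ≤ Γ₁)
    (hF : Λ.IsFree Γ') : ∃ (f : Fin (n + 1) → ↥(Λ.MS Γ₀)) (k : Fin (n + 1) → ℤ),
      (∀ i, 0 < k i ∧ f i ∈ hz Λ Γ₀ (k i)) ∧ AlgebraicIndependent ℂ f ∧
        Algebra.adjoin ℂ (Set.range f) = Fx (KK Γ' ρ) := by
  obtain ⟨x, hx, hi, had⟩ := hF
  choose k hk hx using hx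
  have hval : ∀ i, x i ∈ Λ.MS Γ₀ := fun i => HL.MS_mono h0 (hx i).mem_MS
  have hcomp : (Λ.MS Γ₀).val ∘ (fun i => (⟨x i, hval i⟩ : Λ.MS Γ₀)) = x := rfl
  refine ⟨fun i => ⟨x i, hval i⟩, fun i => (k i : ℤ), fun i => ⟨?_, ?_⟩, ?_, ?_⟩
  · show (0 : ℤ) < (k i : ℤ)
    exact_mod_cast hk i
  · exact hz_nat (show Λ.IsMF Γ₀ (k i) (x i) from (hx i).mono h0)
  · rw [← AlgHom.algebraicIndependent_iff (Λ.MS Γ₀).val Subtype.val_injective, hcomp]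
    exact hi
  · apply Subalgebra.map_injective (f := (Λ.MS Γ₀).val) Subtype.val_injective
    rw [AlgHom.map_adjoin, ← Set.range_comp, hcomp, had]
    apply Subalgebra.ext
    intro y
    rw [Subalgebra.mem_map]
    constructor
    · intro hy
      exact ⟨⟨y, HL.MS_mono h0 hy⟩, (mem_Fx_KK hρ hI hle _).2 hy, rfl⟩
    · rintro ⟨a, ha, rfl⟩
      exact (mem_Fx_KK hρ hI hle _).1 ha

theorem free_of (hρ : HR ρ) (hI : Γ₁ ≤ Λ.I) (h0 : Γ₀ ≤ Γ₁)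
    (x : Fin (n + 1) → ↥(Λ.MS Γ₀)) (k : Fin (n + 1) → ℤ)
    (hx : ∀ i, 0 < k i ∧ x i ∈ hz Λ Γ₀ (k i)) (hi : AlgebraicIndependent ℂ x)
    (had : Algebra.adjoin ℂ (Set.range x) = Fx (⊤ : Subgroup ↥ρ.range)) : Λ.IsFree Γ₁ := by
  rw [← KK_top ρ] at had
  have hinv : ∀ i, (x i : Λ.A → ℂ) ∈ Λ.MS Γ₁ := by
    intro i
    have : x i ∈ (Fx (KK Γ₁ ρ) : Subalgebra ℂ ↥(Λ.MS Γ₀)) := by
      rw [← had]
      exact Algebra.subset_adjoin ⟨i, rfl⟩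
    exact (mem_Fx_KK hρ hI le_rfl _).1 this
  refine ⟨fun i => (x i).1, fun i => ⟨(k i).toNat, ?_, ?_⟩, ?_, ?_⟩
  · have := (hx i).1
    omega
  · have h1 : Λ.IsMF Γ₀ (k i).toNat (x i).1 := (hx i).2.2 (hx i).1.le
    refine ⟨h1.hol, h1.hom, fun γ hγ z z' hz => ?_⟩
    have h2 := ((f_INV n Λ Γ₁ hI _).1 (hinv i)).2 γ hγ
    have h3 := congrFun h2 z
    rw [Λ.act_apply (hI hγ)] at h3
    show (x i : Λ.A → ℂ) z' = (x i : Λ.A → ℂ) z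
    rw [← h3]
    exact congrArg (x i : Λ.A → ℂ) (Subtype.ext hz)
  · exact (AlgHom.algebraicIndependent_iff (Λ.MS Γ₀).val Subtype.val_injective).2 hi
  · have h1 : (Set.range fun i => (x i).1) = (Λ.MS Γ₀).val '' Set.range x := by
      rw [← Set.range_comp]
      rfl
    rw [h1, ← AlgHom.map_adjoin, had]
    apply Subalgebra.ext
    intro y
    rw [Subalgebra.mem_map]
    constructor
    · rintro ⟨a, ha, rfl⟩
      exact (mem_Fx_KK hρ hI le_rfl _).1 ha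
    · intro hy
      exact ⟨⟨y, HL.MS_mono h0 hy⟩, (mem_Fx_KK hρ hI le_rfl _).2 hy, rfl⟩

end act

/-- the ideal of the functions which vanish on the mirror -/
def PI (Λ : HL n) (Γ₀ : Subgroup (V n ≃ₗ[ℂ] V n)) (r : V n) : Ideal ↥(Λ.MS Γ₀) where
  carrier := {f | ∀ z : Λ.A, Λ.h z r = 0 → (f : Λ.A → ℂ) z = 0}
  add_mem' := by
    intro a b ha hb z hz
    show (a : Λ.A → ℂ) z + (b : Λ.A → ℂ) z = 0
    rw [ha z hz, hb z hz, add_zero]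
  zero_mem' := fun _ _ => rfl
  smul_mem' := by
    intro c a ha z hz
    show (c : Λ.A → ℂ) z * (a : Λ.A → ℂ) z = 0
    rw [ha z hz, mul_zero]

theorem mem_PI {Γ₀ : Subgroup (V n ≃ₗ[ℂ] V n)} {r : V n} {f : Λ.MS Γ₀} :
    f ∈ PI Λ Γ₀ r ↔ ∀ z : Λ.A, Λ.h z r = 0 → (f : Λ.A → ℂ) z = 0 := Iff.rfl

theorem PI_prime (Γ₀ : Subgroup (V n ≃ₗ[ℂ] V n)) {r : V n} (hr : 0 < (Λ.h r r).re) :
    (PI Λ Γ₀ r).IsPrime := by
  refine ⟨?_, ?_⟩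
  · rw [Ne, Ideal.eq_top_iff_one]
    intro h1
    obtain ⟨z, hz⟩ := THU.exists_mem_mirror Λ hr
    exact one_ne_zero (h1 z hz)
  · intro a b hab
    exact f_DOM n Λ (LinearMap.ker (Λ.hl r)) a b (HL.MS_mono bot_le a.2)
      (HL.MS_mono bot_le b.2) hab

end X4F
end Pool.Agent.RFO
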