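import Mathlib
import Pool.Agent.RFO.X4F

/-!
# Index at most four: the theorem for modular forms (MP_06550c_nt, third series)
-/

set_option autoImplicit false

namespace Pool.Agent.RFO
namespace X4F

open Pool.Agent.MFB

/-- the normal core -/
theorem core {X : Type} [Group X] {Γ Γ₁ : Subgroup X} (hle : Γ ≤ Γ₁)
    (hf : (Γ.subgroupOf Γ₁).index ≠ 0) : ∃ Γ₀ : Subgroup X, Γ₀ ≤ Γ ∧
      (∀ g ∈ Γ₁, ∀ γ ∈ Γ₀, g * γ * g⁻¹ ∈ Γ₀) ∧ (Γ₀.subgroupOf Γ₁).index ≠ 0 := by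
  have hmap : (Γ.subgroupOf Γ₁).map Γ₁.subtype = Γ := Subgroup.map_subgroupOf_eq_of_le hle
  have hfi : (Γ.subgroupOf Γ₁).FiniteIndex := ⟨hf⟩
  refine ⟨(Γ.subgroupOf Γ₁).normalCore.map Γ₁.subtype, ?_, ?_, ?_⟩
  · conv_rhs => rw [← hmap]
    exact Subgroup.map_mono (Subgroup.normalCore_le _)
  · rintro g hg - ⟨γ, hγ, rfl⟩
    exact ⟨⟨g, hg⟩ * γ * ⟨g, hg⟩⁻¹, (Γ.subgroupOf Γ₁).normalCore_normal.conj_mem γ hγ ⟨g, hg⟩, rfl⟩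
  · have h1 : (Γ.subgroupOf Γ₁).normalCore.FiniteIndex := inferInstance
    have h2 : ((Γ.subgroupOf Γ₁).normalCore.map Γ₁.subtype).subgroupOf Γ₁ =
        (Γ.subgroupOf Γ₁).normalCore :=
      Subgroup.comap_map_eq_self_of_injective Subtype.val_injective _
    rw [h2]
    exact h1.index_ne_zero

theorem idx_left {X : Type} [Group X] {H K L : Subgroup X} (h1 : H ≤ K) (h2 : K ≤ L)
    (hf : (H.subgroupOf L).index ≠ 0) : (H.subgroupOf K).index ≠ 0 := by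
  intro h
  apply hf
  have := Subgroup.relIndex_mul_relIndex H K L h1 h2
  rw [Subgroup.relIndex, Subgroup.relIndex, Subgroup.relIndex, h, zero_mul] at this
  exact this.symm

/-- an element outside of a proper subgroup -/
theorem out {X Y : Type} [Group X] [Group Y] {Γ Γ₁ : Subgroup X} (hle : Γ ≤ Γ₁)
    (φ : Γ₁ →* Y) (hφ : Function.Surjective φ) (K : Subgroup Y)
    (hK : (Γ.subgroupOf Γ₁).map φ ≤ K) (P : X → Prop)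
    (hgen : Γ₁ ≤ Subgroup.closure ((Γ : Set X) ∪ {σ | σ ∈ Γ₁ ∧ P σ})) (hne : K ≠ ⊤) :
    ∃ (σ : X) (hσ : σ ∈ Γ₁), P σ ∧ φ ⟨σ, hσ⟩ ∉ K := by
  by_contra hcon
  push Not at hcon
  apply hne
  rw [eq_top_iff]
  intro g _
  obtain ⟨γ, rfl⟩ := hφ g
  have h1 : Subgroup.closure ((Γ : Set X) ∪ {σ | σ ∈ Γ₁ ∧ P σ}) ≤
      (K.comap φ).map Γ₁.subtype := by
    rw [Subgroup.closure_le]
    rintro s (hs | ⟨hs, hs'⟩)
    · exact ⟨⟨s, hle hs⟩, hK ⟨⟨s, hle hs⟩, hs, rfl⟩, rfl⟩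
    · exact ⟨⟨s, hs⟩, hcon s hs hs', rfl⟩
  obtain ⟨γ', hγ', he⟩ := h1 (hgen γ.2)
  have h2 : γ' = γ := Subtype.ext he
  rw [← h2]
  exact hγ'

/-- the theorem for modular forms -/
theorem main (hX4 : S_X4) (n : ℕ) (Λ : HL n) (Γ Γ₁ : Subgroup (V n ≃ₗ[ℂ] V n))
    (hU : Γ₁ ≤ Λ.U) (hle : Γ ≤ Γ₁) (hfin : (Γ.subgroupOf Λ.U).index ≠ 0) (hF : Λ.IsFree Γ)
    (hgen : Γ₁ ≤ Subgroup.closure ((Γ : Set (V n ≃ₗ[ℂ] V n)) ∪ {σ | σ ∈ Γ₁ ∧ Λ.IsRefl σ}))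
    (h4 : (Γ.subgroupOf Γ₁).index ≤ 4) : Λ.IsFree Γ₁ := by
  have hI : Γ₁ ≤ Λ.I := hU.trans Λ.U_le_I
  have hfin1 : (Γ.subgroupOf Γ₁).index ≠ 0 := idx_left hle hU hfin
  -- the core
  obtain ⟨Γ₀, h0, hnm, h0f⟩ := core hle hfin1
  have h01 : Γ₀ ≤ Γ₁ := h0.trans hle
  have h0f' : (Γ₀.subgroupOf Γ).index ≠ 0 := idx_left h0 hle h0f
  obtain ⟨ρ, hρ, hρf, hρg, -⟩ := f_RHO n Λ Γ₀ Γ₁ hI h01 hnm
  have hρ' : HR ρ := hρ
  haveI : Finite ρ.range := hρf h0f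
  haveI := isDomain Λ Γ₀
  have hgr : Gr ↥ρ.range (hz Λ Γ₀) := gr hρ' hI h0 hle hρg h0f' hF
  -- the factorial algebras
  obtain ⟨-, hufm1, hmir⟩ := f_THU n Λ Γ Γ₁ hU hle hfin hF hgen
  have hufm := (UFR_thm n Λ Γ hF).1
  have hA : UniqueFactorizationMonoid
      ↥(Fx (⊤ : Subgroup ↥ρ.range) : Subalgebra ℂ ↥(Λ.MS Γ₀)) := by
    rw [← KK_top ρ]
    exact (fxEquiv hρ' hI h01 le_rfl).toMulEquiv.uniqueFactorizationMonoid hufm1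
  have hR : UniqueFactorizationMonoid ↥(Fx (KK Γ ρ) : Subalgebra ℂ ↥(Λ.MS Γ₀)) :=
    (fxEquiv hρ' hI h0 hle).toMulEquiv.uniqueFactorizationMonoid hufm
  -- the index
  have hidx : (KK Γ ρ).index ≤ 4 :=
    (Nat.le_of_dvd (Nat.pos_of_ne_zero hfin1)
      (Subgroup.index_map_dvd _ ρ.rangeRestrict_surjective)).trans h4
  have hFR : FR (hz Λ Γ₀) (KK Γ ρ) := by
    refine hX4 ↥ρ.range ↥(Λ.MS Γ₀) (hz Λ Γ₀) hgr (KK Γ ρ) hidx hA hR ?_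
    intro hne
    -- a reflection whose image is not in the subgroup
    obtain ⟨σ, hσ, hσr, hσK⟩ := out hle ρ.rangeRestrict ρ.rangeRestrict_surjective (KK Γ ρ) le_rfl
      Λ.IsRefl hgen hne
    obtain ⟨-, r, ε, hr, -, -, hσe⟩ := hσr
    obtain ⟨p, hp⟩ := hmir r hr
    refine ⟨ρ.rangeRestrict ⟨σ, hσ⟩, PI Λ Γ₀ r, ⟨⟨p.1, HL.MS_mono h01 p.2⟩, ?_⟩,
      PI_prime Γ₀ hr, hσK, ?_, ?_⟩
    · rw [← KK_top ρ]
      exact (mem_Fx_KK hρ' hI le_rfl _).2 p.2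
    · intro x z hz
      show ((ρ ⟨σ, hσ⟩ x : Λ.MS Γ₀) : Λ.A → ℂ) z - (x : Λ.A → ℂ) z = 0
      rw [hρ, Subgroup.coe_inv, Λ.act_apply (hI (Γ₁.inv_mem hσ)), sub_eq_zero]
      refine congrArg (x : Λ.A → ℂ) (Subtype.ext ?_)
      show (σ⁻¹ : V n ≃ₗ[ℂ] V n) (z : V n) = z
      have h1 : σ (z : V n) = z := by
        rw [hσe, hz, zero_div, mul_zero, zero_smul, sub_zero]
      conv_lhs => rw [← h1]
      exact σ.symm_apply_apply _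
    · rintro ⟨q, hq⟩
      have hq' : (q : Λ.A → ℂ) ∈ Λ.MS Γ₁ := by
        rw [← KK_top ρ] at hq
        exact (mem_Fx_KK hρ' hI le_rfl _).1 hq
      have h1 := hp ⟨q, hq'⟩
      constructor
      · intro h
        obtain ⟨c, hc⟩ := h1.1 h
        refine ⟨⟨⟨c.1, HL.MS_mono h01 c.2⟩, ?_⟩, ?_⟩
        · rw [← KK_top ρ]
          exact (mem_Fx_KK hρ' hI le_rfl _).2 c.2
        · apply Subtype.ext
          apply Subtype.ext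
          exact congrArg (fun x : Λ.MS Γ₁ => (x : Λ.A → ℂ)) hc
      · rintro ⟨c, hc⟩ z hz
        have h2 : (q : Λ.A → ℂ) z = (p : Λ.A → ℂ) z * (c.1 : Λ.A → ℂ) z :=
          congrFun (congrArg (fun x => x.1.1) hc) z
        show (q : Λ.A → ℂ) z = 0
        rw [h2, (hp p).2 dvd_rfl z hz, zero_mul]
  -- the conclusion
  obtain ⟨f, k, hf, hfi, hfa⟩ := freeG_of hρ' hI h0 hle hF
  obtain ⟨m, y, l, hy, hyi, hya⟩ := GLUE_thm CH2_thm ↥ρ.range ↥(Λ.MS Γ₀) (hz Λ Γ₀) hgr (KK Γ ρ) hFR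
    ⟨n + 1, f, k, hf, hfi, hfa⟩
  have hm := CRD_thm ↥ρ.range ↥(Λ.MS Γ₀) (⊤ : Subgroup ↥ρ.range) (KK Γ ρ) m (n + 1) y f hyi hya
    hfi hfa
  subst hm
  exact free_of hρ' hI h01 y l hy hyi hya

end X4F
end Pool.Agent.RFO
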